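import Pool.Agent.P8H14.QP.B6

set_option autoImplicit false

/-!
# The mean square over the primitive characters
-/

open Complex Filter Topology MeasureTheory Metric Finset
open scoped Real FourierTransform

namespace Pool.Agent.P8H14.QP

open Pool.Agent.Helper112 (ee)
open Pool.Agent.W66 Pool.Agent.W66L
open Pool.Agent.H373R2.T7 (liR liR_norm)
open Pool.Agent.TH823.PS (gen rr EE ls_bb)

lemma PE_tri_cont (h : ℝ) (F : ℕ) (L : Finset ℕ) (c : ℕ → ℂ) : Continuous (PE (triC h) F L c) := by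
  unfold PE
  apply continuous_finsetSum
  intro r _
  apply Continuous.mul continuous_const
  apply continuous_finsetSum
  intro ψ _
  exact (ggC_continuous h L _).norm.pow 2

lemma card_pr (r : ℕ) [NeZero r] : ((pr r).card : ℝ) ≤ r.totient := by
  have h1 : (pr r).card ≤ Fintype.card (DirichletCharacter ℂ r) := Finset.card_le_univ _
  have h2 : Fintype.card (DirichletCharacter ℂ r) = r.totient := by
    rw [← Nat.card_eq_fintype_card]
    exact DirichletCharacter.card_eq_totient_of_hasEnoughRootsOfUnity ℂ r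
  rw [h2] at h1
  exact_mod_cast h1

/-- sum over the characters of a bounded quantity -/
lemma sum_pr_le (F : ℕ) (X : (r : ℕ) → DirichletCharacter ℂ r → ℝ) {a b : ℝ} (ha : 0 ≤ a) (hb : 0 ≤ b)
    (hX : ∀ r ∈ Icc 1 F, ∀ ψ ∈ pr r, X r ψ ≤ a + if r = 1 then b else 0) :
    ∑ r ∈ Icc 1 F, ((r : ℝ) / r.totient) * ∑ ψ ∈ pr r, X r ψ ≤ (F : ℝ) ^ 2 * a + b := by
  have h1 : ∀ r ∈ Icc 1 F, ((r : ℝ) / r.totient) * ∑ ψ ∈ pr r, X r ψ ≤ F * a + if r = 1 then b else 0 := by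
    intro r hr
    have hr' := hr
    rw [mem_Icc] at hr
    haveI : NeZero r := ⟨by omega⟩
    have hφ : (0 : ℝ) < r.totient := by exact_mod_cast Nat.totient_pos.2 hr.1
    have hc := card_pr r
    have h2 : ∑ ψ ∈ pr r, X r ψ ≤ r.totient * (a + if r = 1 then b else 0) := by
      refine (sum_le_sum (hX r hr')).trans ?_
      rw [sum_const, nsmul_eq_mul]
      have : 0 ≤ a + if r = 1 then b else 0 := by split_ifs <;> linarith
      exact mul_le_mul_of_nonneg_right hc this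
    have hrF : (r : ℝ) ≤ F := by exact_mod_cast hr.2
    calc ((r : ℝ) / r.totient) * ∑ ψ ∈ pr r, X r ψ
        ≤ ((r : ℝ) / r.totient) * (r.totient * (a + if r = 1 then b else 0)) := by gcongr
      _ = r * a + r * (if r = 1 then b else 0) := by field_simp
      _ ≤ F * a + if r = 1 then b else 0 := by
          apply add_le_add (by gcongr)
          split_ifs with hc
          · rw [hc]; simp
          · simp
  refine (sum_le_sum h1).trans ?_
  rw [sum_add_distrib, sum_const, Nat.card_Icc, nsmul_eq_mul]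
  have h3 : ∑ r ∈ Icc 1 F, (if r = 1 then b else 0) ≤ b := by
    rw [sum_ite_eq' (Icc 1 F) 1]
    split_ifs <;> linarith
  have h4 : ((F + 1 - 1 : ℕ) : ℝ) * (F * a) = (F : ℝ) ^ 2 * a := by
    rw [Nat.add_sub_cancel]
    ring
  linarith

lemma pr_ne_one {r : ℕ} (hr : r ≠ 1) {ψ : DirichletCharacter ℂ r} (hψ : ψ ∈ pr r) (hr0 : r ≠ 0) : ψ ≠ 1 := by
  rintro rfl
  rw [mem_pr] at hψ
  haveI : NeZero r := ⟨hr0⟩
  unfold DirichletCharacter.IsPrimitive at hψ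
  rw [DirichletCharacter.conductor_one] at hψ
  exact hr hψ.symm

/-- the large sieve for the second factor -/
lemma bb_all {F w N : ℕ} {h : ℝ} (hh : 0 < h) (hh1 : h ≤ 1) (hN : 1 ≤ N)
    (hLS : (1 + (F : ℝ) ^ 2) / h ≤ w) :
    ∑ r ∈ Icc 1 F, ((r : ℝ) / r.totient) * ∑ ψ ∈ pr r, ∫ x, ‖bbC h (Ioc 0 N) (awc ψ w) x‖ ^ 2 ≤
      96 * (1 + Real.log N) ^ 4 := by
  have hint : ∀ c : ℕ → ℂ, Integrable fun x => ‖bbC h (Ioc 0 N) c x‖ ^ 2 := fun c =>
    Pool.Agent.TH823.PS.bbC_sq_integrable h _ c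
  have h1 : ∑ r ∈ Icc 1 F, ((r : ℝ) / r.totient) * ∑ ψ ∈ pr r, ∫ x, ‖bbC h (Ioc 0 N) (awc ψ w) x‖ ^ 2 =
      ∫ x, PE (boxC h) F (Ioc 0 N) (fun l => ((aw w l / l : ℝ) : ℂ)) x := by
    have e0 : PE (boxC h) F (Ioc 0 N) (fun l => ((aw w l / l : ℝ) : ℂ)) = fun x =>
        ∑ r ∈ Icc 1 F, ((r : ℝ) / r.totient) * ∑ ψ ∈ pr r, ‖bbC h (Ioc 0 N) (awc ψ w) x‖ ^ 2 := rfl
    rw [e0]
    rw [integral_finsetSum _ (fun r _ => Integrable.const_mul (integrable_finsetSum _ fun ψ _ => hint _) _)]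
    apply sum_congr rfl
    intro r _
    rw [integral_const_mul, integral_finsetSum _ (fun ψ _ => hint _)]
  have h2 : ∫ x, PE (boxC h) F (Ioc 0 N) (fun l => ((aw w l / l : ℝ) : ℂ)) x ≤
      ∫ x, ∑ q ∈ Icc 1 F, ∑ a ∈ rr q,
        ‖bbC h (Ioc 0 N) (fun n => ((aw w n / n : ℝ) : ℂ) * ee (n * a / q)) x‖ ^ 2 := by
    apply integral_mono
    · unfold PE
      exact integrable_finsetSum _ fun r _ => Integrable.const_mul (integrable_finsetSum _ fun ψ _ => hint _) _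
    · exact integrable_finsetSum _ fun q _ => integrable_finsetSum _ fun a _ => hint _
    · intro x
      exact PE_le (boxC h) F (Ioc 0 N) (fun n hn => (mem_Ioc.1 hn).1) _ x
  rw [h1]
  refine h2.trans ?_
  rw [integral_finsetSum _ (fun q _ => integrable_finsetSum _ fun a _ => hint _)]
  have h3 : ∑ q ∈ Icc 1 F, ∫ x, ∑ a ∈ rr q,
      ‖bbC h (Ioc 0 N) (fun n => ((aw w n / n : ℝ) : ℂ) * ee (n * a / q)) x‖ ^ 2 =
      ∑ q ∈ Icc 1 F, ∑ a ∈ rr q, ∫ x,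
        ‖bbC h (Ioc 0 N) (fun n => ((aw w n / n : ℝ) : ℂ) * ee (n * a / q)) x‖ ^ 2 := by
    apply sum_congr rfl
    intro q _
    rw [integral_finsetSum _ (fun a _ => hint _)]
  rw [h3]
  refine (ls_bb F (Ioc 0 N) (fun n hn => (mem_Ioc.1 hn).1) _ hh hh1).trans ?_
  have h4 : ∀ n ∈ Ioc 0 N, 6 * (15 * (n : ℝ) + (1 + (F : ℝ) ^ 2) / h) * ‖((aw w n / n : ℝ) : ℂ)‖ ^ 2 ≤
      96 * ((n : ℝ) * (aw w n / n) ^ 2) := by
    intro n hn
    rw [mem_Ioc] at hn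
    rw [Complex.norm_real, Real.norm_eq_abs, sq_abs]
    by_cases hc : n ≤ w
    · rw [aw_zero_of hn.1 hc]
      simp
    · rw [not_le] at hc
      have h5 : (w : ℝ) ≤ n := by exact_mod_cast hc.le
      have h6 : 6 * (15 * (n : ℝ) + (1 + (F : ℝ) ^ 2) / h) ≤ 96 * n := by linarith
      calc _ ≤ 96 * (n : ℝ) * (aw w n / n) ^ 2 := by gcongr
        _ = _ := by ring
  refine (sum_le_sum h4).trans ?_
  rw [← mul_sum]
  have := aw_sum w N hN
  gcongr

/-- **the mean square over the primitive characters** -/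
theorem PE_int {F w N u0 U : ℕ} {h x1 x2 M e0 e1 : ℝ} (hh : 0 < h) (hh1 : h ≤ 1) (hw : 1 ≤ w)
    (hLS : (1 + (F : ℝ) ^ 2) / h ≤ w) (hu : u0 ≤ U) (hx1 : Real.log w + u0 + 2 ≤ x1)
    (hx12 : x1 ≤ x2) (hU : x2 + h ≤ U) (hN : Real.exp (U + 1) ≤ N) (hM0 : 0 ≤ M)
    (hM : ∀ u ∈ Icc u0 U, ∀ r ∈ Icc 1 F, ∀ ψ ∈ pr r, ∀ ξ : ℝ,
      ‖GX (la ψ) (u : ℝ) (2 * π * ξ)‖ * ‖𝓕 (boxC h) ξ‖ ≤ M) 
    (ha : 1 / h * Real.exp (-(x1 - 1) / 2) * (1 + Real.log N) * w ≤ e0)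
    (hb : (1 + (u0 : ℝ)) * (w * (F * (12 * Real.exp (u0 - x1) / h ^ 2))) ≤ e0)
    (hc : (1 + (u0 : ℝ)) * (|mz w| + w * (32 * Real.exp (u0 - x1) / h ^ 2)) ≤ e1) :
    ∫ x in Set.Icc x1 x2, PE (triC h) F (Ioc 0 N) (fun n => liR n / n) x ≤
      (x2 - x1) * (6 * (F : ℝ) ^ 2 * e0 ^ 2 + 3 * e1 ^ 2) +
        3 * ((U : ℝ) + 1) ^ 2 * M ^ 2 * (96 * (1 + Real.log N) ^ 4) := by
  have hN0 : (0 : ℝ) < N := lt_of_lt_of_le (Real.exp_pos _) hN
  have hN1 : 1 ≤ N := by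
    have : 0 < N := by exact_mod_cast hN0
    omega
  have hlw : 0 ≤ Real.log w := Real.log_nonneg (by exact_mod_cast hw)
  have hlN : 0 ≤ Real.log N := Real.log_natCast_nonneg N
  set FGs : (r : ℕ) → DirichletCharacter ℂ r → ℕ → ℝ → ℂ := fun r ψ u x =>
    FG (la ψ) (u : ℝ) h N (Ioc 0 N) (awc ψ w) x with hFGs
  -- the pointwise bound
  have hpt : ∀ x ∈ Set.Icc x1 x2, PE (triC h) F (Ioc 0 N) (fun n => liR n / n) x ≤
      (6 * (F : ℝ) ^ 2 * e0 ^ 2 + 3 * e1 ^ 2) +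
      ∑ r ∈ Icc 1 F, ((r : ℝ) / r.totient) * ∑ ψ ∈ pr r, 3 * (((U : ℝ) + 1) * ∑ u ∈ Icc u0 U, ‖FGs r ψ u x‖ ^ 2) := by
    intro x hx
    have hexp : Real.exp (x + h) ≤ N := by
      refine le_trans (Real.exp_le_exp.2 ?_) hN
      linarith [hx.2]
    have hterm : ∀ r ∈ Icc 1 F, ∀ ψ ∈ pr r,
        ‖gen (triC h) (Ioc 0 N) (fun n => liR n / n * ψ (n : ZMod r)) x‖ ^ 2 ≤
        (6 * e0 ^ 2 + if r = 1 then 3 * e1 ^ 2 else 0) +
          3 * (((U : ℝ) + 1) * ∑ u ∈ Icc u0 U, ‖FGs r ψ u x‖ ^ 2) := by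
      intro r hr ψ hψ
      rw [mem_Icc] at hr
      haveI : NeZero r := ⟨by omega⟩
      have h1 : gen (triC h) (Ioc 0 N) (fun n => liR n / n * ψ (n : ZMod r)) x = SX ψ h N x := rfl
      rw [h1, SX_decomp ψ w hh N hexp u0 U hu (by linarith [hx.2])]
      have hTA : ‖TA ψ w h N x‖ ≤ e0 := by
        refine (TA_bound ψ w hh hh1 N hN1).trans (le_trans ?_ ha)
        have : Real.exp (-(x - 1) / 2) ≤ Real.exp (-(x1 - 1) / 2) := Real.exp_le_exp.2 (by linarith [hx.1])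
        gcongr
      have hTS : ‖TS ψ w u0 h N x‖ ^ 2 ≤ e0 ^ 2 + if r = 1 then e1 ^ 2 else 0 := by
        by_cases hr1 : r = 1
        · subst hr1
          rw [if_pos rfl]
          have h2 : ‖TS ψ w u0 h N x‖ ≤ e1 := by
            refine (TS_bound ψ w u0 h N x (G := |mz w| + w * (32 * Real.exp (u0 - x1) / h ^ 2))
              (by positivity) ?_).trans hc
            intro v hv1 hv2
            refine (gg_triv ψ hh hh1 w N hw (by linarith [hx.1])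
              (le_trans (Real.exp_le_exp.2 (by linarith)) hexp)).trans ?_
            have : Real.exp (-v) ≤ Real.exp (u0 - x1) := Real.exp_le_exp.2 (by linarith [hx.1])
            gcongr
          have h3 : ‖TS ψ w u0 h N x‖ ^ 2 ≤ e1 ^ 2 := pow_le_pow_left₀ (norm_nonneg _) h2 2
          nlinarith [sq_nonneg e0]
        · rw [if_neg hr1, add_zero]
          have h2 : ‖TS ψ w u0 h N x‖ ≤ e0 := by
            refine (TS_bound ψ w u0 h N x (G := w * (F * (12 * Real.exp (u0 - x1) / h ^ 2)))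
              (by positivity) ?_).trans hb
            intro v hv1 hv2
            refine (gg_char (pr_ne_one hr1 hψ (by omega)) hh hh1 w N hw (by linarith [hx.1])
              (le_trans (Real.exp_le_exp.2 (by linarith)) hexp)).trans ?_
            have h4 : Real.exp (-v) ≤ Real.exp (u0 - x1) := Real.exp_le_exp.2 (by linarith [hx.1])
            have h5 : (r : ℝ) ≤ F := by exact_mod_cast hr.2
            gcongr
          exact pow_le_pow_left₀ (norm_nonneg _) h2 2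
      have hFG : ‖∑ u ∈ Icc u0 U, FG (la ψ) (u : ℝ) h N (Ioc 0 N) (awc ψ w) x‖ ^ 2 ≤
          ((U : ℝ) + 1) * ∑ u ∈ Icc u0 U, ‖FGs r ψ u x‖ ^ 2 := by
        have h2 : ‖∑ u ∈ Icc u0 U, FG (la ψ) (u : ℝ) h N (Ioc 0 N) (awc ψ w) x‖ ≤
            ∑ u ∈ Icc u0 U, ‖FGs r ψ u x‖ := norm_sum_le _ _
        have h3 := sum_sq_le (Icc u0 U) (fun u => ‖FGs r ψ u x‖)
        have h4 : ((Icc u0 U).card : ℝ) ≤ (U : ℝ) + 1 := by
          rw [Nat.card_Icc]
          have : U + 1 - u0 ≤ U + 1 := Nat.sub_le _ _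
          exact_mod_cast this
        calc _ ≤ (∑ u ∈ Icc u0 U, ‖FGs r ψ u x‖) ^ 2 := pow_le_pow_left₀ (norm_nonneg _) h2 2
          _ ≤ _ := h3
          _ ≤ _ := by
              apply mul_le_mul_of_nonneg_right h4
              exact sum_nonneg fun u _ => by positivity
      have htri : ‖TA ψ w h N x + TS ψ w u0 h N x +
          ∑ u ∈ Icc u0 U, FG (la ψ) (u : ℝ) h N (Ioc 0 N) (awc ψ w) x‖ ≤
          ‖TA ψ w h N x‖ + ‖TS ψ w u0 h N x‖ +
            ‖∑ u ∈ Icc u0 U, FG (la ψ) (u : ℝ) h N (Ioc 0 N) (awc ψ w) x‖ := norm_add₃_le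
      have hTA2 : ‖TA ψ w h N x‖ ^ 2 ≤ e0 ^ 2 := pow_le_pow_left₀ (norm_nonneg _) hTA 2
      have h7 : (‖TA ψ w h N x‖ + ‖TS ψ w u0 h N x‖ +
            ‖∑ u ∈ Icc u0 U, FG (la ψ) (u : ℝ) h N (Ioc 0 N) (awc ψ w) x‖) ^ 2 ≤
          3 * (‖TA ψ w h N x‖ ^ 2 + ‖TS ψ w u0 h N x‖ ^ 2 +
            ‖∑ u ∈ Icc u0 U, FG (la ψ) (u : ℝ) h N (Ioc 0 N) (awc ψ w) x‖ ^ 2) := by
        generalize ‖TA ψ w h N x‖ = a
        generalize ‖TS ψ w u0 h N x‖ = b
        generalize ‖∑ u ∈ Icc u0 U, FG (la ψ) (u : ℝ) h N (Ioc 0 N) (awc ψ w) x‖ = c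
        nlinarith [sq_nonneg (a - b), sq_nonneg (b - c), sq_nonneg (a - c)]
      have h8 := (pow_le_pow_left₀ (norm_nonneg _) htri 2).trans h7
      have h9 : 3 * (if r = 1 then e1 ^ 2 else 0) = if r = 1 then 3 * e1 ^ 2 else 0 := by
        split_ifs <;> ring
      linarith
    have h1 : PE (triC h) F (Ioc 0 N) (fun n => liR n / n) x ≤
        ∑ r ∈ Icc 1 F, ((r : ℝ) / r.totient) * ∑ ψ ∈ pr r, ((6 * e0 ^ 2 + if r = 1 then 3 * e1 ^ 2 else 0) +
          3 * (((U : ℝ) + 1) * ∑ u ∈ Icc u0 U, ‖FGs r ψ u x‖ ^ 2)) := by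
      unfold PE
      apply sum_le_sum
      intro r hr
      apply mul_le_mul_of_nonneg_left _ (by positivity)
      exact sum_le_sum fun ψ hψ => hterm r hr ψ hψ
    refine h1.trans ?_
    have h2 := sum_pr_le F (fun r _ => 6 * e0 ^ 2 + if r = 1 then 3 * e1 ^ 2 else 0)
      (a := 6 * e0 ^ 2) (b := 3 * e1 ^ 2) (by positivity) (by positivity) (fun r _ ψ _ => le_rfl)
    have h3 : ∑ r ∈ Icc 1 F, ((r : ℝ) / r.totient) * ∑ ψ ∈ pr r, ((6 * e0 ^ 2 + if r = 1 then 3 * e1 ^ 2 else 0) +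
          3 * (((U : ℝ) + 1) * ∑ u ∈ Icc u0 U, ‖FGs r ψ u x‖ ^ 2)) =
        ∑ r ∈ Icc 1 F, ((r : ℝ) / r.totient) * ∑ _ψ ∈ pr r, (6 * e0 ^ 2 + if r = 1 then 3 * e1 ^ 2 else 0) +
        ∑ r ∈ Icc 1 F, ((r : ℝ) / r.totient) * ∑ ψ ∈ pr r,
          3 * (((U : ℝ) + 1) * ∑ u ∈ Icc u0 U, ‖FGs r ψ u x‖ ^ 2) := by
      rw [← sum_add_distrib]
      apply sum_congr rfl
      intro r _
      rw [sum_add_distrib, mul_add]
    rw [h3]
    linarith
  -- integrability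
  have hFGi : ∀ (r : ℕ) (ψ : DirichletCharacter ℂ r) (u : ℕ), Integrable fun x => ‖FGs r ψ u x‖ ^ 2 := fun r ψ u =>
    FG_sq_integrable (la ψ) hh (u : ℝ) N (Ioc 0 N) (awc ψ w)
  set G : ℝ → ℝ := fun x => ∑ r ∈ Icc 1 F, ((r : ℝ) / r.totient) * ∑ ψ ∈ pr r,
    3 * (((U : ℝ) + 1) * ∑ u ∈ Icc u0 U, ‖FGs r ψ u x‖ ^ 2) with hG
  have hGi : Integrable G := by
    apply integrable_finsetSum
    intro r _
    apply Integrable.const_mul
    apply integrable_finsetSum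
    intro ψ _
    apply Integrable.const_mul
    apply Integrable.const_mul
    exact integrable_finsetSum _ fun u _ => hFGi r ψ u
  have hG0 : ∀ x, 0 ≤ G x := by
    intro x
    apply sum_nonneg
    intro r _
    apply mul_nonneg (by positivity)
    apply sum_nonneg
    intro ψ _
    have : 0 ≤ ∑ u ∈ Icc u0 U, ‖FGs r ψ u x‖ ^ 2 := sum_nonneg fun u _ => by positivity
    positivity
  have hI1 : ∫ x in Set.Icc x1 x2, PE (triC h) F (Ioc 0 N) (fun n => liR n / n) x ≤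
      ∫ x in Set.Icc x1 x2, ((6 * (F : ℝ) ^ 2 * e0 ^ 2 + 3 * e1 ^ 2) + G x) := by
    apply setIntegral_mono_on
    · exact ((PE_tri_cont h F _ _).continuousOn).integrableOn_compact isCompact_Icc
    · apply Integrable.add
      · exact (continuous_const.continuousOn).integrableOn_compact isCompact_Icc
      · exact hGi.integrableOn
    · exact measurableSet_Icc
    · exact hpt
  refine hI1.trans ?_
  rw [integral_add ((continuous_const.continuousOn).integrableOn_compact isCompact_Icc) hGi.integrableOn]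
  have hI2 : ∫ x in Set.Icc x1 x2, (6 * (F : ℝ) ^ 2 * e0 ^ 2 + 3 * e1 ^ 2) =
      (x2 - x1) * (6 * (F : ℝ) ^ 2 * e0 ^ 2 + 3 * e1 ^ 2) := by
    rw [setIntegral_const, smul_eq_mul, Real.volume_real_Icc_of_le hx12]
  rw [hI2]
  have hI3 : ∫ x in Set.Icc x1 x2, G x ≤ ∫ x, G x :=
    setIntegral_le_integral hGi (Eventually.of_forall hG0)
  have hI4 : ∫ x, G x ≤ 3 * ((U : ℝ) + 1) ^ 2 * M ^ 2 * (96 * (1 + Real.log N) ^ 4) := by
    have e1' : ∫ x, G x = ∑ r ∈ Icc 1 F, ((r : ℝ) / r.totient) * ∑ ψ ∈ pr r,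
        3 * (((U : ℝ) + 1) * ∑ u ∈ Icc u0 U, ∫ x, ‖FGs r ψ u x‖ ^ 2) := by
      rw [hG]
      rw [integral_finsetSum _ (fun r _ => Integrable.const_mul (integrable_finsetSum _ fun ψ _ =>
        Integrable.const_mul (Integrable.const_mul (integrable_finsetSum _ fun u _ => hFGi r ψ u) _) _) _)]
      apply sum_congr rfl
      intro r _
      rw [integral_const_mul, integral_finsetSum _ (fun ψ _ =>
        Integrable.const_mul (Integrable.const_mul (integrable_finsetSum _ fun u _ => hFGi r ψ u) _) _)]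
      congr 1
      apply sum_congr rfl
      intro ψ _
      rw [integral_const_mul, integral_const_mul, integral_finsetSum _ (fun u _ => hFGi r ψ u)]
    rw [e1']
    have e2' : ∀ r ∈ Icc 1 F, ((r : ℝ) / r.totient) * ∑ ψ ∈ pr r,
        3 * (((U : ℝ) + 1) * ∑ u ∈ Icc u0 U, ∫ x, ‖FGs r ψ u x‖ ^ 2) ≤
        3 * ((U : ℝ) + 1) ^ 2 * M ^ 2 * (((r : ℝ) / r.totient) * ∑ ψ ∈ pr r,
          ∫ x, ‖bbC h (Ioc 0 N) (awc ψ w) x‖ ^ 2) := by
      intro r hr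
      have e3' : ∀ ψ ∈ pr r, 3 * (((U : ℝ) + 1) * ∑ u ∈ Icc u0 U, ∫ x, ‖FGs r ψ u x‖ ^ 2) ≤
          3 * ((U : ℝ) + 1) ^ 2 * M ^ 2 * ∫ x, ‖bbC h (Ioc 0 N) (awc ψ w) x‖ ^ 2 := by
        intro ψ hψ
        have hB0 : 0 ≤ ∫ x, ‖bbC h (Ioc 0 N) (awc ψ w) x‖ ^ 2 := integral_nonneg fun x => by positivity
        have e4' : ∑ u ∈ Icc u0 U, ∫ x, ‖FGs r ψ u x‖ ^ 2 ≤
            ((U : ℝ) + 1) * (M ^ 2 * ∫ x, ‖bbC h (Ioc 0 N) (awc ψ w) x‖ ^ 2) := by
          have : ∀ u ∈ Icc u0 U, ∫ x, ‖FGs r ψ u x‖ ^ 2 ≤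
              M ^ 2 * ∫ x, ‖bbC h (Ioc 0 N) (awc ψ w) x‖ ^ 2 := by
            intro u hu'
            apply dispersionG (la ψ) hh N _ _ _ hM0 (hM u hu' r hr ψ hψ)
            refine le_trans (Real.exp_le_exp.2 ?_) hN
            have : (u : ℝ) ≤ U := by exact_mod_cast (mem_Icc.1 hu').2
            linarith
          refine (sum_le_sum this).trans ?_
          rw [sum_const, nsmul_eq_mul]
          have h4 : ((Icc u0 U).card : ℝ) ≤ (U : ℝ) + 1 := by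
            rw [Nat.card_Icc]
            have : U + 1 - u0 ≤ U + 1 := Nat.sub_le _ _
            exact_mod_cast this
          gcongr
        calc _ ≤ 3 * (((U : ℝ) + 1) * (((U : ℝ) + 1) * (M ^ 2 * ∫ x, ‖bbC h (Ioc 0 N) (awc ψ w) x‖ ^ 2))) := by
              gcongr
          _ = _ := by ring
      calc _ ≤ ((r : ℝ) / r.totient) * ∑ ψ ∈ pr r,
            3 * ((U : ℝ) + 1) ^ 2 * M ^ 2 * ∫ x, ‖bbC h (Ioc 0 N) (awc ψ w) x‖ ^ 2 :=
            mul_le_mul_of_nonneg_left (sum_le_sum e3') (by positivity)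
        _ = _ := by rw [← mul_sum]; ring
    refine (sum_le_sum e2').trans ?_
    rw [← mul_sum]
    have := bb_all hh hh1 hN1 hLS
    gcongr
  linarith

end Pool.Agent.P8H14.QP
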