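import Pool.Agent.P8H14.QP.D1

set_option autoImplicit false

/-!
# Very few exceptional lengths: final form
-/

open Finset Filter Topology

namespace Pool.Agent.P8H14.QP.Len

open Pool.Agent.TH893.CL
open Pool.Agent.TH823.PS (Most most_mono energy_one)
open Pool.Agent.TH823.PS.Len (PlusT MinusT bad_le lr lr_pm exI_liR Ok plus_of minus_of num_eq energy_affine Half half_core)
open Pool.Agent.H373R2.T7 (exI energy liR)
open Pool.Agent.P8H14.QP

lemma sav_mul (c c' : ℝ) (N : ℕ) : sav c N * sav c' N = sav (c + c') N := by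
  unfold sav
  rw [← Real.exp_add]
  congr 1
  ring

lemma sav_one_le {c : ℝ} (hc : 0 ≤ c) {N : ℕ} (hN : 16 ≤ N) : 1 ≤ sav c N := by
  have h := sav_mono hc hN
  have h0 : sav 0 N = 1 := by unfold sav; simp
  linarith

/-- the saving beats powers of the logarithm -/
lemma sav_log {c : ℝ} (hc : 0 < c) (K : ℕ) (M : ℝ) : ∃ N₀ : ℕ, 16 ≤ N₀ ∧ ∀ N : ℕ, N₀ ≤ N →
    M * Real.log N ^ K ≤ sav c N := by
  obtain ⟨t0, ht0, hev⟩ := ev_t 1 (32 * c / (K + 1)) (|M| + 3) (by positivity)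
  obtain ⟨N₁, hN₁⟩ := log_ev t0
  refine ⟨max N₁ 16, le_max_right _ _, fun N hN => ?_⟩
  have h1 := hN₁ N ((le_max_left _ _).trans hN)
  obtain ⟨-, h2, h3⟩ := hev _ h1
  set t : ℝ := Real.log N with ht
  have ht3 : 3 ≤ t := by
    have := abs_nonneg M
    linarith
  have htp : 0 < t := by linarith
  have hl1 : 1 ≤ Real.log t := by
    rw [Real.le_log_iff_exp_le htp]
    have := Real.exp_one_lt_d9
    linarith
  have h4 : ((K : ℝ) + 1) * Real.log t ≤ c * t / Real.log t := by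
    rw [le_div_iff₀ (by linarith)]
    have h5 : 32 * c / ((K : ℝ) + 1) * t * ((K : ℝ) + 1) = 32 * (c * t) := by field_simp
    have h6 : 32 * Real.log t ^ 2 * ((K : ℝ) + 1) ≤ 32 * c / ((K : ℝ) + 1) * t * ((K : ℝ) + 1) :=
      mul_le_mul_of_nonneg_right h2 (by positivity)
    have h7 : 32 * Real.log t ^ 2 * ((K : ℝ) + 1) = 32 * (((K : ℝ) + 1) * Real.log t * Real.log t) := by ring
    linarith
  have h5 : t ^ (K + 1) ≤ sav c N := by
    have h6 : t ^ (K + 1) = Real.exp (((K : ℝ) + 1) * Real.log t) := by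
      have : ((K : ℝ) + 1) = ((K + 1 : ℕ) : ℝ) := by push_cast; ring
      rw [this, Real.exp_nat_mul, Real.exp_log htp]
    rw [h6]
    unfold sav
    exact Real.exp_le_exp.2 h4
  calc M * t ^ K ≤ t * t ^ K := by
        gcongr
        linarith [le_abs_self M]
    _ = t ^ (K + 1) := by rw [pow_succ]; ring
    _ ≤ _ := h5

/-- part 1 -/
lemma part1 {a A : ℕ} (ha : 1 ≤ a) {c0 : ℝ} (hc0 : 0 < c0) : ∃ N₁ : ℕ, ∀ N : ℕ, N₁ ≤ N →
    FQ (3 * a + 1) 1 (2 * A + 1) (sav c0 N) N → ∀ Bs : Finset ℕ, (∀ b ∈ Bs, b ≤ N) →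
      (Bs.card : ℝ) ≤ sav (c0 / 16) N →
      num (Icc 1 N) (fun k => ¬ ∀ b ∈ Bs, ∀ Y X : ℕ, Y ≤ X → X ≤ N →
        |SS (lr a b) k Y X| + |SS (lr a b) (k + 1) Y X| ≤ ((X:ℝ) - Y) / 2 + N / Real.log N ^ A) ≤
        N / sav (c0 / 16) N := by
  obtain ⟨N1, hN1, h1⟩ := sav_log (c := c0 / 2) (by positivity) (2 * A) 9216
  obtain ⟨N2, hN2, h2⟩ := sav_log (c := c0 / 8) (by positivity) (2 * A) (4 * 17 ^ 2)
  obtain ⟨N3, h3⟩ := log_ev (9216 + ((3 * a + 1 : ℕ) : ℝ))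
  obtain ⟨t0, ht0, hev⟩ := ev_t ((A : ℝ) + 1) 1 16 one_pos
  obtain ⟨N4, h4⟩ := log_ev t0
  refine ⟨N1 + N2 + N3 + N4 + 16, fun N hN hF Bs hBs hBc => ?_⟩
  have hN16 : 16 ≤ N := by omega
  have hNr : (16 : ℝ) ≤ N := by exact_mod_cast hN16
  have e1 := h1 N (by omega)
  have e2 := h2 N (by omega)
  have e3 := h3 N (by omega)
  have e4 := h4 N (by omega)
  obtain ⟨e5, -, e6⟩ := hev _ e4
  have ha1 : (0 : ℝ) ≤ ((3 * a + 1 : ℕ) : ℝ) := Nat.cast_nonneg _
  set Ln : ℝ := Real.log N with hLn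
  have hLp : 0 < Ln := by linarith
  have hL1 : 1 ≤ Ln := by linarith
  have hLA1 : 1 ≤ Ln ^ A := one_le_pow₀ hL1
  have hLA0 : 0 < Ln ^ A := by positivity
  have hy1 : 1 ≤ sav c0 N := sav_one_le hc0.le hN16
  have hs4 : 0 < sav (c0 / 4) N := sav_pos _ _
  have hs41 : 1 ≤ sav (c0 / 4) N := sav_one_le (by positivity) hN16
  have hP : ∀ b ∈ Bs, PlusT (lr a b) N (2 / Ln ^ (2 * A + 1)) (1 / sav c0 N * N) := fun b hb =>
    plusT_ofQ ha hN16 (hBs b hb) hy1 (by omega) (by linarith) hF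
  have hM : ∀ b ∈ Bs, MinusT (lr a b) N (2 / Ln ^ (2 * A + 1)) (1 / sav c0 N * N) := fun b hb =>
    minusT_ofQ ha hN16 (hBs b hb) hy1 (by omega) (by linarith) hF
  have hεN : 16 ≤ 1 / Ln ^ A * N := by
    have h5 : (N : ℝ) = Real.exp Ln := (Real.exp_log (by linarith)).symm
    have h6 : Ln ^ (A + 1) ≤ N := by
      rw [h5]
      have h7 : Ln ^ (A + 1) = Real.exp (((A : ℝ) + 1) * Real.log Ln) := by
        have : ((A : ℝ) + 1) = ((A + 1 : ℕ) : ℝ) := by push_cast; ring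
        rw [this, Real.exp_nat_mul, Real.exp_log hLp]
      rw [h7]
      exact Real.exp_le_exp.2 e5
    rw [div_mul_eq_mul_div, one_mul, le_div_iff₀ hLA0]
    calc 16 * Ln ^ A ≤ Ln * Ln ^ A := by gcongr
      _ = Ln ^ (A + 1) := by rw [pow_succ]; ring
      _ ≤ N := h6
  have hcore : ∀ b ∈ Bs, num (Icc 1 N) (fun k => ¬ ∀ Y X : ℕ, Y ≤ X → X ≤ N →
        |SS (lr a b) k Y X| + |SS (lr a b) (k + 1) Y X| ≤ ((X:ℝ) - Y) / 2 + 1 / Ln ^ A * N) ≤
        4 * (16 / (1 / Ln ^ A) + 1) ^ 2 * (1 / sav (c0 / 4) N * N) := by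
    intro b hb
    refine core_q (lr_pm a b) (η := 2 / Ln ^ (2 * A + 1)) (ζ := 1 / sav c0 N) (by positivity)
      ((div_le_one hLA0).2 hLA1) hεN (by positivity) ?_ (by positivity) ((div_le_one hs4).2 hs41) (by positivity) ?_
      (hP b hb) (hM b hb)
    · rw [div_pow, one_pow, ← pow_mul, mul_comm A 2, div_div, div_le_div_iff₀ (by positivity) (by positivity),
        pow_succ, one_mul]
      calc 2 * (Ln ^ (2 * A) * 4608) = 9216 * Ln ^ (2 * A) := by ring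
        _ ≤ Ln * Ln ^ (2 * A) := by
          gcongr
          linarith
        _ = _ := by ring
    · have h5 : sav (c0 / 4) N ^ 2 = sav (c0 / 2) N := by
        rw [sq, sav_mul]; congr 1; ring
      have h6 : sav c0 N = sav (c0 / 2) N * sav (c0 / 2) N := by
        rw [sav_mul]; congr 1; ring
      have h7 : 0 < sav (c0 / 2) N := sav_pos _ _
      have h8 : (1 / Ln ^ A) ^ 2 * (1 / sav (c0 / 4) N) ^ 2 / 9216 = 1 / (9216 * Ln ^ (2 * A) * sav (c0 / 2) N) := by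
        rw [div_pow, div_pow, h5, one_pow, ← pow_mul, mul_comm A 2]
        field_simp
      rw [h8, h6]
      apply one_div_le_one_div_of_le (by positivity)
      gcongr
  have hall := (num_exists Bs (Icc 1 N) (fun b k => ¬ ∀ Y X : ℕ, Y ≤ X → X ≤ N →
        |SS (lr a b) k Y X| + |SS (lr a b) (k + 1) Y X| ≤ ((X:ℝ) - Y) / 2 + 1 / Ln ^ A * N)).trans
        (sum_le_sum hcore)
  rw [sum_const, nsmul_eq_mul] at hall
  refine (num_mono ?_).trans (hall.trans ?_)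
  · intro k _ hk
    by_contra hcon
    apply hk
    intro b hb
    by_contra h5
    apply hcon
    refine ⟨b, hb, fun h6 => h5 fun Y X hYX hX => ?_⟩
    have h7 := h6 Y X hYX hX
    rwa [div_mul_eq_mul_div, one_mul] at h7
  · have h5 : 4 * (16 / (1 / Ln ^ A) + 1) ^ 2 ≤ 4 * 17 ^ 2 * Ln ^ (2 * A) := by
      rw [div_div_eq_mul_div, div_one]
      calc 4 * (16 * Ln ^ A + 1) ^ 2 ≤ 4 * (16 * Ln ^ A + Ln ^ A) ^ 2 := by gcongr
        _ = 4 * 17 ^ 2 * Ln ^ (2 * A) := by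
          rw [mul_comm 2 A, pow_mul]; ring
    have hs16 : 0 < sav (c0 / 16) N := sav_pos _ _
    have hs8 : 0 < sav (c0 / 8) N := sav_pos _ _
    have h6 : sav (c0 / 4) N = sav (c0 / 8) N * (sav (c0 / 16) N * sav (c0 / 16) N) := by
      rw [sav_mul, sav_mul]; congr 1; ring
    calc (Bs.card : ℝ) * (4 * (16 / (1 / Ln ^ A) + 1) ^ 2 * (1 / sav (c0 / 4) N * N))
        ≤ sav (c0 / 16) N * (sav (c0 / 8) N * (1 / sav (c0 / 4) N * N)) := by
          gcongr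
          exact h5.trans e2
      _ = N / sav (c0 / 16) N := by
          rw [h6]
          field_simp

/-- several weights at the same time -/
lemma multi {a B N A : ℕ} (ha : 1 ≤ a) (haB : a ≤ B) {c0 : ℝ} (hN16 : 16 ≤ N)
    (h8 : 8 ≤ Real.log N) (hs : 4 ≤ sav (c0 / 2) N) (hεN : 2 ≤ 1 / Real.log N ^ A * N)
    {x : ℕ} {s : ℕ → ℤ} {L : ℕ} (hL : (L : ℝ) ≤ sav (c0 / 4) N) {b : Fin L → ℕ} {ξ : Fin L → ℕ → ℂ}
    (hξ : ∀ l n, ‖ξ l n‖ ≤ 1)
    (h : ∀ l, ∀ g : ℕ → ℝ, (∀ n, |g n| ≤ 1) →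
      num (Icc 1 x) (fun m => ¬ Ok a B N (1 / Real.log N ^ (2 * A + 1)) g ((a : ℤ) * s m + b l)) ≤ x / sav c0 N) :
    num (Icc 1 x) (fun m => 0 < s m ∧ ¬ ∀ l, Half a (b l) N (1 / Real.log N ^ A) (ξ l) (s m).toNat) ≤
      x / sav (c0 / 4) N := by
  have hLp : 0 < Real.log N := by linarith
  have hε1 : 8 * (1 / Real.log N ^ (2 * A + 1)) ≤ 1 / Real.log N ^ A := by
    rw [mul_one_div, div_le_div_iff₀ (by positivity) (by positivity), one_mul]
    calc 8 * Real.log N ^ A ≤ Real.log N * Real.log N ^ A := by gcongr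
      _ = Real.log N ^ (A + 1) := by rw [pow_succ]; ring
      _ ≤ Real.log N ^ (2 * A + 1) := log_pow_mono hN16 (by omega)
  have h1 : ∀ l ∈ (univ : Finset (Fin L)), num (Icc 1 x) (fun m => 0 < s m ∧
      ¬ Half a (b l) N (1 / Real.log N ^ A) (ξ l) (s m).toNat) ≤ 4 * (x / sav c0 N) := fun l _ =>
    half_core ha haB hεN hε1 (h l) (hξ l)
  have hall := (num_exists univ (Icc 1 x) (fun l m => 0 < s m ∧
      ¬ Half a (b l) N (1 / Real.log N ^ A) (ξ l) (s m).toNat)).trans (sum_le_sum h1)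
  rw [sum_const, nsmul_eq_mul, card_univ, Fintype.card_fin] at hall
  refine (num_mono ?_).trans (hall.trans ?_)
  · intro m _ hm
    by_contra hcon
    push Not at hcon
    exact hm.2 fun l => hcon l (mem_univ l) hm.1
  · have hs4 : 0 < sav (c0 / 4) N := sav_pos _ _
    have hs2 : 0 < sav (c0 / 2) N := sav_pos _ _
    have hs0 : 0 < sav c0 N := sav_pos _ _
    have h6 : sav c0 N = sav (c0 / 2) N * (sav (c0 / 4) N * sav (c0 / 4) N) := by
      rw [sav_mul, sav_mul]; congr 1; ring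
    calc (L : ℝ) * (4 * (x / sav c0 N)) ≤ sav (c0 / 4) N * (sav (c0 / 2) N * (x / sav c0 N)) := by gcongr
      _ = x / sav (c0 / 4) N := by
          rw [h6]
          field_simp

/-- part 2 -/
lemma part2 {a A B p : ℕ} (ha : 1 ≤ a) {c0 : ℝ} (hc0 : 0 < c0) : ∃ N₁ : ℕ, ∀ N : ℕ, N₁ ≤ N →
    FQ (a * B + B + a) p (2 * A + 1) (sav c0 N) N → ∀ (x : ℕ) (s : ℕ → ℤ), (∀ m ∈ Icc 1 x, |s m| ≤ B * N) →
      (energy p x s : ℝ) * N ≤ sav (c0 / 4) N * (x : ℝ) ^ (2 * p) → ∀ L : ℕ, (L : ℝ) ≤ sav (c0 / 4) N →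
      ∀ (b : Fin L → ℕ) (ξ : Fin L → ℕ → ℂ), (∀ l, b l ≤ B * N) → (∀ l n, ‖ξ l n‖ ≤ 1) →
      num (Icc 1 x) (fun m => 0 < s m ∧ ¬ ∀ l, Half a (b l) N (1 / Real.log N ^ A) (ξ l) (s m).toNat) ≤
        x / sav (c0 / 4) N := by
  obtain ⟨N1, hN1, h1⟩ := sav_large (c := c0 / 2) (by positivity) 4
  obtain ⟨N3, h3⟩ := log_ev (8 + ((a * B + B + a : ℕ) : ℝ))
  obtain ⟨t0, ht0, hev⟩ := ev_t ((A : ℝ) + 1) 1 16 one_pos
  obtain ⟨N4, h4⟩ := log_ev t0
  refine ⟨N1 + N3 + N4 + 16, fun N hN hF x s hs hE L hL b ξ hb hξ => ?_⟩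
  have hN16 : 16 ≤ N := by omega
  have hNr : (16 : ℝ) ≤ N := by exact_mod_cast hN16
  have e1 := h1 N (by omega)
  have e3 := h3 N (by omega)
  have e4 := h4 N (by omega)
  obtain ⟨e5, -, e6⟩ := hev _ e4
  have ha1 : (0 : ℝ) ≤ ((a * B + B + a : ℕ) : ℝ) := Nat.cast_nonneg _
  have hLp : 0 < Real.log N := by linarith
  have hLA0 : 0 < Real.log N ^ A := by positivity
  have hy1 : 1 ≤ sav c0 N := sav_one_le hc0.le hN16
  have hεN : 2 ≤ 1 / Real.log N ^ A * N := by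
    have h5 : (N : ℝ) = Real.exp (Real.log N) := (Real.exp_log (by linarith)).symm
    have h6 : Real.log N ^ (A + 1) ≤ N := by
      rw [h5]
      have h7 : Real.log (Real.exp (Real.log N)) ^ (A + 1) = Real.exp (((A : ℝ) + 1) * Real.log (Real.log N)) := by
        have : ((A : ℝ) + 1) = ((A + 1 : ℕ) : ℝ) := by push_cast; ring
        rw [this, Real.exp_nat_mul, Real.exp_log hLp, Real.log_exp]
      rw [h7]
      exact Real.exp_le_exp.2 e5
    rw [div_mul_eq_mul_div, one_mul, le_div_iff₀ hLA0]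
    calc 2 * Real.log N ^ A ≤ Real.log N * Real.log N ^ A := by
          gcongr
          linarith
      _ = Real.log N ^ (A + 1) := by rw [pow_succ]; ring
      _ ≤ N := h6
  refine multi (B := a * B + B + a) ha (by omega) hN16 (by linarith) e1 hεN hL hξ fun l g hg => ?_
  have ha' : (a : ℤ) ≠ 0 := by exact_mod_cast (by omega : a ≠ 0)
  have h5 := num_okQ ha hN16 hF (by omega) (by linarith) (x := x) (s := fun m => (a : ℤ) * s m + b l) (by
      intro m hm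
      have h2 := hs m hm
      have hb2 : (b l : ℤ) ≤ B * N := by exact_mod_cast hb l
      have ha0 : (0 : ℤ) ≤ a := by positivity
      have h3 : |(a : ℤ) * s m| ≤ a * (B * N) := by
        rw [abs_mul, Nat.abs_cast]
        exact mul_le_mul_of_nonneg_left h2 ha0
      refine (abs_add_le _ _).trans ?_
      rw [Nat.abs_cast]
      push_cast
      have h4 : (0 : ℤ) ≤ a * N := by positivity
      linarith) (by
      rw [energy_affine ha']
      refine hE.trans ?_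
      apply mul_le_mul_of_nonneg_right _ (by positivity)
      exact sav_mono (by linarith) hN16) (L := 1) (by push_cast; exact hy1) (g := fun _ => g) (fun _ => hg)
  refine (num_mono ?_).trans h5
  intro m _ hm hcon
  exact hm (hcon 0)

/-- part 3 -/
lemma part3 {a A B : ℕ} (ha : 1 ≤ a) (f : Polynomial ℤ) {c0 : ℝ} (hc0 : 0 < c0) : ∃ N₁ : ℕ, ∀ N : ℕ, N₁ ≤ N →
    PQ (B + a) (2 * A + 1) (Polynomial.C (a : ℤ) * f) (sav c0 N) N → ∀ x : ℕ, x ^ f.natDegree ≤ B * N →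
      (N : ℝ) ≤ sav (c0 / 4) N * (x : ℝ) ^ f.natDegree → ∀ L : ℕ, (L : ℝ) ≤ sav (c0 / 4) N →
      ∀ (b : Fin L → ℕ) (ξ : Fin L → ℕ → ℂ), (∀ l, b l ≤ B * N) → (∀ l n, ‖ξ l n‖ ≤ 1) →
      num (Icc 1 x) (fun m => 0 < f.eval (m : ℤ) ∧
        ¬ ∀ l, Half a (b l) N (1 / Real.log N ^ A) (ξ l) (f.eval (m : ℤ)).toNat) ≤
        x / sav (c0 / 4) N := by
  classical
  obtain ⟨N1, hN1, h1⟩ := sav_large (c := c0 / 2) (by positivity) 4
  obtain ⟨N3, h3⟩ := log_ev (8 + ((B + a : ℕ) : ℝ))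
  obtain ⟨t0, ht0, hev⟩ := ev_t ((A : ℝ) + 1) 1 16 one_pos
  obtain ⟨N4, h4⟩ := log_ev t0
  refine ⟨N1 + N3 + N4 + 16, fun N hN hF x hx1 hx2 L hL b ξ hb hξ => ?_⟩
  have hN16 : 16 ≤ N := by omega
  have hNr : (16 : ℝ) ≤ N := by exact_mod_cast hN16
  have e1 := h1 N (by omega)
  have e3 := h3 N (by omega)
  have e4 := h4 N (by omega)
  obtain ⟨e5, -, e6⟩ := hev _ e4
  have ha1 : (0 : ℝ) ≤ ((B + a : ℕ) : ℝ) := Nat.cast_nonneg _
  have hLp : 0 < Real.log N := by linarith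
  have hL1 : 1 ≤ Real.log N := by linarith
  have hLA0 : 0 < Real.log N ^ A := by positivity
  have hy1 : 1 ≤ sav c0 N := sav_one_le hc0.le hN16
  have hεN : 2 ≤ 1 / Real.log N ^ A * N := by
    have h5 : (N : ℝ) = Real.exp (Real.log N) := (Real.exp_log (by linarith)).symm
    have h6 : Real.log N ^ (A + 1) ≤ N := by
      rw [h5]
      have h7 : Real.log (Real.exp (Real.log N)) ^ (A + 1) = Real.exp (((A : ℝ) + 1) * Real.log (Real.log N)) := by
        have : ((A : ℝ) + 1) = ((A + 1 : ℕ) : ℝ) := by push_cast; ring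
        rw [this, Real.exp_nat_mul, Real.exp_log hLp, Real.log_exp]
      rw [h7]
      exact Real.exp_le_exp.2 e5
    rw [div_mul_eq_mul_div, one_mul, le_div_iff₀ hLA0]
    calc 2 * Real.log N ^ A ≤ Real.log N * Real.log N ^ A := by
          gcongr
          linarith
      _ = Real.log N ^ (A + 1) := by rw [pow_succ]; ring
      _ ≤ N := h6
  have ha' : (a : ℤ) ≠ 0 := by exact_mod_cast (by omega : a ≠ 0)
  have hdeg : (Polynomial.C (a : ℤ) * f).natDegree = f.natDegree := Polynomial.natDegree_C_mul ha'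
  have hBN : B * N ≤ (B + a) * N := Nat.mul_le_mul_right _ (by omega)
  refine multi (B := B + a) (s := fun m => f.eval (m : ℤ)) ha (by omega) hN16 (by linarith) e1 hεN hL hξ
    fun l g hg => ?_
  have h2 := hF x (by rw [hdeg]; exact hx1.trans hBN) (by
      rw [hdeg]
      refine hx2.trans ?_
      apply mul_le_mul_of_nonneg_right _ (by positivity)
      exact sav_mono (by linarith) hN16) (b l : ℤ) (by
      rw [Nat.abs_cast]
      exact_mod_cast (hb l).trans hBN) 1 (by push_cast; exact hy1) (fun _ => a) (fun _ n => ((g n : ℝ) : ℂ))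
      (fun _ => ha) (by
        intro _
        have h2 : ∀ n ∈ Icc 1 ((B + a) * N / a), ‖((g n : ℝ) : ℂ)‖ ^ 2 ≤ 1 := by
          intro n _
          rw [Complex.norm_real, Real.norm_eq_abs]
          exact pow_le_one₀ (abs_nonneg _) (hg n)
        refine (sum_le_sum h2).trans ?_
        rw [sum_const, Nat.card_Icc, nsmul_eq_mul, mul_one, Nat.add_sub_cancel]
        calc (((B + a) * N / a : ℕ) : ℝ) ≤ (((B + a) * N : ℕ) : ℝ) := by exact_mod_cast Nat.div_le_self _ _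
          _ = N * ((B + a : ℕ) : ℝ) := by push_cast; ring
          _ ≤ N * Real.log N := by
              gcongr
              linarith
          _ ≤ N * Real.log N ^ (2 * A + 1) := by
              gcongr
              exact le_self_pow₀ hL1 (by omega))
  rw [num_eq]
  refine le_trans ?_ h2
  apply Nat.cast_le.2
  apply card_le_card
  intro m hm
  rw [mem_filter] at hm ⊢
  refine ⟨hm.1, fun hcon => hm.2 fun X hX => ?_⟩
  have h3 := hcon 0 X hX
  have h4 : (b l : ℤ) + (Polynomial.C (a : ℤ) * f).eval (m : ℤ) = (a : ℤ) * f.eval (m : ℤ) + b l := by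
    rw [Polynomial.eval_mul, Polynomial.eval_C]; ring
  rw [h4] at h3
  refine h3.trans (le_of_eq ?_)
  ring

/-- everything together -/
theorem lengths {a : ℕ} (ha : 1 ≤ a) (A B p : ℕ) (hp : 1 ≤ p) (f : Polynomial ℤ) (hf : 1 ≤ f.natDegree)
    {ε : ℝ} (hε : 0 < ε) : ∃ c : ℝ, 0 < c ∧ Most ε (fun N =>
      (∀ Bs : Finset ℕ, (∀ b ∈ Bs, b ≤ N) → (Bs.card : ℝ) ≤ sav c N →
        num (Icc 1 N) (fun k => ¬ ∀ b ∈ Bs, ∀ Y X : ℕ, Y ≤ X → X ≤ N →
          |SS (lr a b) k Y X| + |SS (lr a b) (k + 1) Y X| ≤ ((X:ℝ) - Y) / 2 + N / Real.log N ^ A) ≤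
          N / sav c N) ∧
      (∀ (x : ℕ) (s : ℕ → ℤ), (∀ m ∈ Icc 1 x, |s m| ≤ B * N) →
        (energy p x s : ℝ) * N ≤ sav c N * (x : ℝ) ^ (2 * p) → ∀ L : ℕ, (L : ℝ) ≤ sav c N →
        ∀ (b : Fin L → ℕ) (ξ : Fin L → ℕ → ℂ), (∀ l, b l ≤ B * N) → (∀ l n, ‖ξ l n‖ ≤ 1) →
        num (Icc 1 x) (fun m => 0 < s m ∧ ¬ ∀ l, Half a (b l) N (1 / Real.log N ^ A) (ξ l) (s m).toNat) ≤
          x / sav c N) ∧
      (∀ x : ℕ, x ^ f.natDegree ≤ B * N → (N : ℝ) ≤ sav c N * (x : ℝ) ^ f.natDegree →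
        ∀ L : ℕ, (L : ℝ) ≤ sav c N →
        ∀ (b : Fin L → ℕ) (ξ : Fin L → ℕ → ℂ), (∀ l, b l ≤ B * N) → (∀ l n, ‖ξ l n‖ ≤ 1) →
        num (Icc 1 x) (fun m => 0 < f.eval (m : ℤ) ∧
          ¬ ∀ l, Half a (b l) N (1 / Real.log N ^ A) (ξ l) (f.eval (m : ℤ)).toNat) ≤
          x / sav c N)) := by
  have ha' : (a : ℤ) ≠ 0 := by exact_mod_cast (by omega : a ≠ 0)
  have hdeg : (Polynomial.C (a : ℤ) * f).natDegree = f.natDegree := Polynomial.natDegree_C_mul ha'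
  obtain ⟨p', B', C1, hp', hB', -, hC1, hpoly⟩ := polyQ (B + a) (2 * A + 1) (Polynomial.C (a : ℤ) * f)
    (by rw [hdeg]; exact hf)
  obtain ⟨c0, hc0, hM⟩ := most_FQs (![3 * a + 1, a * B + B + a, B']) (![1, p, p']) (2 * A + 1)
    (by intro i; fin_cases i <;> simp <;> omega) (by intro i; fin_cases i <;> simp <;> omega)
    (ε := ε / 2) (by positivity)
  obtain ⟨M1, h1⟩ := part1 (a := a) (A := A) ha hc0
  obtain ⟨M2, h2⟩ := part2 (a := a) (A := A) (B := B) (p := p) ha hc0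
  obtain ⟨M3, h3⟩ := part3 (a := a) (A := A) (B := B) ha f (c0 := c0 / 2) (by positivity)
  obtain ⟨M4, hM4, h4⟩ := sav_large (c := c0 / 2) (by positivity) C1
  refine ⟨c0 / 16, by positivity, most_mono hε (hM 0) (N₁ := M1 + M2 + M3 + M4 + 16) fun N hN hG => ?_⟩
  obtain ⟨-, hG⟩ := hG
  have hN16 : 16 ≤ N := by omega
  have g1 : FQ (3 * a + 1) 1 (2 * A + 1) (sav c0 N) N := hG 0
  have g2 : FQ (a * B + B + a) p (2 * A + 1) (sav c0 N) N := hG 1
  have g3 : FQ B' p' (2 * A + 1) (sav c0 N) N := hG 2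
  have hs2 : 0 < sav (c0 / 2) N := sav_pos _ _
  have hs8 : 0 < sav (c0 / 8) N := sav_pos _ _
  have hs4 : 0 < sav (c0 / 4) N := sav_pos _ _
  have hs16 : 0 < sav (c0 / 16) N := sav_pos _ _
  have g4 : PQ (B + a) (2 * A + 1) (Polynomial.C (a : ℤ) * f) (sav (c0 / 2) N) N := by
    apply hpoly N (by omega) _ (sav_one_le (by positivity) hN16)
    apply FQ_mono (by positivity) _ g3
    have h5 : sav c0 N = sav (c0 / 2) N * sav (c0 / 2) N := by rw [sav_mul]; congr 1; ring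
    rw [h5]
    have := h4 N (by omega)
    gcongr
  have m1 : sav (c0 / 16) N ≤ sav (c0 / 4) N := sav_mono (by linarith) hN16
  have m2 : sav (c0 / 16) N ≤ sav (c0 / 2 / 4) N := sav_mono (by linarith) hN16
  refine ⟨h1 N (by omega) g1, ?_, ?_⟩
  · intro x s hs hE L hL b ξ hb hξ
    refine (h2 N (by omega) g2 x s hs (hE.trans (mul_le_mul_of_nonneg_right m1 (by positivity))) L (hL.trans m1)
      b ξ hb hξ).trans ?_
    exact div_le_div_of_nonneg_left (by positivity) hs16 m1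
  · intro x hx1 hx2 L hL b ξ hb hξ
    refine (h3 N (by omega) g4 x hx1 (hx2.trans (mul_le_mul_of_nonneg_right m2 (by positivity))) L (hL.trans m2)
      b ξ hb hξ).trans ?_
    exact div_le_div_of_nonneg_left (by positivity) hs16 m2

end Pool.Agent.P8H14.QP.Len
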