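import Pool.Agent.P8H14.QP.A5
import Pool.Agent.TH823.PS.Scale

set_option autoImplicit false

/-!
# Zero free regions for all characters at a scale without exceptional character
-/

open Complex Filter Topology Set MeasureTheory Metric
open scoped Real

namespace Pool.Agent.P8H14.QP

open Pool.Agent.W66 Pool.Agent.W66L
open Pool.Agent.TH823.PS (PP WW rt ct abs_rt_le tsum_ct prime_sum lam_series lam_summable NE WW_est lower_341 upper_pr
  lower_all rt_one prime_coprime mem_PP WW_nonneg log_ge_one re_LSeries term_ct ct_summable)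
open ArithmeticFunction (vonMangoldt)

/-- a zero near one makes the sum over the primes very negative -/
lemma near_zero : ∃ C : ℝ, 0 < C ∧ ∀ (r : ℕ) [NeZero r] (χ : DirichletCharacter ℂ r), χ ≠ 1 → ∀ t : ℝ,
    ∀ y z : ℕ, 3 ≤ y → y ≤ z → lq r t ≤ Real.log y →
    ∀ ρ : ℂ, χ.LFunction ρ = 0 → ρ.im = t → 1 - 1 / (20 * Real.log z) ≤ ρ.re →
    ∑ p ∈ PP y z, rt χ t p / p ≤ -(19 / 20) * WW y z + C := by
  obtain ⟨K, hK, hD⟩ := DL_re
  obtain ⟨C1, hC1, hps⟩ := prime_sum
  obtain ⟨C2, hC2, hV⟩ := lam_series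
  refine ⟨K + C2 + 2 * C1, by positivity, fun r _ χ hχ t y z hy hyz hlq ρ hρ him hre => ?_⟩
  have hly := log_ge_one hy
  have hlyz : Real.log y ≤ Real.log z := Real.log_le_log (by positivity) (by exact_mod_cast hyz)
  have hlz : 1 < Real.log z := by linarith
  have hre1 : ρ.re < 1 := by
    by_contra hcon
    exact LF_ne_zero hχ (not_lt.1 hcon) hρ
  have hz1 : 1 / (20 * Real.log z) ≤ 1 / 20 := by
    apply one_div_le_one_div_of_le (by norm_num)
    linarith
  have hball : ρ ∈ closedBall (⟨2, t⟩ : ℂ) (3 / 2) := by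
    rw [mem_closedBall, dist_eq_norm]
    have e : ρ - ⟨2, t⟩ = ((ρ.re - 2 : ℝ) : ℂ) := by
      apply Complex.ext <;> simp [him]
    rw [e, Complex.norm_real, Real.norm_eq_abs, abs_le]
    constructor <;> linarith
  have hmain := hps (fun n => (rt χ t n + 19 / 20) / 2) (fun n => by
    have := abs_le.1 (abs_rt_le χ t n)
    rw [abs_le]
    constructor <;> linarith [this.1, this.2]) y z hy hyz ((C2 + K) / 2 * Real.log y) (by positivity) (by
    intro σ h1 h2
    have hlz' : 0 < 1 / Real.log z := by positivity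
    have hly' : 1 / Real.log y ≤ 1 := by rw [div_le_one (by linarith)]; exact hly.le
    have hσ1 : 1 < σ := by linarith
    have hσ2 : σ ≤ 2 := by linarith
    obtain ⟨V, hVs, hVb⟩ := hV σ hσ1 hσ2
    have hsum : Summable fun n : ℕ => rt χ t n * vonMangoldt n * (n : ℝ) ^ (-σ) := by
      have h3 := (ct_summable χ hσ1 t)
      have h4 := Complex.reCLM.summable h3
      refine h4.congr fun n => ?_
      simp only [Complex.reCLM_apply]
      exact term_ct χ σ t n
    have e1 : (∑' n : ℕ, (rt χ t n + 19 / 20) / 2 * vonMangoldt n * (n : ℝ) ^ (-σ)) =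
        1 / 2 * (∑' n : ℕ, rt χ t n * vonMangoldt n * (n : ℝ) ^ (-σ)) + 19 / 40 * V := by
      rw [← hVs.tsum_eq, ← tsum_mul_left, ← tsum_mul_left, ← Summable.tsum_add (hsum.mul_left _) (hVs.summable.mul_left _)]
      congr 1
      funext n
      ring
    have h5 : (∑' n : ℕ, rt χ t n * vonMangoldt n * (n : ℝ) ^ (-σ)) ≤ -(20 / 21) * (1 / (σ - 1)) + K * Real.log y := by
      rw [tsum_ct χ hσ1 t, LSeries_eq_DL χ hχ (s := ⟨σ, t⟩) (by simpa using hσ1), neg_re]
      have h6 := (hD r χ hχ t σ hσ1 hσ2).2 ρ hball hρ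
      have e2 : (1 / ((⟨σ, t⟩ : ℂ) - ρ)).re = 1 / (σ - ρ.re) := by
        have e : (⟨σ, t⟩ : ℂ) - ρ = ((σ - ρ.re : ℝ) : ℂ) := by
          apply Complex.ext <;> simp [him]
        rw [e, ← Complex.ofReal_one, ← Complex.ofReal_div, Complex.ofReal_re]
      rw [e2] at h6
      have h7 : σ - ρ.re ≤ 21 / 20 * (σ - 1) := by
        have h8 : 1 / (20 * Real.log z) = 1 / 20 * (1 / Real.log z) := by field_simp
        rw [h8] at hre
        linarith
      have h9 : 20 / 21 * (1 / (σ - 1)) ≤ 1 / (σ - ρ.re) := by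
        have h10 : 0 < σ - 1 := by linarith
        have h11 : 0 < σ - ρ.re := by linarith
        rw [le_div_iff₀ h11]
        have h12 : 20 / 21 * (1 / (σ - 1)) * (21 / 20 * (σ - 1)) = 1 := by field_simp
        exact (mul_le_mul_of_nonneg_left h7 (by positivity)).trans (le_of_eq h12)
      have h13 : K * lq r t ≤ K * Real.log y := mul_le_mul_of_nonneg_left hlq hK.le
      linarith
    rw [e1]
    have h14 : 0 < 1 / (σ - 1) := by
      have : 0 < σ - 1 := by linarith
      positivity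
    have h15 : C2 ≤ C2 * Real.log y := by nlinarith
    nlinarith)
  have e3 : ∑ p ∈ (Finset.Ioc y z).filter Nat.Prime, (rt χ t p + 19 / 20) / 2 / p =
      1 / 2 * ∑ p ∈ PP y z, rt χ t p / p + 19 / 40 * WW y z := by
    unfold WW PP
    rw [Finset.mul_sum, Finset.mul_sum, ← Finset.sum_add_distrib]
    apply Finset.sum_congr rfl
    intro p _
    ring
  rw [e3] at hmain
  have e4 : (C2 + K) / 2 * Real.log y / Real.log y = (C2 + K) / 2 := by
    field_simp
  rw [e4] at hmain
  linarith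

/-- the zero free region for all nontrivial characters of small conductor at a good scale -/
theorem zf_of_NE (A : ℕ) (hA : 3 ≤ A) : ∃ E0 : ℕ, ∀ E : ℕ, E0 ≤ E → ∃ c0 : ℝ, 0 < c0 ∧ c0 ≤ 1 ∧
    ∀ Q : ℕ, 3 ≤ Q → NE A E Q → ∀ (r : ℕ) [NeZero r] (χ : DirichletCharacter ℂ r), r ≤ Q → χ ≠ 1 → ZF c0 Q χ := by
  obtain ⟨C1, hC1, hnz⟩ := near_zero
  obtain ⟨C2, hC2, hlow⟩ := lower_all
  obtain ⟨C3, hC3, hpr⟩ := upper_pr
  obtain ⟨C4, hC4, hW⟩ := WW_est
  obtain ⟨cz, hcz, hcz1, hzfl⟩ := zfl
  obtain ⟨E0, hE0⟩ := exists_nat_ge (Real.exp (20 * (C1 + C2 + C3 + 1) + C4 + 1))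
  refine ⟨E0 + 1, fun E hE => ?_⟩
  have hEr : (0 : ℝ) < E := by exact_mod_cast (by omega : 0 < E)
  have hE1 : (1 : ℝ) ≤ E := by exact_mod_cast (by omega : 1 ≤ E)
  have hAr : (3 : ℝ) ≤ A := by exact_mod_cast hA
  have hlogE : 20 * (C1 + C2 + C3 + 1) + C4 + 1 ≤ Real.log E := by
    rw [Real.le_log_iff_exp_le hEr]
    exact hE0.trans (by exact_mod_cast (by omega : E0 ≤ E))
  -- the contradiction
  have hcontr : ∀ y : ℕ, 3 ≤ y → ∀ S : ℝ, S ≤ -(19 / 20) * WW y (y ^ E) + C1 →
      -(9 / 10) * WW y (y ^ E) - (C2 + C3) ≤ S → False := by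
    intro y hy S h1 h2
    have h3 := hW y 1 E hy le_rfl (by omega)
    rw [pow_one, Nat.cast_one, div_one, abs_le] at h3
    linarith [h3.1]
  obtain ⟨c0, hc0⟩ : ∃ c0 : ℝ, c0 = min cz (1 / (160 * A * E)) := ⟨_, rfl⟩
  have hAE : (0 : ℝ) < 1 / (160 * A * E) := by positivity
  have hc0pos : 0 < c0 := by rw [hc0]; exact lt_min hcz hAE
  have hc0z : c0 ≤ cz := by rw [hc0]; exact min_le_left _ _
  have hc0A : c0 ≤ 1 / (160 * A * E) := by rw [hc0]; exact min_le_right _ _
  refine ⟨c0, hc0pos, hc0z.trans (by linarith), fun Q hQ hNE r _ χ hrQ hχ ρ hρ => ?_⟩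
  have hr0 : (0 : ℝ) < r := by exact_mod_cast Nat.pos_of_ne_zero (NeZero.ne r)
  have hQ3 : (3 : ℝ) ≤ Q := by exact_mod_cast hQ
  have hlogQ : 1 < Real.log Q := log_ge_one hQ
  have hlog : Real.log r ≤ Real.log Q := Real.log_le_log hr0 (by exact_mod_cast hrQ)
  have hlr : ∀ t, lq r t ≤ lq Q t := fun t => by unfold lq; linarith
  obtain ⟨t, ht⟩ : ∃ t, t = ρ.im := ⟨_, rfl⟩
  rw [← ht]
  have hl1 := one_le_lq Q t
  by_cases h2 : χ ^ 2 = 1
  swap
  · have h3 := hzfl r χ h2 ρ hρ
    rw [← ht] at h3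
    have h4 : c0 / lq Q t ≤ cz / lq r t := by
      apply div_le_div₀ hcz.le hc0z (by linarith [one_le_lq r t]) (hlr t)
    linarith
  by_contra hcon
  push Not at hcon
  rcases le_or_gt |t| 1 with hcase | hcase
  · -- small heights
    have hy3 : 3 ≤ Q ^ A := le_trans hQ (Nat.le_self_pow (by omega) Q)
    have hyz : Q ^ A ≤ (Q ^ A) ^ E := Nat.le_self_pow (by omega) _
    have hlogy : Real.log ((Q ^ A : ℕ) : ℝ) = A * Real.log Q := by push_cast; rw [Real.log_pow]
    have hlogz : Real.log (((Q ^ A) ^ E : ℕ) : ℝ) = A * E * Real.log Q := by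
      push_cast; rw [Real.log_pow, Real.log_pow]; ring
    have hell : ∀ s : ℝ, |s| ≤ 2 → lq Q s ≤ A * Real.log Q := by
      intro s hs
      unfold lq ell
      have h5 : Real.log (|s| + 3) ≤ 2 * Real.log Q := by
        have h6 : Real.log (|s| + 3) ≤ Real.log ((Q : ℝ) ^ 2) := Real.log_le_log (by positivity) (by nlinarith)
        rw [Real.log_pow] at h6
        exact_mod_cast h6
      nlinarith
    have habs2 : |2 * t| ≤ 2 := by rw [abs_mul, abs_of_pos (by norm_num : (0 : ℝ) < 2)]; linarith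
    have hrQA : r ≤ Q ^ A := hrQ.trans (Nat.le_self_pow (by omega) Q)
    have e1 : (Q ^ A) ^ E = Q ^ (A * E) := by rw [← pow_mul]
    have k1 := hnz r χ hχ t (Q ^ A) ((Q ^ A) ^ E) hy3 hyz (by
      rw [hlogy]
      exact (hlr t).trans (hell t (by linarith))) ρ hρ ht.symm (by
      rw [hlogz]
      refine le_trans ?_ hcon.le
      have h7 : c0 / lq Q t ≤ 1 / (20 * (A * E * Real.log Q)) := by
        have h8 : Real.log Q ≤ lq Q t := by
          unfold lq
          linarith [one_le_ell t]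
        calc c0 / lq Q t ≤ (1 / (160 * A * E)) / Real.log Q := by
              apply div_le_div₀ hAE.le hc0A (by linarith) h8
          _ = 1 / (160 * (A * E * Real.log Q)) := by field_simp
          _ ≤ 1 / (20 * (A * E * Real.log Q)) := by
              apply one_div_le_one_div_of_le (by positivity)
              have : 0 < (A : ℝ) * E * Real.log Q := by positivity
              linarith
      linarith)
    have k2 := hlow r (Q ^ A) ((Q ^ A) ^ E) hy3 hyz hrQA (fun χ' hχ' hχ'2 => by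
      rw [e1]
      exact hNE r hrQ χ' hχ' hχ'2) t (by
      rw [hlogy]
      exact (hlr _).trans (hell _ habs2)) χ
    exact hcontr (Q ^ A) hy3 _ k1 (by linarith)
  · -- large heights
    obtain ⟨m, hm⟩ : ∃ m : ℕ, m = ⌈|2 * t|⌉₊ + 3 := ⟨_, rfl⟩
    have habs : |2 * t| = 2 * |t| := by rw [abs_mul, abs_of_pos (by norm_num : (0 : ℝ) < 2)]
    have hm1 : |2 * t| + 3 ≤ m := by rw [hm]; push_cast; linarith [Nat.le_ceil |2 * t|]
    have hm2 : (m : ℝ) ≤ |2 * t| + 4 := by
      rw [hm]; push_cast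
      linarith [(Nat.ceil_lt_add_one (abs_nonneg (2 * t))).le]
    have hm3 : 3 ≤ m := by omega
    have hmr : (3 : ℝ) ≤ m := by exact_mod_cast hm3
    have hy3 : 3 ≤ Q * m := le_trans hm3 (Nat.le_mul_of_pos_left m (by omega))
    have hyz : Q * m ≤ (Q * m) ^ E := Nat.le_self_pow (by omega) _
    have hlogy : Real.log ((Q * m : ℕ) : ℝ) = Real.log Q + Real.log m := by
      push_cast; rw [Real.log_mul (by positivity) (by positivity)]
    have hlogz : Real.log (((Q * m) ^ E : ℕ) : ℝ) = E * (Real.log Q + Real.log m) := by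
      rw [Nat.cast_pow, Real.log_pow, hlogy]
    have hlogm1 : ell (2 * t) ≤ Real.log m := by
      unfold ell
      exact Real.log_le_log (by positivity) hm1
    have hlogm0 : ell t ≤ Real.log m := (ell_mono (by rw [habs]; linarith [abs_nonneg t])).trans hlogm1
    have hlogm2 : Real.log m ≤ 2 * ell t := by
      unfold ell
      have h5 : Real.log m ≤ Real.log ((|t| + 3) ^ 2) := Real.log_le_log (by positivity) (by nlinarith)
      rw [Real.log_pow] at h5
      exact_mod_cast h5
    have k1 := hnz r χ hχ t (Q * m) ((Q * m) ^ E) hy3 hyz (by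
      rw [hlogy]
      refine (hlr t).trans ?_
      unfold lq
      linarith) ρ hρ ht.symm (by
      rw [hlogz]
      refine le_trans ?_ hcon.le
      have h7 : c0 / lq Q t ≤ 1 / (20 * (E * (Real.log Q + Real.log m))) := by
        have h8 : Real.log Q + Real.log m ≤ 2 * lq Q t := by
          unfold lq
          linarith [one_le_ell t]
        have h9 : 0 < Real.log Q + Real.log m := by linarith [one_le_ell t]
        calc c0 / lq Q t ≤ (1 / (160 * A * E)) / ((Real.log Q + Real.log m) / 2) := by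
              apply div_le_div₀ hAE.le hc0A (by linarith) (by linarith)
          _ = 1 / (80 * A * (E * (Real.log Q + Real.log m))) := by field_simp; norm_num
          _ ≤ 1 / (20 * (E * (Real.log Q + Real.log m))) := by
              apply one_div_le_one_div_of_le (by positivity)
              have h10 : 0 < (E : ℝ) * (Real.log Q + Real.log m) := by positivity
              nlinarith
      linarith)
    have hrQm : r ≤ Q * m := hrQ.trans (Nat.le_mul_of_pos_right Q (by omega))
    have hr : 0 < r := Nat.pos_of_ne_zero (NeZero.ne r)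
    have k2 := lower_341 hr χ t hrQm (z := (Q * m) ^ E)
    have hcos : ∑ p ∈ PP (Q * m) ((Q * m) ^ E), rt (χ ^ 2) (2 * t) p / p =
        ∑ p ∈ PP (Q * m) ((Q * m) ^ E), Real.cos (2 * t * Real.log p) / p := by
      apply Finset.sum_congr rfl
      intro p hp
      rw [h2, rt_one (2 * t) (prime_coprime hr hrQm hp)]
    rw [hcos] at k2
    have k3 := hpr (2 * t) (Q * m) ((Q * m) ^ E) hy3 hyz (by rw [hlogy]; linarith) (by
      rw [hlogy, habs]
      have : 1 ≤ Real.log Q + Real.log m := by linarith [one_le_ell t]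
      nlinarith)
    have k4 := WW_nonneg (Q * m) ((Q * m) ^ E)
    exact hcontr (Q * m) hy3 _ k1 (by linarith)

end Pool.Agent.P8H14.QP
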