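import Pool.Agent.P8H14.QP.B8
import Pool.Agent.P8H14.QP.A6

set_option autoImplicit false

/-!
# The bound for the multiplier
-/

open Complex Filter Topology MeasureTheory Metric Finset
open scoped Real FourierTransform

namespace Pool.Agent.P8H14.QP

open Pool.Agent.W66 Pool.Agent.W66L
open Pool.Agent.H373R2.T7 (liR liR_norm)

/-- zero free regions for all the nontrivial characters modulo `r ≤ Q` -/
def Zs (c0 : ℝ) (Q : ℕ) : Prop :=
  ∀ (r : ℕ) [NeZero r] (χ : DirichletCharacter ℂ r), r ≤ Q → χ ≠ 1 → ZF c0 Q χ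

lemma Adm_of_Zs {c0 : ℝ} {Q : ℕ} (hZ : Zs c0 Q) {r : ℕ} [NeZero r] (hr : r ≤ Q) {ψ : DirichletCharacter ℂ r}
    (hψ : ψ ∈ pr r) : Adm c0 Q ψ := by
  by_cases h1 : r = 1
  · exact Or.inl h1
  · have h2 := pr_ne_one h1 hψ (NeZero.ne r)
    exact Or.inr ⟨h2, hZ r ψ hr h2⟩

/-- the multiplier bound -/
theorem M_bd {c0 : ℝ} (hc0 : 0 < c0) (hc01 : c0 ≤ 1) (D : ℕ) : ∃ κ C : ℝ, 0 < κ ∧ 0 < C ∧
    ∀ (L : ℝ), 1 ≤ L → ∀ Q : ℕ, 1 ≤ Q → Zs c0 Q → (D : ℝ) * Real.log L + 3 ≤ Real.log Q → Real.log Q ≤ L →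
    ∀ u : ℝ, 2 ≤ u → κ * (Real.log Q * Real.log L) ≤ u → u ≤ 3 * L → ∀ r ∈ Icc 1 Q, ∀ ψ ∈ pr r, ∀ ξ : ℝ,
    ‖GX (la ψ) u (2 * π * ξ)‖ * ‖𝓕 (boxC (1 / (Q : ℝ) ^ 3)) ξ‖ ≤ C * (L ^ 2 / L ^ D) := by
  obtain ⟨c, C, hc, hc1, hC, hLX⟩ := LX_bound hc0 hc01
  refine ⟨5 * D / c + 1, C * 53 + 4, by positivity, by positivity,
    fun L hL Q hQ hZ hq1 hq2 u hu2 hu3 hu4 r hr ψ hψ ξ => ?_⟩
  rw [mem_Icc] at hr
  have : NeZero r := ⟨by omega⟩
  have hL0 : 0 < L := by linarith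
  have hQ0 : (0 : ℝ) < Q := by exact_mod_cast hQ
  have hQ1 : (1 : ℝ) ≤ Q := by exact_mod_cast hQ
  set h : ℝ := 1 / (Q : ℝ) ^ 3 with hh
  have hh0 : 0 < h := by positivity
  have hlL : 0 ≤ Real.log L := Real.log_nonneg hL
  have hlQ : 3 ≤ Real.log Q := by
    have : 0 ≤ (D : ℝ) * Real.log L := by positivity
    linarith
  have hZD0 : 0 < L ^ D := by positivity
  have hZD1 : 1 ≤ L ^ D := one_le_pow₀ hL
  have h21 : 1 ≤ L ^ 2 := one_le_pow₀ hL
  rcases le_or_gt |ξ| (L ^ D / h) with hξ | hξ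
  · have h1 := hLX Q r ψ hr.2 (Adm_of_Zs hZ hr.2 hψ) u (2 * π * ξ) (L ^ D) hu2 hZD1
    set l := lq Q (|2 * π * ξ| + L ^ D) with hl
    have hl1 : 1 ≤ l := one_le_lq _ _
    have hpi := Real.pi_lt_d2
    have hpi0 := Real.pi_pos
    have hl2 : l ≤ 5 * Real.log Q := by
      rw [hl]
      unfold lq ell
      rw [abs_of_nonneg (by positivity)]
      have e1 : |2 * π * ξ| + L ^ D + 3 ≤ 11 * L ^ D * (Q : ℝ) ^ 3 := by
        have e2 : |2 * π * ξ| ≤ 7 * (L ^ D * (Q : ℝ) ^ 3) := by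
          rw [abs_mul, abs_of_pos (by positivity : 0 < 2 * π)]
          have e3 : L ^ D / h = L ^ D * (Q : ℝ) ^ 3 := by
            rw [hh]; field_simp
          rw [e3] at hξ
          have : 0 ≤ |ξ| := abs_nonneg _
          nlinarith
        have e4 : 1 ≤ (Q : ℝ) ^ 3 := one_le_pow₀ hQ1
        have e5 : L ^ D ≤ L ^ D * (Q : ℝ) ^ 3 := by nlinarith
        have e6 : 1 ≤ L ^ D * (Q : ℝ) ^ 3 := hZD1.trans e5
        linarith
      have e2 : Real.log (|2 * π * ξ| + L ^ D + 3) ≤ Real.log (11 * L ^ D * (Q : ℝ) ^ 3) :=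
        Real.log_le_log (by positivity) e1
      rw [Real.log_mul (by positivity) (by positivity), Real.log_mul (by norm_num) (by positivity),
        Real.log_pow, Real.log_pow] at e2
      have e3 : Real.log 11 ≤ 3 := by
        rw [Real.log_le_iff_le_exp (by norm_num)]
        have := Real.exp_one_gt_d9
        have h4 : Real.exp 3 = Real.exp 1 ^ 3 := by rw [← Real.exp_nat_mul]; norm_num
        rw [h4]
        have h5 : (2.7182818283 : ℝ) ^ 3 ≤ Real.exp 1 ^ 3 := pow_le_pow_left₀ (by norm_num) this.le 3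
        norm_num at h5
        linarith
      push_cast at e2
      linarith
    have hexp : Real.exp (-(c * u / l)) ≤ 1 / L ^ D := by
      have e1 : (D : ℝ) * Real.log L ≤ c * u / l := by
        rw [le_div_iff₀ (by linarith)]
        calc (D : ℝ) * Real.log L * l ≤ D * Real.log L * (5 * Real.log Q) := by gcongr
          _ = c * ((5 * D / c) * (Real.log Q * Real.log L)) := by field_simp
          _ ≤ c * ((5 * D / c + 1) * (Real.log Q * Real.log L)) := by gcongr; linarith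
          _ ≤ c * u := by gcongr
      have e2 : 1 / L ^ D = Real.exp (-((D : ℝ) * Real.log L)) := by
        rw [Real.exp_neg, Real.exp_nat_mul, Real.exp_log hL0, one_div]
      rw [e2]
      exact Real.exp_le_exp.2 (by linarith)
    have hlsq : l ^ 2 ≤ 25 * L ^ 2 := by
      calc l ^ 2 ≤ (5 * L) ^ 2 := by
            gcongr
            linarith
        _ = _ := by ring
    have h2 : l ^ 2 * Real.exp (-(c * u / l)) + l ^ 2 / (L ^ D) ^ 2 + u / L ^ D ≤
        53 * (L ^ 2 / L ^ D) := by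
      have e1 : l ^ 2 * Real.exp (-(c * u / l)) ≤ 25 * L ^ 2 * (1 / L ^ D) := by gcongr
      have e2 : l ^ 2 / (L ^ D) ^ 2 ≤ 25 * L ^ 2 / L ^ D := by
        have : L ^ D ≤ (L ^ D) ^ 2 := by nlinarith
        gcongr
      have e3 : u / L ^ D ≤ 3 * L ^ 2 / L ^ D := by
        gcongr
        nlinarith
      calc _ ≤ 25 * L ^ 2 * (1 / L ^ D) + 25 * L ^ 2 / L ^ D + 3 * L ^ 2 / L ^ D := by linarith
        _ = _ := by ring
    have h3 := norm_four_box_le_one hh0 ξ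
    have h4 : 0 ≤ L ^ 2 / L ^ D := by positivity
    calc ‖GX (la ψ) u (2 * π * ξ)‖ * ‖𝓕 (boxC h) ξ‖ ≤ (C * (53 * (L ^ 2 / L ^ D))) * 1 := by
          apply mul_le_mul _ h3 (norm_nonneg _) (by positivity)
          refine h1.trans ?_
          gcongr
      _ = C * 53 * (L ^ 2 / L ^ D) := by ring
      _ ≤ _ := by
          apply mul_le_mul_of_nonneg_right _ h4
          linarith
  · have hξ0 : ξ ≠ 0 := by
      intro h0
      rw [h0, abs_zero] at hξ
      have : 0 < L ^ D / h := by positivity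
      linarith
    have h1 := norm_four_box_le hh0 hξ0
    have h2 : 1 / (h * |ξ|) ≤ 1 / L ^ D := by
      apply one_div_le_one_div_of_le hZD0
      rw [div_lt_iff₀ hh0] at hξ
      linarith
    have h3 := GX_triv (norm_la_le ψ) u (2 * π * ξ)
    have h5 : 1 / L ^ D ≤ L ^ 2 / L ^ D := by gcongr
    calc ‖GX (la ψ) u (2 * π * ξ)‖ * ‖𝓕 (boxC h) ξ‖ ≤ 4 * (1 / L ^ D) := by
          apply mul_le_mul h3 (h1.trans h2) (norm_nonneg _) (by norm_num)
      _ ≤ 4 * (L ^ 2 / L ^ D) := by gcongr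
      _ ≤ _ := by
          apply mul_le_mul_of_nonneg_right _ (by positivity)
          have : 0 < C * 53 := by positivity
          linarith

end Pool.Agent.P8H14.QP
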