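import Pool.Agent.P8H14.QP.B9

set_option autoImplicit false

/-!
# The energy on the major arcs at one scale
-/

open Complex Filter Topology MeasureTheory Metric Finset
open scoped Real FourierTransform

namespace Pool.Agent.P8H14.QP

open Pool.Agent.W66 Pool.Agent.W66L
open Pool.Agent.TH823.PS (gen rr EE ls_bb)
open Pool.Agent.H373R2.T7 (liR liR_norm)

lemma ev_exp (m : ℕ) (C : ℝ) : ∃ L0 : ℝ, 200 ≤ L0 ∧ ∀ L : ℝ, L0 ≤ L → L ^ m ≤ Real.exp (L / 200) ∧
    C ≤ L ∧ C ≤ Real.log L := by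
  have h1 : Tendsto (fun L : ℝ => L ^ m * Real.exp (-(1 / 200) * L)) atTop (𝓝 0) := by
    have := Real.tendsto_pow_mul_exp_neg_atTop_nhds_zero m
    have h2 : Tendsto (fun L : ℝ => (1 / 200) * L) atTop atTop :=
      tendsto_id.const_mul_atTop (by norm_num)
    have h3 := (this.comp h2).const_mul ((200 : ℝ) ^ m)
    rw [mul_zero] at h3
    refine h3.congr fun L => ?_
    simp only [Function.comp_apply]
    rw [mul_pow, ← mul_assoc, ← mul_assoc, ← mul_pow]
    norm_num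
  have h4 : ∀ᶠ L : ℝ in atTop, L ^ m * Real.exp (-(1 / 200) * L) < 1 :=
    h1.eventually (gt_mem_nhds (by norm_num))
  have h5 : ∀ᶠ L : ℝ in atTop, C ≤ Real.log L := Real.tendsto_log_atTop.eventually_ge_atTop C
  obtain ⟨L0, hL0⟩ := eventually_atTop.1 ((h4.and h5).and ((eventually_ge_atTop (200 : ℝ)).and (eventually_ge_atTop C)))
  refine ⟨max L0 200, le_max_right _ _, fun L hL => ?_⟩
  obtain ⟨⟨h6, h7⟩, h8, h9⟩ := hL0 L ((le_max_left _ _).trans hL)
  refine ⟨?_, h9, h7⟩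
  have h10 : Real.exp (-(1 / 200) * L) = (Real.exp (L / 200))⁻¹ := by
    rw [← Real.exp_neg]; congr 1; ring
  rw [h10, ← div_eq_mul_inv, div_lt_one (Real.exp_pos _)] at h6
  exact h6.le

/-- **the energy on the major arcs at one scale** -/
theorem EE_scale {c0 : ℝ} (hc0 : 0 < c0) (hc01 : c0 ≤ 1) (A : ℕ) : ∃ c1 L0 : ℝ, 0 < c1 ∧ c1 ≤ 1 / 200 ∧ 200 ≤ L0 ∧
    ∀ Y Q : ℕ, 1 ≤ Y → 1 ≤ Q → L0 ≤ Real.log Y → Zs c0 Q → Real.log (Real.log Y) ^ 2 ≤ Real.log Q →
    Real.log Q * Real.log (Real.log Y) ≤ c1 * Real.log Y → ∀ z : ℕ, 1 ≤ z → z ≤ 21 * Y → ∀ a : ℝ,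
    Real.log z + 1 / (Q : ℝ) ^ 3 ≤ a → 3 / 4 * Real.log Y ≤ a → a ≤ Real.log Y →
    ∫ x in Set.Icc a (Real.log Y), EE (1 / (Q : ℝ) ^ 3) Q (Ioc z (21 * Y)) (fun n => liR n / n) x ≤
      1 / Real.log Y ^ A := by
  set D : ℕ := A + 20 with hD
  obtain ⟨κ, C, hκ, hC, hM⟩ := M_bd hc0 hc01 D
  obtain ⟨Cm, hCm, hmz⟩ := m0_bound (D + 1)
  set C1 : ℝ := Cm * 16 ^ (D + 1) + 1 with hC1
  have hC10 : 0 < C1 := by positivity
  set C2 : ℝ := 3 + 3 * C1 ^ 2 + 18432 * C ^ 2 with hC2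
  have hC20 : 0 < C2 := by positivity
  obtain ⟨L0, hL0, hev⟩ := ev_exp (2 * D + 2) (C2 + D + 4)
  refine ⟨min (1 / (32 * κ)) (1 / 200), L0, by positivity, min_le_right _ _, hL0,
    fun Y Q hY hQ hL hZ hq1 hq2 z hz hzN a ha1 ha2 ha3 => ?_⟩
  set L : ℝ := Real.log Y with hLd
  obtain ⟨hE, hL1, hL2⟩ := hev L hL
  set l : ℝ := Real.log L with hl
  set q : ℝ := Real.log Q with hq
  have hL200 : 200 ≤ L := hL0.trans hL
  have hLp : 0 < L := by linarith
  have hD0 : (0 : ℝ) ≤ D := Nat.cast_nonneg _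
  have hl4 : (D : ℝ) + 4 ≤ l := by linarith
  have hl1 : 1 ≤ l := by linarith
  have hY0 : (0 : ℝ) < Y := by exact_mod_cast hY
  have hQ0 : (0 : ℝ) < Q := by exact_mod_cast hQ
  have hQ1 : (1 : ℝ) ≤ Q := by exact_mod_cast hQ
  have hq0 : 0 ≤ q := Real.log_nonneg hQ1
  have hqe : (Q : ℝ) = Real.exp q := (Real.exp_log hQ0).symm
  have hqL : q ≤ L / 200 := by
    have h1 : min (1 / (32 * κ)) (1 / 200) * L ≤ 1 / 200 * L := by
      gcongr
      exact min_le_right _ _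
    have h2 : q * 1 ≤ q * l := mul_le_mul_of_nonneg_left hl1 hq0
    linarith
  have hql : κ * (q * l) ≤ L / 32 := by
    have h1 : q * l ≤ 1 / (32 * κ) * L := hq2.trans (by gcongr; exact min_le_left _ _)
    calc κ * (q * l) ≤ κ * (1 / (32 * κ) * L) := by gcongr
      _ = L / 32 := by field_simp
  have hDq : (D : ℝ) * l + 3 ≤ q := by
    have h1 : ((D : ℝ) + 4) * l ≤ l * l := mul_le_mul_of_nonneg_right hl4 (by linarith)
    have h2 : l * l = l ^ 2 := by ring
    linarith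
  have hq3 : 3 ≤ q := by
    have h1 : 0 ≤ (D : ℝ) * l := mul_nonneg hD0 (by linarith)
    linarith
  -- parameters
  set h : ℝ := 1 / (Q : ℝ) ^ 3 with hh
  have hh0 : 0 < h := by positivity
  have hh1 : h ≤ 1 := by
    rw [hh, div_le_one (by positivity)]
    exact one_le_pow₀ hQ1
  have hhe : 1 / h = Real.exp (3 * q) := by
    rw [hh, one_div_one_div, hqe, ← Real.exp_nat_mul]
    norm_num
  set u0 : ℕ := ⌈κ * (q * l)⌉₊ + 2 with hu0
  set U : ℕ := ⌈L⌉₊ + 1 with hU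
  set w : ℕ := ⌊Real.exp (L / 8)⌋₊ with hw
  have hu0a : κ * (q * l) ≤ u0 := by
    rw [hu0]; push_cast
    have := Nat.le_ceil (κ * (q * l))
    linarith
  have hu0b : (u0 : ℝ) ≤ L / 16 - 1 := by
    rw [hu0]; push_cast
    have := (Nat.ceil_lt_add_one (by positivity : 0 ≤ κ * (q * l))).le
    linarith
  have hu02 : 2 ≤ u0 := by omega
  have hUa : L + 1 ≤ U := by
    rw [hU]; push_cast
    have := Nat.le_ceil L
    linarith
  have hUb : (U : ℝ) ≤ L + 2 := by
    rw [hU]; push_cast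
    have := (Nat.ceil_lt_add_one hLp.le).le
    linarith
  have hexp8 : (4 : ℝ) ≤ Real.exp (L / 200) := by
    have h1 : L ≤ L ^ (2 * D + 2) := le_self_pow₀ (by linarith) (by omega)
    linarith
  have hwa : (w : ℝ) ≤ Real.exp (L / 8) := Nat.floor_le (Real.exp_pos _).le
  have hwb : Real.exp (L / 8) / 2 ≤ w := by
    have h1 := (Nat.lt_floor_add_one (Real.exp (L / 8))).le
    rw [← hw] at h1
    have h2 : Real.exp (L / 200) ≤ Real.exp (L / 8) := Real.exp_le_exp.2 (by linarith)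
    linarith
  have hw2 : 2 ≤ w := by
    have h2 : Real.exp (L / 200) ≤ Real.exp (L / 8) := Real.exp_le_exp.2 (by linarith)
    have : (2 : ℝ) ≤ w := by linarith
    exact_mod_cast this
  have hw0 : (0 : ℝ) < w := by exact_mod_cast (by omega : 0 < w)
  have hlwa : Real.log w ≤ L / 8 := (Real.log_le_iff_le_exp hw0).2 hwa
  have hlwb : L / 16 ≤ Real.log w := by
    rw [Real.le_log_iff_exp_le hw0]
    refine le_trans ?_ hwb
    have h1 : Real.exp (L / 8) = Real.exp (L / 16) * Real.exp (L / 16) := by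
      rw [← Real.exp_add]; congr 1; ring
    have h2 : Real.exp (L / 200) ≤ Real.exp (L / 16) := Real.exp_le_exp.2 (by linarith)
    have h3 : 2 * Real.exp (L / 16) ≤ Real.exp (L / 16) * Real.exp (L / 16) :=
      mul_le_mul_of_nonneg_right (by linarith) (Real.exp_pos _).le
    rw [h1]
    linarith
  set Nb : ℕ := 21 * Y with hNb
  have hNbr : (Nb : ℝ) = 21 * Y := by rw [hNb]; push_cast; ring
  have hNb0 : (0 : ℝ) < Nb := by rw [hNbr]; positivity
  have he3 : Real.exp 3 ≤ 21 := by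
    have := Real.exp_one_lt_d9
    have h4 : Real.exp 3 = Real.exp 1 ^ 3 := by rw [← Real.exp_nat_mul]; norm_num
    rw [h4]
    have h5 : Real.exp 1 ^ 3 ≤ (2.7182818286 : ℝ) ^ 3 := pow_le_pow_left₀ (by positivity) this.le 3
    norm_num at h5
    linarith
  have hNexp : Real.exp (U + 1) ≤ Nb := by
    calc Real.exp (U + 1) ≤ Real.exp (L + 3) := Real.exp_le_exp.2 (by linarith)
      _ = Y * Real.exp 3 := by rw [Real.exp_add, hLd, Real.exp_log hY0]
      _ ≤ Y * 21 := by gcongr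
      _ = Nb := by rw [hNbr]; ring
  have hlNa : L + 3 ≤ Real.log Nb := by
    rw [Real.le_log_iff_exp_le hNb0]
    calc Real.exp (L + 3) = Y * Real.exp 3 := by rw [Real.exp_add, hLd, Real.exp_log hY0]
      _ ≤ Y * 21 := by gcongr
      _ = Nb := by rw [hNbr]; ring
  have hlNb : Real.log Nb ≤ L + 4 := by
    rw [Real.log_le_iff_le_exp hNb0, Real.exp_add, hLd, Real.exp_log hY0, hNbr]
    have h5 : (21 : ℝ) ≤ Real.exp 4 := by
      have h4 : Real.exp 4 = Real.exp 1 ^ 4 := by rw [← Real.exp_nat_mul]; norm_num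
      rw [h4]
      have := Real.exp_one_gt_d9
      have h5 : (2.7182818283 : ℝ) ^ 4 ≤ Real.exp 1 ^ 4 := pow_le_pow_left₀ (by norm_num) this.le 4
      norm_num at h5
      linarith
    have h6 : 21 * (Y : ℝ) ≤ Real.exp 4 * Y := mul_le_mul_of_nonneg_right h5 hY0.le
    linarith
  have hLsq : 200 * L ≤ L ^ 2 := by
    have h1 : 200 * L ≤ L * L := mul_le_mul_of_nonneg_right hL200 hLp.le
    have h2 : L * L = L ^ 2 := by ring
    linarith
  -- the conditions
  have hLS : (1 + (Q : ℝ) ^ 2) / h ≤ w := by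
    refine le_trans ?_ hwb
    have h1 : (1 + (Q : ℝ) ^ 2) / h ≤ 2 * Real.exp (5 * q) := by
      rw [div_eq_mul_one_div, hhe]
      have h2 : (Q : ℝ) ^ 2 = Real.exp (2 * q) := by rw [hqe, ← Real.exp_nat_mul]; norm_num
      have h3 : (1 : ℝ) ≤ (Q : ℝ) ^ 2 := one_le_pow₀ hQ1
      calc (1 + (Q : ℝ) ^ 2) * Real.exp (3 * q) ≤ (2 * (Q : ℝ) ^ 2) * Real.exp (3 * q) := by
            gcongr; linarith
        _ = 2 * Real.exp (5 * q) := by
            rw [h2, mul_assoc, ← Real.exp_add]; congr 2; ring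
    have h2 : Real.exp (5 * q) ≤ Real.exp (L / 40) := Real.exp_le_exp.2 (by linarith)
    have h3 : Real.exp (L / 8) = Real.exp (L / 40) * Real.exp (L / 10) := by
      rw [← Real.exp_add]; congr 1; ring
    have h4 : Real.exp (L / 200) ≤ Real.exp (L / 10) := Real.exp_le_exp.2 (by linarith)
    have h5 : Real.exp (L / 40) * 4 ≤ Real.exp (L / 40) * Real.exp (L / 10) :=
      mul_le_mul_of_nonneg_left (by linarith) (Real.exp_pos _).le
    rw [h3]
    linarith
  have hLL : L ^ 2 ≤ Real.exp (L / 200) := by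
    refine le_trans ?_ hE
    exact pow_le_pow_right₀ (by linarith) (by omega)
  have hw' : (w : ℝ) ≤ Real.exp (L / 8) := hwa
  have hca : 1 / h * Real.exp (-(L / 2 - 1) / 2) * (1 + Real.log Nb) * w ≤ Real.exp (-(L / 16)) := by
    rw [hhe]
    have h1 : 1 + Real.log Nb ≤ Real.exp (L / 200) := by
      refine le_trans ?_ hLL
      linarith
    calc Real.exp (3 * q) * Real.exp (-(L / 2 - 1) / 2) * (1 + Real.log Nb) * w
        ≤ Real.exp (3 * q) * Real.exp (-(L / 2 - 1) / 2) * Real.exp (L / 200) * Real.exp (L / 8) := by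
          gcongr
      _ = Real.exp (3 * q + (-(L / 2 - 1) / 2) + L / 200 + L / 8) := by
          rw [Real.exp_add, Real.exp_add, Real.exp_add]
      _ ≤ Real.exp (-(L / 16)) := Real.exp_le_exp.2 (by linarith)
  have hcb : (1 + (u0 : ℝ)) * (w * (Q * (12 * Real.exp (u0 - L / 2) / h ^ 2))) ≤ Real.exp (-(L / 16)) := by
    have h1 : 12 * (1 + (u0 : ℝ)) ≤ Real.exp (L / 200) := by
      refine le_trans ?_ hLL
      linarith
    have h2 : 1 / h ^ 2 = Real.exp (6 * q) := by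
      rw [← one_div_pow, hhe, ← Real.exp_nat_mul]
      congr 1
      push_cast
      ring
    calc (1 + (u0 : ℝ)) * (w * (Q * (12 * Real.exp (u0 - L / 2) / h ^ 2)))
        = (12 * (1 + (u0 : ℝ))) * w * Q * Real.exp (u0 - L / 2) * (1 / h ^ 2) := by ring
      _ ≤ Real.exp (L / 200) * Real.exp (L / 8) * Real.exp q * Real.exp (L / 16 - 1 - L / 2) * Real.exp (6 * q) := by
          rw [h2, hqe]
          gcongr
      _ = Real.exp (L / 200 + L / 8 + q + (L / 16 - 1 - L / 2) + 6 * q) := by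
          rw [Real.exp_add, Real.exp_add, Real.exp_add, Real.exp_add]
      _ ≤ Real.exp (-(L / 16)) := Real.exp_le_exp.2 (by linarith)
  have hLD0 : 0 < L ^ D := by positivity
  have hexpD : Real.exp (-(L / 16)) ≤ 1 / L ^ D := by
    rw [Real.exp_neg, ← one_div]
    apply one_div_le_one_div_of_le hLD0
    calc L ^ D ≤ L ^ (2 * D + 2) := pow_le_pow_right₀ (by linarith) (by omega)
      _ ≤ Real.exp (L / 200) := hE
      _ ≤ _ := Real.exp_le_exp.2 (by linarith)
  have hcc : (1 + (u0 : ℝ)) * (|mz w| + w * (32 * Real.exp (u0 - L / 2) / h ^ 2)) ≤ C1 / L ^ D := by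
    have h1 : |mz w| ≤ Cm * 16 ^ (D + 1) / L ^ (D + 1) := by
      have h2 := hmz w hw2
      have h3 : (L / 16) ^ (D + 1) ≤ Real.log w ^ (D + 1) := pow_le_pow_left₀ (by positivity) hlwb _
      calc |mz w| ≤ Cm / Real.log w ^ (D + 1) := h2
        _ ≤ Cm / (L / 16) ^ (D + 1) := by gcongr
        _ = _ := by rw [div_pow]; field_simp
    have h2 : (1 + (u0 : ℝ)) ≤ L := by linarith
    have h3 : (1 + (u0 : ℝ)) * |mz w| ≤ Cm * 16 ^ (D + 1) / L ^ D := by
      calc (1 + (u0 : ℝ)) * |mz w| ≤ L * (Cm * 16 ^ (D + 1) / L ^ (D + 1)) := by gcongr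
        _ = _ := by rw [pow_succ L D]; field_simp
    have h4 : (1 + (u0 : ℝ)) * (w * (32 * Real.exp (u0 - L / 2) / h ^ 2)) ≤ 1 / L ^ D := by
      refine le_trans ?_ hexpD
      have h1 : 32 * (1 + (u0 : ℝ)) ≤ Real.exp (L / 200) := by
        refine le_trans ?_ hLL
        linarith
      have h2 : 1 / h ^ 2 = Real.exp (6 * q) := by
        rw [← one_div_pow, hhe, ← Real.exp_nat_mul]
        congr 1
        push_cast
        ring
      calc (1 + (u0 : ℝ)) * (w * (32 * Real.exp (u0 - L / 2) / h ^ 2))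
          = (32 * (1 + (u0 : ℝ))) * w * Real.exp (u0 - L / 2) * (1 / h ^ 2) := by ring
        _ ≤ Real.exp (L / 200) * Real.exp (L / 8) * Real.exp (L / 16 - 1 - L / 2) * Real.exp (6 * q) := by
            rw [h2]
            gcongr
        _ = Real.exp (L / 200 + L / 8 + (L / 16 - 1 - L / 2) + 6 * q) := by
            rw [Real.exp_add, Real.exp_add, Real.exp_add]
        _ ≤ Real.exp (-(L / 16)) := Real.exp_le_exp.2 (by linarith)
    rw [mul_add]
    calc _ ≤ Cm * 16 ^ (D + 1) / L ^ D + 1 / L ^ D := add_le_add h3 h4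
      _ = _ := by rw [hC1]; ring
  have hPE := PE_int (F := Q) (w := w) (N := Nb) (u0 := u0) (U := U) (h := h) (x1 := L / 2) (x2 := L)
    (M := C * (L ^ 2 / L ^ D)) (e0 := Real.exp (-(L / 16))) (e1 := C1 / L ^ D) hh0 hh1 (by omega) hLS
    (by
      have : (u0 : ℝ) ≤ U := by linarith
      exact_mod_cast this) (by linarith) (by linarith) (by linarith) hNexp (by positivity)
    (by
      intro u hu r hr ψ hψ ξ
      rw [mem_Icc] at hu
      have h1 : (u0 : ℝ) ≤ u := by exact_mod_cast hu.1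
      have h2 : (u : ℝ) ≤ U := by exact_mod_cast hu.2
      exact hM L (by linarith) Q hQ hZ hDq (by linarith) u (by
        have : 2 ≤ u := hu02.trans hu.1
        exact_mod_cast this) (by linarith) (by linarith) r hr ψ hψ ξ) hca hcb hcc
  set B0 : ℝ := C2 * (L ^ 10 / L ^ (2 * D)) with hB0
  have hL2D : 0 < L ^ (2 * D) := by positivity
  have hPE2 : ∫ x in Set.Icc (L / 2) L, PE (triC h) Q (Ioc 0 Nb) (fun n => liR n / n) x ≤ B0 := by
    refine hPE.trans ?_
    have h1 : (L - L / 2) * (6 * (Q : ℝ) ^ 2 * Real.exp (-(L / 16)) ^ 2 + 3 * (C1 / L ^ D) ^ 2) ≤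
        (3 + 3 * C1 ^ 2) * (L ^ 10 / L ^ (2 * D)) := by
      have h2 : (Q : ℝ) ^ 2 * Real.exp (-(L / 16)) ^ 2 ≤ 1 / L ^ (2 * D) := by
        rw [hqe, ← Real.exp_nat_mul, ← Real.exp_nat_mul, ← Real.exp_add]
        have h3 : 1 / L ^ (2 * D) ≥ Real.exp (-(L / 200)) := by
          rw [Real.exp_neg, ← one_div]
          apply one_div_le_one_div_of_le hL2D
          exact le_trans (pow_le_pow_right₀ (by linarith) (by omega)) hE
        refine le_trans (Real.exp_le_exp.2 ?_) h3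
        push_cast
        linarith
      have h3 : (C1 / L ^ D) ^ 2 = C1 ^ 2 / L ^ (2 * D) := by
        rw [div_pow, ← pow_mul]; congr 2; ring
      rw [h3]
      have h4 : L - L / 2 ≤ L ^ 10 / 2 := by
        have : L ≤ L ^ 10 := le_self_pow₀ (by linarith) (by norm_num)
        linarith
      have h5 : 6 * (Q : ℝ) ^ 2 * Real.exp (-(L / 16)) ^ 2 + 3 * (C1 ^ 2 / L ^ (2 * D)) ≤
          (6 + 3 * C1 ^ 2) * (1 / L ^ (2 * D)) := by
        have : 6 * (Q : ℝ) ^ 2 * Real.exp (-(L / 16)) ^ 2 ≤ 6 * (1 / L ^ (2 * D)) := by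
          rw [mul_assoc]; gcongr
        calc _ ≤ 6 * (1 / L ^ (2 * D)) + 3 * (C1 ^ 2 / L ^ (2 * D)) := by linarith
          _ = _ := by ring
      calc _ ≤ (L ^ 10 / 2) * ((6 + 3 * C1 ^ 2) * (1 / L ^ (2 * D))) := by
            apply mul_le_mul h4 h5 (by positivity) (by positivity)
        _ = (3 + 3 / 2 * C1 ^ 2) * (L ^ 10 / L ^ (2 * D)) := by ring
        _ ≤ _ := by
            gcongr
            norm_num
    have h2 : 3 * ((U : ℝ) + 1) ^ 2 * (C * (L ^ 2 / L ^ D)) ^ 2 * (96 * (1 + Real.log Nb) ^ 4) ≤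
        (18432 * C ^ 2) * (L ^ 10 / L ^ (2 * D)) := by
      have h3 : (U : ℝ) + 1 ≤ 2 * L := by linarith
      have h4 : 1 + Real.log Nb ≤ 2 * L := by linarith
      have h5 : 0 ≤ 1 + Real.log Nb := by linarith
      have h6 : (C * (L ^ 2 / L ^ D)) ^ 2 = C ^ 2 * (L ^ 4 / L ^ (2 * D)) := by
        rw [mul_pow, div_pow, ← pow_mul, ← pow_mul]
        congr 3
        ring
      rw [h6]
      calc _ ≤ 3 * (2 * L) ^ 2 * (C ^ 2 * (L ^ 4 / L ^ (2 * D))) * (96 * (2 * L) ^ 4) := by gcongr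
        _ = _ := by ring
    calc _ ≤ (3 + 3 * C1 ^ 2) * (L ^ 10 / L ^ (2 * D)) + (18432 * C ^ 2) * (L ^ 10 / L ^ (2 * D)) := add_le_add h1 h2
      _ = _ := by rw [hB0, hC2]; ring
  have hB00 : 0 < B0 := by positivity
  have hfin := EE_int_le (F := Q) (z := z) (N := Nb) (h := h) (x1 := L / 2) (x2 := L) (a := a) (B := B0)
    hh0 hQ hz hzN ha1 (by linarith) ha3 (by linarith) hPE2
  refine hfin.trans ?_
  have h1 : (1 + Real.log Q) ^ 8 ≤ L ^ 8 := pow_le_pow_left₀ (by linarith) (by linarith) 8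
  have h2 : C2 * L ^ (18 + A) ≤ L ^ (2 * D) := by
    have h3 : C2 ≤ L := by linarith
    calc C2 * L ^ (18 + A) ≤ L * L ^ (18 + A) := by gcongr
      _ = L ^ (19 + A) := by rw [← pow_succ']; congr 1; ring
      _ ≤ _ := pow_le_pow_right₀ (by linarith) (by omega)
  calc (1 + Real.log Q) ^ 8 * B0 ≤ L ^ 8 * B0 := by gcongr
    _ = (C2 * L ^ (18 + A)) / (L ^ (2 * D) * L ^ A) := by
        rw [hB0, pow_add L 18 A]
        field_simp
    _ ≤ L ^ (2 * D) / (L ^ (2 * D) * L ^ A) := by gcongr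
    _ = 1 / L ^ A := by field_simp

end Pool.Agent.P8H14.QP
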