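import Pool.Agent.P8H14.QP.B14
import Pool.Agent.TH823.PS.Fin3

set_option autoImplicit false

/-!
# Several families at the same scales; polynomial values
-/

open Finset Filter Topology

namespace Pool.Agent.P8H14.QP

open Pool.Agent.TH823.PS
open Pool.Agent.H373R2.T7 (fz exI energy moment_energy liR liR_norm)
open Polynomial (eval)
open Pool.Agent.TH823.Fam (energy_poly' poly_size)

/-- the saving `N ^ (c / log log N)` -/
noncomputable def sav (c : ℝ) (N : ℕ) : ℝ := Real.exp (c * Real.log N / Real.log (Real.log N))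

lemma sav_pos (c : ℝ) (N : ℕ) : 0 < sav c N := Real.exp_pos _

lemma FQ_mono {B p A : ℕ} {y y' : ℝ} {N : ℕ} (h0 : 0 < y') (hy : y' ≤ y) (h : FQ B p A y N) : FQ B p A y' N := by
  intro x s hs hE L hL a g ha hg
  refine (h x s hs (hE.trans ?_) L (hL.trans hy) a g ha hg).trans ?_
  · exact mul_le_mul_of_nonneg_right hy (by positivity)
  · exact div_le_div_of_nonneg_left (by positivity) h0 hy

lemma sav_mono {c c' : ℝ} (h : c' ≤ c) {N : ℕ} (hN : 16 ≤ N) : sav c' N ≤ sav c N := by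
  unfold sav
  apply Real.exp_le_exp.2
  have h1 : (16 : ℝ) ≤ N := by exact_mod_cast hN
  have h2 : 1 ≤ Real.log N := by
    rw [Real.le_log_iff_exp_le (by linarith)]
    have := Real.exp_one_lt_d9
    linarith
  have h3 : 0 ≤ Real.log (Real.log N) := Real.log_nonneg h2
  gcongr

/-- the saving tends to infinity -/
lemma sav_large {c : ℝ} (hc : 0 < c) (M : ℝ) : ∃ N₀ : ℕ, 16 ≤ N₀ ∧ ∀ N : ℕ, N₀ ≤ N → M ≤ sav c N := by
  have h1 : Tendsto (fun N : ℕ => Real.log (Real.log (N : ℝ))) atTop atTop :=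
    Real.tendsto_log_atTop.comp (Real.tendsto_log_atTop.comp tendsto_natCast_atTop_atTop)
  have h0 : Tendsto (fun N : ℕ => Real.log (N : ℝ)) atTop atTop :=
    Real.tendsto_log_atTop.comp tendsto_natCast_atTop_atTop
  -- log N / log log N ≥ sqrt(log N)/... we use log x ≤ 2 sqrt x
  have h2 : ∀ᶠ N : ℕ in atTop, (|M| / c + 1) ^ 2 * 4 ≤ Real.log (N : ℝ) := h0.eventually_ge_atTop _
  have h3 : ∀ᶠ N : ℕ in atTop, (1 : ℝ) ≤ Real.log (Real.log (N : ℝ)) := h1.eventually_ge_atTop _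
  obtain ⟨N₀, hN₀⟩ := eventually_atTop.1 (h2.and h3)
  refine ⟨max N₀ 16, le_max_right _ _, fun N hN => ?_⟩
  obtain ⟨h4, h5⟩ := hN₀ N ((le_max_left _ _).trans hN)
  set x := Real.log (N : ℝ) with hx
  have hb : 0 < |M| / c + 1 := by positivity
  have hx0 : 0 < x := lt_of_lt_of_le (by positivity) h4
  have hs : 2 * (|M| / c + 1) ≤ √x := by
    apply Real.le_sqrt_of_sq_le
    calc (2 * (|M| / c + 1)) ^ 2 = (|M| / c + 1) ^ 2 * 4 := by ring
      _ ≤ x := h4
  have hsx : √x * √x = x := Real.mul_self_sqrt hx0.le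
  have hl : Real.log x ≤ 2 * √x := by
    have h6 : Real.log (√x) ≤ √x - 1 := Real.log_le_sub_one_of_pos (Real.sqrt_pos.2 hx0)
    have h7 : Real.log x = 2 * Real.log (√x) := by
      rw [Real.log_sqrt hx0.le]; ring
    linarith
  have hq : |M| / c + 1 ≤ x / Real.log x := by
    rw [le_div_iff₀ (by linarith)]
    calc (|M| / c + 1) * Real.log x ≤ (|M| / c + 1) * (2 * √x) := by gcongr
      _ = (2 * (|M| / c + 1)) * √x := by ring
      _ ≤ √x * √x := by gcongr
      _ = x := hsx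
  unfold sav
  have h8 : |M| ≤ c * x / Real.log x := by
    have h9 : c * (|M| / c + 1) ≤ c * (x / Real.log x) := mul_le_mul_of_nonneg_left hq hc.le
    have h10 : c * (|M| / c + 1) = |M| + c := by field_simp
    have h11 : c * (x / Real.log x) = c * x / Real.log x := by ring
    linarith
  have h9 := Real.add_one_le_exp (c * x / Real.log x)
  linarith [le_abs_self M]

/-- several families at the same scales -/
theorem most_FQs {ι : Type*} [Fintype ι] (B p : ι → ℕ) (A : ℕ) (hB : ∀ i, 1 ≤ B i) (hp : ∀ i, 1 ≤ p i)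
    {ε : ℝ} (hε : 0 < ε) : ∃ c : ℝ, 0 < c ∧ ∀ N₁ : ℕ,
    Most ε (fun N => N₁ ≤ N ∧ ∀ i, FQ (B i) (p i) A (sav c N) N) := by
  classical
  obtain ⟨c0, hc0, hc01, hGS⟩ := most_GS
  choose c1 hc1 N0 hfam using fun i => famQ hc0 hc01 (B i) (p i) A (hB i) (hp i)
  set S : ℝ := ∑ i, 1 / c1 i + 1 with hS
  have hS0 : 0 < S := by
    have : 0 ≤ ∑ i, 1 / c1 i := sum_nonneg fun i _ => by have := hc1 i; positivity
    linarith
  have hSi : ∀ i, 1 / S ≤ c1 i := by
    intro i
    have h1 : 1 / c1 i ≤ S := by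
      have h2 : 1 / c1 i ≤ ∑ i, 1 / c1 i :=
        single_le_sum (f := fun i => 1 / c1 i) (fun j _ => by have := hc1 j; positivity) (mem_univ i)
      linarith
    rw [div_le_iff₀ hS0]
    rw [div_le_iff₀ (hc1 i)] at h1
    linarith
  obtain ⟨c, hc, hM⟩ := hGS (1 / S) (by positivity) (ε / 2) (by positivity)
  set P : ℕ := ∑ i, p i with hP
  refine ⟨c / (16 * P + 8), by positivity, fun N₁ => ?_⟩
  refine most_mono (N₁ := N₁ + ∑ i, N0 i + 16) hε hM fun N hN hG => ⟨by omega, fun i => ?_⟩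
  obtain ⟨Q, hQ1, hZ, h1, h2, h3⟩ := hG
  have hN16 : 16 ≤ N := by omega
  have hN0 : N0 i ≤ N := by
    have : N0 i ≤ ∑ i, N0 i := single_le_sum (fun _ _ => Nat.zero_le _) (mem_univ i)
    omega
  have hpP : p i ≤ P := single_le_sum (fun _ _ => Nat.zero_le _) (mem_univ i)
  have hNp : (0 : ℝ) < N := by exact_mod_cast (by omega : 0 < N)
  have hlN : 1 ≤ Real.log N := by
    rw [Real.le_log_iff_exp_le hNp]
    have := Real.exp_one_lt_d9
    have : (16 : ℝ) ≤ N := by exact_mod_cast hN16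
    linarith
  have hllN : 0 ≤ Real.log (Real.log N) := Real.log_nonneg hlN
  have hQ0 : 0 ≤ Real.log Q := Real.log_natCast_nonneg Q
  refine hfam i N hN0 Q hQ1 hZ h1 (h2.trans ?_) _ ?_ ?_
  · exact mul_le_mul_of_nonneg_right (hSi i) (by linarith)
  · apply Real.one_le_exp
    positivity
  · apply Real.exp_le_exp.2
    have h4 : c / (16 * P + 8) * Real.log N / Real.log (Real.log N) =
        (c * Real.log N / Real.log (Real.log N)) / (16 * P + 8) := by ring
    rw [h4]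
    have h5 : (p i : ℝ) ≤ P := by exact_mod_cast hpP
    calc (c * Real.log N / Real.log (Real.log N)) / (16 * P + 8) ≤ Real.log Q / (16 * P + 8) := by gcongr
      _ ≤ Real.log Q / (16 * p i + 8) := by gcongr

open Classical in
/-- the values of a polynomial with a large correlation are rare: saving `y` -/
def PQ (B A : ℕ) (P : Polynomial ℤ) (y : ℝ) (N : ℕ) : Prop :=
  ∀ x : ℕ, x ^ P.natDegree ≤ B * N → (N : ℝ) ≤ y * (x : ℝ) ^ P.natDegree → ∀ c : ℤ, |c| ≤ B * N →
    ∀ (L : ℕ), (L : ℝ) ≤ y → ∀ (a : Fin L → ℕ) (g : Fin L → ℕ → ℂ), (∀ l, 1 ≤ a l) →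
      (∀ l, ∑ n ∈ Icc 1 (B * N / a l), ‖g l n‖ ^ 2 ≤ N * Real.log N ^ A) →
      (((Icc 1 x).filter (fun m : ℕ => ¬ ∀ l, ∀ X : ℕ, a l * X ≤ B * N →
        ‖∑ n ∈ Icc 1 X, g l n * exI liR (a l * n + (c + P.eval (m : ℤ)))‖ ≤ N / Real.log N ^ A)).card : ℝ) ≤ x / y

/-- from families to the values of one polynomial -/
theorem polyQ (B A : ℕ) (P : Polynomial ℤ) (hd : 1 ≤ P.natDegree) :
    ∃ (p B' : ℕ) (C1 : ℝ), 1 ≤ p ∧ 1 ≤ B' ∧ B ≤ B' ∧ 1 ≤ C1 ∧ ∀ N : ℕ, 1 ≤ N → ∀ y : ℝ, 1 ≤ y →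
      FQ B' p A (C1 * y) N → PQ B A P y N := by
  classical
  obtain ⟨p0, C1, hC1, h1⟩ := energy_poly' P hd
  obtain ⟨A0, hA0⟩ := poly_size P
  refine ⟨p0 + 1, B + A0 * B + 1, C1 + 1, by omega, by omega, by
    have : 0 ≤ A0 * B := Nat.zero_le _
    omega, by linarith, fun N hN y hy hG => ?_⟩
  have hNr : (1 : ℝ) ≤ N := by exact_mod_cast hN
  intro x hx1 hx2 c hc L hL a g ha hg
  have hx : 1 ≤ x := by
    by_contra hcon
    have : x = 0 := by omega
    subst this
    rw [Nat.cast_zero, zero_pow (by omega), mul_zero] at hx2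
    linarith
  have hx0 : (0 : ℝ) < x := by exact_mod_cast hx
  have hsz : ∀ m ∈ Icc 1 x, |c + P.eval (m : ℤ)| ≤ ((B + A0 * B + 1 : ℕ) : ℤ) * N := by
    intro m hm
    refine (abs_add_le _ _).trans ?_
    have h3 := hA0 x hx m hm
    have h4 : (x : ℤ) ^ P.natDegree ≤ B * N := by exact_mod_cast hx1
    push_cast
    calc |c| + |eval (m : ℤ) P| ≤ B * N + A0 * (B * N) := by
          apply add_le_add hc (h3.trans _)
          exact mul_le_mul_of_nonneg_left h4 (by positivity)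
      _ ≤ (B + A0 * B + 1) * N := by
          have : (0 : ℤ) ≤ N := Int.natCast_nonneg N
          nlinarith
  have hen : (energy (p0 + 1) x (fun m => c + P.eval (m : ℤ)) : ℝ) * N ≤
      (C1 + 1) * y * (x : ℝ) ^ (2 * (p0 + 1)) := by
    have h3 := h1 x hx c
    have h4 := energy_mono (Nat.le_succ p0) x (fun m => c + P.eval (m : ℤ))
    have h5 : 2 * (p0.succ - p0) = 2 := by omega
    rw [h5] at h4
    have h6 : (x : ℝ) ^ (2 * (p0 + 1)) = (x : ℝ) ^ 2 * (x : ℝ) ^ (2 * p0) := by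
      rw [← pow_add]; congr 1; ring
    calc (energy (p0 + 1) x (fun m => c + P.eval (m : ℤ)) : ℝ) * N
        ≤ ((x : ℝ) ^ 2 * energy p0 x (fun m => c + P.eval (m : ℤ))) * (y * (x : ℝ) ^ P.natDegree) := by
          apply mul_le_mul h4 hx2 (Nat.cast_nonneg _) (by positivity)
      _ = (x : ℝ) ^ 2 * y * ((energy p0 x (fun m => c + P.eval (m : ℤ)) : ℝ) * (x : ℝ) ^ P.natDegree) := by ring
      _ ≤ (x : ℝ) ^ 2 * y * (C1 * (x : ℝ) ^ (2 * p0)) := mul_le_mul_of_nonneg_left h3 (by positivity)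
      _ ≤ (x : ℝ) ^ 2 * y * ((C1 + 1) * (x : ℝ) ^ (2 * p0)) := by
          gcongr
          linarith
      _ = _ := by rw [h6]; ring
  have hBB : B * N ≤ (B + A0 * B + 1) * N := Nat.mul_le_mul_right _ (by omega)
  have hyC : y ≤ (C1 + 1) * y := by nlinarith
  have h2 := hG x (fun m => c + P.eval (m : ℤ)) hsz hen L (hL.trans hyC) a
    (fun l n => if n ≤ B * N / a l then g l n else 0) ha (by
      intro l
      have h3 : ∑ n ∈ Icc 1 ((B + A0 * B + 1) * N / a l), ‖(if n ≤ B * N / a l then g l n else 0)‖ ^ 2 =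
          ∑ n ∈ Icc 1 (B * N / a l), ‖g l n‖ ^ 2 := by
        have h4 : Icc 1 (B * N / a l) = (Icc 1 ((B + A0 * B + 1) * N / a l)).filter (fun n => n ≤ B * N / a l) := by
          have := Nat.div_le_div_right (c := a l) hBB
          ext n; simp only [mem_Icc, mem_filter]; omega
        rw [h4, sum_filter]
        apply sum_congr rfl
        intro n _
        split_ifs <;> simp
      rw [h3]
      exact hg l)
  have h3 : ((Icc 1 x).filter (fun m : ℕ => ¬ ∀ l, ∀ X : ℕ, a l * X ≤ B * N →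
        ‖∑ n ∈ Icc 1 X, g l n * exI liR (a l * n + (c + P.eval (m : ℤ)))‖ ≤ N / Real.log N ^ A)) ⊆
      ((Icc 1 x).filter (fun m : ℕ => ¬ ∀ l, ∀ X : ℕ, a l * X ≤ (B + A0 * B + 1) * N →
        ‖∑ n ∈ Icc 1 X, (if n ≤ B * N / a l then g l n else 0) * exI liR (a l * n + (c + P.eval (m : ℤ)))‖ ≤
          N / Real.log N ^ A)) := by
    intro m hm
    rw [mem_filter] at hm ⊢
    refine ⟨hm.1, fun h => hm.2 fun l X hX => ?_⟩
    have h4 := h l X (hX.trans hBB)
    have h5 : ∑ n ∈ Icc 1 X, (if n ≤ B * N / a l then g l n else 0) * exI liR (a l * n + (c + P.eval (m : ℤ))) =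
        ∑ n ∈ Icc 1 X, g l n * exI liR (a l * n + (c + P.eval (m : ℤ))) := by
      apply sum_congr rfl
      intro n hn
      rw [mem_Icc] at hn
      rw [if_pos]
      have h6 : X ≤ B * N / a l := (Nat.le_div_iff_mul_le (by have := ha l; omega)).2 (by rw [mul_comm]; exact hX)
      omega
    rw [h5] at h4
    exact h4
  refine le_trans (by exact_mod_cast card_le_card h3) (h2.trans ?_)
  exact div_le_div_of_nonneg_left hx0.le (by linarith) hyC

end Pool.Agent.P8H14.QP
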