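import Pool.Agent.TH823.PS.Scale
import Pool.Agent.TH823.PS.Corr
import Pool.Agent.Helper112.Bilinear

set_option autoImplicit false

/-!
# Gauss sums of imprimitive characters
-/

open Finset

namespace Pool.Agent.P8H14.QP

open Pool.Agent.Helper112 (ee)
open Pool.Agent.TH823.PS (rr mem_rr tau pars orth' changeLevel_nat)

lemma sum_range_mul' (r : ℕ) (g : ℕ → ℂ) (k : ℕ) :
    ∑ b ∈ range (r * k), g b = ∑ j ∈ range k, ∑ b ∈ range r, g (r * j + b) := by
  induction k with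
  | zero => simp
  | succ k ih => rw [Nat.mul_succ, Finset.sum_range_add, ih, Finset.sum_range_succ]

lemma sum_range_zmod (r : ℕ) [NeZero r] (g : ZMod r → ℂ) : ∑ b ∈ range r, g (b : ZMod r) = ∑ a : ZMod r, g a := by
  refine sum_bij' (fun b _ => (b : ZMod r)) (fun a _ => a.val) ?_ ?_ ?_ ?_ ?_
  · intro b _; exact mem_univ _
  · intro a _; exact mem_range.2 (ZMod.val_lt a)
  · intro b hb; exact ZMod.val_cast_of_lt (mem_range.1 hb)
  · intro a _; exact ZMod.natCast_zmod_val a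
  · intro b _; rfl

/-- the Gauss sum -/
noncomputable def Gs {r : ℕ} (ψ : DirichletCharacter ℂ r) : ℂ :=
  ∑ b ∈ range r, (starRingEnd ℂ) (ψ (b : ZMod r)) * ee ((b : ℝ) / r)

lemma conj_char {r : ℕ} (ψ : DirichletCharacter ℂ r) (a : ZMod r) : (starRingEnd ℂ) (ψ a) = ψ⁻¹ a := by
  rw [← RCLike.star_def, MulChar.star_apply']

lemma std_ee (r : ℕ) [NeZero r] (a m : ℕ) :
    (ZMod.stdAddChar ((a : ZMod r) * (m : ZMod r)) : ℂ) = ee (m * a / r) := by
  have : ((a : ZMod r) * (m : ZMod r)) = (((a * m : ℕ) : ℤ) : ZMod r) := by push_cast; rfl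
  rw [this, ZMod.stdAddChar_coe]
  unfold ee
  congr 1
  push_cast
  ring

lemma prim_shift {r : ℕ} [NeZero r] {ψ : DirichletCharacter ℂ r} (hψ : ψ.IsPrimitive) (m : ℕ) :
    ∑ b ∈ range r, (starRingEnd ℂ) (ψ (b : ZMod r)) * ee (m * b / r) = ψ (m : ZMod r) * Gs ψ := by
  have hinv : (ψ⁻¹).IsPrimitive := by
    rw [DirichletCharacter.isPrimitive_def, DirichletCharacter.conductor_inv]
    exact hψ
  have h := gaussSum_mulShift_of_isPrimitive (ZMod.stdAddChar : AddChar (ZMod r) ℂ) hinv (m : ZMod r)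
  rw [inv_inv] at h
  have h1 : ∑ b ∈ range r, (starRingEnd ℂ) (ψ (b : ZMod r)) * ee (m * b / r) =
      gaussSum ψ⁻¹ ((ZMod.stdAddChar : AddChar (ZMod r) ℂ).mulShift (m : ZMod r)) := by
    rw [gaussSum, ← sum_range_zmod r (fun a => ψ⁻¹ a * (ZMod.stdAddChar : AddChar (ZMod r) ℂ).mulShift (m : ZMod r) a)]
    apply sum_congr rfl
    intro b _
    rw [conj_char, AddChar.mulShift_apply, mul_comm (m : ZMod r), std_ee]
  have h2 : Gs ψ = gaussSum ψ⁻¹ (ZMod.stdAddChar : AddChar (ZMod r) ℂ) := by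
    unfold Gs
    rw [gaussSum, ← sum_range_zmod r (fun a => ψ⁻¹ a * (ZMod.stdAddChar : AddChar (ZMod r) ℂ) a)]
    apply sum_congr rfl
    intro b _
    rw [conj_char]
    have := std_ee r b 1
    rw [Nat.cast_one, mul_one] at this
    rw [this]
    congr 2
    push_cast
    ring
  rw [h1, h, h2]

lemma norm_Gs {r : ℕ} [NeZero r] {ψ : DirichletCharacter ℂ r} (hψ : ψ.IsPrimitive) : ‖Gs ψ‖ ^ 2 = r := by
  have hinv : (ψ⁻¹).IsPrimitive := by
    rw [DirichletCharacter.isPrimitive_def, DirichletCharacter.conductor_inv]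
    exact hψ
  have h2 : Gs ψ = gaussSum ψ⁻¹ (ZMod.stdAddChar : AddChar (ZMod r) ℂ) := by
    unfold Gs
    rw [gaussSum, ← sum_range_zmod r (fun a => ψ⁻¹ a * (ZMod.stdAddChar : AddChar (ZMod r) ℂ) a)]
    apply sum_congr rfl
    intro b _
    rw [conj_char]
    have := std_ee r b 1
    rw [Nat.cast_one, mul_one] at this
    rw [this]
    congr 2
    push_cast
    ring
  rw [h2]
  exact Pool.Agent.Helper112.MLS.norm_gauss r hinv

lemma inner_sum {r : ℕ} [NeZero r] {ψ : DirichletCharacter ℂ r} (hψ : ψ.IsPrimitive) {k : ℕ} (hk : 0 < k) (n : ℕ) :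
    ∑ b ∈ range (r * k), (starRingEnd ℂ) (ψ (b : ZMod r)) * ee (n * b / ((r * k : ℕ) : ℝ)) =
      if k ∣ n then (k : ℂ) * ψ ((n / k : ℕ) : ZMod r) * Gs ψ else 0 := by
  have hr0 : (r : ℝ) ≠ 0 := by exact_mod_cast NeZero.ne r
  have hk0 : (k : ℝ) ≠ 0 := by exact_mod_cast hk.ne'
  rw [sum_range_mul', sum_comm]
  have h1 : ∀ b ∈ range r, ∑ j ∈ range k, (starRingEnd ℂ) (ψ ((r * j + b : ℕ) : ZMod r)) *
      ee (n * ((r * j + b : ℕ) : ℝ) / ((r * k : ℕ) : ℝ)) =
      ((starRingEnd ℂ) (ψ (b : ZMod r)) * ee (n * b / ((r * k : ℕ) : ℝ))) * (if (k : ℤ) ∣ (n : ℤ) then (k : ℂ) else 0) := by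
    intro b _
    rw [← orth' hk (n : ℤ), mul_sum]
    apply sum_congr rfl
    intro j _
    have e1 : ((r * j + b : ℕ) : ZMod r) = (b : ZMod r) := by push_cast; simp
    have e2 : (n : ℝ) * ((r * j + b : ℕ) : ℝ) / ((r * k : ℕ) : ℝ) =
        n * b / ((r * k : ℕ) : ℝ) + ((n : ℤ) : ℝ) * ((j : ℝ) / k) := by
      push_cast
      field_simp
      ring
    rw [e1, e2, ← Pool.Agent.TH823.PS.ee_mul_add, mul_assoc]
  rw [sum_congr rfl h1, ← sum_mul]
  by_cases hkn : k ∣ n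
  · rw [if_pos (Int.natCast_dvd_natCast.2 hkn), if_pos hkn]
    obtain ⟨m, rfl⟩ := hkn
    rw [Nat.mul_div_cancel_left m hk]
    have h2 : ∑ b ∈ range r, (starRingEnd ℂ) (ψ (b : ZMod r)) * ee (((k * m : ℕ) : ℝ) * b / ((r * k : ℕ) : ℝ)) =
        ψ (m : ZMod r) * Gs ψ := by
      rw [← prim_shift hψ m]
      apply sum_congr rfl
      intro b _
      congr 2
      push_cast
      field_simp
    rw [h2]
    ring
  · rw [if_neg (fun h => hkn (Int.natCast_dvd_natCast.1 h)), if_neg hkn, mul_zero]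

lemma coprime_ind {k : ℕ} (hk : 0 < k) (a : ℕ) :
    (if a.Coprime k then (1 : ℂ) else 0) = ∑ d ∈ k.divisors, if d ∣ a then ((ArithmeticFunction.moebius d : ℤ) : ℂ) else 0 := by
  rw [← sum_filter]
  have h1 : k.divisors.filter (fun d => d ∣ a) = (Nat.gcd a k).divisors := by
    ext d
    rw [mem_filter, Nat.mem_divisors, Nat.mem_divisors, Nat.dvd_gcd_iff]
    have : Nat.gcd a k ≠ 0 := Nat.gcd_ne_zero_right hk.ne'
    constructor
    · rintro ⟨⟨h1, _⟩, h3⟩; exact ⟨⟨h3, h1⟩, this⟩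
    · rintro ⟨⟨h1, h2⟩, _⟩; exact ⟨⟨h2, hk.ne'⟩, h1⟩
  rw [h1]
  have h2 := ArithmeticFunction.coe_mul_zeta_apply (f := (ArithmeticFunction.moebius : ArithmeticFunction ℤ)) (x := Nat.gcd a k)
  rw [ArithmeticFunction.moebius_mul_coe_zeta, ArithmeticFunction.one_apply] at h2
  have h3 : ∑ d ∈ (Nat.gcd a k).divisors, ((ArithmeticFunction.moebius d : ℤ) : ℂ) =
      (((if Nat.gcd a k = 1 then 1 else 0) : ℤ) : ℂ) := by
    rw [h2]
    push_cast
    rfl
  rw [h3]
  unfold Nat.Coprime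
  split_ifs <;> simp

lemma sum_dvd_range {d M : ℕ} (hd : 0 < d) (g : ℕ → ℂ) :
    ∑ a ∈ range (d * M), (if d ∣ a then g a else 0) = ∑ b ∈ range M, g (d * b) := by
  rw [← sum_filter]
  symm
  refine sum_bij' (fun b _ => d * b) (fun a _ => a / d) ?_ ?_ ?_ ?_ ?_
  · intro b hb
    rw [mem_filter, mem_range]
    exact ⟨Nat.mul_lt_mul_of_pos_left (mem_range.1 hb) hd, Dvd.intro _ rfl⟩
  · intro a ha
    rw [mem_filter, mem_range] at ha
    rw [mem_range]
    exact Nat.div_lt_of_lt_mul ha.1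
  · intro b _
    exact Nat.mul_div_cancel_left _ hd
  · intro a ha
    rw [mem_filter] at ha
    exact Nat.mul_div_cancel' ha.2
  · intro b _
    rfl

/-- **the Gauss sums of imprimitive characters** -/
theorem tau_formula {r k : ℕ} [NeZero r] (hk : 0 < k) {ψ : DirichletCharacter ℂ r} (hψ : ψ.IsPrimitive)
    (h : r ∣ r * k) (n : ℕ) :
    tau (DirichletCharacter.changeLevel h ψ) n = Gs ψ * ∑ d ∈ k.divisors,
      (((ArithmeticFunction.moebius d : ℤ) : ℂ) * (starRingEnd ℂ) (ψ (d : ZMod r))) *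
        (if k / d ∣ n then ((k / d : ℕ) : ℂ) * ψ ((n / (k / d) : ℕ) : ZMod r) else 0) := by
  have hr : 0 < r := Nat.pos_of_ne_zero (NeZero.ne r)
  have h1 : tau (DirichletCharacter.changeLevel h ψ) n = ∑ a ∈ range (r * k),
      (if a.Coprime k then (1 : ℂ) else 0) * ((starRingEnd ℂ) (ψ (a : ZMod r)) * ee (n * a / ((r * k : ℕ) : ℝ))) := by
    unfold tau rr
    rw [sum_filter]
    apply sum_congr rfl
    intro a _
    by_cases ha : a.Coprime (r * k)
    · rw [if_pos ha, changeLevel_nat h ψ ha, if_pos (Nat.Coprime.coprime_mul_left_right ha), one_mul]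
    · rw [if_neg ha]
      by_cases hak : a.Coprime k
      · have har : ¬ a.Coprime r := fun har => ha (Nat.Coprime.mul_right har hak)
        rw [if_pos hak, one_mul]
        have h0 : ψ (a : ZMod r) = 0 := ψ.map_nonunit (fun hu => har ((ZMod.isUnit_iff_coprime a r).1 hu))
        rw [h0]
        simp
      · rw [if_neg hak, zero_mul]
  rw [h1]
  have h2 : ∀ a ∈ range (r * k), (if a.Coprime k then (1 : ℂ) else 0) *
      ((starRingEnd ℂ) (ψ (a : ZMod r)) * ee (n * a / ((r * k : ℕ) : ℝ))) =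
      ∑ d ∈ k.divisors, ((ArithmeticFunction.moebius d : ℤ) : ℂ) *
        (if d ∣ a then (starRingEnd ℂ) (ψ (a : ZMod r)) * ee (n * a / ((r * k : ℕ) : ℝ)) else 0) := by
    intro a _
    rw [coprime_ind hk, sum_mul]
    apply sum_congr rfl
    intro d _
    split_ifs <;> simp
  rw [sum_congr rfl h2, sum_comm, mul_sum]
  apply sum_congr rfl
  intro d hd
  rw [Nat.mem_divisors] at hd
  obtain ⟨⟨k', hk'⟩, _⟩ := hd
  have hd0 : 0 < d := by
    rcases Nat.eq_zero_or_pos d with h0 | h0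
    · rw [h0, zero_mul] at hk'; omega
    · exact h0
  have hk'0 : 0 < k' := by
    rcases Nat.eq_zero_or_pos k' with h0 | h0
    · rw [h0, mul_zero] at hk'; omega
    · exact h0
  have hkd : k / d = k' := by rw [hk', Nat.mul_div_cancel_left _ hd0]
  rw [hkd, ← mul_sum]
  have hrk : r * k = d * (r * k') := by rw [hk']; ring
  rw [hrk, sum_dvd_range hd0]
  have h3 : ∀ b ∈ range (r * k'), (starRingEnd ℂ) (ψ ((d * b : ℕ) : ZMod r)) *
      ee (n * ((d * b : ℕ) : ℝ) / ((d * (r * k') : ℕ) : ℝ)) = (starRingEnd ℂ) (ψ (d : ZMod r)) *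
      ((starRingEnd ℂ) (ψ (b : ZMod r)) * ee (n * b / ((r * k' : ℕ) : ℝ))) := by
    intro b _
    have hd' : (d : ℝ) ≠ 0 := by exact_mod_cast hd0.ne'
    rw [Nat.cast_mul, map_mul, map_mul, mul_assoc]
    congr 3
    push_cast
    rw [mul_left_comm, mul_div_mul_left _ _ hd']
  rw [sum_congr rfl h3, ← mul_sum, inner_sum hψ hk'0 n]
  split_ifs <;> ring

end Pool.Agent.P8H14.QP
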