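import Pool.Agent.P8H14.QP.B15

set_option autoImplicit false

/-!
# Tuples of shifts
-/

open Finset Filter Topology

namespace Pool.Agent.P8H14.QP

open Pool.Agent.TH823.PS
open Pool.Agent.H373R2.T7 (fz exI energy moment_energy liR liR_norm)

/-- products of few values of the von Mangoldt function -/
lemma prod_vM_le {k A B N n : ℕ} (hk : k ≤ A) (hN : 3 ≤ N) (hB : B + 1 ≤ N) (hn : n ≤ N) (h : Fin k → ℕ)
    (hh : ∀ i, h i ≤ B * N) :
    |∏ i, ArithmeticFunction.vonMangoldt (n + h i)| ≤ (2 * Real.log N) ^ A := by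
  have hNp : (0 : ℝ) < N := by exact_mod_cast (by omega : 0 < N)
  have hlN : 1 ≤ Real.log N := by
    rw [Real.le_log_iff_exp_le hNp]
    have := Real.exp_one_lt_d9
    have : (3 : ℝ) ≤ N := by exact_mod_cast hN
    linarith
  rw [abs_prod]
  have h1 : ∀ i ∈ (univ : Finset (Fin k)), |ArithmeticFunction.vonMangoldt (n + h i)| ≤ 2 * Real.log N := by
    intro i _
    rw [abs_of_nonneg ArithmeticFunction.vonMangoldt_nonneg]
    refine ArithmeticFunction.vonMangoldt_le_log.trans ?_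
    rcases Nat.eq_zero_or_pos (n + h i) with h0 | h0
    · rw [h0]; simp; linarith
    · have h2 : ((n + h i : ℕ) : ℝ) ≤ N * N := by
        have h3 : n + h i ≤ N * N := by
          calc n + h i ≤ N + B * N := by have := hh i; omega
            _ = (B + 1) * N := by ring
            _ ≤ N * N := Nat.mul_le_mul_right _ hB
        exact_mod_cast h3
      have h4 := Real.log_le_log (by exact_mod_cast h0) h2
      rw [Real.log_mul hNp.ne' hNp.ne'] at h4
      linarith
  calc ∏ i, |ArithmeticFunction.vonMangoldt (n + h i)| ≤ ∏ _i : Fin k, (2 * Real.log N) :=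
        prod_le_prod (fun _ _ => abs_nonneg _) h1
    _ = (2 * Real.log N) ^ k := by rw [prod_const, card_univ, Fintype.card_fin]
    _ ≤ _ := pow_le_pow_right₀ (by linarith) hk

/-- the mean square of the weights -/
lemma weight_sq {A B N : ℕ} {w : ℕ → ℂ} (hN : 16 ≤ N) (hB : 1 ≤ B) (hA : (4 : ℝ) ^ A ≤ Real.log N)
    (hw : ∀ n ≤ N, ‖w n‖ ≤ (2 * Real.log N) ^ A) :
    ∑ n ∈ Icc 1 (B * N / 1), ‖(if n ≤ N then w n else 0)‖ ^ 2 ≤ N * Real.log N ^ (2 * A + 1) := by
  have hNp : (0 : ℝ) < N := by exact_mod_cast (by omega : 0 < N)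
  have hlN : 0 < Real.log N := lt_of_lt_of_le (by positivity) hA
  have h1 : ∑ n ∈ Icc 1 (B * N / 1), ‖(if n ≤ N then w n else 0)‖ ^ 2 = ∑ n ∈ Icc 1 N, ‖w n‖ ^ 2 := by
    rw [Nat.div_one]
    have h2 : Icc 1 N = (Icc 1 (B * N)).filter (fun n => n ≤ N) := by
      have : N ≤ B * N := Nat.le_mul_of_pos_left _ (by omega)
      ext n; simp only [mem_Icc, mem_filter]; omega
    rw [h2, sum_filter]
    apply sum_congr rfl
    intro n _
    split_ifs <;> simp
  rw [h1]
  have h2 : ∀ n ∈ Icc 1 N, ‖w n‖ ^ 2 ≤ Real.log N ^ (2 * A + 1) := by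
    intro n hn
    have h3 := pow_le_pow_left₀ (norm_nonneg _) (hw n (mem_Icc.1 hn).2) 2
    refine h3.trans ?_
    calc ((2 * Real.log N) ^ A) ^ 2 = (4 : ℝ) ^ A * Real.log N ^ (2 * A) := by
          rw [← pow_mul, mul_pow, mul_comm A 2, pow_mul]
          norm_num
      _ ≤ Real.log N * Real.log N ^ (2 * A) := by gcongr
      _ = _ := by rw [pow_succ]; ring
  refine (sum_le_sum h2).trans ?_
  rw [sum_const, Nat.card_Icc, nsmul_eq_mul, Nat.add_sub_cancel]

/-- counting pairs by fixing the first entry -/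
lemma pair_count {α : Type*} (T : Finset α) (S : Finset ℕ) (bad : α × ℕ → Prop) [DecidablePred bad] {b : ℝ}
    (h : ∀ t ∈ T, (((S.filter (fun m => bad (t, m))).card : ℕ) : ℝ) ≤ b) :
    ((((T ×ˢ S).filter bad).card : ℕ) : ℝ) ≤ T.card * b := by
  classical
  have h1 : ((T ×ˢ S).filter bad).card = ∑ t ∈ T, (S.filter (fun m => bad (t, m))).card := by
    rw [card_filter, sum_product]
    apply sum_congr rfl
    intro t _
    rw [card_filter]
  rw [h1]
  push_cast
  refine (sum_le_sum h).trans ?_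
  rw [sum_const, nsmul_eq_mul]

lemma log_pow_mono {N A A' : ℕ} (hN : 16 ≤ N) (h : A ≤ A') : Real.log N ^ A ≤ Real.log N ^ A' := by
  have h1 : (16 : ℝ) ≤ N := by exact_mod_cast hN
  have h2 : 1 ≤ Real.log N := by
    rw [Real.le_log_iff_exp_le (by linarith)]
    have := Real.exp_one_lt_d9
    linarith
  exact pow_le_pow_right₀ h2 h

/-- the logarithm tends to infinity -/
lemma log_ev (M : ℝ) : ∃ N₀ : ℕ, ∀ N : ℕ, N₀ ≤ N → M ≤ Real.log N := by
  have h0 : Tendsto (fun N : ℕ => Real.log (N : ℝ)) atTop atTop :=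
    Real.tendsto_log_atTop.comp tendsto_natCast_atTop_atTop
  exact eventually_atTop.1 (h0.eventually_ge_atTop M)

end Pool.Agent.P8H14.QP
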