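import Pool.Agent.W66.LC

set_option autoImplicit false

/-!
# The reciprocal of an analytic function in a zero free region
-/

open Complex Filter Topology Set MeasureTheory Metric

namespace Pool.Agent.P8H14.QP

open Pool.Agent.W66 Pool.Agent.W66L

/-- the logarithmic derivative to the left of one, with one logarithm -/
theorem local_bound {f : ℂ → ℂ} {t M P K c A : ℝ} (hP : 1 ≤ P) (hc : 0 < c) (hc1 : c ≤ 1 / 2) (hM : 1 ≤ M)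
    (hfa : AnalyticOnNhd ℂ f (closedBall (⟨2, t⟩ : ℂ) (7 / 4))) (h2 : f ⟨2, t⟩ ≠ 0)
    (hMb : ∀ z ∈ closedBall (⟨2, t⟩ : ℂ) (7 / 4), ‖f z‖ ≤ M) (hK : 0 ≤ K) (hA0 : 0 ≤ A)
    (hbd : 2 * (Real.log (M / ‖f ⟨2, t⟩‖) + Real.log (M / ‖f ⟨2, t⟩‖) /
      Real.log (7 / 4 / (3 / 2)) * Real.log (3 / 2 / (7 / 4 - 3 / 2)) + 1) * (11 / 8) /
      (3 / 2 - 11 / 8) / (11 / 8 - 9 / 8) ≤ K * P)
    (hz : ∀ ρ ∈ closedBall (⟨2, t⟩ : ℂ) (3 / 2), f ρ = 0 → ρ.re ≤ 1 - c / P)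
    (hA : ‖deriv f ⟨1 + c / (2 * P), t⟩ / f ⟨1 + c / (2 * P), t⟩‖ ≤ A * P) :
    ∀ σ : ℝ, 1 - c / (4 * P) ≤ σ → σ ≤ 1 + c / (2 * P) →
      f ⟨σ, t⟩ ≠ 0 ∧ ‖deriv f ⟨σ, t⟩ / f ⟨σ, t⟩‖ ≤ (2 * A + 3 * K) * P ∧
      ‖f ⟨1 + c / (2 * P), t⟩‖ ≤ ‖f ⟨σ, t⟩‖ * Real.exp (2 * A + 3 * K) := by
  have hP0 : 0 < P := by linarith
  obtain ⟨δ, hδ⟩ : ∃ δ : ℝ, δ = c / P := ⟨_, rfl⟩
  have hδ0 : 0 < δ := by rw [hδ]; positivity
  have hδ1 : δ ≤ 1 / 2 := by rw [hδ]; exact (div_le_self hc.le hP).trans hc1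
  have e4 : c / (4 * P) = δ / 4 := by rw [hδ]; field_simp
  have e2 : c / (2 * P) = δ / 2 := by rw [hδ]; field_simp
  rw [e2] at hA ⊢
  rw [e4]
  rw [← hδ] at hz
  have hcb : ‖f ⟨2, t⟩‖ ≤ M := hMb _ (mem_closedBall_self (by norm_num))
  obtain ⟨s, hs1, hs2, hs3⟩ := landau_re (f := f) (c := ⟨2, t⟩) (r := 3 / 2)
    (r1 := 11 / 8) (r2 := 9 / 8) (R := 7 / 4) (M := M) (by norm_num) (by norm_num) (by norm_num)
    (by norm_num) (by norm_num) hM hcb hfa h2 hMb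
  have hball : ∀ σ : ℝ, 1 - δ / 4 ≤ σ → σ ≤ 1 + δ / 2 → (⟨σ, t⟩ : ℂ) ∈ closedBall (⟨2, t⟩ : ℂ) (9 / 8) := by
    intro σ h1 h3
    rw [mem_closedBall, dist_eq_norm]
    have e : (⟨σ, t⟩ : ℂ) - ⟨2, t⟩ = ((σ - 2 : ℝ) : ℂ) := by
      apply Complex.ext <;> simp
    rw [e, Complex.norm_real, Real.norm_eq_abs, abs_le]
    constructor <;> linarith
  have hne0 : ∀ σ : ℝ, 1 - δ / 4 ≤ σ → σ ≤ 1 + δ / 2 → f ⟨σ, t⟩ ≠ 0 := by
    intro σ h1 h3 h0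
    have := hz ⟨σ, t⟩ (closedBall_subset_closedBall (by norm_num) (hball σ h1 h3)) h0
    simp only at this
    linarith
  have hzre : ∀ ρ ∈ s, ρ.re ≤ 1 - δ := fun ρ hρ => hz ρ (hs1 ρ hρ).1 (hs1 ρ hρ).2
  set z0 : ℂ := ⟨1 + δ / 2, t⟩ with hz0
  have hsne : ∀ σ : ℝ, 1 - δ / 4 ≤ σ → σ ≤ 1 + δ / 2 → ∀ ρ ∈ s, (⟨σ, t⟩ : ℂ) ≠ ρ := by
    intro σ h1 h3 ρ hρ he
    have := hzre ρ hρ
    rw [← he] at this
    simp only at this
    linarith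
  have hm0 := (hs3 z0 (hball _ (by linarith) le_rfl) (hsne _ (by linarith) le_rfl)).trans hbd
  -- the sums over the zeros
  have hcmp : ∀ σ : ℝ, 1 - δ / 4 ≤ σ → σ ≤ 1 + δ / 2 → ∀ m : Multiset ℂ, (∀ ρ ∈ m, ρ.re ≤ 1 - δ) →
      ‖(m.map (fun ρ => 1 / ((⟨σ, t⟩ : ℂ) - ρ))).sum - (m.map (fun ρ => 1 / (z0 - ρ))).sum‖ ≤
        ((m.map (fun ρ => 1 / (z0 - ρ))).sum).re := by
    intro σ h1 h3 m
    induction m using Multiset.induction_on with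
    | empty => intro _; simp
    | cons a m ih =>
      intro h
      have ha := h a (Multiset.mem_cons_self a m)
      have ih' := ih fun ρ hρ => h ρ (Multiset.mem_cons_of_mem hρ)
      rw [Multiset.map_cons, Multiset.sum_cons, Multiset.map_cons, Multiset.sum_cons, add_re]
      have hkey : ‖1 / ((⟨σ, t⟩ : ℂ) - a) - 1 / (z0 - a)‖ ≤ (1 / (z0 - a)).re := by
        have r0 : (z0 - a).re = 1 + δ / 2 - a.re := by simp [hz0]
        have r1 : ((⟨σ, t⟩ : ℂ) - a).re = σ - a.re := by simp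
        have hre0 : 3 / 2 * δ ≤ (z0 - a).re := by rw [r0]; linarith
        have hre1 : 3 / 4 * δ ≤ ((⟨σ, t⟩ : ℂ) - a).re := by rw [r1]; linarith
        have hn0 : z0 - a ≠ 0 := fun h => by rw [h] at hre0; simp at hre0; linarith
        have hn1 : (⟨σ, t⟩ : ℂ) - a ≠ 0 := fun h => by rw [h] at hre1; simp at hre1; linarith
        have hnorm0 : 0 < ‖z0 - a‖ := norm_pos_iff.2 hn0
        have hnorm1 : 0 < ‖(⟨σ, t⟩ : ℂ) - a‖ := norm_pos_iff.2 hn1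
        have hge : 3 / 2 * δ ≤ ‖z0 - a‖ := hre0.trans ((le_abs_self _).trans (Complex.abs_re_le_norm _))
        have hd : ‖z0 - (⟨σ, t⟩ : ℂ)‖ ≤ 3 / 4 * δ := by
          have e : z0 - (⟨σ, t⟩ : ℂ) = ((1 + δ / 2 - σ : ℝ) : ℂ) := by
            apply Complex.ext <;> simp [hz0]
          rw [e, Complex.norm_real, Real.norm_eq_abs, abs_le]
          constructor <;> linarith
        have hhalf : ‖z0 - a‖ / 2 ≤ ‖(⟨σ, t⟩ : ℂ) - a‖ := by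
          have e : z0 - a = (z0 - (⟨σ, t⟩ : ℂ)) + ((⟨σ, t⟩ : ℂ) - a) := by ring
          have h5 := norm_add_le (z0 - (⟨σ, t⟩ : ℂ)) ((⟨σ, t⟩ : ℂ) - a)
          rw [← e] at h5
          linarith
        have e : 1 / ((⟨σ, t⟩ : ℂ) - a) - 1 / (z0 - a) = (z0 - (⟨σ, t⟩ : ℂ)) / (((⟨σ, t⟩ : ℂ) - a) * (z0 - a)) := by
          field_simp
          ring
        rw [e, norm_div, norm_mul]
        have e3 : (1 / (z0 - a)).re = (z0 - a).re / ‖z0 - a‖ ^ 2 := by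
          rw [one_div, Complex.inv_re, Complex.normSq_eq_norm_sq]
        rw [e3, div_le_div_iff₀ (by positivity) (by positivity)]
        have h6 : ‖z0 - (⟨σ, t⟩ : ℂ)‖ * ‖z0 - a‖ ^ 2 ≤ (3 / 4 * δ) * ‖z0 - a‖ ^ 2 :=
          mul_le_mul_of_nonneg_right hd (by positivity)
        have h7 : (3 / 2 * δ) * (‖z0 - a‖ / 2 * ‖z0 - a‖) ≤ (z0 - a).re * (‖(⟨σ, t⟩ : ℂ) - a‖ * ‖z0 - a‖) := by
          apply mul_le_mul hre0 _ (by positivity) (by linarith)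
          exact mul_le_mul_of_nonneg_right hhalf hnorm0.le
        nlinarith
      calc _ = ‖(1 / ((⟨σ, t⟩ : ℂ) - a) - 1 / (z0 - a)) +
            ((m.map (fun ρ => 1 / ((⟨σ, t⟩ : ℂ) - ρ))).sum - (m.map (fun ρ => 1 / (z0 - ρ))).sum)‖ := by
              congr 1; ring
        _ ≤ _ := (norm_add_le _ _).trans (add_le_add hkey ih')
  have hD : ∀ σ : ℝ, 1 - δ / 4 ≤ σ → σ ≤ 1 + δ / 2 → ‖deriv f ⟨σ, t⟩ / f ⟨σ, t⟩‖ ≤ (2 * A + 3 * K) * P := by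
    intro σ h1 h3
    have hm1 := (hs3 _ (hball σ h1 h3) (hsne σ h1 h3)).trans hbd
    have hc1 := hcmp σ h1 h3 s hzre
    set S1 := (s.map (fun ρ => 1 / ((⟨σ, t⟩ : ℂ) - ρ))).sum
    set S0 := (s.map (fun ρ => 1 / (z0 - ρ))).sum
    set D1 := deriv f ⟨σ, t⟩ / f ⟨σ, t⟩
    set D0 := deriv f z0 / f z0
    have k1 : S0.re ≤ ‖D0‖ + K * P := by
      calc S0.re ≤ ‖S0‖ := (le_abs_self _).trans (Complex.abs_re_le_norm _)
        _ = ‖D0 - (D0 - S0)‖ := by ring_nf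
        _ ≤ ‖D0‖ + ‖D0 - S0‖ := norm_sub_le _ _
        _ ≤ _ := by linarith
    have k0 : ‖S0‖ ≤ ‖D0‖ + K * P := by
      calc ‖S0‖ = ‖D0 - (D0 - S0)‖ := by ring_nf
        _ ≤ ‖D0‖ + ‖D0 - S0‖ := norm_sub_le _ _
        _ ≤ _ := by linarith
    have k3 : ‖D0‖ ≤ A * P := hA
    have k2 : ‖D1‖ ≤ ‖D1 - S1‖ + ‖S1 - S0‖ + ‖S0‖ := by
      calc ‖D1‖ = ‖(D1 - S1) + (S1 - S0) + S0‖ := by ring_nf
        _ ≤ ‖(D1 - S1) + (S1 - S0)‖ + ‖S0‖ := norm_add_le _ _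
        _ ≤ _ := by linarith [norm_add_le (D1 - S1) (S1 - S0)]
    nlinarith
  intro σ h1 h3
  refine ⟨hne0 σ h1 h3, hD σ h1 h3, ?_⟩
  -- Gronwall
  have hder : ∀ x : ℝ, 1 - δ / 4 ≤ x → x ≤ 1 + δ / 2 →
      HasDerivAt (fun x : ℝ => f ⟨x, t⟩) (deriv f ⟨x, t⟩) x := by
    intro x hx1 hx2
    have ha := hfa ⟨x, t⟩ (closedBall_subset_closedBall (by norm_num) (hball x hx1 hx2))
    have hb : HasDerivAt (fun x : ℝ => (⟨x, t⟩ : ℂ)) 1 x := by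
      have e : (fun x : ℝ => (⟨x, t⟩ : ℂ)) = fun x : ℝ => (x : ℂ) + ((t : ℂ) * I) := by
        funext y
        apply Complex.ext <;> simp
      rw [e]
      exact (Complex.ofRealCLM.hasDerivAt (x := x)).add_const _
    have := ha.differentiableAt.hasDerivAt.comp x hb
    rw [mul_one] at this
    exact this
  have hG := norm_le_gronwallBound_of_norm_deriv_right_le (f := fun x : ℝ => f ⟨x, t⟩)
    (f' := fun x : ℝ => deriv f ⟨x, t⟩) (δ := ‖f ⟨σ, t⟩‖) (K := (2 * A + 3 * K) * P) (ε := 0)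
    (a := σ) (b := 1 + δ / 2)
    (fun x hx => (hder x (by linarith [hx.1]) hx.2).continuousAt.continuousWithinAt)
    (fun x hx => (hder x (by linarith [hx.1]) hx.2.le).hasDerivWithinAt) le_rfl (by
      intro x hx
      have h5 := hD x (by linarith [hx.1]) hx.2.le
      have h6 := hne0 x (by linarith [hx.1]) hx.2.le
      rw [norm_div, div_le_iff₀ (norm_pos_iff.2 h6)] at h5
      simpa using h5) (1 + δ / 2) ⟨h3, le_rfl⟩
  rw [gronwallBound_ε0] at hG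
  refine hG.trans ?_
  apply mul_le_mul_of_nonneg_left _ (norm_nonneg _)
  apply Real.exp_le_exp.2
  have h7 : 1 + δ / 2 - σ ≤ δ := by linarith
  have h8 : P * δ = c := by rw [hδ]; field_simp
  have h9 : 0 ≤ (2 * A + 3 * K) * P := by positivity
  calc (2 * A + 3 * K) * P * (1 + δ / 2 - σ) ≤ (2 * A + 3 * K) * P * δ := mul_le_mul_of_nonneg_left h7 h9
    _ = (2 * A + 3 * K) * c := by rw [mul_assoc, h8]
    _ ≤ (2 * A + 3 * K) * 1 := by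
        apply mul_le_mul_of_nonneg_left (by linarith) (by positivity)
    _ = _ := mul_one _

end Pool.Agent.P8H14.QP
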