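import Pool.Agent.P8H14.QP.A1

set_option autoImplicit false

/-!
# The reciprocal of `L(s, χ)` and of `ζ(s)` in a zero free region
-/

open Complex Filter Topology Set MeasureTheory Metric
open scoped ArithmeticFunction.vonMangoldt ArithmeticFunction.Moebius

namespace Pool.Agent.P8H14.QP

open Pool.Agent.W66 Pool.Agent.W66L

/-- `χ μ` -/
noncomputable def ma {r : ℕ} (χ : DirichletCharacter ℂ r) : ℕ → ℂ :=
  (fun n : ℕ => (χ n : ℂ)) * (fun n : ℕ => (μ n : ℂ))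

lemma norm_ma_le {r : ℕ} (χ : DirichletCharacter ℂ r) (n : ℕ) : ‖ma χ n‖ ≤ 1 := by
  unfold ma
  rw [Pi.mul_apply, norm_mul]
  have h4 : ‖((ArithmeticFunction.moebius n : ℤ) : ℂ)‖ ≤ 1 := by
    rw [Complex.norm_intCast]
    exact_mod_cast ArithmeticFunction.abs_moebius_le_one
  exact mul_le_one₀ (χ.norm_le_one _) (norm_nonneg _) h4

lemma zeta_real_le {σ : ℝ} (h1 : 1 < σ) (h2 : σ ≤ 2) : ∑' n : ℕ, 1 / (n : ℝ) ^ σ ≤ 10 / (σ - 1) := by
  have hs0 : 0 < σ - 1 := by linarith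
  have hz := zeta_eq_tsum_one_div_nat_cpow (s := (σ : ℂ)) (by simpa using h1)
  have e : ((∑' n : ℕ, 1 / (n : ℝ) ^ σ : ℝ) : ℂ) = riemannZeta (σ : ℂ) := by
    rw [hz, Complex.ofReal_tsum]
    congr 1
    funext n
    push_cast
    rw [Complex.ofReal_cpow (Nat.cast_nonneg n)]
    simp
  have hne : (σ : ℂ) ≠ 1 := by
    intro h
    have : σ = 1 := by exact_mod_cast h
    linarith
  have h3 := Z1_eq hne
  have h4 := Z1_growth (s := (σ : ℂ)) (by simp; linarith)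
  have e1 : ‖(σ : ℂ)‖ = σ := by rw [Complex.norm_real, Real.norm_of_nonneg (by linarith)]
  have e2 : ‖(σ : ℂ) - 1‖ = σ - 1 := by
    rw [← Complex.ofReal_one, ← Complex.ofReal_sub, Complex.norm_real, Real.norm_of_nonneg hs0.le]
  rw [h3, norm_mul, e1, e2] at h4
  have h5 : ‖riemannZeta (σ : ℂ)‖ = ∑' n : ℕ, 1 / (n : ℝ) ^ σ := by
    rw [← e, Complex.norm_real, Real.norm_of_nonneg (tsum_nonneg fun n => by positivity)]
  rw [h5] at h4
  rw [le_div_iff₀ hs0]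
  nlinarith

/-- the trivial bound for `1 / L` to the right of one -/
lemma recip_far {r : ℕ} (χ : DirichletCharacter ℂ r) {s : ℂ} (hs : 1 < s.re) (hs2 : s.re ≤ 2) :
    ‖LSeries (ma χ) s‖ ≤ 10 / (s.re - 1) := by
  have hsum : Summable fun n : ℕ => 1 / (n : ℝ) ^ s.re := Real.summable_one_div_nat_rpow.2 hs
  refine le_trans ?_ (zeta_real_le hs hs2)
  unfold LSeries
  refine tsum_of_norm_bounded hsum.hasSum fun n => ?_
  rcases eq_or_ne n 0 with rfl | hn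
  · simp only [LSeries.term_zero, norm_zero]
    positivity
  · rw [LSeries.term_of_ne_zero hn, norm_div, norm_natCast_cpow_of_pos (Nat.pos_of_ne_zero hn)]
    exact div_le_div_of_nonneg_right (norm_ma_le χ n) (by positivity)

lemma ma_eq {r : ℕ} [NeZero r] (χ : DirichletCharacter ℂ r) {s : ℂ} (hs : 1 < s.re) :
    χ.LFunction s * LSeries (ma χ) s = 1 := by
  have h1 := DirichletCharacter.LSeries.mul_mu_eq_one χ hs
  rw [← DirichletCharacter.LFunction_eq_LSeries χ hs] at h1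
  exact h1

lemma ma_inv {r : ℕ} [NeZero r] (χ : DirichletCharacter ℂ r) {s : ℂ} (hs : 1 < s.re) :
    LSeries (ma χ) s = (χ.LFunction s)⁻¹ := eq_inv_of_mul_eq_one_right (ma_eq χ hs)

lemma recip_np {c0 : ℝ} (hc0 : 0 < c0) (hc1 : c0 ≤ 1) : ∃ C : ℝ, 0 < C ∧ ∀ (Q r : ℕ) [NeZero r]
    (χ : DirichletCharacter ℂ r), χ ≠ 1 → r ≤ Q →
    (∀ ρ : ℂ, χ.LFunction ρ = 0 → ρ.re ≤ 1 - c0 / lq Q ρ.im) →
    ∀ z : ℂ, 1 - c0 / 8 / lq Q z.im ≤ z.re → z.re ≤ 2 →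
      χ.LFunction z ≠ 0 ∧ ‖(χ.LFunction z)⁻¹‖ ≤ C * (lq Q z.im) ^ 2 := by
  obtain ⟨K, hK, hball⟩ := LF_const
  obtain ⟨A, hA, hfar⟩ := DX_far
  obtain ⟨C, hCd⟩ : ∃ C : ℝ, C = 40 / c0 * Real.exp (2 * (4 * A / c0) + 3 * K) := ⟨_, rfl⟩
  have hC : 0 < C := by rw [hCd]; positivity
  have hC2 : 40 / c0 ≤ C := by
    rw [hCd]
    have h1 : 1 ≤ Real.exp (2 * (4 * A / c0) + 3 * K) := Real.one_le_exp (by positivity)
    have h2 : 0 < 40 / c0 := by positivity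
    nlinarith
  refine ⟨C, hC, fun Q r _ χ hχ hrQ hz z hz1 hz2 => ?_⟩
  obtain ⟨t, ht⟩ : ∃ t, t = z.im := ⟨_, rfl⟩
  obtain ⟨P, hPd⟩ : ∃ P, P = lq Q t := ⟨_, rfl⟩
  rw [← ht, ← hPd] at hz1 ⊢
  have hP : 1 ≤ P := by rw [hPd]; exact one_le_lq Q t
  have hP0 : 0 < P := by linarith
  have hr0 : (0 : ℝ) < r := by exact_mod_cast Nat.pos_of_ne_zero (NeZero.ne r)
  have hlog : Real.log r ≤ Real.log Q := Real.log_le_log hr0 (by exact_mod_cast hrQ)
  have hlr : ∀ t, lq r t ≤ lq Q t := fun t => by unfold lq; linarith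
  obtain ⟨M, hM1, hMb, -, hbd⟩ := hball r χ hχ t
  have hcell : c0 / 2 / P ≤ 1 / 2 := (div_le_self (by positivity) hP).trans (by linarith)
  obtain ⟨e1, e2⟩ : c0 / 2 / (4 * P) = c0 / 8 / P ∧ c0 / 2 / (2 * P) = c0 / 4 / P := by
    constructor <;> field_simp <;> norm_num
  have hfar' : ∀ σ : ℝ, 1 < σ → σ ≤ 2 → ‖deriv χ.LFunction ⟨σ, t⟩ / χ.LFunction ⟨σ, t⟩‖ ≤ A / (σ - 1) :=
    fun σ h1 h2 => hfar r χ hχ ⟨σ, t⟩ h1 h2
  have key := local_bound (f := χ.LFunction) (t := t) (M := M) (P := P) (K := K) (c := c0 / 2) (A := 4 * A / c0)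
    hP (by positivity) (by linarith) hM1
    (fun z _ => (DirichletCharacter.differentiable_LFunction hχ).analyticAt z)
    (LF_ne_zero hχ (by norm_num)) hMb hK.le (by positivity)
    (hbd.trans (by
      rw [hPd]
      exact mul_le_mul_of_nonneg_left (hlr t) hK.le)) (by
      intro ρ hρ h0
      have h1 := hz ρ h0
      rw [mem_closedBall, dist_eq_norm] at hρ
      have h2 := (Complex.abs_im_le_norm (ρ - ⟨2, t⟩)).trans hρ
      simp only [sub_im] at h2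
      have h3 : lq Q ρ.im ≤ 2 * P := by rw [hPd]; exact lq_near (by linarith)
      have h4 : 0 < lq Q ρ.im := by linarith [one_le_lq Q ρ.im]
      have h5 : c0 / (2 * P) ≤ c0 / lq Q ρ.im := div_le_div_of_nonneg_left hc0.le h4 h3
      have h6 : c0 / 2 / P = c0 / (2 * P) := by rw [div_div]
      rw [h6]
      linarith) (by
      rw [e2]
      have h7 : 0 < c0 / 4 / P := by positivity
      have h8 : c0 / 4 / P ≤ 1 := (div_le_self (by positivity) hP).trans (by linarith)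
      refine (hfar' (1 + c0 / 4 / P) (by linarith) (by linarith)).trans (le_of_eq ?_)
      rw [show (1 + c0 / 4 / P - 1) = c0 / 4 / P by ring]
      field_simp)
  rw [e1, e2] at key
  have h7 : 0 < c0 / 4 / P := by positivity
  have h8 : c0 / 4 / P ≤ 1 := (div_le_self (by positivity) hP).trans (by linarith)
  have hfar2 : ∀ σ : ℝ, 1 + c0 / 4 / P ≤ σ → σ ≤ 2 → ‖(χ.LFunction ⟨σ, t⟩)⁻¹‖ ≤ 40 / c0 * P := by
    intro σ h1 h2
    rw [← ma_inv χ (by simp; linarith)]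
    refine (recip_far χ (s := ⟨σ, t⟩) (by simp; linarith) h2).trans ?_
    simp only
    have h9 : c0 / 4 / P ≤ σ - 1 := by linarith
    calc 10 / (σ - 1) ≤ 10 / (c0 / 4 / P) := div_le_div_of_nonneg_left (by norm_num) h7 h9
      _ = 40 / c0 * P := by field_simp; norm_num
  have hzz : z = ⟨z.re, t⟩ := by apply Complex.ext <;> simp [ht]
  rw [hzz]
  have hPP : P ≤ P ^ 2 := by nlinarith
  rcases le_or_gt z.re (1 + c0 / 4 / P) with h | h
  · obtain ⟨k1, -, k3⟩ := key z.re hz1 h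
    refine ⟨k1, ?_⟩
    have h9 := hfar2 (1 + c0 / 4 / P) le_rfl (by linarith)
    set L0 := ‖χ.LFunction ⟨1 + c0 / 4 / P, t⟩‖ with hL0
    have hL0pos : 0 < L0 := norm_pos_iff.2 (LF_ne_zero hχ (by simp; linarith))
    have hL1pos : 0 < ‖χ.LFunction ⟨z.re, t⟩‖ := norm_pos_iff.2 k1
    rw [norm_inv] at h9 ⊢
    rw [← hL0] at h9
    have h10 : (‖χ.LFunction ⟨z.re, t⟩‖)⁻¹ ≤ L0⁻¹ * Real.exp (2 * (4 * A / c0) + 3 * K) := by
      rw [inv_eq_one_div, inv_eq_one_div, div_mul_eq_mul_div, one_mul, div_le_div_iff₀ hL1pos hL0pos, one_mul]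
      rw [mul_comm]
      exact k3
    calc _ ≤ _ := h10
      _ ≤ (40 / c0 * P) * Real.exp (2 * (4 * A / c0) + 3 * K) :=
          mul_le_mul_of_nonneg_right h9 (Real.exp_pos _).le
      _ = C * P := by rw [hCd]; ring
      _ ≤ C * P ^ 2 := mul_le_mul_of_nonneg_left hPP hC.le
  · refine ⟨LF_ne_zero hχ (by simp; linarith), (hfar2 z.re h.le hz2).trans ?_⟩
    calc 40 / c0 * P ≤ C * P := mul_le_mul_of_nonneg_right hC2 hP0.le
      _ ≤ C * P ^ 2 := mul_le_mul_of_nonneg_left hPP hC.le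

/-- the constant of Landau's lemma for the zeta function -/
lemma Z1_const : ∃ K : ℝ, 0 < K ∧ ∀ t : ℝ, ∃ M : ℝ, 1 ≤ M ∧
    (∀ z ∈ closedBall (⟨2, t⟩ : ℂ) (7 / 4), ‖Z1 z‖ ≤ M) ∧
    2 * (Real.log (M / ‖Z1 ⟨2, t⟩‖) + Real.log (M / ‖Z1 ⟨2, t⟩‖) /
      Real.log (7 / 4 / (3 / 2)) * Real.log (3 / 2 / (7 / 4 - 3 / 2)) + 1) * (11 / 8) /
      (3 / 2 - 11 / 8) / (11 / 8 - 9 / 8) ≤ K * ell t := by
  obtain ⟨K0, hK0, hball⟩ := Z1_ball
  have hl1 : 0 < Real.log (7 / 4 / (3 / 2)) := Real.log_pos (by norm_num)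
  have hl2 : 0 < Real.log (3 / 2 / (7 / 4 - 3 / 2)) := Real.log_pos (by norm_num)
  set K1 : ℝ := 2 * (K0 + K0 / Real.log (7 / 4 / (3 / 2)) * Real.log (3 / 2 / (7 / 4 - 3 / 2)) + 1) *
    (11 / 8) / (3 / 2 - 11 / 8) / (11 / 8 - 9 / 8) with hK1
  have hK1pos : 0 < K1 := by
    rw [hK1]
    have : 0 < K0 / Real.log (7 / 4 / (3 / 2)) * Real.log (3 / 2 / (7 / 4 - 3 / 2)) := by positivity
    have h2 : (0 : ℝ) < 3 / 2 - 11 / 8 := by norm_num
    have h3 : (0 : ℝ) < 11 / 8 - 9 / 8 := by norm_num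
    positivity
  refine ⟨K1, hK1pos, fun t => ?_⟩
  have hell := one_le_ell t
  obtain ⟨M, hM1, hMb, hl0, hlK⟩ := hball t
  refine ⟨M, hM1, hMb, ?_⟩
  have e1 : Real.log (M / ‖Z1 ⟨2, t⟩‖) + Real.log (M / ‖Z1 ⟨2, t⟩‖) /
      Real.log (7 / 4 / (3 / 2)) * Real.log (3 / 2 / (7 / 4 - 3 / 2)) + 1 ≤
      (K0 + K0 / Real.log (7 / 4 / (3 / 2)) * Real.log (3 / 2 / (7 / 4 - 3 / 2)) + 1) * ell t := by
    have e2 : Real.log (M / ‖Z1 ⟨2, t⟩‖) /
        Real.log (7 / 4 / (3 / 2)) * Real.log (3 / 2 / (7 / 4 - 3 / 2)) ≤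
        (K0 * ell t) / Real.log (7 / 4 / (3 / 2)) * Real.log (3 / 2 / (7 / 4 - 3 / 2)) := by
      gcongr
    have e3 : (K0 * ell t) / Real.log (7 / 4 / (3 / 2)) * Real.log (3 / 2 / (7 / 4 - 3 / 2)) =
        K0 / Real.log (7 / 4 / (3 / 2)) * Real.log (3 / 2 / (7 / 4 - 3 / 2)) * ell t := by ring
    rw [e3] at e2
    nlinarith
  have h3 : (0 : ℝ) < 3 / 2 - 11 / 8 := by norm_num
  have h4 : (0 : ℝ) < 11 / 8 - 9 / 8 := by norm_num
  calc _ ≤ 2 * ((K0 + K0 / Real.log (7 / 4 / (3 / 2)) * Real.log (3 / 2 / (7 / 4 - 3 / 2)) + 1) *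
        ell t) * (11 / 8) / (3 / 2 - 11 / 8) / (11 / 8 - 9 / 8) := by gcongr
    _ = K1 * ell t := by rw [hK1]; ring

/-- the reciprocal of the zeta function -/
noncomputable def RZ (s : ℂ) : ℂ := (s - 1) / Z1 s

lemma RZ_eq {s : ℂ} (hs : 1 < s.re) : RZ s = (riemannZeta s)⁻¹ := by
  have hne : s ≠ 1 := by
    rintro rfl
    simp at hs
  have h1 : s - 1 ≠ 0 := sub_ne_zero.2 hne
  have h2 : riemannZeta s ≠ 0 := riemannZeta_ne_zero_of_one_le_re hs.le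
  unfold RZ
  rw [Z1_eq hne]
  field_simp

lemma RZ_far {s : ℂ} (hs : 1 < s.re) (hs2 : s.re ≤ 2) : ‖RZ s‖ ≤ 10 / (s.re - 1) := by
  rw [RZ_eq hs]
  have h1 := ma_inv (1 : DirichletCharacter ℂ 1) hs
  rw [DirichletCharacter.LFunction_modOne_eq] at h1
  rw [← h1]
  exact recip_far _ hs hs2

lemma recip_one : ∃ c C : ℝ, 0 < c ∧ c ≤ 1 / 8 ∧ 0 < C ∧ ∀ z : ℂ, 1 - c / ell z.im ≤ z.re → z.re ≤ 2 →
      Z1 z ≠ 0 ∧ ‖RZ z‖ ≤ C * (ell z.im) ^ 2 := by
  obtain ⟨c0, hc0, hc01, hz⟩ := zf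
  obtain ⟨K, hK, hball⟩ := Z1_const
  obtain ⟨A, hA, hfar⟩ := DD_far
  obtain ⟨C, hCd⟩ : ∃ C : ℝ, C = 160 / c0 * Real.exp (2 * (4 * A / c0) + 3 * K) := ⟨_, rfl⟩
  have hC : 0 < C := by rw [hCd]; positivity
  have hC2 : 40 / c0 ≤ C := by
    rw [hCd]
    have h1 : 1 ≤ Real.exp (2 * (4 * A / c0) + 3 * K) := Real.one_le_exp (by positivity)
    have h2 : 0 < 40 / c0 := by positivity
    have h3 : 160 / c0 = 4 * (40 / c0) := by ring
    rw [h3]
    nlinarith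
  refine ⟨c0 / 8, C, by positivity, by linarith, hC, fun z hz1 hz2 => ?_⟩
  obtain ⟨t, ht⟩ : ∃ t, t = z.im := ⟨_, rfl⟩
  obtain ⟨P, hPd⟩ : ∃ P, P = ell t := ⟨_, rfl⟩
  rw [← ht, ← hPd] at hz1 ⊢
  have hP : 1 ≤ P := by rw [hPd]; exact one_le_ell t
  have hP0 : 0 < P := by linarith
  obtain ⟨M, hM1, hMb, hbd⟩ := hball t
  obtain ⟨e1, e2⟩ : c0 / 2 / (4 * P) = c0 / 8 / P ∧ c0 / 2 / (2 * P) = c0 / 4 / P := by
    constructor <;> field_simp <;> norm_num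
  have key := local_bound (f := Z1) (t := t) (M := M) (P := P) (K := K) (c := c0 / 2) (A := 4 * A / c0)
    hP (by positivity) (by linarith) hM1
    (fun z _ => Z1_diff.analyticAt z)
    (Z1_ne_zero (by norm_num)) hMb hK.le (by positivity)
    (hbd.trans (by rw [hPd])) (by
      intro ρ hρ h0
      have h1 := hz ρ h0
      rw [mem_closedBall, dist_eq_norm] at hρ
      have h2 := (Complex.abs_im_le_norm (ρ - ⟨2, t⟩)).trans hρ
      simp only [sub_im] at h2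
      have h3 : ell ρ.im ≤ 2 * P := by rw [hPd]; exact ell_near (by linarith)
      have h4 : 0 < ell ρ.im := by linarith [one_le_ell ρ.im]
      have h5 : c0 / (2 * P) ≤ c0 / ell ρ.im := div_le_div_of_nonneg_left hc0.le h4 h3
      have h6 : c0 / 2 / P = c0 / (2 * P) := by rw [div_div]
      rw [h6]
      linarith) (by
      rw [e2]
      have h7 : 0 < c0 / 4 / P := by positivity
      have h8 : c0 / 4 / P ≤ 1 := (div_le_self (by positivity) hP).trans (by linarith)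
      refine (hfar ⟨1 + c0 / 4 / P, t⟩ (by simp; linarith) (by simp; linarith)).trans (le_of_eq ?_)
      simp only [add_sub_cancel_left]
      field_simp)
  rw [e1, e2] at key
  have h7 : 0 < c0 / 4 / P := by positivity
  have h8 : c0 / 4 / P ≤ 1 := (div_le_self (by positivity) hP).trans (by linarith)
  have hfar2 : ∀ σ : ℝ, 1 + c0 / 4 / P ≤ σ → σ ≤ 2 → ‖RZ ⟨σ, t⟩‖ ≤ 40 / c0 * P := by
    intro σ h1 h2
    refine (RZ_far (s := ⟨σ, t⟩) (by simp; linarith) h2).trans ?_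
    simp only
    have h9 : c0 / 4 / P ≤ σ - 1 := by linarith
    calc 10 / (σ - 1) ≤ 10 / (c0 / 4 / P) := div_le_div_of_nonneg_left (by norm_num) h7 h9
      _ = 40 / c0 * P := by field_simp; norm_num
  have hzz : z = ⟨z.re, t⟩ := by apply Complex.ext <;> simp [ht]
  rw [hzz]
  have hPP : P ≤ P ^ 2 := by nlinarith
  rcases le_or_gt z.re (1 + c0 / 4 / P) with h | h
  · obtain ⟨k1, -, k3⟩ := key z.re hz1 h
    refine ⟨k1, ?_⟩
    have h9 := hfar2 (1 + c0 / 4 / P) le_rfl (by linarith)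
    set z0 : ℂ := ⟨1 + c0 / 4 / P, t⟩ with hz0
    set z1 : ℂ := ⟨z.re, t⟩ with hz1'
    have hL0pos : 0 < ‖Z1 z0‖ := norm_pos_iff.2 (Z1_ne_zero (by simp [hz0]; linarith))
    have hL1pos : 0 < ‖Z1 z1‖ := norm_pos_iff.2 k1
    have hd1 : c0 / 4 / P ≤ ‖z0 - 1‖ := by
      refine le_trans ?_ ((le_abs_self _).trans (Complex.abs_re_le_norm _))
      simp [hz0]
    have hd2 : ‖z1 - 1‖ ≤ 4 * ‖z0 - 1‖ := by
      have e : z1 - 1 = (z0 - 1) - ((1 + c0 / 4 / P - z.re : ℝ) : ℂ) := by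
        apply Complex.ext
        · simp only [hz0, hz1', sub_re, one_re, Complex.ofReal_re]
          ring
        · simp only [hz0, hz1', sub_im, one_im, Complex.ofReal_im]
          ring
      rw [e]
      refine (norm_sub_le _ _).trans ?_
      rw [Complex.norm_real, Real.norm_eq_abs, abs_of_nonneg (by linarith)]
      have h12 : c0 / 8 / P = c0 / 4 / P / 2 := by ring
      rw [h12] at hz1
      linarith
    unfold RZ at h9 ⊢
    rw [norm_div, div_le_iff₀ hL0pos] at h9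
    rw [norm_div, div_le_iff₀ hL1pos]
    have hE := Real.exp_pos (2 * (4 * A / c0) + 3 * K)
    calc ‖z1 - 1‖ ≤ 4 * ‖z0 - 1‖ := hd2
      _ ≤ 4 * (40 / c0 * P * ‖Z1 z0‖) := by linarith
      _ ≤ 4 * (40 / c0 * P * (‖Z1 z1‖ * Real.exp (2 * (4 * A / c0) + 3 * K))) := by gcongr
      _ = C * P * ‖Z1 z1‖ := by rw [hCd]; ring
      _ ≤ C * P ^ 2 * ‖Z1 z1‖ := by gcongr
  · refine ⟨Z1_ne_zero (by simp; linarith), (hfar2 z.re h.le hz2).trans ?_⟩
    calc 40 / c0 * P ≤ C * P := mul_le_mul_of_nonneg_right hC2 hP0.le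
      _ ≤ C * P ^ 2 := mul_le_mul_of_nonneg_left hPP hC.le

end Pool.Agent.P8H14.QP
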