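import Pool.Agent.P8H14.QP.A2

set_option autoImplicit false

/-!
# The contour shift for smooth sums of a Dirichlet series
-/

open Complex Filter Topology Set MeasureTheory Metric
open scoped Real FourierTransform
open scoped ArithmeticFunction.vonMangoldt

namespace Pool.Agent.P8H14.QP

open Pool.Agent.W66 Pool.Agent.W66L
open Pool.Agent.H379R2.SW (vert vert_re vert_im vert_ne_zero continuous_vert)

/-- `Σ b(n) n^{-1-iξ₀} hat(u - log n)` -/
noncomputable def GX (b : ℕ → ℂ) (u ξ₀ : ℝ) : ℂ :=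
  ∑' n : ℕ, LSeries.term b ⟨1, ξ₀⟩ n * ((hat (u - Real.log n) : ℝ) : ℂ)

theorem GX_eq {b : ℕ → ℂ} (hb : ∀ s : ℂ, 1 < s.re → LSeriesSummable b s) {c : ℝ} (hc : 0 < c) (hc1 : c ≤ 1)
    (u ξ₀ : ℝ) :
    GX b u ξ₀ = ∫ ξ : ℝ, LSeries b (⟨1, ξ₀⟩ + vert c ξ) *
      (kap (vert c ξ) * cexp (vert c ξ * u)) := by
  have ha : LSeriesSummable b ((1 + c : ℝ) : ℂ) := hb _ (by simpa using hc)
  set F : ℕ → ℝ → ℂ := fun n ξ => LSeries.term b (⟨1, ξ₀⟩ + vert c ξ) n *
    (kap (vert c ξ) * cexp (vert c ξ * u)) with hF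
  have hterm : ∀ n ξ, F n ξ = LSeries.term b ⟨1, ξ₀⟩ n *
      (kap (vert c ξ) * cexp (vert c ξ * ((u - Real.log n : ℝ) : ℂ))) := by
    intro n ξ
    simp only [hF]
    rcases Nat.eq_zero_or_pos n with rfl | hn
    · simp
    · rw [LSeries.term_of_ne_zero hn.ne', LSeries.term_of_ne_zero hn.ne']
      have hnc : (n : ℂ) ≠ 0 := by exact_mod_cast hn.ne'
      have h1 : (n : ℂ) ^ ((⟨1, ξ₀⟩ : ℂ) + vert c ξ) = (n : ℂ) ^ (⟨1, ξ₀⟩ : ℂ) *
          cexp (vert c ξ * (Real.log n : ℝ)) := by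
        rw [Complex.cpow_add _ _ hnc]
        congr 1
        rw [Complex.cpow_def_of_ne_zero hnc, ← Complex.natCast_log]
        congr 1
        push_cast
        ring
      have h2 : cexp (vert c ξ * ((u - Real.log n : ℝ) : ℂ)) =
          cexp (vert c ξ * u) / cexp (vert c ξ * (Real.log n : ℝ)) := by
        rw [← Complex.exp_sub]
        congr 1
        push_cast
        ring
      rw [h1, h2]
      have h3 : (n : ℂ) ^ (⟨1, ξ₀⟩ : ℂ) ≠ 0 := by
        rw [Complex.cpow_def_of_ne_zero hnc]; exact Complex.exp_ne_zero _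
      have h4 := Complex.exp_ne_zero (vert c ξ * (Real.log n : ℝ))
      field_simp
  have hnorm : ∀ n ξ, ‖F n ξ‖ = ‖LSeries.term b ((1 + c : ℝ) : ℂ) n‖ *
      (‖kap (vert c ξ)‖ * Real.exp (c * u)) := by
    intro n ξ
    simp only [hF]
    rw [norm_mul, norm_mul, norm_exp_vert]
    congr 1
    rw [LSeries.norm_term_eq, LSeries.norm_term_eq]
    congr 2
    simp [vert_re]
  have hkint := integrable_kap hc hc1
  have hFint : ∀ n, Integrable (F n) := by
    intro n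
    refine Integrable.mono' ((hkint.norm.mul_const (Real.exp (c * u))).const_mul
      ‖LSeries.term b ((1 + c : ℝ) : ℂ) n‖) ?_ ?_
    · apply Continuous.aestronglyMeasurable
      have : F n = fun ξ => LSeries.term b ⟨1, ξ₀⟩ n *
        (kap (vert c ξ) * cexp (vert c ξ * ((u - Real.log n : ℝ) : ℂ))) :=
        funext (hterm n)
      rw [this]
      have h1 := continuous_vert c
      exact continuous_const.mul ((kap_diff.continuous.comp h1).mul (by fun_prop))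
    · exact Eventually.of_forall (fun ξ => (hnorm n ξ).le)
  have hFsum : Summable (fun n => ∫ ξ, ‖F n ξ‖) := by
    simp only [hnorm, integral_const_mul]
    exact ha.norm.mul_right _
  have hmain := hasSum_integral_of_summable_integral_norm hFint hFsum
  have hI : ∀ n, ∫ ξ, F n ξ = LSeries.term b ⟨1, ξ₀⟩ n *
      ((hat (u - Real.log n) : ℝ) : ℂ) := by
    intro n
    have h1 : ∫ ξ, F n ξ = LSeries.term b ⟨1, ξ₀⟩ n *
        ∫ ξ : ℝ, (kap (vert c ξ) * cexp (vert c ξ * ((u - Real.log n : ℝ) : ℂ))) := by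
      simp only [hterm]
      rw [integral_const_mul]
    rw [h1, kap_inv hc]
  simp only [hI] at hmain
  unfold GX
  rw [hmain.tsum_eq]
  congr 1
  ext ξ
  simp only [hF]
  rw [tsum_mul_right]
  rfl

theorem GX_bound {c C A : ℝ} (hc : 0 < c) (hc1' : c ≤ 1) (hC : 0 < C) (hA : 0 < A) : ∃ C' : ℝ, 0 < C' ∧
    ∀ (Q : ℕ) (b : ℕ → ℂ) (F : ℂ → ℂ), (∀ s : ℂ, 1 < s.re → LSeriesSummable b s) →
    (∀ s : ℂ, 1 < s.re → LSeries b s = F s) →
    (∀ z : ℂ, 1 - c / lq Q z.im ≤ z.re → z.re ≤ 2 → DifferentiableAt ℂ F z ∧ ‖F z‖ ≤ C * (lq Q z.im) ^ 2) →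
    (∀ s : ℂ, 1 < s.re → s.re ≤ 2 → ‖F s‖ ≤ A / (s.re - 1)) →
    ∀ u ξ₀ R : ℝ, 1 ≤ u → 1 ≤ R →
    ‖GX b u ξ₀‖ ≤ C' * ((lq Q (|ξ₀| + R)) ^ 2 * Real.exp (-(c * u / lq Q (|ξ₀| + R))) +
      (lq Q (|ξ₀| + R)) ^ 2 / R ^ 2 + u / R) := by
  obtain ⟨Ck, hCk, hkap⟩ := kap_bound
  refine ⟨C * Ck * 4 + 12 * C * Ck + A * Ck * 6, by positivity,
    fun Q b F hb hbF hzf hfar u ξ₀ R hu hR => ?_⟩
  set ℓ := lq Q (|ξ₀| + R) with hℓ
  have hℓ1 : 1 ≤ ℓ := one_le_lq _ _
  have hℓ0 : 0 < ℓ := by linarith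
  have hu0 : 0 < u := by linarith
  have hR0 : 0 < R := by linarith
  set c1 : ℝ := 1 / u with hc1
  have hc10 : 0 < c1 := by positivity
  have hc11 : c1 ≤ 1 := by rw [hc1, div_le_one hu0]; exact hu
  set η : ℝ := c / ℓ with hη
  have hη0 : 0 < η := by positivity
  have hη1 : η ≤ 1 := by
    rw [hη, div_le_one hℓ0]
    linarith
  set G : ℂ → ℂ := fun s => F (⟨1, ξ₀⟩ + s) * (kap s * cexp (s * u)) with hG
  have he1 : Real.exp 1 ≤ 3 := by linarith [Real.exp_one_lt_d9]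
  -- on the rectangle
  have hrect : ∀ s : ℂ, -η ≤ s.re → s.re ≤ c1 → |s.im| ≤ R → DifferentiableAt ℂ F (⟨1, ξ₀⟩ + s) ∧
      ‖G s‖ ≤ C * ℓ ^ 2 * (Ck / (1 + s.im ^ 2)) * Real.exp (s.re * u) := by
    intro s h1 h2 h3
    have him : ((⟨1, ξ₀⟩ : ℂ) + s).im = ξ₀ + s.im := by simp
    have hre : ((⟨1, ξ₀⟩ : ℂ) + s).re = 1 + s.re := by simp
    have habs : |ξ₀ + s.im| ≤ |(|ξ₀| + R)| := by
      rw [abs_of_nonneg (show 0 ≤ |ξ₀| + R by positivity)]
      exact (abs_add_le _ _).trans (by linarith)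
    have hell : lq Q (ξ₀ + s.im) ≤ ℓ := by
      have := ell_mono habs
      rw [hℓ]
      unfold lq
      linarith
    have hell1 := one_le_lq Q (ξ₀ + s.im)
    obtain ⟨k1, k2⟩ := hzf (⟨1, ξ₀⟩ + s) (by
      rw [him, hre]
      have : c / ℓ ≤ c / lq Q (ξ₀ + s.im) := div_le_div_of_nonneg_left hc.le (by linarith) hell
      linarith) (by rw [hre]; linarith)
    refine ⟨k1, ?_⟩
    simp only [hG]
    rw [norm_mul, norm_mul, Complex.norm_exp, Complex.re_mul_ofReal, ← mul_assoc]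
    apply mul_le_mul_of_nonneg_right _ (Real.exp_pos _).le
    apply mul_le_mul _ (hkap s (abs_le.2 ⟨by linarith, by linarith⟩)) (norm_nonneg _) (by positivity)
    refine k2.trans ?_
    rw [him]
    gcongr
  have hGd : ∀ s : ℂ, DifferentiableAt ℂ F (⟨1, ξ₀⟩ + s) → DifferentiableAt ℂ G s := by
    intro s h1
    have h2 : DifferentiableAt ℂ (fun z : ℂ => (⟨1, ξ₀⟩ : ℂ) + z) s := by fun_prop
    have h3 : DifferentiableAt ℂ (fun z : ℂ => F ((⟨1, ξ₀⟩ : ℂ) + z)) s :=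
      DifferentiableAt.comp (g := F) (f := fun z : ℂ => (⟨1, ξ₀⟩ : ℂ) + z) s h1 h2
    have h4 := kap_diff s
    exact h3.mul (h4.mul (by fun_prop))
  -- the line integral as an integral over `τ`
  have hline : GX b u ξ₀ = ((2 * π)⁻¹ : ℝ) • ∫ τ : ℝ, G (c1 + τ * I) := by
    rw [GX_eq hb hc10 hc11]
    have h1 : ∀ ξ : ℝ, LSeries b (⟨1, ξ₀⟩ + vert c1 ξ) * (kap (vert c1 ξ) * cexp (vert c1 ξ * u)) =
        (fun τ : ℝ => G (c1 + τ * I)) (2 * π * ξ) := by
      intro ξ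
      rw [hbF _ (by simp [vert_re]; exact hc10)]
      simp only [hG, vert]
    simp only [h1]
    rw [MeasureTheory.Measure.integral_comp_mul_left (fun τ : ℝ => G (c1 + τ * I)) (2 * π),
      abs_of_pos (by positivity)]
  -- bound on the whole line
  have hGline : ∀ τ : ℝ, ‖G (c1 + τ * I)‖ ≤ (A * u * Ck * 3) * (1 + τ ^ 2)⁻¹ := by
    intro τ
    have hre : ((⟨1, ξ₀⟩ : ℂ) + (c1 + τ * I)).re = 1 + c1 := by simp
    have hre2 : ((c1 : ℂ) + τ * I).re = c1 := by simp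
    have him2 : ((c1 : ℂ) + τ * I).im = τ := by simp
    have h1 := hfar (⟨1, ξ₀⟩ + (c1 + τ * I)) (by rw [hre]; linarith) (by rw [hre]; linarith)
    rw [hre, show (1 + c1 - 1 : ℝ) = c1 by ring] at h1
    have h2 := hkap ((c1 : ℂ) + τ * I) (by rw [hre2, abs_of_pos hc10]; exact hc11)
    rw [him2] at h2
    simp only [hG]
    rw [norm_mul, norm_mul, Complex.norm_exp, Complex.re_mul_ofReal, hre2]
    have h3 : c1 * u = 1 := by rw [hc1]; field_simp
    have h4 : A / c1 = A * u := by rw [hc1]; field_simp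
    rw [h3]
    rw [h4] at h1
    calc ‖F (⟨1, ξ₀⟩ + (c1 + τ * I))‖ * (‖kap (c1 + τ * I)‖ * Real.exp 1) ≤
        (A * u) * ((Ck / (1 + τ ^ 2)) * 3) := by gcongr
      _ = _ := by rw [div_eq_mul_inv]; ring
  have hGcont : Continuous fun τ : ℝ => G (c1 + τ * I) := by
    rw [continuous_iff_continuousAt]
    intro τ
    have h1 : DifferentiableAt ℂ F (⟨1, ξ₀⟩ + (c1 + τ * I)) := by
      refine (hzf _ ?_ ?_).1
      · have h3 : 0 ≤ c / lq Q ((⟨1, ξ₀⟩ : ℂ) + (c1 + τ * I)).im :=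
          div_nonneg hc.le (by linarith [one_le_lq Q ((⟨1, ξ₀⟩ : ℂ) + (c1 + τ * I)).im])
        have h4 : ((⟨1, ξ₀⟩ : ℂ) + (c1 + τ * I)).re = 1 + c1 := by simp
        rw [h4]
        linarith
      · have h4 : ((⟨1, ξ₀⟩ : ℂ) + (c1 + τ * I)).re = 1 + c1 := by simp
        rw [h4]
        linarith
    have h2 : ContinuousAt (fun τ : ℝ => (c1 : ℂ) + τ * I) τ := by fun_prop
    exact ContinuousAt.comp (g := G) (f := fun τ : ℝ => (c1 : ℂ) + τ * I)
      (hGd _ h1).continuousAt h2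
  have hGint : Integrable fun τ : ℝ => G (c1 + τ * I) :=
    (integrable_inv_one_add_sq.const_mul (A * u * Ck * 3)).mono' hGcont.aestronglyMeasurable
      (Eventually.of_forall hGline)
  -- the tail
  have htail : ‖∫ τ in (Set.Ioc (-R) R)ᶜ, G (c1 + τ * I)‖ ≤ (A * u * Ck * 3) * (2 / R) := by
    have h1 : ‖∫ τ in (Set.Ioc (-R) R)ᶜ, G (c1 + τ * I)‖ ≤
        ∫ τ in (Set.Ioc (-R) R)ᶜ, (A * u * Ck * 3) * (1 + τ ^ 2)⁻¹ :=
      norm_integral_le_of_norm_le (integrable_inv_one_add_sq.const_mul _).integrableOn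
        (Eventually.of_forall fun τ => hGline τ)
    refine h1.trans ?_
    rw [integral_const_mul]
    apply mul_le_mul_of_nonneg_left _ (by positivity)
    have h2 := integral_add_compl (measurableSet_Ioc (a := -R) (b := R)) integrable_inv_one_add_sq
      (μ := volume)
    rw [integral_univ_inv_one_add_sq, ← intervalIntegral.integral_of_le (by linarith),
      integral_inv_one_add_sq, Real.arctan_neg] at h2
    have h3 := tail_arctan hR
    linarith
  -- the rectangle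
  have hcauchy := Complex.integral_boundary_rect_eq_zero_of_differentiableOn G
    (⟨-η, -R⟩ : ℂ) (⟨c1, R⟩ : ℂ) (by
      intro s hs
      rw [Complex.mem_reProdIm] at hs
      simp only at hs
      rw [uIcc_of_le (by linarith), uIcc_of_le (by linarith)] at hs
      exact (hGd s (hrect s hs.1.1 hs.1.2 (abs_le.2 hs.2)).1).differentiableWithinAt)
  simp only at hcauchy
  have hbot : ‖∫ x : ℝ in (-η)..c1, G (x + ((-R : ℝ) : ℂ) * I)‖ ≤ 6 * (C * ℓ ^ 2 * Ck / R ^ 2) := by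
    have h1 : ∀ x ∈ Set.uIoc (-η) c1, ‖G (x + ((-R : ℝ) : ℂ) * I)‖ ≤ 3 * (C * ℓ ^ 2 * Ck / R ^ 2) := by
      intro x hx
      rw [uIoc_of_le (by linarith)] at hx
      have hre : ((x : ℂ) + ((-R : ℝ) : ℂ) * I).re = x := by simp
      have him : ((x : ℂ) + ((-R : ℝ) : ℂ) * I).im = -R := by simp
      have h2 := (hrect ((x : ℂ) + ((-R : ℝ) : ℂ) * I) (by rw [hre]; exact hx.1.le)
        (by rw [hre]; exact hx.2) (by rw [him, abs_neg, abs_of_pos hR0])).2
      rw [hre, him] at h2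
      refine h2.trans ?_
      have h3 : Real.exp (x * u) ≤ 3 := by
        refine le_trans (Real.exp_le_exp.2 ?_) he1
        calc x * u ≤ c1 * u := by
              apply mul_le_mul_of_nonneg_right hx.2 hu0.le
          _ = 1 := by rw [hc1]; field_simp
      have h4 : Ck / (1 + (-R) ^ 2) ≤ Ck / R ^ 2 := by
        apply div_le_div_of_nonneg_left hCk.le (by positivity)
        nlinarith
      calc C * ℓ ^ 2 * (Ck / (1 + (-R) ^ 2)) * Real.exp (x * u) ≤ C * ℓ ^ 2 * (Ck / R ^ 2) * 3 := by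
            gcongr
        _ = _ := by ring
    refine (intervalIntegral.norm_integral_le_of_norm_le_const h1).trans ?_
    have h5 : |c1 - -η| ≤ 2 := by
      rw [abs_of_pos (by linarith)]
      linarith
    calc _ ≤ 3 * (C * ℓ ^ 2 * Ck / R ^ 2) * 2 := by
          apply mul_le_mul_of_nonneg_left h5 (by positivity)
      _ = _ := by ring
  have htop : ‖∫ x : ℝ in (-η)..c1, G (x + ((R : ℝ) : ℂ) * I)‖ ≤ 6 * (C * ℓ ^ 2 * Ck / R ^ 2) := by
    have h1 : ∀ x ∈ Set.uIoc (-η) c1, ‖G (x + ((R : ℝ) : ℂ) * I)‖ ≤ 3 * (C * ℓ ^ 2 * Ck / R ^ 2) := by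
      intro x hx
      rw [uIoc_of_le (by linarith)] at hx
      have hre : ((x : ℂ) + ((R : ℝ) : ℂ) * I).re = x := by simp
      have him : ((x : ℂ) + ((R : ℝ) : ℂ) * I).im = R := by simp
      have h2 := (hrect ((x : ℂ) + ((R : ℝ) : ℂ) * I) (by rw [hre]; exact hx.1.le)
        (by rw [hre]; exact hx.2) (by rw [him, abs_of_pos hR0])).2
      rw [hre, him] at h2
      refine h2.trans ?_
      have h3 : Real.exp (x * u) ≤ 3 := by
        refine le_trans (Real.exp_le_exp.2 ?_) he1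
        calc x * u ≤ c1 * u := by
              apply mul_le_mul_of_nonneg_right hx.2 hu0.le
          _ = 1 := by rw [hc1]; field_simp
      have h4 : Ck / (1 + R ^ 2) ≤ Ck / R ^ 2 := by
        apply div_le_div_of_nonneg_left hCk.le (by positivity)
        nlinarith
      calc C * ℓ ^ 2 * (Ck / (1 + R ^ 2)) * Real.exp (x * u) ≤ C * ℓ ^ 2 * (Ck / R ^ 2) * 3 := by
            gcongr
        _ = _ := by ring
    refine (intervalIntegral.norm_integral_le_of_norm_le_const h1).trans ?_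
    have h5 : |c1 - -η| ≤ 2 := by
      rw [abs_of_pos (by linarith)]
      linarith
    calc _ ≤ 3 * (C * ℓ ^ 2 * Ck / R ^ 2) * 2 := by
          apply mul_le_mul_of_nonneg_left h5 (by positivity)
      _ = _ := by ring
  have hleft : ‖∫ y : ℝ in (-R)..R, G (((-η : ℝ) : ℂ) + y * I)‖ ≤
      C * ℓ ^ 2 * Ck * Real.exp (-(c * u / ℓ)) * 4 := by
    have h1 : ∀ y ∈ Set.Ioc (-R) R, ‖G (((-η : ℝ) : ℂ) + y * I)‖ ≤
        C * ℓ ^ 2 * Ck * Real.exp (-(c * u / ℓ)) * (1 + y ^ 2)⁻¹ := by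
      intro y hy
      have hre : (((-η : ℝ) : ℂ) + y * I).re = -η := by simp
      have him : (((-η : ℝ) : ℂ) + y * I).im = y := by simp
      have h2 := (hrect (((-η : ℝ) : ℂ) + y * I) (by rw [hre])
        (by rw [hre]; linarith) (by rw [him]; exact abs_le.2 ⟨hy.1.le, hy.2⟩)).2
      rw [hre, him] at h2
      refine h2.trans (le_of_eq ?_)
      have h3 : -η * u = -(c * u / ℓ) := by rw [hη]; ring
      rw [h3, div_eq_mul_inv]
      ring
    have h2 := intervalIntegral.norm_integral_le_of_norm_le (μ := volume) (a := -R) (b := R)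
      (f := fun y : ℝ => G (((-η : ℝ) : ℂ) + y * I))
      (g := fun y => C * ℓ ^ 2 * Ck * Real.exp (-(c * u / ℓ)) * (1 + y ^ 2)⁻¹)
      (by linarith) (Eventually.of_forall h1)
      ((integrable_inv_one_add_sq.const_mul _).intervalIntegrable)
    refine h2.trans ?_
    rw [intervalIntegral.integral_const_mul, integral_inv_one_add_sq]
    apply mul_le_mul_of_nonneg_left _ (by positivity)
    have h3 := Real.arctan_lt_pi_div_two R
    have h4 := Real.neg_pi_div_two_lt_arctan (-R)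
    have h5 := Real.pi_lt_four
    linarith
  have hmid : ‖∫ y : ℝ in (-R)..R, G ((c1 : ℂ) + y * I)‖ ≤
      C * ℓ ^ 2 * Ck * Real.exp (-(c * u / ℓ)) * 4 + 12 * (C * ℓ ^ 2 * Ck / R ^ 2) := by
    have h1 : I • ∫ y : ℝ in (-R)..R, G ((c1 : ℂ) + y * I) =
        I • (∫ y : ℝ in (-R)..R, G (((-η : ℝ) : ℂ) + y * I)) -
        (∫ x : ℝ in (-η)..c1, G (x + ((-R : ℝ) : ℂ) * I)) +
        ∫ x : ℝ in (-η)..c1, G (x + ((R : ℝ) : ℂ) * I) := by
      linear_combination hcauchy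
    have h2 : ‖∫ y : ℝ in (-R)..R, G ((c1 : ℂ) + y * I)‖ =
        ‖I • ∫ y : ℝ in (-R)..R, G ((c1 : ℂ) + y * I)‖ := by
      rw [norm_smul, Complex.norm_I, one_mul]
    rw [h2, h1]
    refine (norm_add_le _ _).trans ?_
    have h3 := norm_sub_le (I • (∫ y : ℝ in (-R)..R, G (((-η : ℝ) : ℂ) + y * I)))
      (∫ x : ℝ in (-η)..c1, G (x + ((-R : ℝ) : ℂ) * I))
    rw [norm_smul, Complex.norm_I, one_mul] at h3
    linarith
  rw [hline, norm_smul, Real.norm_of_nonneg (by positivity)]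
  have htot : ‖∫ τ : ℝ, G (c1 + τ * I)‖ ≤ (C * ℓ ^ 2 * Ck * Real.exp (-(c * u / ℓ)) * 4 +
      12 * (C * ℓ ^ 2 * Ck / R ^ 2)) + (A * u * Ck * 3) * (2 / R) := by
    rw [← integral_add_compl (measurableSet_Ioc (a := -R) (b := R)) hGint,
      ← intervalIntegral.integral_of_le (by linarith)]
    exact (norm_add_le _ _).trans (add_le_add hmid htail)
  have hpi : (2 * π)⁻¹ ≤ 1 := by
    apply inv_le_one_of_one_le₀
    have := Real.pi_gt_three
    linarith
  calc (2 * π)⁻¹ * ‖∫ τ : ℝ, G (c1 + τ * I)‖ ≤ 1 * ‖∫ τ : ℝ, G (c1 + τ * I)‖ :=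
        mul_le_mul_of_nonneg_right hpi (norm_nonneg _)
    _ ≤ (C * ℓ ^ 2 * Ck * Real.exp (-(c * u / ℓ)) * 4 +
      12 * (C * ℓ ^ 2 * Ck / R ^ 2)) + (A * u * Ck * 3) * (2 / R) := by rw [one_mul]; exact htot
    _ = (C * Ck * 4) * (ℓ ^ 2 * Real.exp (-(c * u / ℓ))) + (12 * C * Ck) * (ℓ ^ 2 / R ^ 2) +
        (A * Ck * 6) * (u / R) := by ring
    _ ≤ (C * Ck * 4 + 12 * C * Ck + A * Ck * 6) * (ℓ ^ 2 * Real.exp (-(c * u / ℓ))) +
        (C * Ck * 4 + 12 * C * Ck + A * Ck * 6) * (ℓ ^ 2 / R ^ 2) +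
        (C * Ck * 4 + 12 * C * Ck + A * Ck * 6) * (u / R) := by
        have p1 : 0 < C * Ck * 4 := by positivity
        have p2 : 0 < 12 * C * Ck := by positivity
        have p3 : 0 < A * Ck * 6 := by positivity
        gcongr <;> linarith
    _ = _ := by ring

end Pool.Agent.P8H14.QP
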