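import Pool.Agent.P8H14.QP.A3
import Pool.Agent.H373R2.T7.SupLiou
import Pool.Agent.TH823.PS.TK

set_option autoImplicit false

/-!
# Smooth sums of the Moebius and the Liouville function twisted by characters
-/

open Complex Filter Topology Set MeasureTheory Metric
open scoped Real
open scoped ArithmeticFunction.vonMangoldt

namespace Pool.Agent.P8H14.QP

open Pool.Agent.W66 Pool.Agent.W66L
open Pool.Agent.H373R2.T7 (liR liR_norm)

/-- zero free region relative to `Q` -/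
def ZF (c0 : ℝ) (Q : ℕ) {r : ℕ} [NeZero r] (χ : DirichletCharacter ℂ r) : Prop :=
  ∀ ρ : ℂ, χ.LFunction ρ = 0 → ρ.re ≤ 1 - c0 / lq Q ρ.im

/-- the admitted characters -/
def Adm (c0 : ℝ) (Q : ℕ) {r : ℕ} [NeZero r] (χ : DirichletCharacter ℂ r) : Prop := r = 1 ∨ (χ ≠ 1 ∧ ZF c0 Q χ)

lemma ma_summable {r : ℕ} (χ : DirichletCharacter ℂ r) {s : ℂ} (hs : 1 < s.re) : LSeriesSummable (ma χ) s := by
  refine LSeriesSummable_of_bounded_of_one_lt_re (m := 1) (fun n _ => norm_ma_le χ n) hs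

theorem MX_bound {c0 : ℝ} (hc0 : 0 < c0) (hc01 : c0 ≤ 1) : ∃ c C : ℝ, 0 < c ∧ c ≤ 1 ∧ 0 < C ∧
    ∀ (Q r : ℕ) [NeZero r] (χ : DirichletCharacter ℂ r), r ≤ Q → Adm c0 Q χ → ∀ u ξ₀ R : ℝ, 1 ≤ u → 1 ≤ R →
    ‖GX (ma χ) u ξ₀‖ ≤ C * ((lq Q (|ξ₀| + R)) ^ 2 * Real.exp (-(c * u / lq Q (|ξ₀| + R))) +
      (lq Q (|ξ₀| + R)) ^ 2 / R ^ 2 + u / R) := by
  obtain ⟨C1, hC1, h1⟩ := recip_np hc0 hc01
  obtain ⟨c2, C2, hc2, hc28, hC2, h2⟩ := recip_one
  set c : ℝ := min (c0 / 8) c2 with hc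
  have hcpos : 0 < c := lt_min (by positivity) hc2
  have hcle : c ≤ 1 := (min_le_right _ _).trans (by linarith)
  set C : ℝ := max C1 C2 with hCdef
  have hCpos : 0 < C := lt_of_lt_of_le hC1 (le_max_left _ _)
  obtain ⟨C', hC', hmain⟩ := GX_bound (c := c) (C := C) (A := 10) hcpos hcle hCpos (by norm_num)
  refine ⟨c, C', hcpos, hcle, hC', fun Q r _ χ hrQ hadm u ξ₀ R hu hR => ?_⟩
  have hQ1 : 1 ≤ Q := le_trans (Nat.one_le_iff_ne_zero.2 (NeZero.ne r)) hrQ
  rcases eq_or_ne r 1 with hr1 | hr1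
  · subst hr1
    have hχ : χ = 1 := Subsingleton.elim _ _
    subst hχ
    refine hmain Q (ma 1) RZ (fun s hs => ma_summable _ hs) (fun s hs => ?_) (fun z hz1 hz2 => ?_)
      (fun s hs hs2 => RZ_far hs hs2) u ξ₀ R hu hR
    · rw [ma_inv _ hs, DirichletCharacter.LFunction_modOne_eq, RZ_eq hs]
    · have hl : ell z.im ≤ lq Q z.im := ell_le_lq Q z.im
      have hl0 : 0 < ell z.im := by linarith [one_le_ell z.im]
      obtain ⟨k1, k2⟩ := h2 z (by
        have h3 : c / lq Q z.im ≤ c2 / ell z.im := by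
          apply div_le_div₀ hc2.le (min_le_right _ _) hl0 hl
        linarith) hz2
      refine ⟨?_, k2.trans ?_⟩
      · unfold RZ
        exact ((differentiableAt_id.sub_const 1)).div (Z1_diff z) k1
      · apply mul_le_mul (le_max_right _ _) (pow_le_pow_left₀ hl0.le hl 2) (by positivity) hCpos.le
  · rcases hadm with h | ⟨hχ, hZ⟩
    · exact absurd h hr1
    · refine hmain Q (ma χ) (fun s => (χ.LFunction s)⁻¹) (fun s hs => ma_summable _ hs) (fun s hs => ma_inv χ hs)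
        (fun z hz1 hz2 => ?_) (fun s hs hs2 => ?_) u ξ₀ R hu hR
      · have hl0 : 0 < lq Q z.im := by linarith [one_le_lq Q z.im]
        obtain ⟨k1, k2⟩ := h1 Q r χ hχ hrQ hZ z (by
          have h3 : c / lq Q z.im ≤ c0 / 8 / lq Q z.im :=
            div_le_div_of_nonneg_right (min_le_left _ _) hl0.le
          linarith) hz2
        refine ⟨(DirichletCharacter.differentiable_LFunction hχ z).inv k1, k2.trans ?_⟩
        exact mul_le_mul_of_nonneg_right (le_max_left _ _) (by positivity)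
      · rw [← ma_inv χ hs]
        exact recip_far χ hs hs2

/-- `n^(-it)` -/
noncomputable def ph (t : ℝ) (n : ℕ) : ℂ := cexp (-(((t * Real.log n : ℝ) : ℂ) * I))

lemma norm_ph (t : ℝ) (n : ℕ) : ‖ph t n‖ = 1 := by
  unfold ph
  rw [← neg_mul, ← Complex.ofReal_neg, Complex.norm_exp_ofReal_mul_I]

lemma ph_mul (t : ℝ) {m n : ℕ} (hm : 0 < m) (hn : 0 < n) : ph t (m * n) = ph t m * ph t n := by
  unfold ph
  have hm' : (m : ℝ) ≠ 0 := by exact_mod_cast hm.ne'
  have hn' : (n : ℝ) ≠ 0 := by exact_mod_cast hn.ne'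
  rw [Nat.cast_mul, Real.log_mul hm' hn', ← Complex.exp_add]
  congr 1
  push_cast
  ring

/-- the weight `hat(u - log n) / n` -/
noncomputable def hw (u : ℝ) (n : ℕ) : ℝ := 1 / (n : ℝ) * hat (u - Real.log n)

lemma hw_nonneg (u : ℝ) (n : ℕ) : 0 ≤ hw u n := mul_nonneg (by positivity) (hat_nonneg _)

lemma hw_far {u : ℝ} {n : ℕ} (hn : Real.exp (u + 1) ≤ n) : hw u n = 0 := by
  unfold hw
  have h2 : u + 1 ≤ Real.log n := by
    rw [Real.le_log_iff_exp_le (lt_of_lt_of_le (Real.exp_pos _) hn)]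
    exact hn
  rw [hat_zero_of, mul_zero]
  rw [abs_of_nonpos (by linarith)]
  linarith

lemma hw_near {u : ℝ} {n : ℕ} (hn : 0 < n) (h : (n : ℝ) ≤ Real.exp (u - 1)) : hw u n = 0 := by
  unfold hw
  have h2 : Real.log n ≤ u - 1 := by
    rw [Real.log_le_iff_le_exp (by exact_mod_cast hn)]
    exact h
  rw [hat_zero_of, mul_zero]
  rw [abs_of_nonneg (by linarith)]
  linarith

lemma GX_fin (b : ℕ → ℂ) (u t : ℝ) (N : ℕ) (hN : Real.exp (u + 1) ≤ N) :
    GX b u t = ∑ n ∈ Finset.Ioc 0 N, b n * ((hw u n : ℝ) : ℂ) * ph t n := by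
  unfold GX
  rw [tsum_eq_sum (s := Finset.Ioc 0 N)]
  · apply Finset.sum_congr rfl
    intro n hn
    rw [Finset.mem_Ioc] at hn
    rw [LSeries.term_of_ne_zero hn.1.ne']
    have hnc : (n : ℂ) ≠ 0 := by exact_mod_cast hn.1.ne'
    have h1 : (n : ℂ) ^ (⟨1, t⟩ : ℂ) = (n : ℂ) * cexp (((t * Real.log n : ℝ) : ℂ) * I) := by
      have e : (⟨1, t⟩ : ℂ) = 1 + (t : ℂ) * I := by
        apply Complex.ext <;> simp
      rw [e, Complex.cpow_add _ _ hnc, Complex.cpow_one, Complex.cpow_def_of_ne_zero hnc,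
        ← Complex.natCast_log]
      congr 2
      push_cast
      ring
    have h2 := Complex.exp_ne_zero (((t * Real.log n : ℝ) : ℂ) * I)
    rw [h1]
    unfold ph hw
    rw [Complex.exp_neg]
    push_cast
    field_simp
  · intro n hn
    rcases Nat.eq_zero_or_pos n with rfl | hn0
    · simp
    · rw [Finset.mem_Ioc] at hn
      have h1 : N < n := by
        by_contra hc
        exact hn ⟨hn0, by omega⟩
      have h2 : u + 1 ≤ Real.log n := by
        rw [Real.le_log_iff_exp_le (by exact_mod_cast hn0)]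
        refine hN.trans ?_
        exact_mod_cast h1.le
      rw [hat_zero_of, Complex.ofReal_zero, mul_zero]
      rw [abs_of_nonpos (by linarith)]
      linarith

/-- the sum of the weights -/
lemma hw_sum (u : ℝ) (N : ℕ) : ∑ n ∈ Finset.Ioc 0 N, hw u n ≤ 4 := by
  -- the integers in the window
  obtain ⟨a, ha⟩ : ∃ a : ℕ, a = ⌊Real.exp (u - 1)⌋₊ := ⟨_, rfl⟩
  obtain ⟨b, hb⟩ : ∃ b : ℕ, b = ⌊Real.exp (u + 1)⌋₊ := ⟨_, rfl⟩
  have hab : a ≤ b := by
    rw [ha, hb]
    exact Nat.floor_le_floor (Real.exp_le_exp.2 (by linarith))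
  have hterm : ∀ n ∈ Finset.Ioc 0 N, hw u n ≤ if n ∈ Finset.Ioc a b then (1 : ℝ) / n else 0 := by
    intro n hn
    rw [Finset.mem_Ioc] at hn
    have hn0 : (0 : ℝ) < n := by exact_mod_cast hn.1
    split_ifs with h
    · unfold hw
      exact mul_le_of_le_one_right (by positivity) (hat_le_one _)
    · rw [Finset.mem_Ioc, not_and_or, not_lt, not_le] at h
      rcases h with h | h
      · rw [hw_near hn.1]
        refine le_trans (Nat.cast_le.2 h) ?_
        rw [ha]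
        exact Nat.floor_le (Real.exp_pos _).le
      · rw [hw_far]
        have h3 : ((b + 1 : ℕ) : ℝ) ≤ n := Nat.cast_le.2 h
        refine le_trans ?_ h3
        rw [hb]
        push_cast
        exact (Nat.lt_floor_add_one _).le
  refine (Finset.sum_le_sum hterm).trans ?_
  rw [← Finset.sum_filter]
  have hsub : (Finset.Ioc 0 N).filter (fun n => n ∈ Finset.Ioc a b) ⊆ Finset.Ioc a b := fun n hn =>
    (Finset.mem_filter.1 hn).2
  refine (Finset.sum_le_sum_of_subset_of_nonneg hsub fun _ _ _ => by positivity).trans ?_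
  rcases Nat.eq_zero_or_pos a with h0 | h0
  · -- then `u < 1`
    rw [h0]
    have hu : u < 1 := by
      by_contra hcon
      have h5 : (1 : ℝ) ≤ Real.exp (u - 1) := Real.one_le_exp (by linarith)
      have h6 : 1 ≤ a := by
        rw [ha]
        exact Nat.le_floor (by exact_mod_cast h5)
      omega
    have hb7 : (b : ℝ) ≤ Real.exp 2 := by
      rw [hb]
      refine (Nat.floor_le (Real.exp_pos _).le).trans (Real.exp_le_exp.2 (by linarith))
    rcases Nat.eq_zero_or_pos b with hb0 | hb0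
    · rw [hb0]; simp
    · have h7 := Pool.Agent.TH823.PS.harm_one b
      have h8 : Finset.Ioc 0 b = Finset.Icc 1 b := by
        ext n; simp only [Finset.mem_Ioc, Finset.mem_Icc]; omega
      rw [h8]
      have h9 : Real.log b ≤ 2 := by
        rw [Real.log_le_iff_le_exp (by exact_mod_cast hb0)]
        exact hb7
      linarith
  · have h7 := Pool.Agent.TH823.PS.harm_le (a := a) (N := b) h0 hab
    refine h7.trans ?_
    have ha0 : (0 : ℝ) < a := by exact_mod_cast h0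
    have hae : Real.exp (u - 1) ≤ 2 * a := by
      have h9 := Nat.lt_floor_add_one (Real.exp (u - 1))
      rw [← ha] at h9
      have : (1 : ℝ) ≤ a := by exact_mod_cast h0
      linarith
    have hbe : (b : ℝ) ≤ Real.exp (u + 1) := by rw [hb]; exact Nat.floor_le (Real.exp_pos _).le
    have hb0 : (0 : ℝ) < b := lt_of_lt_of_le ha0 (by exact_mod_cast hab)
    rw [Real.log_div hb0.ne' ha0.ne']
    have h10 : Real.log b ≤ u + 1 := by
      rw [Real.log_le_iff_le_exp hb0]; exact hbe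
    have h11 : u - 1 ≤ Real.log 2 + Real.log a := by
      rw [← Real.log_mul (by norm_num) ha0.ne', Real.le_log_iff_exp_le (by positivity)]
      exact hae
    have h12 : Real.log 2 ≤ 1 := by
      have := Real.log_two_lt_d9
      linarith
    linarith

lemma GX_triv {b : ℕ → ℂ} (hb : ∀ n, ‖b n‖ ≤ 1) (u t : ℝ) : ‖GX b u t‖ ≤ 4 := by
  obtain ⟨N, hN⟩ := exists_nat_ge (Real.exp (u + 1))
  rw [GX_fin b u t N hN]
  refine (norm_sum_le _ _).trans ((Finset.sum_le_sum fun n _ => ?_).trans (hw_sum u N))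
  rw [norm_mul, norm_mul, norm_ph, mul_one, Complex.norm_real, Real.norm_of_nonneg (hw_nonneg u n)]
  exact mul_le_of_le_one_left (hw_nonneg u n) (hb n)

/-- `χ λ` -/
noncomputable def la {r : ℕ} (χ : DirichletCharacter ℂ r) (n : ℕ) : ℂ := χ n * liR n

lemma norm_la_le {r : ℕ} (χ : DirichletCharacter ℂ r) (n : ℕ) : ‖la χ n‖ ≤ 1 := by
  unfold la
  rw [norm_mul]
  exact mul_le_one₀ (χ.norm_le_one _) (norm_nonneg _) (liR_norm n)

/-- summation over the multiples -/
lemma sum_mult {D N : ℕ} (hD : 0 < D) (g : ℕ → ℕ → ℂ) :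
    ∑ n ∈ Finset.Icc 1 N, (if D ∣ n then g n (n / D) else 0) = ∑ m ∈ Finset.Icc 1 (N / D), g (D * m) m := by
  rw [← Finset.sum_filter]
  symm
  refine Finset.sum_bij' (fun m _ => D * m) (fun n _ => n / D) ?_ ?_ ?_ ?_ ?_
  · intro m hm
    rw [Finset.mem_Icc] at hm
    rw [Finset.mem_filter, Finset.mem_Icc]
    refine ⟨⟨?_, ?_⟩, Dvd.intro _ rfl⟩
    · exact Nat.one_le_iff_ne_zero.mpr (Nat.mul_ne_zero hD.ne' (by omega))
    · calc D * m ≤ D * (N / D) := Nat.mul_le_mul_left _ hm.2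
        _ ≤ N := Nat.mul_div_le _ _
  · intro n hn
    rw [Finset.mem_filter, Finset.mem_Icc] at hn
    obtain ⟨⟨h1, h2⟩, c, hc⟩ := hn
    rw [Finset.mem_Icc]
    refine ⟨?_, Nat.div_le_div_right h2⟩
    rw [hc, Nat.mul_div_cancel_left _ hD]
    rcases Nat.eq_zero_or_pos c with h | h
    · rw [h, mul_zero] at hc; omega
    · exact h
  · intro m _
    exact Nat.mul_div_cancel_left _ hD
  · intro n hn
    rw [Finset.mem_filter] at hn
    exact Nat.mul_div_cancel' hn.2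
  · intro m _
    rw [Nat.mul_div_cancel_left _ hD]

/-- from the Moebius to the Liouville function -/
lemma LX_split {r : ℕ} (χ : DirichletCharacter ℂ r) (u t : ℝ) (N : ℕ) (hN : Real.exp (u + 1) ≤ N) :
    GX (la χ) u t = ∑ d ∈ Finset.Icc 1 N, (χ (d ^ 2 : ℕ) * (1 / ((d : ℂ) ^ 2)) * ph t (d ^ 2)) *
      GX (ma χ) (u - Real.log ((d ^ 2 : ℕ) : ℝ)) t := by
  have hIcc : Finset.Ioc 0 N = Finset.Icc 1 N := by
    ext n; simp only [Finset.mem_Ioc, Finset.mem_Icc]; omega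
  rw [GX_fin (la χ) u t N hN, hIcc]
  have h1 : ∀ n ∈ Finset.Icc 1 N, la χ n * ((hw u n : ℝ) : ℂ) * ph t n =
      ∑ d ∈ Finset.Icc 1 N, if d ^ 2 ∣ n then
        χ (n : ZMod r) * (((ArithmeticFunction.moebius (n / d ^ 2) : ℤ) : ℂ)) * ((hw u n : ℝ) : ℂ) * ph t n else 0 := by
    intro n hn
    unfold la liR
    rw [Pool.Agent.H534R2.BH.lam_eq N n hn, Finset.mul_sum, Finset.sum_mul, Finset.sum_mul]
    apply Finset.sum_congr rfl
    intro d _
    split_ifs
    · rfl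
    · simp
  rw [Finset.sum_congr rfl h1, Finset.sum_comm]
  apply Finset.sum_congr rfl
  intro d hd
  rw [Finset.mem_Icc] at hd
  have hd2 : 0 < d ^ 2 := pow_pos (by omega) 2
  have hd2' : (1 : ℝ) ≤ ((d ^ 2 : ℕ) : ℝ) := by exact_mod_cast hd2
  have hlog : 0 ≤ Real.log ((d ^ 2 : ℕ) : ℝ) := Real.log_nonneg hd2'
  rw [sum_mult hd2 (fun n m => χ (n : ZMod r) * (((ArithmeticFunction.moebius m : ℤ) : ℂ)) *
    ((hw u n : ℝ) : ℂ) * ph t n)]
  rw [GX_fin (ma χ) (u - Real.log ((d ^ 2 : ℕ) : ℝ)) t N ((Real.exp_le_exp.2 (by linarith)).trans hN), hIcc,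
    Finset.mul_sum]
  have hw2 : ∀ m ∈ Finset.Icc 1 N, hw u (d ^ 2 * m) = 1 / ((d ^ 2 : ℕ) : ℝ) * hw (u - Real.log ((d ^ 2 : ℕ) : ℝ)) m := by
    intro m hm
    rw [Finset.mem_Icc] at hm
    have hm0 : (m : ℝ) ≠ 0 := by exact_mod_cast (by omega : m ≠ 0)
    unfold hw
    rw [Nat.cast_mul, Real.log_mul (by positivity) hm0]
    rw [show u - (Real.log ((d ^ 2 : ℕ) : ℝ) + Real.log m) = u - Real.log ((d ^ 2 : ℕ) : ℝ) - Real.log m by ring]
    field_simp
  have hsub : Finset.Icc 1 (N / d ^ 2) ⊆ Finset.Icc 1 N := by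
    intro m hm
    rw [Finset.mem_Icc] at hm ⊢
    exact ⟨hm.1, hm.2.trans (Nat.div_le_self _ _)⟩
  rw [Finset.sum_subset hsub (fun m hm hm2 => by
    have h3 : Real.exp (u + 1) ≤ ((d ^ 2 * m : ℕ) : ℝ) := by
      refine hN.trans ?_
      rw [Finset.mem_Icc] at hm hm2
      have h4 : N / d ^ 2 < m := by
        by_contra hcon
        exact hm2 ⟨hm.1, by omega⟩
      have h5 : N < d ^ 2 * m := by
        rw [mul_comm]
        exact (Nat.div_lt_iff_lt_mul hd2).1 h4
      exact_mod_cast h5.le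
    rw [hw_far h3]
    simp)]
  apply Finset.sum_congr rfl
  intro m hm
  rw [hw2 m hm, ph_mul t hd2 (Finset.mem_Icc.1 hm).1]
  unfold ma
  rw [Pi.mul_apply]
  push_cast
  rw [map_mul]
  ring

end Pool.Agent.P8H14.QP
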