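import Pool.Agent.P8H14.QP.A4

set_option autoImplicit false

/-!
# The bound for the smooth sums of the Liouville function twisted by characters
-/

open Complex Filter Topology Set MeasureTheory Metric
open scoped Real

namespace Pool.Agent.P8H14.QP

open Pool.Agent.W66 Pool.Agent.W66L
open Pool.Agent.H373R2.T7 (liR liR_norm)

theorem LX_bound {c0 : ℝ} (hc0 : 0 < c0) (hc01 : c0 ≤ 1) : ∃ c C : ℝ, 0 < c ∧ c ≤ 1 ∧ 0 < C ∧
    ∀ (Q r : ℕ) [NeZero r] (χ : DirichletCharacter ℂ r), r ≤ Q → Adm c0 Q χ → ∀ u ξ₀ R : ℝ, 2 ≤ u → 1 ≤ R →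
    ‖GX (la χ) u ξ₀‖ ≤ C * ((lq Q (|ξ₀| + R)) ^ 2 * Real.exp (-(c * u / lq Q (|ξ₀| + R))) +
      (lq Q (|ξ₀| + R)) ^ 2 / R ^ 2 + u / R) := by
  obtain ⟨c1, C1, hc1, hc11, hC1, h1⟩ := MX_bound hc0 hc01
  refine ⟨c1 / 8, 10 * C1 + 80, by positivity, by linarith, by positivity,
    fun Q r _ χ hrQ hadm u ξ₀ R hu hR => ?_⟩
  obtain ⟨N, hN⟩ := exists_nat_ge (Real.exp (u + 1))
  obtain ⟨ℓ, hℓ⟩ : ∃ ℓ, ℓ = lq Q (|ξ₀| + R) := ⟨_, rfl⟩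
  have hℓ1 : 1 ≤ ℓ := by rw [hℓ]; exact one_le_lq _ _
  have hℓ0 : 0 < ℓ := by linarith
  have hR0 : 0 < R := by linarith
  rw [← hℓ]
  obtain ⟨B, hB⟩ : ∃ B, B = C1 * (ℓ ^ 2 * Real.exp (-(c1 / 8 * u / ℓ)) + ℓ ^ 2 / R ^ 2 + u / R) := ⟨_, rfl⟩
  have hB0 : 0 ≤ B := by rw [hB]; positivity
  rw [LX_split χ u ξ₀ N hN]
  have hterm : ∀ d ∈ Finset.Icc 1 N, ‖(χ (d ^ 2 : ℕ) * (1 / ((d : ℂ) ^ 2)) * ph ξ₀ (d ^ 2)) *
      GX (ma χ) (u - Real.log ((d ^ 2 : ℕ) : ℝ)) ξ₀‖ ≤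
      B * (1 / (d : ℝ) ^ (2 : ℝ)) + 4 * Real.exp (-(u / 8)) * (1 / (d : ℝ) ^ (3 / 2 : ℝ)) := by
    intro d hd
    rw [Finset.mem_Icc] at hd
    have hd0 : (0 : ℝ) < d := by exact_mod_cast hd.1
    have hd1 : (1 : ℝ) ≤ d := by exact_mod_cast hd.1
    rw [norm_mul]
    have hn1 : ‖χ (d ^ 2 : ℕ) * (1 / ((d : ℂ) ^ 2)) * ph ξ₀ (d ^ 2)‖ ≤ 1 / (d : ℝ) ^ (2 : ℝ) := by
      rw [norm_mul, norm_mul, norm_ph, mul_one, norm_div, norm_one, norm_pow, Complex.norm_natCast]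
      rw [show (2 : ℝ) = ((2 : ℕ) : ℝ) by norm_num, Real.rpow_natCast]
      exact mul_le_of_le_one_left (by positivity) (χ.norm_le_one _)
    have hlogd : Real.log ((d ^ 2 : ℕ) : ℝ) = 2 * Real.log d := by
      push_cast
      rw [Real.log_pow]
      norm_num
    have hlogd0 : 0 ≤ Real.log d := Real.log_nonneg hd1
    have hp2 : (0 : ℝ) ≤ 1 / (d : ℝ) ^ (2 : ℝ) := by positivity
    have hp3 : (0 : ℝ) ≤ 4 * Real.exp (-(u / 8)) * (1 / (d : ℝ) ^ (3 / 2 : ℝ)) := by positivity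
    rcases le_or_gt (Real.log ((d ^ 2 : ℕ) : ℝ)) (u / 2) with hcase | hcase
    · have h2 := h1 Q r χ hrQ hadm (u - Real.log ((d ^ 2 : ℕ) : ℝ)) ξ₀ R (by linarith) hR
      rw [← hℓ] at h2
      have h3 : ‖GX (ma χ) (u - Real.log ((d ^ 2 : ℕ) : ℝ)) ξ₀‖ ≤ B := by
        refine h2.trans ?_
        rw [hB]
        apply mul_le_mul_of_nonneg_left _ hC1.le
        have e1 : Real.exp (-(c1 * (u - Real.log ((d ^ 2 : ℕ) : ℝ)) / ℓ)) ≤ Real.exp (-(c1 / 8 * u / ℓ)) := by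
          apply Real.exp_le_exp.2
          apply neg_le_neg
          apply div_le_div_of_nonneg_right _ hℓ0.le
          nlinarith
        have e2 : (u - Real.log ((d ^ 2 : ℕ) : ℝ)) / R ≤ u / R := by
          apply div_le_div_of_nonneg_right _ hR0.le
          rw [hlogd]
          linarith
        have e3 : ℓ ^ 2 * Real.exp (-(c1 * (u - Real.log ((d ^ 2 : ℕ) : ℝ)) / ℓ)) ≤
            ℓ ^ 2 * Real.exp (-(c1 / 8 * u / ℓ)) := mul_le_mul_of_nonneg_left e1 (by positivity)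
        linarith
      calc _ ≤ (1 / (d : ℝ) ^ (2 : ℝ)) * B := mul_le_mul hn1 h3 (norm_nonneg _) hp2
        _ ≤ _ := by rw [mul_comm]; linarith
    · have h3 : ‖GX (ma χ) (u - Real.log ((d ^ 2 : ℕ) : ℝ)) ξ₀‖ ≤ 4 := GX_triv (norm_ma_le χ) _ _
      have h4 : 1 / (d : ℝ) ^ (2 : ℝ) ≤ Real.exp (-(u / 8)) * (1 / (d : ℝ) ^ (3 / 2 : ℝ)) := by
        rw [hlogd] at hcase
        have e1 : (d : ℝ) ^ (2 : ℝ) = (d : ℝ) ^ (1 / 2 : ℝ) * (d : ℝ) ^ (3 / 2 : ℝ) := by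
          rw [← Real.rpow_add hd0]
          norm_num
        have e2 : Real.exp (u / 8) ≤ (d : ℝ) ^ (1 / 2 : ℝ) := by
          rw [Real.rpow_def_of_pos hd0]
          apply Real.exp_le_exp.2
          linarith
        rw [e1, Real.exp_neg]
        have e3 : (0 : ℝ) < (d : ℝ) ^ (3 / 2 : ℝ) := by positivity
        have e4 : 1 / ((d : ℝ) ^ (1 / 2 : ℝ) * (d : ℝ) ^ (3 / 2 : ℝ)) = ((d : ℝ) ^ (1 / 2 : ℝ))⁻¹ * (1 / (d : ℝ) ^ (3 / 2 : ℝ)) := by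
          field_simp
        rw [e4]
        exact mul_le_mul_of_nonneg_right (inv_anti₀ (Real.exp_pos _) e2) (by positivity)
      have h5 : 0 ≤ B * (1 / (d : ℝ) ^ (2 : ℝ)) := mul_nonneg hB0 hp2
      calc _ ≤ (Real.exp (-(u / 8)) * (1 / (d : ℝ) ^ (3 / 2 : ℝ))) * 4 :=
            mul_le_mul (hn1.trans h4) h3 (norm_nonneg _) (by positivity)
        _ ≤ _ := by linarith
  refine (norm_sum_le _ _).trans ((Finset.sum_le_sum hterm).trans ?_)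
  rw [Finset.sum_add_distrib, ← Finset.mul_sum, ← Finset.mul_sum]
  have hs2 : ∑ d ∈ Finset.Icc 1 N, 1 / (d : ℝ) ^ (2 : ℝ) ≤ 10 := by
    have h2 := (Real.summable_one_div_nat_rpow (p := 2)).2 (by norm_num)
    refine (h2.sum_le_tsum _ fun _ _ => by positivity).trans ((zeta_real_le (by norm_num) le_rfl).trans ?_)
    norm_num
  have hs3 : ∑ d ∈ Finset.Icc 1 N, 1 / (d : ℝ) ^ (3 / 2 : ℝ) ≤ 20 := by
    have h2 := (Real.summable_one_div_nat_rpow (p := 3 / 2)).2 (by norm_num)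
    refine (h2.sum_le_tsum _ fun _ _ => by positivity).trans ((zeta_real_le (by norm_num) (by norm_num)).trans ?_)
    norm_num
  have h6 : Real.exp (-(u / 8)) ≤ ℓ ^ 2 * Real.exp (-(c1 / 8 * u / ℓ)) := by
    have h7 : Real.exp (-(u / 8)) ≤ Real.exp (-(c1 / 8 * u / ℓ)) := by
      apply Real.exp_le_exp.2
      apply neg_le_neg
      refine (div_le_self (by positivity) hℓ1).trans ?_
      nlinarith
    have h8 : (1 : ℝ) ≤ ℓ ^ 2 := one_le_pow₀ hℓ1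
    have h9 := Real.exp_pos (-(c1 / 8 * u / ℓ))
    nlinarith
  have h10 : 0 ≤ ℓ ^ 2 / R ^ 2 := by positivity
  have h11 : 0 ≤ u / R := by positivity
  have h12 : 0 ≤ ℓ ^ 2 * Real.exp (-(c1 / 8 * u / ℓ)) := by positivity
  calc B * ∑ d ∈ Finset.Icc 1 N, 1 / (d : ℝ) ^ (2 : ℝ) +
        4 * Real.exp (-(u / 8)) * ∑ d ∈ Finset.Icc 1 N, 1 / (d : ℝ) ^ (3 / 2 : ℝ) ≤
        B * 10 + 4 * Real.exp (-(u / 8)) * 20 := by gcongr
    _ ≤ _ := by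
        rw [hB]
        nlinarith

end Pool.Agent.P8H14.QP
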