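import Pool.Agent.P8H14.QP.B10
import Pool.Agent.TH823.PS.Arcs2
import Pool.Agent.TH823.PS.Fin

set_option autoImplicit false

/-!
# The sum over a set of frequencies
-/

open Complex Filter Topology MeasureTheory Metric Finset
open scoped Real

namespace Pool.Agent.P8H14.QP

open Pool.Agent.Helper112 (ee)
open Pool.Agent.W66 Pool.Agent.W66L
open Pool.Agent.TH823.PS (gen rr EE ls_gg EE_int EE_nonneg expEE_int arcs' nice_liR ggC_sq_integrable)
open Pool.Agent.H373R2.T7 (liR liR_norm)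

/-- the total energy -/
lemma EE_total {F z N : ℕ} {h : ℝ} (hh0 : 0 < h) (hh1 : h ≤ 1) (hz : 1 ≤ z) (hN : 1 ≤ N)
    (hLS : (1 + (F : ℝ) ^ 2) / h ≤ z) :
    ∫ x, EE h F (Ioc z N) (fun n => liR n / n) x ≤ 96 * (1 + Real.log N) := by
  have hint : ∀ c : ℕ → ℂ, Integrable fun x => ‖ggC h (Ioc z N) c x‖ ^ 2 := fun c =>
    ggC_sq_integrable hh0 _ c
  unfold EE
  rw [integral_finsetSum _ (fun q _ => integrable_finsetSum _ fun a _ => hint _)]
  have h3 : ∑ q ∈ Icc 1 F, ∫ x, ∑ a ∈ rr q, ‖ggC h (Ioc z N) (fun n => liR n / n * ee (n * a / q)) x‖ ^ 2 =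
      ∑ q ∈ Icc 1 F, ∑ a ∈ rr q, ∫ x, ‖ggC h (Ioc z N) (fun n => liR n / n * ee (n * a / q)) x‖ ^ 2 := by
    apply sum_congr rfl
    intro q _
    rw [integral_finsetSum _ (fun a _ => hint _)]
  rw [h3]
  refine (ls_gg F (Ioc z N) (fun n hn => by have := (mem_Ioc.1 hn).1; omega) _ hh0 hh1).trans ?_
  have h4 : ∀ n ∈ Ioc z N, 6 * (15 * (n : ℝ) + (1 + (F : ℝ) ^ 2) / h) * ‖liR n / n‖ ^ 2 ≤ 96 * (1 / (n : ℝ)) := by
    intro n hn
    rw [mem_Ioc] at hn
    have hn0 : (0 : ℝ) < n := by exact_mod_cast (by omega : 0 < n)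
    have h5 : (z : ℝ) ≤ n := by exact_mod_cast hn.1.le
    have h6 : 6 * (15 * (n : ℝ) + (1 + (F : ℝ) ^ 2) / h) ≤ 96 * n := by linarith
    have h7 : ‖liR n / n‖ ≤ 1 / n := by
      rw [norm_div, Complex.norm_natCast]
      exact div_le_div_of_nonneg_right (liR_norm n) hn0.le
    calc _ ≤ 96 * (n : ℝ) * (1 / n) ^ 2 := by gcongr
      _ = _ := by field_simp
  refine (sum_le_sum h4).trans ?_
  rw [← mul_sum]
  have h8 : ∑ n ∈ Ioc z N, 1 / (n : ℝ) ≤ 1 + Real.log N := by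
    refine le_trans ?_ (harm_le N hN)
    apply sum_le_sum_of_subset_of_nonneg
    · intro n hn
      rw [mem_Ioc] at hn ⊢
      omega
    · intro _ _ _
      positivity
  linarith

/-- **the sum over a set of frequencies** -/
theorem freq {c0 : ℝ} (hc0 : 0 < c0) (hc01 : c0 ≤ 1) (A : ℕ) : ∃ c1 L0 : ℝ, 0 < c1 ∧ c1 ≤ 1 / 200 ∧ 200 ≤ L0 ∧
    ∀ X Y Q : ℕ, 1 ≤ Y → Y ≤ X → 1 ≤ Q → L0 ≤ Real.log Y → Zs c0 Q → Real.log (Real.log Y) ^ 2 ≤ Real.log Q →
    Real.log Q * Real.log (Real.log Y) ≤ c1 * Real.log Y → ∀ S ⊆ range X, (S.card : ℝ) ≤ √(Q : ℝ) →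
    ∑ k ∈ S, ‖∑ n ∈ Icc 1 Y, liR n * ee (n * ((k : ℝ) / X))‖ ^ 2 ≤ (X : ℝ) ^ 2 / Real.log Y ^ A := by
  obtain ⟨C, e, N0, hPP⟩ := nice_liR.pp
  obtain ⟨c1, L1, hc1, hc12, hL1, hEE⟩ := EE_scale hc0 hc01 (A + 1)
  obtain ⟨L2, hL2, hev⟩ := ev_exp 7 (8712 + 4 * C ^ 2 + 2 * (A + 2 * e + 3) + Real.log (N0 + 1))
  refine ⟨c1, max L1 L2, hc1, hc12, hL1.trans (le_max_left _ _),
    fun X Y Q hY hYX hQ hL hZ hq1 hq2 S hS hSc => ?_⟩
  set L : ℝ := Real.log Y with hLd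
  obtain ⟨hE7, hLC, hlC⟩ := hev L ((le_max_right _ _).trans hL)
  have hLL1 : L1 ≤ L := (le_max_left _ _).trans hL
  have hL200 : 200 ≤ L := hL1.trans hLL1
  set l : ℝ := Real.log L with hl
  set q : ℝ := Real.log Q with hq
  have hLp : 0 < L := by linarith
  have hY0 : (0 : ℝ) < Y := by exact_mod_cast hY
  have hX0 : (0 : ℝ) < X := lt_of_lt_of_le hY0 (by exact_mod_cast hYX)
  have hYX' : (Y : ℝ) ≤ X := by exact_mod_cast hYX
  have hQ0 : (0 : ℝ) < Q := by exact_mod_cast hQ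
  have hQ1 : (1 : ℝ) ≤ Q := by exact_mod_cast hQ
  have hq0 : 0 ≤ q := Real.log_nonneg hQ1
  have hqe : (Q : ℝ) = Real.exp q := (Real.exp_log hQ0).symm
  have hYe : (Y : ℝ) = Real.exp L := (Real.exp_log hY0).symm
  have hC2 : 0 ≤ C ^ 2 := sq_nonneg C
  have hlN : 0 ≤ Real.log ((N0 : ℝ) + 1) := Real.log_nonneg (by
    have : (0 : ℝ) ≤ N0 := Nat.cast_nonneg _
    linarith)
  have hAe : (0 : ℝ) ≤ 2 * ((A : ℝ) + 2 * e + 3) := by positivity
  have hA0 : (0 : ℝ) ≤ A := Nat.cast_nonneg _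
  have he0 : (0 : ℝ) ≤ e := Nat.cast_nonneg _
  have hl1 : 1 ≤ l := by linarith
  have hl8 : 8712 ≤ l := by linarith
  have hL8 : 8712 ≤ L := by linarith
  have hL4C : 4 * C ^ 2 ≤ L := by linarith
  have hlA : 2 * ((A : ℝ) + 2 * e + 3) ≤ l := by linarith
  have hqL : q ≤ L / 200 := by
    have h1 : c1 * L ≤ 1 / 200 * L := by gcongr
    have h2 : q * 1 ≤ q * l := by gcongr
    linarith
  have hql : 2 * ((A : ℝ) + 2 * e + 3) * l ≤ q := by
    have h1 : 2 * ((A : ℝ) + 2 * e + 3) * l ≤ l * l := by gcongr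
    have h2 : l * l = l ^ 2 := by ring
    linarith
  have hl2q : l ≤ q := by
    have h1 : l * 1 ≤ l * l := by gcongr
    have h2 : l * l = l ^ 2 := by ring
    linarith
  have hel : Real.exp l = L := Real.exp_log hLp
  -- powers of `L` against `Q`
  have hpow : L ^ (A + 2 * e + 3) ≤ Real.exp (q / 2) := by
    rw [← hel, ← Real.exp_nat_mul]
    apply Real.exp_le_exp.2
    push_cast
    linarith
  have hsq : √(Q : ℝ) = Real.exp (q / 2) := by rw [hqe, ← Real.exp_half]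
  have hsq0 : 0 < √(Q : ℝ) := by rw [hsq]; exact Real.exp_pos _
  have hsq2 : √(Q : ℝ) ^ 2 = Q := Real.sq_sqrt hQ0.le
  have hQ4 : 4 ≤ Q := by
    have h1 : (4 : ℝ) ≤ Q := by
      rw [hqe]
      have := Real.add_one_le_exp q
      linarith
    exact_mod_cast h1
  have hQL : L ≤ Q := by
    rw [hqe, ← hel]
    exact Real.exp_le_exp.2 hl2q
  -- the minor arcs
  have hYN0 : N0 ≤ Y := by
    have h1 : Real.log ((N0 : ℝ) + 1) ≤ L := by linarith
    have h2 : (N0 : ℝ) + 1 ≤ Y := by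
      rw [hYe, ← Real.log_le_iff_le_exp (by positivity)]
      exact h1
    have h3 : (N0 : ℝ) ≤ Y := by linarith
    exact_mod_cast h3
  have hQ8 : ((Q * Q) * (Q * Q)) * ((Q * Q) * (Q * Q)) ≤ Y := by
    have h1 : ((((Q * Q) * (Q * Q)) * ((Q * Q) * (Q * Q)) : ℕ) : ℝ) ≤ Y := by
      have h2 : ((((Q * Q) * (Q * Q)) * ((Q * Q) * (Q * Q)) : ℕ) : ℝ) = (Q : ℝ) ^ 8 := by push_cast; ring
      rw [h2, hqe, ← Real.exp_nat_mul, hYe]
      apply Real.exp_le_exp.2
      push_cast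
      linarith
    exact_mod_cast h1
  have hPPY := hPP Y hYN0 Q hQ4 hQ8
  -- parameters
  set h : ℝ := 1 / (Q : ℝ) ^ 3 with hh
  have hh0 : 0 < h := by positivity
  have hh1 : h ≤ 1 := by
    rw [hh, div_le_one (by positivity)]
    exact one_le_pow₀ hQ1
  set z : ℕ := Y / Q with hz
  have hzY : (z : ℝ) ≤ Y / Q := Nat.cast_div_le
  have hQY : 4 * (Q : ℝ) ^ 6 ≤ Y := by
    have h1 : (4 : ℝ) ≤ Q := by exact_mod_cast hQ4
    have h2 : 4 * (Q : ℝ) ^ 6 ≤ (Q : ℝ) ^ 7 := by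
      rw [pow_succ' (Q : ℝ) 6]
      gcongr
    refine h2.trans ?_
    rw [hqe, ← Real.exp_nat_mul, hYe]
    apply Real.exp_le_exp.2
    push_cast
    linarith
  have hYQ : 4 * (Q : ℝ) ^ 5 ≤ Y / Q := by
    rw [le_div_iff₀ hQ0]
    calc _ = 4 * (Q : ℝ) ^ 6 := by ring
      _ ≤ Y := hQY
  have hQ51 : (1 : ℝ) ≤ (Q : ℝ) ^ 5 := one_le_pow₀ hQ1
  have hzb : Y / Q / 2 ≤ (z : ℝ) := by
    have h1 : (Y : ℝ) / Q - 1 ≤ z := by
      have h2 := Nat.lt_div_mul_add (a := Y) (b := Q) (by omega)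
      have h3 : (Y : ℝ) < (Y / Q : ℕ) * Q + Q := by exact_mod_cast h2
      have h4 : (Y : ℝ) / Q < (Y / Q : ℕ) + 1 := by
        rw [div_lt_iff₀ hQ0]
        linarith
      rw [← hz] at h4
      linarith
    linarith
  have hLS : (1 + (Q : ℝ) ^ 2) / h ≤ z := by
    have h1 : (1 + (Q : ℝ) ^ 2) / h = (1 + (Q : ℝ) ^ 2) * (Q : ℝ) ^ 3 := by rw [hh]; field_simp
    have h2 : (1 : ℝ) ≤ (Q : ℝ) ^ 2 := one_le_pow₀ hQ1
    rw [h1]
    calc (1 + (Q : ℝ) ^ 2) * (Q : ℝ) ^ 3 ≤ (2 * (Q : ℝ) ^ 2) * (Q : ℝ) ^ 3 := by gcongr; linarith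
      _ = 2 * (Q : ℝ) ^ 5 := by ring
      _ ≤ z := by linarith
  have hz1 : 1 ≤ z := by
    have h1 : (1 : ℝ) ≤ z := by linarith
    exact_mod_cast h1
  have hzY' : z ≤ Y := Nat.div_le_self _ _
  set T : ℝ := ((A : ℝ) + 2) * l with hT
  have hT0 : 0 ≤ T := by positivity
  have hTq : T + 1 ≤ q := by
    have h1 : T + 1 ≤ 2 * ((A : ℝ) + 2 * e + 3) * l := by
      rw [hT]
      have : 0 ≤ ((A : ℝ) + 4 * e + 3) * l := by positivity
      have h5 : 2 * ((A : ℝ) + 2 * e + 3) * l = ((A : ℝ) + 2) * l + ((A : ℝ) + 4 * e + 3) * l + l := by ring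
      linarith
    linarith
  set a : ℝ := L - T with ha
  have hlz : Real.log z ≤ L - q := by
    have h1 : Real.log z ≤ Real.log (Y / Q) := Real.log_le_log (by exact_mod_cast hz1) hzY
    rw [Real.log_div hY0.ne' hQ0.ne'] at h1
    exact h1
  have hmain := hEE Y Q hY hQ hLL1 hZ hq1 hq2 z hz1 (by omega) a (by
    rw [← hh]; linarith) (by linarith) (by linarith)
  rw [← hh] at hmain
  -- the integral
  have hI : ∫ x in Set.Iic L, Real.exp x * EE h Q (Ioc z (21 * Y)) (fun n => liR n / n) x ≤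
      Y * (193 / L ^ (A + 1)) := by
    have hi := expEE_int hh0 Q (Ioc z (21 * Y)) (fun n => liR n / n) L
    have hEi := EE_int hh0 Q (Ioc z (21 * Y)) (fun n => liR n / n)
    have hE0 := EE_nonneg h Q (Ioc z (21 * Y)) (fun n => liR n / n)
    have h1 : Set.Iic L = Set.Iic a ∪ Set.Ioc a L := (Set.Iic_union_Ioc_eq_Iic (by linarith)).symm
    have h2 : ∫ x in Set.Iic L, Real.exp x * EE h Q (Ioc z (21 * Y)) (fun n => liR n / n) x =
        (∫ x in Set.Iic a, Real.exp x * EE h Q (Ioc z (21 * Y)) (fun n => liR n / n) x) +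
        ∫ x in Set.Ioc a L, Real.exp x * EE h Q (Ioc z (21 * Y)) (fun n => liR n / n) x := by
      rw [h1, setIntegral_union (by
        rw [Set.disjoint_left]; intro x hx hx2
        exact absurd hx (not_le.2 hx2.1)) measurableSet_Ioc]
      · exact hi.mono_set (Set.Iic_subset_Iic.2 (by linarith))
      · exact hi.mono_set (fun x hx => hx.2)
    rw [h2]
    have h3 : ∫ x in Set.Iic a, Real.exp x * EE h Q (Ioc z (21 * Y)) (fun n => liR n / n) x ≤
        Real.exp a * (96 * (1 + Real.log (21 * Y : ℕ))) := by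
      have h4 : ∫ x in Set.Iic a, Real.exp x * EE h Q (Ioc z (21 * Y)) (fun n => liR n / n) x ≤
          ∫ x in Set.Iic a, Real.exp a * EE h Q (Ioc z (21 * Y)) (fun n => liR n / n) x := by
        apply setIntegral_mono_on
        · exact hi.mono_set (Set.Iic_subset_Iic.2 (by linarith))
        · exact (hEi.const_mul _).integrableOn
        · exact measurableSet_Iic
        · intro x hx
          exact mul_le_mul_of_nonneg_right (Real.exp_le_exp.2 hx) (hE0 x)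
      refine h4.trans ?_
      have h5 : ∫ x in Set.Iic a, Real.exp a * EE h Q (Ioc z (21 * Y)) (fun n => liR n / n) x ≤
          ∫ x, Real.exp a * EE h Q (Ioc z (21 * Y)) (fun n => liR n / n) x :=
        setIntegral_le_integral (hEi.const_mul _) (Eventually.of_forall fun x =>
          mul_nonneg (Real.exp_pos _).le (hE0 x))
      refine h5.trans ?_
      rw [integral_const_mul]
      apply mul_le_mul_of_nonneg_left _ (Real.exp_pos _).le
      exact EE_total hh0 hh1 hz1 (by omega) hLS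
    have h4 : ∫ x in Set.Ioc a L, Real.exp x * EE h Q (Ioc z (21 * Y)) (fun n => liR n / n) x ≤
        Y * (1 / L ^ (A + 1)) := by
      have h5 : ∫ x in Set.Ioc a L, Real.exp x * EE h Q (Ioc z (21 * Y)) (fun n => liR n / n) x ≤
          ∫ x in Set.Ioc a L, (Y : ℝ) * EE h Q (Ioc z (21 * Y)) (fun n => liR n / n) x := by
        apply setIntegral_mono_on
        · exact hi.mono_set (fun x hx => hx.2)
        · exact (hEi.const_mul _).integrableOn
        · exact measurableSet_Ioc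
        · intro x hx
          apply mul_le_mul_of_nonneg_right _ (hE0 x)
          rw [hYe]
          exact Real.exp_le_exp.2 hx.2
      refine h5.trans ?_
      rw [integral_const_mul, ← integral_Icc_eq_integral_Ioc]
      exact mul_le_mul_of_nonneg_left hmain hY0.le
    have h5 : Real.exp a = Y / L ^ (A + 2) := by
      have h9 : Real.exp T = L ^ (A + 2) := by
        rw [hT]
        calc Real.exp (((A : ℝ) + 2) * l) = Real.exp (((A + 2 : ℕ) : ℝ) * l) := by push_cast; rfl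
          _ = Real.exp l ^ (A + 2) := Real.exp_nat_mul _ _
          _ = L ^ (A + 2) := by rw [hel]
      rw [ha, Real.exp_sub, ← hYe, h9]
    have h6 : 1 + Real.log (21 * Y : ℕ) ≤ 2 * L := by
      have h7 : Real.log (21 * Y : ℕ) = Real.log 21 + L := by
        push_cast
        rw [Real.log_mul (by norm_num) hY0.ne']
      have h8 : Real.log 21 ≤ 20 := by
        have := Real.log_le_sub_one_of_pos (by norm_num : (0 : ℝ) < 21)
        linarith
      rw [h7]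
      linarith
    rw [h5] at h3
    have hLA : 0 < L ^ (A + 1) := by positivity
    have h7 : Y / L ^ (A + 2) * (96 * (1 + Real.log (21 * Y : ℕ))) ≤ Y * (192 / L ^ (A + 1)) := by
      calc Y / L ^ (A + 2) * (96 * (1 + Real.log (21 * Y : ℕ))) ≤ Y / L ^ (A + 2) * (96 * (2 * L)) := by
            gcongr
        _ = _ := by rw [pow_succ L (A + 1)]; field_simp; norm_num
    calc _ ≤ Y * (192 / L ^ (A + 1)) + Y * (1 / L ^ (A + 1)) := add_le_add (h3.trans h7) h4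
      _ = _ := by ring
  have harc := arcs' (f := liR) liR_norm hYX hPPY hz1 hzY' (by omega : Y ≤ 21 * Y) hQ hh0 hh1 S hS
  refine harc.trans ?_
  have hLA0 : 0 < L ^ A := by positivity
  -- first part
  have p1 : (S.card : ℝ) * (C * L ^ e * Y / √(Q : ℝ)) ^ 2 ≤ (X : ℝ) ^ 2 / L ^ A * (1 / 4) := by
    have h1 : (S.card : ℝ) * (C * L ^ e * Y / √(Q : ℝ)) ^ 2 ≤ √(Q : ℝ) * (C * L ^ e * Y / √(Q : ℝ)) ^ 2 := by
      gcongr
    refine h1.trans ?_
    have h2 : √(Q : ℝ) * (C * L ^ e * Y / √(Q : ℝ)) ^ 2 = C ^ 2 * L ^ (2 * e) * (Y : ℝ) ^ 2 / √(Q : ℝ) := by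
      rw [div_pow, mul_pow, mul_pow, ← pow_mul, mul_comm e 2]
      field_simp
    rw [h2]
    have h3 : C ^ 2 * L ^ (2 * e) * (Y : ℝ) ^ 2 / √(Q : ℝ) ≤
        C ^ 2 * L ^ (2 * e) * (X : ℝ) ^ 2 / L ^ (A + 2 * e + 3) := by
      rw [hsq]
      gcongr
    refine h3.trans ?_
    have h4 : C ^ 2 * L ^ (2 * e) * (X : ℝ) ^ 2 / L ^ (A + 2 * e + 3) = (X : ℝ) ^ 2 / L ^ A * (C ^ 2 / L ^ 3) := by
      rw [pow_add L (A + 2 * e) 3, pow_add L A (2 * e)]
      field_simp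
    rw [h4]
    apply mul_le_mul_of_nonneg_left _ (by positivity)
    rw [div_le_div_iff₀ (by positivity) (by norm_num)]
    have h5 : L ≤ L ^ 3 := le_self_pow₀ (by linarith) (by norm_num)
    linarith
  -- second part
  have p2 : 2 * (S.card : ℝ) * (z + 4 + 18 * h * Y + 4 * π * h * Q * Y) ^ 2 ≤ (X : ℝ) ^ 2 / L ^ A * (1 / 4) := by
    have hpi := Real.pi_lt_d2
    have hpi0 := Real.pi_pos
    have h1 : z + 4 + 18 * h * Y + 4 * π * h * Q * Y ≤ 33 * (Y / Q) := by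
      have h2 : h * Y ≤ Y / Q / 4 := by
        rw [hh, div_mul_eq_mul_div, one_mul, div_div, div_le_div_iff₀ (by positivity) (by positivity)]
        have h3 : (Q : ℝ) * 4 ≤ (Q : ℝ) ^ 3 := by
          have h4 : (4 : ℝ) ≤ Q := by exact_mod_cast hQ4
          calc (Q : ℝ) * 4 ≤ Q * (Q * Q) := by
                have h5 : (4 : ℝ) * 1 ≤ Q * Q := mul_le_mul h4 hQ1 (by norm_num) hQ0.le
                exact mul_le_mul_of_nonneg_left (by linarith) hQ0.le
            _ = _ := by ring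
        gcongr
      have h3 : h * Q * Y ≤ Y / Q := by
        rw [hh, le_div_iff₀ hQ0]
        have h4 : 1 / (Q : ℝ) ^ 3 * Q * Y * Q = Y / Q := by field_simp
        rw [h4, div_le_iff₀ hQ0]
        exact le_mul_of_one_le_right hY0.le hQ1
      have h4 : (4 : ℝ) ≤ Y / Q := by linarith
      have h5 : 4 * π * h * Q * Y = 4 * π * (h * Q * Y) := by ring
      have h6 : 4 * π * (h * Q * Y) ≤ 12.6 * (Y / Q) := by
        have h7 : 4 * π ≤ 12.6 := by linarith
        gcongr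
      rw [h5]
      have h8 : 18 * h * Y = 18 * (h * Y) := by ring
      rw [h8]
      linarith
    have h2 : 2 * (S.card : ℝ) * (z + 4 + 18 * h * Y + 4 * π * h * Q * Y) ^ 2 ≤
        2 * √(Q : ℝ) * (33 * (Y / Q)) ^ 2 := by
      gcongr
    refine h2.trans ?_
    have h3 : 2 * √(Q : ℝ) * (33 * (Y / Q)) ^ 2 = 2178 * (Y : ℝ) ^ 2 / √(Q : ℝ) ^ 3 := by
      have h4 : (Q : ℝ) ^ 2 = √(Q : ℝ) ^ 4 := by
        calc (Q : ℝ) ^ 2 = (√(Q : ℝ) ^ 2) ^ 2 := by rw [hsq2]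
          _ = _ := by ring
      rw [mul_pow, div_pow, h4]
      field_simp
      norm_num
    rw [h3]
    have h4 : L ^ (A + 1) ≤ √(Q : ℝ) ^ 3 := by
      rw [hsq]
      calc L ^ (A + 1) ≤ L ^ (A + 2 * e + 3) := pow_le_pow_right₀ (by linarith) (by omega)
        _ ≤ Real.exp (q / 2) := hpow
        _ ≤ Real.exp (q / 2) ^ 3 := le_self_pow₀ (Real.one_le_exp (by linarith)) (by norm_num)
    calc 2178 * (Y : ℝ) ^ 2 / √(Q : ℝ) ^ 3 ≤ 2178 * (X : ℝ) ^ 2 / L ^ (A + 1) := by gcongr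
      _ = (X : ℝ) ^ 2 / L ^ A * (2178 / L) := by rw [pow_succ L A]; field_simp
      _ ≤ _ := by
          apply mul_le_mul_of_nonneg_left _ (by positivity)
          rw [div_le_div_iff₀ hLp (by norm_num)]
          linarith
  -- third part
  have p3 : 2 * (X * ∫ x in Set.Iic L, Real.exp x * EE h Q (Ioc z (21 * Y)) (fun n => liR n / n) x) ≤
      (X : ℝ) ^ 2 / L ^ A * (1 / 2) := by
    calc _ ≤ 2 * (X * (Y * (193 / L ^ (A + 1)))) := by gcongr
      _ ≤ 2 * (X * (X * (193 / L ^ (A + 1)))) := by gcongr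
      _ = (X : ℝ) ^ 2 / L ^ A * (386 / L) := by rw [pow_succ L A]; field_simp; norm_num
      _ ≤ _ := by
          apply mul_le_mul_of_nonneg_left _ (by positivity)
          rw [div_le_div_iff₀ hLp (by norm_num)]
          linarith
  calc _ ≤ (X : ℝ) ^ 2 / L ^ A * (1 / 4) + (X : ℝ) ^ 2 / L ^ A * (1 / 4) + (X : ℝ) ^ 2 / L ^ A * (1 / 2) :=
        add_le_add (add_le_add p1 p2) p3
    _ = _ := by ring

end Pool.Agent.P8H14.QP
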