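import Pool.Agent.P8H14.QP.B11
import Pool.Agent.TH823.PS.FamGood

set_option autoImplicit false

/-!
# The exceptional members of a family with explicit constants
-/

open Finset

namespace Pool.Agent.P8H14.QP

open Pool.Agent.TH823.PS
open Pool.Agent.H807R2.Dav (ee norm_ee ee_add ee_int)
open Pool.Agent.H373R2.T7 (fz exI energy moment_energy)

open Classical in
/-- the exceptional members of one family: all the constants explicit -/
theorem fam_goodQ {f : ℕ → ℂ} (hf : ∀ n, ‖f n‖ ≤ 1) (B L p : ℕ) (hp : 1 ≤ p) {ε : ℝ} (hε : 0 < ε) {y : ℝ}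
    (hy0 : 0 < y) {N : ℕ} (hNn : 1 ≤ N) (hNε : 8 * ((B : ℝ) + 1) / ε ^ 2 ≤ N) (J : ℕ)
    (hJ : (4 * p + 5) * ((B : ℝ) + 1) * ((L + 1) * (8 * ((B : ℝ) + 1) ^ 2 / ε ^ 2 + 1) / (ε / (16 * ((B : ℝ) + 1)))) ^ (2 * p) *
      y ^ (2 * p + 1) ≤ J)
    (hK : ∀ K ⊆ range ((4 * p + 5) * ((B + 1) * N)), K.card ≤ J →
        ∑ t ∈ K, ‖∑ n ∈ Icc 1 (2 * ((B + 1) * N)),
          f n * ee (n * ((t : ℝ) / ((4 * p + 5) * ((B + 1) * N) : ℕ)))‖ ^ 2 ≤
          (ε / (8 * (4 * p + 5) * (B + 1)) * ((4 * p + 5) * ((B + 1) * N) : ℕ)) ^ 2)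
    (x : ℕ) (s : ℕ → ℤ) (hs : ∀ m ∈ Icc 1 x, |s m| ≤ B * N)
    (hE : (energy p x s : ℝ) * N ≤ y * (x : ℝ) ^ (2 * p))
    (a : Fin L → ℕ) (g : Fin L → ℕ → ℂ) (ha : ∀ l, 1 ≤ a l)
    (hg : ∀ l, ∑ n ∈ Icc 1 (B * N / a l), ‖g l n‖ ^ 2 ≤ B * N) :
    (((Icc 1 x).filter (fun m => ¬ ∀ l, ∀ X : ℕ, a l * X ≤ B * N →
        ‖∑ n ∈ Icc 1 X, g l n * exI f (a l * n + s m)‖ ≤ ε * N)).card : ℝ) ≤ x / y := by
  classical
  set B1 : ℕ := B + 1 with hB1
  have hB1r : (1 : ℝ) ≤ B1 := by exact_mod_cast (by omega : 1 ≤ B1)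
  have hB1c : (B1 : ℝ) = B + 1 := by rw [hB1]; push_cast; ring
  set τ : ℝ := ε / (16 * B1) with hτ
  have hτ0 : 0 < τ := by positivity
  set ρ : ℝ := ε / (8 * (4 * p + 5) * B1) with hρ
  have hρ0 : 0 < ρ := by positivity
  set D : ℝ := 8 * B1 ^ 2 / ε ^ 2 + 1 with hD
  have hD1 : 1 ≤ D := by
    have : 0 ≤ 8 * (B1 : ℝ) ^ 2 / ε ^ 2 := by positivity
    linarith
  set LD : ℝ := (L + 1) * D with hLD
  have hLD0 : 0 < LD := by positivity
  have hN1 : (1 : ℝ) ≤ N := by exact_mod_cast hNn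
  have hN0 : (0 : ℝ) < N := by linarith
  rw [← hB1c] at hNε hJ
  rw [← hτ, ← hD, ← hLD] at hJ
  rcases Nat.eq_zero_or_pos x with hx | hx
  · subst hx
    simp
  have hx0 : (0 : ℝ) < x := by exact_mod_cast hx
  set A : ℕ := B * N with hA
  set H : ℕ := 2 * (B1 * N) with hH
  set M : ℕ := (4 * p + 5) * (B1 * N) with hM
  have hBN : B * N ≤ B1 * N := Nat.mul_le_mul_right _ (by omega)
  have hB1N : 1 ≤ B1 * N := Nat.mul_pos (by omega) hNn
  have hM5 : 5 * (B1 * N) ≤ M := by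
    rw [hM]; exact Nat.mul_le_mul_right _ (by omega)
  have hM1 : 1 ≤ M := by omega
  have hHM : H ≤ M := by omega
  have hAM : A ≤ M := by omega
  have hMr : (M : ℝ) = (4 * p + 5) * (B1 * N) := by rw [hM]; push_cast; ring
  have hHr : (H : ℝ) = 2 * (B1 * N) := by rw [hH]; push_cast; ring
  have hsz : ∀ m ∈ Icc 1 x, |s m| ≤ (B1 * N : ℕ) := by
    intro m hm
    have h1 := hs m hm
    have h2 : (B : ℤ) * N ≤ (B1 * N : ℕ) := by exact_mod_cast hBN
    linarith
  have hBNz : ((B1 * N : ℕ) : ℤ) * 2 = H := by rw [hH]; push_cast; ring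
  -- the step of the grid
  set t : ℕ := ⌊ε ^ 2 * N / (4 * B1)⌋₊ with ht
  have ht1 : 1 ≤ t := by
    apply Nat.le_floor
    rw [Nat.cast_one, le_div_iff₀ (by positivity)]
    rw [div_le_iff₀ (by positivity)] at hNε
    linarith
  have ht0 : (0 : ℝ) < t := by exact_mod_cast ht1
  have htle : (t : ℝ) ≤ ε ^ 2 * N / (4 * B1) := Nat.floor_le (by positivity)
  have htge : ε ^ 2 * N / (8 * B1) ≤ t := by
    have h1 := Nat.lt_floor_add_one (ε ^ 2 * (N : ℝ) / (4 * B1))
    rw [← ht] at h1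
    have h2 : ε ^ 2 * (N : ℝ) / (4 * B1) = 2 * (ε ^ 2 * N / (8 * B1)) := by field_simp; ring
    rw [h2] at h1
    have h3 : 1 ≤ ε ^ 2 * N / (8 * B1) := by
      rw [le_div_iff₀ (by positivity)]
      rw [div_le_iff₀ (by positivity)] at hNε
      linarith
    have h4 : (1 : ℝ) ≤ t := by exact_mod_cast ht1
    linarith
  set Gl : Fin L → ℕ → ℂ := fun l m => if a l ∣ m then g l (m / a l) else 0 with hGl
  have hGlsq : ∀ l, ∑ m ∈ Icc 1 A, ‖Gl l m‖ ^ 2 ≤ A := by
    intro l
    rw [hGl]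
    simp only
    rw [sum_sq_spread (g l) (ha l)]
    refine (hg l).trans (le_of_eq ?_)
    rw [hA]; push_cast; ring
  set Ej : Fin L → ℕ → Finset ℕ := fun l j => (Icc 1 x).filter
    (fun m => ε / 2 * N ≤ ‖∑ b ∈ Icc 1 A, (if b ≤ t * j then Gl l b else 0) * fz f H (b + s m)‖) with hEj
  have hcov : (Icc 1 x).filter (fun m => ¬ ∀ l, ∀ X : ℕ, a l * X ≤ B * N →
        ‖∑ n ∈ Icc 1 X, g l n * exI f (a l * n + s m)‖ ≤ ε * N) ⊆
      (univ : Finset (Fin L)).biUnion (fun l => (range (A / t + 1)).biUnion (Ej l)) := by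
    intro m hm
    rw [mem_filter] at hm
    obtain ⟨hm1, hm2⟩ := hm
    push Not at hm2
    obtain ⟨l, X, hX, hbig⟩ := hm2
    rw [mem_biUnion]
    refine ⟨l, mem_univ _, ?_⟩
    rw [mem_biUnion]
    set A' := a l * X with hA'
    refine ⟨A' / t, ?_, ?_⟩
    · rw [mem_range]
      exact Nat.lt_succ_of_le (Nat.div_le_div_right hX)
    · rw [hEj]
      simp only
      rw [mem_filter]
      refine ⟨hm1, ?_⟩
      set x0 := t * (A' / t) with hx0
      have hx0A : x0 ≤ A' := Nat.mul_div_le A' t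
      have hAx0 : A' < x0 + t := by
        have := Nat.lt_mul_div_succ A' ht1
        rw [mul_add, mul_one] at this
        exact this
      have hsm := abs_le.1 (hsz m hm1)
      have e0 : ∑ n ∈ Icc 1 X, g l n * exI f (a l * n + s m) =
          ∑ b ∈ Icc 1 A', Gl l b * fz f H (b + s m) := by
        have h1 := Pool.Agent.TH823.Fam.spread (fun b : ℕ => exI f ((b : ℤ) + s m)) (g l) (a l) X (ha l)
        simp only [Nat.cast_mul] at h1
        rw [h1]
        apply sum_congr rfl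
        intro b hb
        rw [mem_Icc] at hb
        rw [exI_eq_fz f (H := H) (by
          have : (b : ℤ) ≤ (B1 * N : ℕ) := by exact_mod_cast (hb.2.trans (hX.trans hBN))
          linarith)]
      rw [e0] at hbig
      have e1 : ∑ b ∈ Icc 1 A, (if b ≤ x0 then Gl l b else 0) * fz f H (b + s m) =
          ∑ b ∈ Icc 1 x0, Gl l b * fz f H (b + s m) := by
        have : Icc 1 x0 = (Icc 1 A).filter (fun n => n ≤ x0) := by
          ext n; simp only [mem_Icc, mem_filter]; omega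
        rw [this, sum_filter]
        apply sum_congr rfl
        intro n _
        split_ifs <;> simp
      rw [e1]
      have e2 : ∑ b ∈ Icc 1 A', Gl l b * fz f H (b + s m) = ∑ b ∈ Icc 1 x0, Gl l b * fz f H (b + s m) +
          ∑ b ∈ Ioc x0 A', Gl l b * fz f H (b + s m) := by
        rw [← sum_union (by
          rw [disjoint_left]; intro n h1 h2; rw [mem_Icc] at h1; rw [mem_Ioc] at h2; omega)]
        apply sum_congr _ (fun _ _ => rfl)
        ext n; simp only [mem_Icc, mem_union, mem_Ioc]; omega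
      have hfz : ∀ k : ℤ, ‖fz f H k‖ ≤ 1 := by
        intro k
        unfold fz
        split_ifs
        · exact hf _
        · rw [norm_zero]; norm_num
      have e3 : ‖∑ b ∈ Ioc x0 A', Gl l b * fz f H (b + s m)‖ ≤ ε / 2 * N := by
        have h1 : ‖∑ b ∈ Ioc x0 A', Gl l b * fz f H (b + s m)‖ ≤ ∑ b ∈ Ioc x0 A', ‖Gl l b‖ := by
          refine (norm_sum_le _ _).trans (sum_le_sum fun n _ => ?_)
          rw [norm_mul]
          exact mul_le_of_le_one_right (norm_nonneg _) (hfz _)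
        have h2 : (∑ b ∈ Ioc x0 A', ‖Gl l b‖) ^ 2 ≤ (ε / 2 * N) ^ 2 := by
          have h3 := sq_sum_le_card_mul_sum_sq (s := Ioc x0 A') (f := fun n => ‖Gl l n‖)
          refine h3.trans ?_
          have h4 : ((Ioc x0 A').card : ℝ) ≤ t := by
            rw [Nat.card_Ioc]
            exact_mod_cast (by omega : A' - x0 ≤ t)
          have h5 : ∑ b ∈ Ioc x0 A', ‖Gl l b‖ ^ 2 ≤ B1 * N := by
            refine le_trans (le_trans ?_ (hGlsq l)) (by exact_mod_cast hBN)
            apply sum_le_sum_of_subset_of_nonneg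
            · intro n hn; rw [mem_Ioc] at hn; rw [mem_Icc]; omega
            · intro _ _ _; positivity
          have h6 : ((Ioc x0 A').card : ℝ) * ∑ b ∈ Ioc x0 A', ‖Gl l b‖ ^ 2 ≤
              (ε ^ 2 * N / (4 * B1)) * (B1 * N) :=
            mul_le_mul (h4.trans htle) h5 (by positivity) (by positivity)
          refine h6.trans (le_of_eq ?_)
          field_simp
          ring
        have h3 := abs_le_of_sq_le_sq h2 (by positivity)
        exact h1.trans ((le_abs_self _).trans h3)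
      rw [e2] at hbig
      have h4 := norm_add_le (∑ b ∈ Icc 1 x0, Gl l b * fz f H (b + s m))
        (∑ b ∈ Ioc x0 A', Gl l b * fz f H (b + s m))
      linarith
  -- one piece
  have hmom : ∑ u ∈ range M, ‖∑ m ∈ Icc 1 x, ee ((u : ℝ) * (((-s m : ℤ) : ℝ) / M))‖ ^ (2 * p) ≤
      (4 * p + 5) * B1 * (y * (x : ℝ) ^ (2 * p)) := by
    have h1 := moment_energy p x (fun m => -s m) M (B1 * N) hM1 (fun m hm => by
      rw [abs_neg]; exact hsz m hm) (by
      have h2 : 2 * p * (B1 * N) ≤ 4 * p * (B1 * N) := Nat.mul_le_mul_right _ (by omega)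
      have h3 : (4 * p + 5) * (B1 * N) = 4 * p * (B1 * N) + 5 * (B1 * N) := by ring
      omega)
    have h2 : energy p x (fun m => -s m) = energy p x s := by
      unfold energy
      congr 1
      apply filter_congr
      intro q _
      simp only [sum_neg_distrib, neg_inj]
    rw [h1, h2, hMr]
    have h3 := mul_le_mul_of_nonneg_left hE (by positivity : 0 ≤ (4 * (p : ℝ) + 5) * B1)
    linarith
  have hEjc : ∀ l j, LD * ((Ej l j).card : ℝ) ≤ x / y := by
    intro l j
    have hbal : τ * √((H : ℝ) * A) + ρ * √((M : ℝ) * A) < ε / 2 * N := by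
      have h1 : √((H : ℝ) * A) ≤ 2 * (B1 * N) := by
        rw [Real.sqrt_le_left (by positivity), hHr]
        have h2 : (A : ℝ) ≤ B1 * N := by exact_mod_cast hBN
        have h3 : 0 ≤ (B1 : ℝ) * N := by positivity
        nlinarith
      have h2 : √((M : ℝ) * A) ≤ (4 * p + 5) * (B1 * N) := by
        rw [Real.sqrt_le_left (by positivity), ← hMr, sq]
        apply mul_le_mul_of_nonneg_left _ (by positivity)
        exact_mod_cast hAM
      have h3 : τ * √((H : ℝ) * A) ≤ ε / 8 * N := by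
        refine (mul_le_mul_of_nonneg_left h1 hτ0.le).trans (le_of_eq ?_)
        rw [hτ]; field_simp; ring
      have h4 : ρ * √((M : ℝ) * A) ≤ ε / 8 * N := by
        refine (mul_le_mul_of_nonneg_left h2 hρ0.le).trans (le_of_eq ?_)
        rw [hρ]; field_simp
      have h5 : 0 < ε * N := by positivity
      linarith
    have h1 := corrF (A := A) (H := H) (M := M) (x := x) (p := p) hp hM1 hf (s := s) (by
        intro b hb m hm n hn
        rw [mem_Icc] at hb hn
        have hsm := abs_le.1 (hsz m hm)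
        have h1 : (b : ℤ) ≤ (B1 * N : ℕ) := by exact_mod_cast (hb.2.trans hBN)
        have h2 : (n : ℤ) ≤ H := by exact_mod_cast hn.2
        have h3 : (5 : ℤ) * (B1 * N : ℕ) ≤ M := by exact_mod_cast hM5
        have h4 : (1 : ℤ) ≤ (B1 * N : ℕ) := by exact_mod_cast hB1N
        have h5 : (1 : ℤ) ≤ b := by exact_mod_cast hb.1
        have h6 : (1 : ℤ) ≤ n := by exact_mod_cast hn.1
        rw [abs_lt]
        constructor <;> linarith [hsm.1, hsm.2]) hAM hHM
      (G := fun b => if b ≤ t * j then Gl l b else 0) (W := (A : ℝ)) (by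
        refine le_trans (sum_le_sum fun n _ => ?_) (hGlsq l)
        split_ifs
        · exact le_rfl
        · simp) (E := Ej l j) (filter_subset _ _) (V := ε / 2 * N) (τ := τ) (ρ := ρ)
      (Mm := (4 * p + 5) * B1 * (y * (x : ℝ) ^ (2 * p))) (by positivity) hτ0 hρ0.le (by
        intro m hm
        rw [hEj] at hm
        simp only at hm
        rw [mem_filter] at hm
        exact hm.2) hmom (J := J) (by
        intro K hK1 hK2
        refine (hK K hK1 hK2).trans (le_of_eq ?_)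
        rw [hρ, hB1c]) hbal
    have h2 : (4 * p + 5) * B1 * (LD / τ) ^ (2 * p) * (y ^ (2 * p) * y) ≤ J := by
      rw [← pow_succ]
      exact hJ
    set c : ℝ := ((Ej l j).card : ℝ) with hc
    have hc0 : 0 ≤ c := Nat.cast_nonneg _
    have h4 : (4 * p + 5) * B1 * (LD / τ) ^ (2 * p) * (y ^ (2 * p) * y) * (τ * c) ^ (2 * p) ≤
        (4 * p + 5) * B1 * (y * (x : ℝ) ^ (2 * p)) :=
      (mul_le_mul_of_nonneg_right h2 (by positivity)).trans h1
    have h5 : (4 * p + 5) * B1 * (LD / τ) ^ (2 * p) * (y ^ (2 * p) * y) * (τ * c) ^ (2 * p) =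
        (4 * p + 5) * B1 * (y * (LD * c * y) ^ (2 * p)) := by
      have h6 : (LD / τ) ^ (2 * p) * (τ * c) ^ (2 * p) = (LD * c) ^ (2 * p) := by
        rw [← mul_pow]
        congr 1
        field_simp
      calc (4 * p + 5) * B1 * (LD / τ) ^ (2 * p) * (y ^ (2 * p) * y) * (τ * c) ^ (2 * p) =
          (4 * p + 5) * B1 * (y * (((LD / τ) ^ (2 * p) * (τ * c) ^ (2 * p)) * y ^ (2 * p))) := by ring
        _ = (4 * p + 5) * B1 * (y * (LD * c * y) ^ (2 * p)) := by rw [h6, ← mul_pow]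
    rw [h5] at h4
    have h6 : (LD * c * y) ^ (2 * p) ≤ (x : ℝ) ^ (2 * p) := by
      have h7 := le_of_mul_le_mul_left h4 (by positivity : (0 : ℝ) < (4 * p + 5) * B1)
      exact le_of_mul_le_mul_left h7 hy0
    have h7 : LD * c * y ≤ x := le_of_pow_le_pow_left₀ (by omega) hx0.le h6
    rw [le_div_iff₀ hy0]
    exact h7
  have hcard : (((Icc 1 x).filter (fun m => ¬ ∀ l, ∀ X : ℕ, a l * X ≤ B * N →
        ‖∑ n ∈ Icc 1 X, g l n * exI f (a l * n + s m)‖ ≤ ε * N)).card : ℝ) ≤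
      ∑ l : Fin L, ∑ j ∈ range (A / t + 1), ((Ej l j).card : ℝ) := by
    have h1 := (card_le_card hcov).trans card_biUnion_le
    have h2 : ∀ l : Fin L, (((range (A / t + 1)).biUnion (Ej l)).card : ℝ) ≤
        ∑ j ∈ range (A / t + 1), ((Ej l j).card : ℝ) := by
      intro l
      have := card_biUnion_le (s := range (A / t + 1)) (t := Ej l)
      exact_mod_cast this
    have h3 : (((Icc 1 x).filter (fun m => ¬ ∀ l, ∀ X : ℕ, a l * X ≤ B * N →
        ‖∑ n ∈ Icc 1 X, g l n * exI f (a l * n + s m)‖ ≤ ε * N)).card : ℝ) ≤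
        ∑ l : Fin L, (((range (A / t + 1)).biUnion (Ej l)).card : ℝ) := by exact_mod_cast h1
    exact h3.trans (sum_le_sum fun l _ => h2 l)
  have hDt : ((A / t + 1 : ℕ) : ℝ) ≤ D := by
    push_cast
    have h3 : ((A / t : ℕ) : ℝ) ≤ A / t := Nat.cast_div_le
    have h4 : (A : ℝ) / t ≤ 8 * B1 ^ 2 / ε ^ 2 := by
      rw [div_le_div_iff₀ ht0 (by positivity)]
      have h5 : (A : ℝ) ≤ B1 * N := by exact_mod_cast hBN
      have h6 : (A : ℝ) * ε ^ 2 ≤ (B1 * N) * ε ^ 2 := mul_le_mul_of_nonneg_right h5 (by positivity)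
      have h7 : (B1 * N) * ε ^ 2 = 8 * B1 ^ 2 * (ε ^ 2 * N / (8 * B1)) := by field_simp
      have h8 := mul_le_mul_of_nonneg_left htge (by positivity : 0 ≤ 8 * (B1 : ℝ) ^ 2)
      linarith
    rw [hD]
    linarith
  set Rr : ℝ := x / y with hRr
  have hRr0 : 0 ≤ Rr := by positivity
  have hone : ∀ l j, ((Ej l j).card : ℝ) ≤ Rr / LD := by
    intro l j
    rw [le_div_iff₀ hLD0, mul_comm]
    exact hEjc l j
  refine hcard.trans ?_
  calc ∑ l : Fin L, ∑ j ∈ range (A / t + 1), ((Ej l j).card : ℝ)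
      ≤ ∑ l : Fin L, ∑ j ∈ range (A / t + 1), Rr / LD :=
        sum_le_sum fun l _ => sum_le_sum fun j _ => hone l j
    _ = L * (((A / t + 1 : ℕ) : ℝ) * (Rr / LD)) := by
        rw [sum_const, sum_const, card_range, card_univ, Fintype.card_fin, nsmul_eq_mul, nsmul_eq_mul]
    _ ≤ (L + 1) * (D * (Rr / LD)) := by
        apply mul_le_mul (by linarith) _ (by positivity) (by positivity)
        exact mul_le_mul_of_nonneg_right hDt (by positivity)
    _ = Rr := by rw [hLD]; field_simp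

end Pool.Agent.P8H14.QP
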