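import Pool.Agent.P8H14.QP.B12

set_option autoImplicit false

/-!
# The exceptional members of a family at one scale
-/

open Finset

namespace Pool.Agent.P8H14.QP

open Pool.Agent.TH823.PS
open Pool.Agent.H373R2.T7 (fz exI energy moment_energy liR liR_norm)

open Classical in
/-- the members of a family with a large correlation are rare: saving `y` -/
def FQ (B p A : ℕ) (y : ℝ) (N : ℕ) : Prop :=
  ∀ (x : ℕ) (s : ℕ → ℤ), (∀ m ∈ Icc 1 x, |s m| ≤ B * N) →
    (energy p x s : ℝ) * N ≤ y * (x : ℝ) ^ (2 * p) →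
    ∀ (L : ℕ), (L : ℝ) ≤ y → ∀ (a : Fin L → ℕ) (g : Fin L → ℕ → ℂ), (∀ l, 1 ≤ a l) →
      (∀ l, ∑ n ∈ Icc 1 (B * N / a l), ‖g l n‖ ^ 2 ≤ N * Real.log N ^ A) →
      (((Icc 1 x).filter (fun m => ¬ ∀ l, ∀ X : ℕ, a l * X ≤ B * N →
        ‖∑ n ∈ Icc 1 X, g l n * exI liR (a l * n + s m)‖ ≤ N / Real.log N ^ A)).card : ℝ) ≤ x / y

theorem famQ {c0 : ℝ} (hc0 : 0 < c0) (hc01 : c0 ≤ 1) (B p A : ℕ) (hB : 1 ≤ B) (hp : 1 ≤ p) :
    ∃ c1 : ℝ, 0 < c1 ∧ ∃ N0 : ℕ, ∀ N : ℕ, N0 ≤ N → ∀ Q : ℕ, 1 ≤ Q → Zs c0 Q →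
      4 * Real.log (Real.log N) ^ 2 ≤ Real.log Q →
      2 * (Real.log Q * Real.log (Real.log N)) ≤ c1 * Real.log N → ∀ y : ℝ, 1 ≤ y →
      y ≤ Real.exp (Real.log Q / (16 * p + 8)) → FQ B p A y N := by
  classical
  obtain ⟨c1, L0, hc1, hc12, hL0, hfreq⟩ := freq hc0 hc01 (4 * A + 1)
  set b : ℝ := (B : ℝ) + 1 with hb
  have hb2 : 2 ≤ b := by
    have : (1 : ℝ) ≤ B := by exact_mod_cast hB
    rw [hb]; linarith
  have hp1 : (1 : ℝ) ≤ p := by exact_mod_cast hp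
  set Cp : ℝ := (4 * p + 5) * b * (288 * b ^ 3) ^ (2 * p) with hCp
  have hCp0 : 0 < Cp := by positivity
  obtain ⟨L1, hL1, hev⟩ := ev_exp (4 * A + 1) (L0 + 2 * Cp + 64 * (4 * p + 5) ^ 2 * b ^ 2 + 8 * b + 12 * p * A + 1)
  refine ⟨c1, hc1, ⌈Real.exp L1⌉₊, fun N hN Q hQ hZ hq1 hq2 y hy1 hy2 => ?_⟩
  have hNexp : Real.exp L1 ≤ N := (Nat.le_ceil _).trans (by exact_mod_cast hN)
  have hN0 : (0 : ℝ) < N := lt_of_lt_of_le (Real.exp_pos _) hNexp
  have hNn : 1 ≤ N := by exact_mod_cast hN0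
  set Ln : ℝ := Real.log N with hLn
  have hLL : L1 ≤ Ln := by
    rw [hLn, Real.le_log_iff_exp_le hN0]
    exact hNexp
  obtain ⟨hE, hC1, hC2⟩ := hev Ln hLL
  have hNe : (N : ℝ) = Real.exp Ln := (Real.exp_log hN0).symm
  set l : ℝ := Real.log Ln with hl
  set q : ℝ := Real.log Q with hq
  have hL200 : 200 ≤ Ln := hL1.trans hLL
  have hLp : 0 < Ln := by linarith
  have hQ0 : (0 : ℝ) < Q := by exact_mod_cast hQ
  have hqe : (Q : ℝ) = Real.exp q := (Real.exp_log hQ0).symm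
  have hA0 : (0 : ℝ) ≤ A := Nat.cast_nonneg _
  have hpA : (0 : ℝ) ≤ 12 * p * A := by positivity
  have hb0 : 0 < b := by linarith
  have hpos1 : 0 ≤ 64 * (4 * (p : ℝ) + 5) ^ 2 * b ^ 2 := by positivity
  have c1' : L0 ≤ Ln := by linarith
  have c2' : 2 * Cp ≤ Ln := by linarith
  have c3' : 64 * (4 * (p : ℝ) + 5) ^ 2 * b ^ 2 ≤ Ln := by linarith
  have c4' : 8 * b ≤ Ln := by linarith
  have c5' : 12 * (p : ℝ) * A + 1 ≤ l := by linarith
  have hl1 : 1 ≤ l := by linarith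
  have hel : Real.exp l = Ln := Real.exp_log hLp
  have hq0 : 0 ≤ q := by
    have : 0 ≤ 4 * l ^ 2 := by positivity
    linarith
  set W : ℝ := Ln ^ A with hW
  have hW1 : 1 ≤ W := one_le_pow₀ (by linarith)
  have hW0 : 0 < W := by linarith
  set ε : ℝ := 1 / W ^ 2 with hε
  have hε0 : 0 < ε := by positivity
  have hεe : 1 / ε ^ 2 = W ^ 4 := by
    rw [hε, div_pow, one_div_div, one_pow, div_one]
    ring
  have hW4 : W ^ 4 * Ln ≤ N := by
    have h1 : W ^ 4 * Ln = Ln ^ (4 * A + 1) := by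
      rw [hW, ← pow_mul, pow_succ]
      congr 2
      ring
    rw [h1, hNe]
    exact hE.trans (Real.exp_le_exp.2 (by linarith))
  intro x s hs hEn L hLy a g ha hg
  set J : ℕ := ⌊√(Q : ℝ)⌋₊ with hJ
  have hsq : √(Q : ℝ) = Real.exp (q / 2) := by rw [hqe, ← Real.exp_half]
  have hJle : (J : ℝ) ≤ √(Q : ℝ) := Nat.floor_le (Real.sqrt_nonneg _)
  have hq4 : 4 ≤ q := by
    have : (1 : ℝ) ≤ l ^ 2 := one_le_pow₀ hl1
    linarith
  have hJge : √(Q : ℝ) / 2 ≤ J := by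
    have h1 := (Nat.lt_floor_add_one (√(Q : ℝ))).le
    rw [← hJ] at h1
    have h2 : 2 ≤ √(Q : ℝ) := by
      rw [hsq]
      have := Real.add_one_le_exp (q / 2)
      linarith
    linarith
  have hy0 : 0 < y := by linarith
  have hyp : y ^ (4 * p + 1) ≤ Real.exp (q / 4) := by
    calc y ^ (4 * p + 1) ≤ Real.exp (q / (16 * p + 8)) ^ (4 * p + 1) := pow_le_pow_left₀ hy0.le hy2 _
      _ = Real.exp (((4 * p + 1 : ℕ) : ℝ) * (q / (16 * p + 8))) := (Real.exp_nat_mul _ _).symm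
      _ ≤ Real.exp (q / 4) := by
          apply Real.exp_le_exp.2
          push_cast
          rw [← mul_div_assoc, div_le_div_iff₀ (by positivity) (by norm_num)]
          have : 0 ≤ q * p := by positivity
          linarith
  have hWp : Cp * W ^ (12 * p) ≤ Real.exp (q / 4) / 2 := by
    have h1 : W ^ (12 * p) * Ln ≤ Real.exp (q / 4) := by
      have h2 : W ^ (12 * p) * Ln = Real.exp l ^ (12 * p * A + 1) := by
        rw [hel, hW, ← pow_mul, pow_succ]
        congr 2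
        ring
      rw [h2, ← Real.exp_nat_mul]
      apply Real.exp_le_exp.2
      push_cast
      have h3 : (12 * (p : ℝ) * A + 1) * l ≤ l * l := mul_le_mul_of_nonneg_right c5' (by linarith)
      have h4 : l * l = l ^ 2 := by ring
      linarith
    have h2 : (2 * Cp) * W ^ (12 * p) ≤ Ln * W ^ (12 * p) := mul_le_mul_of_nonneg_right c2' (by positivity)
    have h3 : Ln * W ^ (12 * p) = W ^ (12 * p) * Ln := by ring
    have h4 : (2 * Cp) * W ^ (12 * p) = 2 * (Cp * W ^ (12 * p)) := by ring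
    linarith
  have hJ' : (4 * p + 5) * b * ((L + 1) * (8 * b ^ 2 / ε ^ 2 + 1) / (ε / (16 * b))) ^ (2 * p) *
      y ^ (2 * p + 1) ≤ J := by
    have h1 : (L + 1) * (8 * b ^ 2 / ε ^ 2 + 1) / (ε / (16 * b)) ≤ 288 * b ^ 3 * W ^ 6 * y := by
      have h2 : 8 * b ^ 2 / ε ^ 2 + 1 ≤ 9 * b ^ 2 * W ^ 4 := by
        have h3 : 8 * b ^ 2 / ε ^ 2 = 8 * b ^ 2 * W ^ 4 := by rw [← hεe]; ring
        have h4 : 1 ≤ b ^ 2 * W ^ 4 := one_le_mul_of_one_le_of_one_le (one_le_pow₀ (by linarith)) (one_le_pow₀ hW1)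
        rw [h3]
        linarith
      have h3 : (L : ℝ) + 1 ≤ 2 * y := by linarith
      have h4 : 0 ≤ 8 * b ^ 2 / ε ^ 2 + 1 := by positivity
      calc (L + 1) * (8 * b ^ 2 / ε ^ 2 + 1) / (ε / (16 * b)) ≤ (2 * y) * (9 * b ^ 2 * W ^ 4) / (ε / (16 * b)) := by
            gcongr
        _ = _ := by rw [hε]; field_simp; norm_num
    calc (4 * p + 5) * b * ((L + 1) * (8 * b ^ 2 / ε ^ 2 + 1) / (ε / (16 * b))) ^ (2 * p) * y ^ (2 * p + 1)
        ≤ (4 * p + 5) * b * (288 * b ^ 3 * W ^ 6 * y) ^ (2 * p) * y ^ (2 * p + 1) := by gcongr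
      _ = (Cp * W ^ (12 * p)) * y ^ (4 * p + 1) := by
          rw [hCp, mul_pow, mul_pow (288 * b ^ 3), ← pow_mul, show 12 * p = 6 * (2 * p) by ring,
            show 4 * p + 1 = 2 * p + (2 * p + 1) by ring, pow_add y]
          ring
      _ ≤ (Real.exp (q / 4) / 2) * Real.exp (q / 4) := by gcongr
      _ = √(Q : ℝ) / 2 := by
          rw [hsq, div_mul_eq_mul_div, ← Real.exp_add]
          congr 2
          ring
      _ ≤ J := hJge
  set Y : ℕ := 2 * ((B + 1) * N) with hY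
  set X : ℕ := (4 * p + 5) * ((B + 1) * N) with hX
  have hYX : Y ≤ X := by rw [hY, hX]; exact Nat.mul_le_mul_right _ (by omega)
  have hY1 : 1 ≤ Y := by
    have : 1 ≤ (B + 1) * N := Nat.mul_pos (by omega) hNn
    omega
  have hNY : N ≤ Y := by
    have : N ≤ (B + 1) * N := Nat.le_mul_of_pos_left _ (by omega)
    omega
  have hlY1 : Ln ≤ Real.log Y := Real.log_le_log hN0 (by exact_mod_cast hNY)
  have hlY2 : Real.log Y ≤ 2 * Ln := by
    have h1 : (Y : ℝ) ≤ N * N := by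
      rw [hY]; push_cast
      have h2 : 2 * ((B : ℝ) + 1) ≤ N := by
        rw [← hb]
        have h3 : Ln ≤ N := by
          rw [hNe]
          have := Real.add_one_le_exp Ln
          linarith
        linarith
      calc 2 * (((B : ℝ) + 1) * N) = (2 * ((B : ℝ) + 1)) * N := by ring
        _ ≤ N * N := by gcongr
    have h2 : Real.log Y ≤ Real.log (N * N) := Real.log_le_log (by exact_mod_cast hY1) h1
    rw [Real.log_mul hN0.ne' hN0.ne'] at h2
    linarith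
  have hllY : Real.log (Real.log Y) ≤ 2 * l := by
    have h1 : Real.log (Real.log Y) ≤ Real.log (2 * Ln) := Real.log_le_log (by linarith) hlY2
    rw [Real.log_mul (by norm_num) hLp.ne'] at h1
    have h2 : Real.log 2 ≤ 1 := by
      have := Real.log_two_lt_d9
      linarith
    linarith
  have hllY0 : 0 ≤ Real.log (Real.log Y) := Real.log_nonneg (by linarith)
  have hK : ∀ K ⊆ range X, K.card ≤ J →
        ∑ t ∈ K, ‖∑ n ∈ Icc 1 Y, liR n * Pool.Agent.H807R2.Dav.ee (n * ((t : ℝ) / X))‖ ^ 2 ≤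
          (ε / (8 * (4 * p + 5) * (B + 1)) * X) ^ 2 := by
    intro K hK1 hK2
    have h1 := hfreq X Y Q hY1 hYX hQ (by linarith) hZ (by
      have h2 : Real.log (Real.log Y) ^ 2 ≤ (2 * l) ^ 2 := pow_le_pow_left₀ hllY0 hllY 2
      have h3 : (2 * l) ^ 2 = 4 * l ^ 2 := by ring
      linarith) (by
      have h2 : q * Real.log (Real.log Y) ≤ q * (2 * l) := mul_le_mul_of_nonneg_left hllY hq0
      have h3 : q * (2 * l) = 2 * (q * l) := by ring
      have h4 : c1 * Ln ≤ c1 * Real.log Y := mul_le_mul_of_nonneg_left hlY1 hc1.le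
      linarith) K hK1 (le_trans (by exact_mod_cast hK2) hJle)
    have h2 : ∑ t ∈ K, ‖∑ n ∈ Icc 1 Y, liR n * Pool.Agent.H807R2.Dav.ee (n * ((t : ℝ) / X))‖ ^ 2 =
        ∑ t ∈ K, ‖∑ n ∈ Icc 1 Y, liR n * Pool.Agent.Helper112.ee (n * ((t : ℝ) / X))‖ ^ 2 := by
      apply sum_congr rfl
      intro t _
      simp only [dav_ee]
    rw [h2]
    refine h1.trans ?_
    rw [mul_pow, div_eq_mul_one_div, mul_comm ((ε / (8 * (4 * (p : ℝ) + 5) * ((B : ℝ) + 1))) ^ 2)]
    apply mul_le_mul_of_nonneg_left _ (by positivity)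
    rw [← hb]
    have h3 : (ε / (8 * (4 * (p : ℝ) + 5) * b)) ^ 2 = 1 / (W ^ 4 * (64 * (4 * p + 5) ^ 2 * b ^ 2)) := by
      rw [hε]; field_simp; norm_num
    rw [h3]
    apply one_div_le_one_div_of_le (by positivity)
    calc W ^ 4 * (64 * (4 * p + 5) ^ 2 * b ^ 2) ≤ W ^ 4 * Ln := by gcongr
      _ = Ln ^ (4 * A + 1) := by
          rw [hW, ← pow_mul, pow_succ]
          congr 2
          ring
      _ ≤ _ := pow_le_pow_left₀ hLp.le hlY1 _
  have hmain := fam_goodQ liR_norm B L p hp hε0 hy0 hNn (by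
      rw [← hb]
      have h1 : 8 * b / ε ^ 2 = 8 * b * W ^ 4 := by rw [← hεe]; ring
      rw [h1]
      calc 8 * b * W ^ 4 ≤ Ln * W ^ 4 := by gcongr
        _ = W ^ 4 * Ln := by ring
        _ ≤ N := hW4) J hJ' hK x s hs hEn a (fun l n => g l n / W) ha (by
      intro l
      have h1 : ∑ n ∈ Icc 1 (B * N / a l), ‖g l n / W‖ ^ 2 = (∑ n ∈ Icc 1 (B * N / a l), ‖g l n‖ ^ 2) / W ^ 2 := by
        rw [sum_div]
        apply sum_congr rfl
        intro n _
        rw [norm_div, Complex.norm_real, Real.norm_of_nonneg hW0.le, div_pow]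
      rw [h1, div_le_iff₀ (by positivity)]
      refine (hg l).trans ?_
      have h2 : (N : ℝ) * W ≤ B * N * W ^ 2 := by
        have h3 : (1 : ℝ) ≤ B := by exact_mod_cast hB
        have h4 : W ≤ W ^ 2 := le_self_pow₀ hW1 (by norm_num)
        calc (N : ℝ) * W = 1 * N * W := by ring
          _ ≤ B * N * W ^ 2 := by gcongr
      exact h2)
  refine le_trans ?_ hmain
  have hsub : (Icc 1 x).filter (fun m => ¬ ∀ l, ∀ X : ℕ, a l * X ≤ B * N →
        ‖∑ n ∈ Icc 1 X, g l n * exI liR (a l * n + s m)‖ ≤ N / Real.log N ^ A) ⊆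
      (Icc 1 x).filter (fun m => ¬ ∀ l, ∀ X : ℕ, a l * X ≤ B * N →
        ‖∑ n ∈ Icc 1 X, g l n / W * exI liR (a l * n + s m)‖ ≤ ε * N) := by
    intro m hm
    rw [mem_filter] at hm ⊢
    refine ⟨hm.1, fun h => hm.2 fun l X hX => ?_⟩
    have h1 := h l X hX
    have h2 : ∑ n ∈ Icc 1 X, g l n / W * exI liR (a l * n + s m) =
        (∑ n ∈ Icc 1 X, g l n * exI liR (a l * n + s m)) / W := by
      rw [sum_div]
      apply sum_congr rfl
      intro n _
      ring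
    rw [h2, norm_div, Complex.norm_real, Real.norm_of_nonneg hW0.le, div_le_iff₀ hW0] at h1
    refine h1.trans (le_of_eq ?_)
    rw [hε, ← hLn, ← hW]
    field_simp
  exact_mod_cast card_le_card hsub

end Pool.Agent.P8H14.QP
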