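import Pool.Agent.P8H14.QP.B13

set_option autoImplicit false

/-!
# The good scales
-/

open Finset Filter Topology

namespace Pool.Agent.P8H14.QP

open Pool.Agent.TH823.PS

/-- a scale at which all the characters of conductor up to `exp (c log N / log log N)` have no exceptional zero -/
def GS (c0 c1 c : ℝ) (N : ℕ) : Prop := ∃ Q : ℕ, 1 ≤ Q ∧ Zs c0 Q ∧
  4 * Real.log (Real.log N) ^ 2 ≤ Real.log Q ∧
  2 * (Real.log Q * Real.log (Real.log N)) ≤ c1 * Real.log N ∧
  c * Real.log N / Real.log (Real.log N) ≤ Real.log Q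

lemma ev_t (K c1 T : ℝ) (hc1 : 0 < c1) : ∃ t0 : ℝ, 3 ≤ t0 ∧ ∀ t : ℝ, t0 ≤ t →
    K * Real.log t ≤ t ∧ 32 * Real.log t ^ 2 ≤ c1 * t ∧ T ≤ t := by
  have h1 : Tendsto (fun t : ℝ => Real.log t ^ 2 / t) atTop (𝓝 0) := by
    have := (isLittleO_log_rpow_atTop (r := 1 / 2) (by norm_num)).tendsto_div_nhds_zero
    have h2 := this.pow 2
    simp only [ne_eq, OfNat.ofNat_ne_zero, not_false_eq_true, zero_pow] at h2
    refine h2.congr' ?_
    filter_upwards [eventually_gt_atTop (0 : ℝ)] with t ht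
    rw [div_pow, ← Real.rpow_natCast (t ^ (1 / 2 : ℝ)), ← Real.rpow_mul ht.le]
    norm_num
  have h2 : ∀ᶠ t : ℝ in atTop, Real.log t ^ 2 / t < min (c1 / 32) (1 / (|K| + 1)) :=
    h1.eventually (gt_mem_nhds (by positivity))
  obtain ⟨t0, ht0⟩ := eventually_atTop.1 ((h2.and (eventually_ge_atTop (3 : ℝ))).and (eventually_ge_atTop T))
  refine ⟨max t0 3, le_max_right _ _, fun t ht => ?_⟩
  obtain ⟨⟨h3, h4⟩, h5⟩ := ht0 t ((le_max_left _ _).trans ht)
  have ht0' : 0 < t := by linarith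
  have hl1 : 1 ≤ Real.log t := by
    rw [Real.le_log_iff_exp_le ht0']
    have := Real.exp_one_lt_d9
    linarith
  have hll : Real.log t ≤ Real.log t ^ 2 := le_self_pow₀ hl1 (by norm_num)
  rw [div_lt_iff₀ ht0'] at h3
  refine ⟨?_, ?_, h5⟩
  · have h6 : Real.log t ^ 2 ≤ 1 / (|K| + 1) * t := by
      refine h3.le.trans ?_
      gcongr
      exact min_le_right _ _
    have h7 : (|K| + 1) * Real.log t ^ 2 ≤ t := by
      have h8 : (|K| + 1) * (1 / (|K| + 1) * t) = t := by field_simp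
      calc (|K| + 1) * Real.log t ^ 2 ≤ (|K| + 1) * (1 / (|K| + 1) * t) := by gcongr
        _ = t := h8
    calc K * Real.log t ≤ (|K| + 1) * Real.log t := by
          gcongr
          linarith [le_abs_self K]
      _ ≤ (|K| + 1) * Real.log t ^ 2 := by gcongr
      _ ≤ t := h7
  · have h6 : Real.log t ^ 2 ≤ c1 / 32 * t := by
      refine h3.le.trans ?_
      gcongr
      exact min_le_left _ _
    linarith

/-- **most scales are good** -/
theorem most_GS : ∃ c0 : ℝ, 0 < c0 ∧ c0 ≤ 1 ∧ ∀ c1 : ℝ, 0 < c1 → ∀ ε : ℝ, 0 < ε → ∃ c : ℝ, 0 < c ∧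
    Most ε (GS c0 c1 c) := by
  classical
  obtain ⟨E1, hE1⟩ := good_scales
  obtain ⟨E2, hE2⟩ := zf_of_NE 3 le_rfl
  obtain ⟨c0, hc0, hc01, hZF⟩ := hE2 (max E1 E2) (le_max_right _ _)
  refine ⟨c0, hc0, hc01, fun c1 hc1 ε hε => ?_⟩
  set K : ℝ := 8 / ε + 4 with hK
  have hK0 : 0 < K := by positivity
  have hK4 : 4 ≤ K := by
    have : 0 < 8 / ε := by positivity
    linarith
  have hKε : 8 ≤ ε * K := by
    rw [hK, mul_add, mul_div_cancel₀ _ hε.ne']
    linarith
  refine ⟨c1 / (2 * K), by positivity, fun R0 => ?_⟩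
  obtain ⟨t0, ht0, hev⟩ := ev_t K c1 (R0 + 1) hc1
  obtain ⟨Q, hQ1, hNE⟩ := hE1 (max E1 E2) (le_max_left _ _) 3 (by norm_num) (⌈Real.exp (c1 * t0)⌉₊ + 3)
  have hQ3 : 3 ≤ Q := by omega
  have hQ0 : (0 : ℝ) < Q := by exact_mod_cast (by omega : 0 < Q)
  have hZ : Zs c0 Q := fun r _ χ hr hχ => hZF Q hQ3 hNE r χ hr hχ
  set t : ℝ := 2 * Real.log Q / c1 with ht
  have hqt : Real.log Q = c1 * t / 2 := by rw [ht]; field_simp
  have htt : t0 ≤ t := by
    have h1 : Real.exp (c1 * t0) ≤ Q := by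
      refine (Nat.le_ceil _).trans ?_
      exact_mod_cast (by omega : ⌈Real.exp (c1 * t0)⌉₊ ≤ Q)
    have h2 : c1 * t0 ≤ Real.log Q := (Real.le_log_iff_exp_le hQ0).2 h1
    rw [ht, le_div_iff₀ hc1]
    have h3 : 0 < c1 * t0 := by positivity
    linarith
  obtain ⟨hv1, hv2, hv3⟩ := hev t htt
  have ht3 : 3 ≤ t := ht0.trans htt
  have htp : 0 < t := by linarith
  set lt : ℝ := Real.log t with hlt
  have hlt1 : 1 ≤ lt := by
    rw [hlt, Real.le_log_iff_exp_le htp]
    have := Real.exp_one_lt_d9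
    linarith
  have htl : t ≤ t * lt := le_mul_of_one_le_right htp.le hlt1
  set R : ℕ := ⌊Real.exp (K * (t * lt))⌋₊ with hR
  have hKt : 4 * (t * lt) ≤ K * (t * lt) := by gcongr
  have hR0 : R0 ≤ R := by
    apply Nat.le_floor
    have h1 := Real.add_one_le_exp (K * (t * lt))
    have h2 : t * lt ≤ 4 * (t * lt) := by linarith
    linarith
  have hRle : (R : ℝ) ≤ Real.exp (K * (t * lt)) := Nat.floor_le (Real.exp_pos _).le
  have hRge : Real.exp (K * (t * lt)) / 2 ≤ R := by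
    have h1 := (Nat.lt_floor_add_one (Real.exp (K * (t * lt)))).le
    rw [← hR] at h1
    have h2 := Real.add_one_le_exp (K * (t * lt))
    linarith
  have hRp : (0 : ℝ) < R := lt_of_lt_of_le (by positivity) hRge
  have hlR : K * (t * lt) - 1 ≤ Real.log R := by
    rw [Real.le_log_iff_exp_le hRp, Real.exp_sub]
    refine le_trans ?_ hRge
    apply div_le_div_of_nonneg_left (Real.exp_pos _).le (by norm_num)
    have := Real.add_one_le_exp (1 : ℝ)
    linarith
  refine ⟨R, hR0, ?_⟩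
  -- the bad scales are small
  have hsub : (Icc 1 R).filter (fun N => ¬ GS c0 c1 (c1 / (2 * K)) N) ⊆ Icc 1 ⌊Real.exp (2 * (t * lt))⌋₊ := by
    intro N hN
    rw [mem_filter, mem_Icc] at hN
    obtain ⟨⟨hN1, hNR⟩, hbad⟩ := hN
    rw [mem_Icc]
    refine ⟨hN1, ?_⟩
    by_contra hcon
    rw [not_le] at hcon
    apply hbad
    have hNp : (0 : ℝ) < N := by exact_mod_cast hN1
    have hx1 : 2 * (t * lt) ≤ Real.log N := by
      rw [Real.le_log_iff_exp_le hNp]
      exact (Nat.lt_of_floor_lt hcon).le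
    have hx2 : Real.log N ≤ K * (t * lt) := by
      rw [Real.log_le_iff_le_exp hNp]
      exact le_trans (by exact_mod_cast hNR) hRle
    have hxt : t ≤ Real.log N := by linarith
    have hxp : 0 < Real.log N := by linarith
    have hlx1 : lt ≤ Real.log (Real.log N) := Real.log_le_log htp hxt
    have hlx2 : Real.log (Real.log N) ≤ 2 * lt := by
      have h1 : Real.log N ≤ t * t := by
        refine hx2.trans ?_
        calc K * (t * lt) = t * (K * lt) := by ring
          _ ≤ t * t := by gcongr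
      have h2 := Real.log_le_log hxp h1
      rw [Real.log_mul htp.ne' htp.ne'] at h2
      linarith
    refine ⟨Q, by omega, hZ, ?_, ?_, ?_⟩
    · rw [hqt]
      have h1 : Real.log (Real.log N) ^ 2 ≤ (2 * lt) ^ 2 := pow_le_pow_left₀ (by linarith) hlx2 2
      have h2 : (2 * lt) ^ 2 = 4 * lt ^ 2 := by ring
      linarith
    · rw [hqt]
      have h1 : t * Real.log (Real.log N) ≤ t * (2 * lt) := mul_le_mul_of_nonneg_left hlx2 htp.le
      have h2 : t * (2 * lt) = 2 * (t * lt) := by ring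
      have h3 : c1 * (t * Real.log (Real.log N)) ≤ c1 * Real.log N :=
        mul_le_mul_of_nonneg_left (by linarith) hc1.le
      calc 2 * (c1 * t / 2 * Real.log (Real.log N)) = c1 * (t * Real.log (Real.log N)) := by ring
        _ ≤ _ := h3
    · rw [hqt, div_le_iff₀ (by linarith)]
      calc c1 / (2 * K) * Real.log N ≤ c1 / (2 * K) * (K * (t * lt)) := by gcongr
        _ = c1 * t / 2 * lt := by field_simp
        _ ≤ c1 * t / 2 * Real.log (Real.log N) := by gcongr
  have h1 : ∑ N ∈ (Icc 1 R).filter (fun N => ¬ GS c0 c1 (c1 / (2 * K)) N), (1 : ℝ) / N ≤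
      1 + 2 * (t * lt) := by
    refine (sum_le_sum_of_subset_of_nonneg hsub (fun _ _ _ => by positivity)).trans ?_
    refine (harm_one _).trans ?_
    have h2 : 1 ≤ ⌊Real.exp (2 * (t * lt))⌋₊ := by
      rw [Nat.one_le_floor_iff]
      exact Real.one_le_exp (by positivity)
    have h3 : Real.log (⌊Real.exp (2 * (t * lt))⌋₊ : ℝ) ≤ 2 * (t * lt) := by
      rw [Real.log_le_iff_le_exp (by exact_mod_cast h2)]
      exact Nat.floor_le (Real.exp_pos _).le
    linarith
  refine h1.trans ?_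
  have h2 : K * (t * lt) / 2 ≤ Real.log R := by linarith
  calc 1 + 2 * (t * lt) ≤ 4 * (t * lt) := by linarith
    _ = 8 * (t * lt) / 2 := by ring
    _ ≤ (ε * K) * (t * lt) / 2 := by gcongr
    _ = ε * (K * (t * lt) / 2) := by ring
    _ ≤ ε * Real.log R := by gcongr

/-- **most scales are good for the families** -/
theorem most_FQ (B p A : ℕ) (hB : 1 ≤ B) (hp : 1 ≤ p) {ε : ℝ} (hε : 0 < ε) : ∃ c : ℝ, 0 < c ∧
    Most ε (fun N => FQ B p A (Real.exp (c * Real.log N / Real.log (Real.log N))) N) := by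
  obtain ⟨c0, hc0, hc01, hGS⟩ := most_GS
  obtain ⟨c1, hc1, N0, hfam⟩ := famQ hc0 hc01 B p A hB hp
  obtain ⟨c, hc, hM⟩ := hGS c1 hc1 (ε / 2) (by positivity)
  refine ⟨c / (16 * p + 8), by positivity, ?_⟩
  refine most_mono (N₁ := N0 + 16) hε hM fun N hN hG => ?_
  obtain ⟨Q, hQ1, hZ, h1, h2, h3⟩ := hG
  have hN16 : 16 ≤ N := by omega
  have hNp : (0 : ℝ) < N := by exact_mod_cast (by omega : 0 < N)
  have hlN : 1 ≤ Real.log N := by
    rw [Real.le_log_iff_exp_le hNp]
    have := Real.exp_one_lt_d9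
    have : (16 : ℝ) ≤ N := by exact_mod_cast hN16
    linarith
  have hllN : 0 ≤ Real.log (Real.log N) := Real.log_nonneg hlN
  refine hfam N (by omega) Q hQ1 hZ h1 h2 _ ?_ ?_
  · apply Real.one_le_exp
    positivity
  · apply Real.exp_le_exp.2
    have : c / (16 * p + 8) * Real.log N / Real.log (Real.log N) =
        (c * Real.log N / Real.log (Real.log N)) / (16 * p + 8) := by ring
    rw [this]
    gcongr

end Pool.Agent.P8H14.QP
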