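import Pool.Agent.P8H14.QP.B1
import Pool.Agent.P8H14.QP.A4
import Pool.Agent.TH823.PS.LSall

set_option autoImplicit false

/-!
# From additive to primitive multiplicative characters
-/

open Finset
open scoped Real

namespace Pool.Agent.P8H14.QP

open Pool.Agent.Helper112 (ee)
open Pool.Agent.TH823.PS (rr mem_rr tau pars orth' changeLevel_nat gen gen_lin EE)
open Pool.Agent.W66 (tri triC tri_zero_of)
open Pool.Agent.W66L (ggC bbC)
open Pool.Agent.H373R2.T7 (liR liR_norm)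

open Classical in
/-- the primitive characters modulo `r` -/
noncomputable def pr (r : ℕ) : Finset (DirichletCharacter ℂ r) := univ.filter fun χ => χ.IsPrimitive

lemma mem_pr {r : ℕ} {ψ : DirichletCharacter ℂ r} : ψ ∈ pr r ↔ ψ.IsPrimitive := by
  unfold pr
  simp

/-- the mean square over the primitive characters -/
noncomputable def PE (V : ℝ → ℂ) (F : ℕ) (L : Finset ℕ) (c : ℕ → ℂ) (x : ℝ) : ℝ :=
  ∑ r ∈ Icc 1 F, ((r : ℝ) / r.totient) * ∑ ψ ∈ pr r, ‖gen V L (fun n => c n * ψ (n : ZMod r)) x‖ ^ 2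

lemma PE_nonneg (V : ℝ → ℂ) (F : ℕ) (L : Finset ℕ) (c : ℕ → ℂ) (x : ℝ) : 0 ≤ PE V F L c x :=
  sum_nonneg fun _ _ => mul_nonneg (by positivity) (sum_nonneg fun _ _ => by positivity)

/-- the large sieve for primitive characters -/
lemma PE_le (V : ℝ → ℂ) (F : ℕ) (L : Finset ℕ) (hL : ∀ n ∈ L, 0 < n) (c : ℕ → ℂ) (x : ℝ) :
    PE V F L c x ≤ ∑ q ∈ Icc 1 F, ∑ a ∈ rr q, ‖gen V L (fun n => c n * ee (n * a / q)) x‖ ^ 2 := by
  classical
  unfold PE
  apply sum_le_sum
  intro r hr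
  rw [mem_Icc] at hr
  haveI : NeZero r := ⟨by omega⟩
  obtain ⟨N, hN⟩ : ∃ N : ℕ, ∀ n ∈ L, n ≤ N := ⟨L.sup id, fun n hn => le_sup (f := id) hn⟩
  have hsub : L ⊆ Icc 1 N := fun n hn => mem_Icc.2 ⟨hL n hn, hN n hn⟩
  have h1 := Pool.Agent.Helper112.MLS.prim_bound r N (fun n => if n ∈ L then c n * V (x - Real.log n) else 0)
  rw [Pool.Agent.Helper112.MLS.sum_units] at h1
  have e1 : ∀ g : ℕ → ℂ, ∑ n ∈ Icc 1 N, (if n ∈ L then c n * V (x - Real.log n) else 0) * g n =
      gen V L (fun n => c n * g n) x := by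
    intro g
    unfold gen
    rw [← sum_subset hsub (fun n _ hn => by rw [if_neg hn, zero_mul])]
    apply sum_congr rfl
    intro n hn
    rw [if_pos hn]
    ring
  refine le_trans (le_of_eq ?_) (h1.trans (le_of_eq ?_))
  · congr 1
    apply sum_congr
    · ext ψ
      rw [mem_pr, mem_filter]
      simp
    · intro ψ _
      rw [e1]
  · unfold rr
    apply sum_congr rfl
    intro a _
    rw [e1]

/-- characters and primitive characters -/
lemma step2' (m : ℕ) [NeZero m] (w : DirichletCharacter ℂ m → ℝ) (hw : ∀ χ, 0 ≤ w χ)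
    (W : (f : ℕ) → DirichletCharacter ℂ f → ℝ)
    (hW : ∀ f (h : f ∣ m) (ψ : DirichletCharacter ℂ f), ψ.IsPrimitive →
      w (DirichletCharacter.changeLevel h ψ) ≤ W f ψ) :
    ∑ χ : DirichletCharacter ℂ m, w χ ≤ ∑ f ∈ m.divisors, ∑ ψ ∈ pr f, W f ψ := by
  classical
  have h1 : ∀ χ ∈ (univ : Finset (DirichletCharacter ℂ m)), χ.conductor ∈ m.divisors := by
    intro χ _
    exact Nat.mem_divisors.mpr ⟨χ.conductor_dvd_level, NeZero.ne m⟩
  rw [← sum_fiberwise_of_maps_to h1]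
  apply sum_le_sum
  intro f hf
  rw [Nat.mem_divisors] at hf
  have hfm := hf.1
  have h2 : ((univ : Finset (DirichletCharacter ℂ m)).filter (fun χ => χ.conductor = f)) ⊆
      (pr f).image (DirichletCharacter.changeLevel hfm) := by
    intro χ hχ
    rw [mem_filter] at hχ
    obtain ⟨_, hc⟩ := hχ
    subst hc
    rw [mem_image]
    exact ⟨χ.primitiveCharacter, by
      rw [mem_pr]; exact χ.primitiveCharacter_isPrimitive,
      χ.changeLevel_primitiveCharacter⟩
  calc _ ≤ ∑ χ ∈ (pr f).image (DirichletCharacter.changeLevel hfm), w χ :=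
        sum_le_sum_of_subset_of_nonneg h2 fun χ _ _ => hw χ
    _ = ∑ ψ ∈ pr f, w (DirichletCharacter.changeLevel hfm ψ) := by
        rw [sum_image]
        intro x _ y _ hxy
        exact DirichletCharacter.changeLevel_injective hfm hxy
    _ ≤ _ := sum_le_sum fun ψ hψ => hW f hfm ψ (mem_pr.1 hψ)

lemma liR_mul {m n : ℕ} (hm : 0 < m) (hn : 0 < n) : liR (m * n) = liR m * liR n := by
  unfold liR
  rw [ArithmeticFunction.cardFactors_mul hm.ne' hn.ne', pow_add]

/-- the twisted sums of the Liouville function -/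
noncomputable def SX {r : ℕ} (ψ : DirichletCharacter ℂ r) (h : ℝ) (N : ℕ) (x : ℝ) : ℂ :=
  gen (triC h) (Ioc 0 N) (fun n => liR n / n * ψ (n : ZMod r)) x

lemma mult_part {r : ℕ} (ψ : DirichletCharacter ℂ r) {h x : ℝ} (hh : 0 < h) {z N : ℕ} (hz : 1 ≤ z) (hzN : z ≤ N)
    (hx1 : Real.log z + h ≤ x) (hx2 : x + h ≤ Real.log N) {j : ℕ} (hj : 0 < j) :
    ∑ n ∈ Ioc z N, (liR n / n * (if j ∣ n then (j : ℂ) * ψ ((n / j : ℕ) : ZMod r) else 0)) * triC h (x - Real.log n) =
      liR j * SX ψ h N (x - Real.log j) := by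
  classical
  have hzero : ∀ n : ℕ, 0 < n → (n ≤ z ∨ N < n) → triC h (x - Real.log n) = 0 := by
    intro n hn hc
    have hn0 : (0 : ℝ) < n := by exact_mod_cast hn
    unfold triC
    rw [tri_zero_of hh, Complex.ofReal_zero]
    rcases hc with hc | hc
    · have : Real.log n ≤ Real.log z := Real.log_le_log hn0 (by exact_mod_cast hc)
      rw [abs_of_nonneg (by linarith)]
      linarith
    · have : Real.log N ≤ Real.log n := Real.log_le_log (by exact_mod_cast (by omega : 0 < N)) (by exact_mod_cast hc.le)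
      rw [abs_of_nonpos (by linarith)]
      linarith
  have hsub : Ioc z N ⊆ Icc 1 (j * N) := by
    intro n hn
    rw [mem_Ioc] at hn
    rw [mem_Icc]
    exact ⟨by omega, hn.2.trans (Nat.le_mul_of_pos_left N hj)⟩
  rw [sum_subset hsub (fun n hn hn2 => by
    rw [mem_Icc] at hn
    rw [mem_Ioc, not_and_or, not_lt, not_le] at hn2
    rw [hzero n (by omega) hn2, mul_zero])]
  have h1 : ∀ n ∈ Icc 1 (j * N), (liR n / n * (if j ∣ n then (j : ℂ) * ψ ((n / j : ℕ) : ZMod r) else 0)) *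
      triC h (x - Real.log n) = if j ∣ n then (fun n m : ℕ => liR n / n * ((j : ℂ) * ψ (m : ZMod r)) *
        triC h (x - Real.log n)) n (n / j) else 0 := by
    intro n _
    split_ifs <;> simp
  have h2 := sum_mult (N := j * N) hj (fun n m : ℕ => liR n / n * ((j : ℂ) * ψ (m : ZMod r)) *
        triC h (x - Real.log n))
  rw [Nat.mul_div_cancel_left N hj] at h2
  rw [sum_congr rfl h1, h2]
  unfold SX gen
  have hI : Ioc 0 N = Icc 1 N := by
    ext n; simp only [mem_Ioc, mem_Icc]; omega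
  rw [hI, mul_sum]
  apply sum_congr rfl
  intro m hm
  rw [mem_Icc] at hm
  have hj0 : (j : ℝ) ≠ 0 := by exact_mod_cast hj.ne'
  have hm0 : (m : ℝ) ≠ 0 := by exact_mod_cast (by omega : m ≠ 0)
  have hjc : (j : ℂ) ≠ 0 := by exact_mod_cast hj.ne'
  have hmc : (m : ℂ) ≠ 0 := by exact_mod_cast (by omega : m ≠ 0)
  simp only
  rw [liR_mul hj (by omega), Nat.cast_mul (α := ℝ), Real.log_mul hj0 hm0, Nat.cast_mul (α := ℂ)]
  rw [show x - (Real.log j + Real.log m) = x - Real.log j - Real.log m by ring]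
  field_simp

/-- **the fractions with denominator `q`** -/
theorem conv_q {q : ℕ} [NeZero q] {h x : ℝ} (hh : 0 < h) {z N : ℕ} (hz : 1 ≤ z) (hzN : z ≤ N)
    (hx1 : Real.log z + h ≤ x) (hx2 : x + h ≤ Real.log N) :
    (q.totient : ℝ) * ∑ a ∈ rr q, ‖ggC h (Ioc z N) (fun n => liR n / n * ee (n * a / q)) x‖ ^ 2 ≤
      ∑ r ∈ q.divisors, ∑ ψ ∈ pr r, (r : ℝ) * (∑ d ∈ (q / r).divisors, ‖SX ψ h N (x - Real.log d)‖) ^ 2 := by
  classical
  have h1 := pars (q := q) (fun a => ggC h (Ioc z N) (fun n => liR n / n * ee (n * a / q)) x)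
  rw [← h1]
  have h2 : ∀ χ : DirichletCharacter ℂ q, ∑ a ∈ rr q, (starRingEnd ℂ) (χ (a : ZMod q)) *
      ggC h (Ioc z N) (fun n => liR n / n * ee (n * a / q)) x =
      gen (triC h) (Ioc z N) (fun n => liR n / n * tau χ n) x := fun χ =>
    gen_lin χ (triC h) (Ioc z N) (fun n => liR n / n) x
  simp only [h2]
  refine step2' q (fun χ => ‖gen (triC h) (Ioc z N) (fun n => liR n / n * tau χ n) x‖ ^ 2) (fun χ => by positivity)
    (fun r ψ => (r : ℝ) * (∑ d ∈ (q / r).divisors, ‖SX ψ h N (x - Real.log d)‖) ^ 2) ?_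
  intro r hr ψ hψ
  obtain ⟨k, rfl⟩ := hr
  have hne : r * k ≠ 0 := NeZero.ne _
  have hr0 : 0 < r := Nat.pos_of_ne_zero (fun h0 => hne (by rw [h0, zero_mul]))
  have hk0 : 0 < k := Nat.pos_of_ne_zero (fun h0 => hne (by rw [h0, mul_zero]))
  haveI : NeZero r := ⟨hr0.ne'⟩
  have hdk : r * k / r = k := Nat.mul_div_cancel_left k hr0
  simp only [hdk]
  have e1 : gen (triC h) (Ioc z N) (fun n => liR n / n * tau (DirichletCharacter.changeLevel (Dvd.intro k rfl) ψ) n) x =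
      Gs ψ * ∑ d ∈ k.divisors, (((ArithmeticFunction.moebius d : ℤ) : ℂ) * (starRingEnd ℂ) (ψ (d : ZMod r))) *
        (liR (k / d) * SX ψ h N (x - Real.log ((k / d : ℕ) : ℝ))) := by
    have e2 : ∀ d ∈ k.divisors, liR (k / d) * SX ψ h N (x - Real.log ((k / d : ℕ) : ℝ)) =
        ∑ n ∈ Ioc z N, (liR n / n * (if (k / d) ∣ n then ((k / d : ℕ) : ℂ) * ψ ((n / (k / d) : ℕ) : ZMod r) else 0)) *
          triC h (x - Real.log n) := by
      intro d hd
      rw [mult_part ψ hh hz hzN hx1 hx2 (Nat.div_pos (Nat.divisor_le hd) (Nat.pos_of_mem_divisors hd))]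
    have e3 : ∑ d ∈ k.divisors, (((ArithmeticFunction.moebius d : ℤ) : ℂ) * (starRingEnd ℂ) (ψ (d : ZMod r))) *
        (liR (k / d) * SX ψ h N (x - Real.log ((k / d : ℕ) : ℝ))) =
        ∑ d ∈ k.divisors, ∑ n ∈ Ioc z N, (((ArithmeticFunction.moebius d : ℤ) : ℂ) * (starRingEnd ℂ) (ψ (d : ZMod r))) *
        ((liR n / n * (if (k / d) ∣ n then ((k / d : ℕ) : ℂ) * ψ ((n / (k / d) : ℕ) : ZMod r) else 0)) *
          triC h (x - Real.log n)) := by
      apply sum_congr rfl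
      intro d hd
      rw [e2 d hd, mul_sum]
    rw [e3, sum_comm, mul_sum]
    unfold gen
    apply sum_congr rfl
    intro n _
    change liR n / n * tau (DirichletCharacter.changeLevel (Dvd.intro k rfl) ψ) n * triC h (x - Real.log n) = _
    rw [tau_formula hk0 hψ (Dvd.intro k rfl) n, mul_sum, mul_sum, mul_sum, sum_mul]
    apply sum_congr rfl
    intro d _
    ring
  rw [e1, norm_mul, mul_pow, norm_Gs hψ]
  apply mul_le_mul_of_nonneg_left _ (Nat.cast_nonneg _)
  apply pow_le_pow_left₀ (norm_nonneg _)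
  refine (norm_sum_le _ _).trans ?_
  rw [← Nat.sum_div_divisors k (fun d => ‖SX ψ h N (x - Real.log d)‖)]
  apply sum_le_sum
  intro d _
  rw [norm_mul, norm_mul, norm_mul]
  have n1 : ‖((ArithmeticFunction.moebius d : ℤ) : ℂ)‖ ≤ 1 := by
    rw [Complex.norm_intCast]
    exact_mod_cast ArithmeticFunction.abs_moebius_le_one
  have n2 : ‖(starRingEnd ℂ) (ψ (d : ZMod r))‖ ≤ 1 := by
    rw [RCLike.norm_conj]
    exact ψ.norm_le_one _
  have n3 := liR_norm (k / d)
  calc _ ≤ (1 * 1) * (1 * ‖SX ψ h N (x - Real.log ((k / d : ℕ) : ℝ))‖) := by gcongr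
    _ = _ := by ring

/-- **from additive to primitive characters** -/
theorem conv {F : ℕ} {h x : ℝ} (hh : 0 < h) {z N : ℕ} (hz : 1 ≤ z) (hzN : z ≤ N)
    (hx1 : Real.log z + h ≤ x) (hx2 : x + h ≤ Real.log N) :
    EE h F (Ioc z N) (fun n => liR n / n) x ≤
      ∑ k ∈ Icc 1 F, ((k.divisors.card : ℝ) / k.totient) * ∑ d ∈ k.divisors,
        PE (triC h) F (Ioc 0 N) (fun n => liR n / n) (x - Real.log d) := by
  classical
  unfold EE
  have h1 : ∀ q ∈ Icc 1 F, ∑ a ∈ rr q, ‖ggC h (Ioc z N) (fun n => liR n / n * ee (n * a / q)) x‖ ^ 2 ≤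
      ∑ r ∈ q.divisors, ((r : ℝ) / r.totient) * (((q / r).divisors.card : ℝ) / (q / r).totient) *
        ∑ ψ ∈ pr r, ∑ d ∈ (q / r).divisors, ‖SX ψ h N (x - Real.log d)‖ ^ 2 := by
    intro q hq
    rw [mem_Icc] at hq
    haveI : NeZero q := ⟨by omega⟩
    have hφ : (0 : ℝ) < q.totient := by exact_mod_cast Nat.totient_pos.2 (by omega)
    have h2 := conv_q (q := q) hh hz hzN hx1 hx2
    rw [← le_div_iff₀' hφ] at h2
    refine h2.trans ?_
    rw [sum_div]
    apply sum_le_sum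
    intro r hr
    have hrq := Nat.dvd_of_mem_divisors hr
    obtain ⟨k, hk⟩ := hrq
    have hr0 : 0 < r := Nat.pos_of_mem_divisors hr
    have hk0 : 0 < k := by
      rcases Nat.eq_zero_or_pos k with h0 | h0
      · rw [h0, mul_zero] at hk; omega
      · exact h0
    have hdk : q / r = k := by rw [hk, Nat.mul_div_cancel_left k hr0]
    rw [hdk]
    have hφr : (0 : ℝ) < r.totient := by exact_mod_cast Nat.totient_pos.2 hr0
    have hφk : (0 : ℝ) < k.totient := by exact_mod_cast Nat.totient_pos.2 hk0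
    have hφm : (r.totient : ℝ) * k.totient ≤ q.totient := by
      rw [hk]
      exact_mod_cast Nat.totient_super_multiplicative r k
    rw [sum_div, mul_sum]
    apply sum_le_sum
    intro ψ _
    have hcs : (∑ d ∈ k.divisors, ‖SX ψ h N (x - Real.log d)‖) ^ 2 ≤
        k.divisors.card * ∑ d ∈ k.divisors, ‖SX ψ h N (x - Real.log d)‖ ^ 2 := sq_sum_le_card_mul_sum_sq
    have hs0 : 0 ≤ ∑ d ∈ k.divisors, ‖SX ψ h N (x - Real.log d)‖ ^ 2 := sum_nonneg fun _ _ => by positivity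
    calc (r : ℝ) * (∑ d ∈ k.divisors, ‖SX ψ h N (x - Real.log d)‖) ^ 2 / q.totient ≤
          r * (k.divisors.card * ∑ d ∈ k.divisors, ‖SX ψ h N (x - Real.log d)‖ ^ 2) / (r.totient * k.totient) := by
          gcongr
      _ = _ := by field_simp
  refine (sum_le_sum h1).trans ?_
  -- rearrangement
  obtain ⟨G, hG⟩ : ∃ G : ℕ → ℕ → ℝ, G = fun (r k : ℕ) => ((r : ℝ) / r.totient) * ((k.divisors.card : ℝ) / k.totient) *
        ∑ ψ ∈ pr r, ∑ d ∈ k.divisors, ‖SX ψ h N (x - Real.log d)‖ ^ 2 := ⟨_, rfl⟩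
  have hG0 : ∀ r k, 0 ≤ G r k := fun r k => by
    rw [hG]
    exact mul_nonneg (by positivity) (sum_nonneg fun _ _ => sum_nonneg fun _ _ => by positivity)
  have h3 : ∑ q ∈ Icc 1 F, ∑ r ∈ q.divisors, G r (q / r) ≤ ∑ p ∈ Icc 1 F ×ˢ Icc 1 F, G p.1 p.2 := by
    have h4 : ∀ q ∈ Icc 1 F, ∑ r ∈ q.divisors, G r (q / r) =
        ∑ p ∈ Icc 1 F ×ˢ Icc 1 F, if p.1 * p.2 = q then G p.1 p.2 else 0 := by
      intro q hq
      rw [mem_Icc] at hq
      rw [← sum_filter]
      refine sum_bij' (fun r _ => (r, q / r)) (fun p _ => p.1) ?_ ?_ ?_ ?_ ?_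
      · intro r hr
        have h5 := Nat.dvd_of_mem_divisors hr
        have h6 := Nat.pos_of_mem_divisors hr
        have h7 := Nat.divisor_le hr
        rw [mem_filter, mem_product, mem_Icc, mem_Icc]
        exact ⟨⟨⟨h6, h7.trans hq.2⟩, ⟨Nat.div_pos h7 h6, (Nat.div_le_self _ _).trans hq.2⟩⟩, Nat.mul_div_cancel' h5⟩
      · intro p hp
        rw [mem_filter, mem_product, mem_Icc, mem_Icc] at hp
        rw [Nat.mem_divisors]
        exact ⟨Dvd.intro _ hp.2, by omega⟩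
      · intro r _
        rfl
      · intro p hp
        rw [mem_filter, mem_product, mem_Icc, mem_Icc] at hp
        rw [← hp.2, Nat.mul_div_cancel_left _ hp.1.1.1]
      · intro r _
        rfl
    rw [sum_congr rfl h4, sum_comm]
    apply sum_le_sum
    intro p _
    rw [sum_ite_eq]
    split_ifs
    · exact le_rfl
    · exact hG0 _ _
  have h5 : ∑ q ∈ Icc 1 F, ∑ r ∈ q.divisors, ((r : ℝ) / r.totient) * (((q / r).divisors.card : ℝ) / (q / r).totient) *
        ∑ ψ ∈ pr r, ∑ d ∈ (q / r).divisors, ‖SX ψ h N (x - Real.log d)‖ ^ 2 =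
      ∑ q ∈ Icc 1 F, ∑ r ∈ q.divisors, G r (q / r) := by rw [hG]
  rw [h5]
  refine h3.trans (le_of_eq ?_)
  rw [sum_product, sum_comm]
  apply sum_congr rfl
  intro k _
  rw [hG]
  unfold PE
  rw [sum_comm (s := k.divisors), mul_sum]
  apply sum_congr rfl
  intro r _
  rw [← mul_sum (f := fun d : ℕ => ∑ ψ ∈ pr r, ‖gen (triC h) (Ioc 0 N) (fun n => liR n / n * ψ (n : ZMod r))
    (x - Real.log d)‖ ^ 2), sum_comm (s := k.divisors)]
  unfold SX
  ring

end Pool.Agent.P8H14.QP
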