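import Pool.Agent.P8H14.QP.B2
import Pool.Agent.P8H14.QP.A5
import Pool.Agent.W66.LD

set_option autoImplicit false

/-!
# Mean square of a convolution through Plancherel (general coefficients)
-/

open Complex Filter Topology Set MeasureTheory Metric
open scoped Real FourierTransform Convolution

namespace Pool.Agent.P8H14.QP

open Pool.Agent.W66 Pool.Agent.W66L

/-- the part of the coefficients `b` near `e^u`, convolved with `c` -/
noncomputable def FG (b : ℕ → ℂ) (u h : ℝ) (N : ℕ) (L : Finset ℕ) (c : ℕ → ℂ) (x : ℝ) : ℂ :=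
  ∑ n ∈ Finset.Ioc 0 N, (b n * ((hw u n : ℝ) : ℂ)) * ggC h L c (x - Real.log n)

lemma FG_continuous (b : ℕ → ℂ) (h u : ℝ) (N : ℕ) (L : Finset ℕ) (c : ℕ → ℂ) :
    Continuous (FG b u h N L c) := by
  unfold FG
  apply continuous_finsetSum
  intro n _
  exact continuous_const.mul ((ggC_continuous h L c).comp (by fun_prop))

lemma FG_compact (b : ℕ → ℂ) {h : ℝ} (hh : 0 < h) (u : ℝ) (N : ℕ) (L : Finset ℕ)
    (c : ℕ → ℂ) : HasCompactSupport (FG b u h N L c) := sum_compact (ggC_compact hh L c) _ _ _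

lemma FG_sq_integrable (b : ℕ → ℂ) {h : ℝ} (hh : 0 < h) (u : ℝ) (N : ℕ)
    (L : Finset ℕ) (c : ℕ → ℂ) : Integrable fun x => ‖FG b u h N L c x‖ ^ 2 := by
  apply ((FG_continuous b h u N L c).norm.pow 2).integrable_of_hasCompactSupport
  have h1 := (FG_compact b hh u N L c).norm
  have h2 : ((fun x => ‖FG b u h N L c x‖) ^ 2) =
      fun x => ‖FG b u h N L c x‖ * ‖FG b u h N L c x‖ := by
    ext x
    simp only [Pi.pow_apply]
    ring
  rw [h2]
  exact h1.mul_left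

theorem four_FG (b : ℕ → ℂ) {u h : ℝ} (hh : 0 < h) (N : ℕ)
    (hN : Real.exp (u + 1) ≤ N) (L : Finset ℕ) (c : ℕ → ℂ) (ξ : ℝ) :
    𝓕 (FG b u h N L c) ξ = GX b u (2 * π * ξ) * 𝓕 (boxC h) ξ * 𝓕 (bbC h L c) ξ := by
  have h1 : 𝓕 (ggC h L c) ξ =
      (∑ l ∈ L, c l * cexp (-(((2 * π * ξ * Real.log l : ℝ) : ℂ) * I))) * 𝓕 (boxC h) ξ ^ 2 := by
    rw [← four_triC hh, ← four_sum (triC_integrable hh)]
    rfl
  have h2 : 𝓕 (bbC h L c) ξ =
      (∑ l ∈ L, c l * cexp (-(((2 * π * ξ * Real.log l : ℝ) : ℂ) * I))) * 𝓕 (boxC h) ξ := by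
    rw [← four_sum (boxC_integrable h)]
    rfl
  have h3 : 𝓕 (FG b u h N L c) ξ = GX b u (2 * π * ξ) * 𝓕 (ggC h L c) ξ := by
    have h4 : GX b u (2 * π * ξ) = ∑ n ∈ Finset.Ioc 0 N, (b n * ((hw u n : ℝ) : ℂ)) *
        cexp (-(((2 * π * ξ * Real.log n : ℝ) : ℂ) * I)) := by
      rw [GX_fin b u _ N hN]
      rfl
    rw [h4, ← four_sum (ggC_integrable hh L c)]
    rfl
  rw [h3, h1, h2]
  ring

theorem dispersionG (b : ℕ → ℂ) {u h : ℝ} (hh : 0 < h) (N : ℕ)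
    (hN : Real.exp (u + 1) ≤ N) (L : Finset ℕ) (c : ℕ → ℂ) {M : ℝ} (hM0 : 0 ≤ M)
    (hM : ∀ ξ : ℝ, ‖GX b u (2 * π * ξ)‖ * ‖𝓕 (boxC h) ξ‖ ≤ M) :
    ∫ x, ‖FG b u h N L c x‖ ^ 2 ≤ M ^ 2 * ∫ x, ‖bbC h L c x‖ ^ 2 := by
  have hFc := FG_continuous b h u N L c
  have hFs := FG_compact b hh u N L c
  have hbL := bbC_memLp h L c
  have hFL : MemLp (FG b u h N L c) 2 := hFc.memLp_of_hasCompactSupport hFs
  have hFint : Integrable (FG b u h N L c) := hFc.integrable_of_hasCompactSupport hFs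
  have p1 := Pool.Agent.Helper76.NormalHP.plancherel_lintegral _ hFint hFL
  have p2 := Pool.Agent.Helper76.NormalHP.plancherel_lintegral _ (bbC_integrable h L c) hbL
  have key : ∫⁻ x, ‖FG b u h N L c x‖ₑ ^ 2 ≤
      ENNReal.ofReal (M ^ 2) * ∫⁻ x, ‖bbC h L c x‖ₑ ^ 2 := by
    rw [← p1, ← p2, ← lintegral_const_mul' _ _ (by simp)]
    apply lintegral_mono
    intro ξ
    simp only
    rw [four_FG b hh N hN, enorm_mul, mul_pow, ENNReal.ofReal_pow hM0]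
    gcongr
    rw [← ofReal_norm, norm_mul]
    exact ENNReal.ofReal_le_ofReal (hM ξ)
  rw [lint_sq hFL, lint_sq hbL, ← ENNReal.ofReal_mul (by positivity)] at key
  refine (ENNReal.ofReal_le_ofReal_iff ?_).1 key
  apply mul_nonneg (by positivity)
  exact integral_nonneg fun x => by positivity

end Pool.Agent.P8H14.QP
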