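import Pool.Agent.P8H14.QP.B3
import Pool.Agent.H534R2.BH_Lam

set_option autoImplicit false

/-!
# The decomposition of the twisted sums of the Liouville function
-/

open Complex Filter Topology MeasureTheory Metric
open scoped Real ArithmeticFunction.zeta ArithmeticFunction.Moebius

namespace Pool.Agent.P8H14.QP

open Pool.Agent.W66 Pool.Agent.W66L
open Pool.Agent.H373R2.T7 (liR liR_norm)
open ArithmeticFunction

lemma hyperC (F : ℕ → ℕ → ℂ) (N : ℕ) (hF : ∀ a b, 0 < a → 0 < b → N < a * b → F a b = 0) :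
    ∑ n ∈ Finset.Ioc 0 N, ∑ p ∈ n.divisorsAntidiagonal, F p.1 p.2 =
      ∑ m ∈ Finset.Ioc 0 N, ∑ l ∈ Finset.Ioc 0 N, F m l := by
  have h1 := hyper_eq (fun a b => (F a b).re) N (fun a b ha hb hab => by rw [hF a b ha hb hab]; rfl)
  have h2 := hyper_eq (fun a b => (F a b).im) N (fun a b ha hb hab => by rw [hF a b ha hb hab]; rfl)
  apply Complex.ext
  · simpa only [Complex.re_sum] using h1
  · simpa only [Complex.im_sum] using h2

/-- a convolution twisted by a character -/
lemma conv_sumC {r : ℕ} (ψ : DirichletCharacter ℂ r) (f g : ArithmeticFunction ℝ) {h z : ℝ} (hh : 0 < h) (N : ℕ)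
    (hN : Real.exp (z + h) ≤ N) :
    ∑ n ∈ Finset.Ioc 0 N, ((((f * g) n / n : ℝ) : ℂ) * ψ (n : ZMod r)) * triC h (z - Real.log n) =
      ∑ m ∈ Finset.Ioc 0 N, (((f m / m : ℝ) : ℂ) * ψ (m : ZMod r)) * ∑ l ∈ Finset.Ioc 0 N,
        (((g l / l : ℝ) : ℂ) * ψ (l : ZMod r)) * triC h (z - Real.log m - Real.log l) := by
  have h1 : ∀ n ∈ Finset.Ioc 0 N, ((((f * g) n / n : ℝ) : ℂ) * ψ (n : ZMod r)) * triC h (z - Real.log n) =
      ∑ p ∈ n.divisorsAntidiagonal, (((f p.1 / p.1 : ℝ) : ℂ) * ψ (p.1 : ZMod r)) *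
        ((((g p.2 / p.2 : ℝ) : ℂ) * ψ (p.2 : ZMod r)) * triC h (z - Real.log p.1 - Real.log p.2)) := by
    intro n hn
    rw [Finset.mem_Ioc] at hn
    rw [ArithmeticFunction.mul_apply, Finset.sum_div, Complex.ofReal_sum, Finset.sum_mul, Finset.sum_mul]
    refine Finset.sum_congr rfl fun p hp => ?_
    rw [Nat.mem_divisorsAntidiagonal] at hp
    have h2 : (p.1 : ℝ) ≠ 0 := by
      have : p.1 ≠ 0 := by
        rintro h0
        rw [h0, zero_mul] at hp
        omega
      exact_mod_cast this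
    have h3 : (p.2 : ℝ) ≠ 0 := by
      have : p.2 ≠ 0 := by
        rintro h0
        rw [h0, mul_zero] at hp
        omega
      exact_mod_cast this
    rw [← hp.1]
    push_cast
    rw [Real.log_mul h2 h3, map_mul, ← sub_sub]
    have h2c : (p.1 : ℂ) ≠ 0 := by exact_mod_cast h2
    have h3c : (p.2 : ℂ) ≠ 0 := by exact_mod_cast h3
    field_simp
  rw [Finset.sum_congr rfl h1, hyperC (fun a b => (((f a / a : ℝ) : ℂ) * ψ (a : ZMod r)) *
        ((((g b / b : ℝ) : ℂ) * ψ (b : ZMod r)) * triC h (z - Real.log a - Real.log b)))]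
  · refine Finset.sum_congr rfl fun m _ => ?_
    rw [Finset.mul_sum]
  · intro a b ha hb hab
    have ha0 : (a : ℝ) ≠ 0 := by exact_mod_cast ha.ne'
    have hb0 : (b : ℝ) ≠ 0 := by exact_mod_cast hb.ne'
    have h2 : z + h ≤ Real.log a + Real.log b := by
      rw [← Real.log_mul ha0 hb0, Real.le_log_iff_exp_le (by positivity)]
      refine hN.trans ?_
      exact_mod_cast hab.le
    have h3 : triC h (z - Real.log a - Real.log b) = 0 := by
      unfold triC
      rw [tri_zero_of hh, Complex.ofReal_zero]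
      rw [abs_of_nonpos (by linarith)]
      linarith
    rw [h3, mul_zero, mul_zero]

/-- the Liouville function, real valued -/
noncomputable def LR : ArithmeticFunction ℝ := ⟨fun n => if n = 0 then 0 else (-1) ^ (cardFactors n), by simp⟩

/-- the indicator function of the squares -/
noncomputable def sqI : ArithmeticFunction ℝ := ⟨fun n => if n ≠ 0 ∧ IsSquare n then 1 else 0, by simp⟩

lemma LR_apply {n : ℕ} (hn : 0 < n) : ((LR n : ℝ) : ℂ) = liR n := by
  unfold LR liR
  simp [hn.ne']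

lemma LR_eq : LR = ((μ : ArithmeticFunction ℤ) : ArithmeticFunction ℝ) * sqI := by
  ext n
  rcases Nat.eq_zero_or_pos n with rfl | hn
  · simp
  have h1 := Pool.Agent.H534R2.BH.lam_eq n n (Finset.mem_Icc.2 ⟨hn, le_rfl⟩)
  have h2 : (-1 : ℝ) ^ (cardFactors n) =
      ∑ m ∈ Finset.Icc 1 n, if m ^ 2 ∣ n then ((μ (n / m ^ 2) : ℤ) : ℝ) else 0 := by
    have h3 := congrArg Complex.re h1
    rw [Complex.re_sum] at h3
    have h4 : ((-1 : ℂ) ^ (cardFactors n)) = (((-1 : ℝ) ^ (cardFactors n) : ℝ) : ℂ) := by push_cast; rfl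
    rw [h4, Complex.ofReal_re] at h3
    rw [h3]
    apply Finset.sum_congr rfl
    intro m _
    split_ifs
    · simp
    · simp
  have h5 : LR n = (-1 : ℝ) ^ (cardFactors n) := by
    unfold LR
    simp [hn.ne']
  rw [h5, h2, ArithmeticFunction.mul_apply, Nat.sum_divisorsAntidiagonal' (f := fun a b =>
    ((μ : ArithmeticFunction ℤ) : ArithmeticFunction ℝ) a * sqI b)]
  rw [← Finset.sum_filter]
  have h6 : ∑ b ∈ n.divisors, ((μ : ArithmeticFunction ℤ) : ArithmeticFunction ℝ) (n / b) * sqI b =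
      ∑ b ∈ n.divisors.filter (fun b => IsSquare b), ((μ (n / b) : ℤ) : ℝ) := by
    rw [Finset.sum_filter]
    apply Finset.sum_congr rfl
    intro b hb
    have hb0 : b ≠ 0 := (Nat.pos_of_mem_divisors hb).ne'
    unfold sqI
    by_cases hs : IsSquare b
    · simp [hb0, hs]
    · simp [hs]
  rw [h6]
  have h7 : n.divisors.filter (fun b => IsSquare b) =
      ((Finset.Icc 1 n).filter (fun m => m ^ 2 ∣ n)).image (fun m => m ^ 2) := by
    ext b
    simp only [Finset.mem_filter, Nat.mem_divisors, Finset.mem_image, Finset.mem_Icc]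
    constructor
    · rintro ⟨⟨hb, hn0⟩, ⟨m, hm⟩⟩
      refine ⟨m, ⟨⟨?_, ?_⟩, ?_⟩, ?_⟩
      · rcases Nat.eq_zero_or_pos m with rfl | h
        · simp at hm; rw [hm] at hb; simp at hb; omega
        · exact h
      · have := Nat.le_of_dvd hn hb
        rw [hm] at this
        exact (Nat.le_mul_self m).trans this
      · rw [pow_two, ← hm]; exact hb
      · rw [pow_two, hm]
    · rintro ⟨m, ⟨⟨h1, h2⟩, h3⟩, rfl⟩
      exact ⟨⟨h3, hn.ne'⟩, ⟨m, pow_two m⟩⟩
  rw [h7, Finset.sum_image]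
  intro a _ b _ hab
  exact Nat.pow_left_injective (n := 2) (by norm_num) hab

lemma zeta_LR : ((ζ : ArithmeticFunction ℕ) : ArithmeticFunction ℝ) * LR = sqI := by
  rw [LR_eq, ← mul_assoc, coe_zeta_mul_coe_moebius, one_mul]

/-- the identity for the Liouville function -/
lemma LR_identity (w : ℕ) : LR = LR * aw w + muw w * sqI := by
  unfold aw
  rw [← zeta_LR]
  ring

end Pool.Agent.P8H14.QP
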