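import Pool.Agent.P8H14.QP.B4

set_option autoImplicit false

/-!
# The decomposition of the twisted sums of the Liouville function, II
-/

open Complex Filter Topology MeasureTheory Metric
open scoped Real ArithmeticFunction.zeta ArithmeticFunction.Moebius

namespace Pool.Agent.P8H14.QP

open Pool.Agent.W66 Pool.Agent.W66L
open Pool.Agent.H373R2.T7 (liR liR_norm)
open Pool.Agent.TH823.PS (gen)
open ArithmeticFunction

/-- the coefficients of the second factor -/
noncomputable def awc {r : ℕ} (ψ : DirichletCharacter ℂ r) (w : ℕ) (l : ℕ) : ℂ :=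
  ((aw w l / l : ℝ) : ℂ) * ψ (l : ZMod r)

/-- the contribution of the squares -/
noncomputable def TA {r : ℕ} (ψ : DirichletCharacter ℂ r) (w : ℕ) (h : ℝ) (N : ℕ) (y : ℝ) : ℂ :=
  ∑ d ∈ Finset.Ioc 0 N, (((muw w d / d : ℝ) : ℂ) * ψ (d : ZMod r)) * ∑ k ∈ Finset.Ioc 0 N,
    (((sqI k / k : ℝ) : ℂ) * ψ (k : ZMod r)) * triC h (y - Real.log d - Real.log k)

lemma SX_eq {r : ℕ} (ψ : DirichletCharacter ℂ r) (w : ℕ) {h y : ℝ} (hh : 0 < h) (N : ℕ)
    (hN : Real.exp (y + h) ≤ N) :
    SX ψ h N y = ∑ m ∈ Finset.Ioc 0 N, (((LR m / m : ℝ) : ℂ) * ψ (m : ZMod r)) *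
      ggC h (Finset.Ioc 0 N) (awc ψ w) (y - Real.log m) + TA ψ w h N y := by
  have h1 := conv_sumC ψ LR (aw w) hh N hN
  have h2 := conv_sumC ψ (muw w) sqI hh N hN
  have h3 : SX ψ h N y = ∑ n ∈ Finset.Ioc 0 N,
      ((((LR * aw w) n / n : ℝ) : ℂ) * ψ (n : ZMod r)) * triC h (y - Real.log n) +
      ∑ n ∈ Finset.Ioc 0 N,
      ((((muw w * sqI) n / n : ℝ) : ℂ) * ψ (n : ZMod r)) * triC h (y - Real.log n) := by
    unfold SX gen
    rw [← Finset.sum_add_distrib]
    apply Finset.sum_congr rfl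
    intro n hn
    rw [Finset.mem_Ioc] at hn
    beta_reduce
    rw [← LR_apply hn.1]
    have h4 : LR n = (LR * aw w) n + (muw w * sqI) n := by
      conv_lhs => rw [LR_identity w]
      rfl
    rw [h4]
    push_cast
    ring
  rw [h3, h1, h2]
  rfl

lemma sqI_sum (N : ℕ) (hN : 1 ≤ N) : ∑ k ∈ Finset.Ioc 0 N, sqI k / √(k : ℝ) ≤ 1 + Real.log N := by
  classical
  have h1 : ∑ k ∈ Finset.Ioc 0 N, sqI k / √(k : ℝ) =
      ∑ k ∈ (Finset.Ioc 0 N).filter (fun k => IsSquare k), 1 / √(k : ℝ) := by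
    rw [Finset.sum_filter]
    apply Finset.sum_congr rfl
    intro k hk
    rw [Finset.mem_Ioc] at hk
    have hk0 : k ≠ 0 := hk.1.ne'
    unfold sqI
    by_cases hs : IsSquare k
    · simp [hk0, hs]
    · simp [hs]
  have h2 : (Finset.Ioc 0 N).filter (fun k => IsSquare k) ⊆ (Finset.Ioc 0 N).image (fun j => j ^ 2) := by
    intro k hk
    rw [Finset.mem_filter, Finset.mem_Ioc] at hk
    obtain ⟨⟨hk0, hkN⟩, j, hj⟩ := hk
    rw [Finset.mem_image]
    refine ⟨j, ?_, by rw [pow_two, hj]⟩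
    rw [Finset.mem_Ioc]
    constructor
    · rcases Nat.eq_zero_or_pos j with rfl | h
      · simp at hj; omega
      · exact h
    · rw [hj] at hkN
      exact (Nat.le_mul_self j).trans hkN
  rw [h1]
  refine le_trans (Finset.sum_le_sum_of_subset_of_nonneg h2 (fun _ _ _ => by positivity)) ?_
  rw [Finset.sum_image (fun a _ b _ hab => Nat.pow_left_injective (n := 2) (by norm_num) hab)]
  refine le_trans (le_of_eq ?_) (harm_le N hN)
  apply Finset.sum_congr rfl
  intro j _
  push_cast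
  rw [Real.sqrt_sq (by positivity)]

lemma sqI_nonneg (k : ℕ) : 0 ≤ sqI k := by
  unfold sqI
  simp only [ArithmeticFunction.coe_mk]
  split_ifs <;> norm_num

lemma tri_le' {h : ℝ} (hh : 0 < h) (x : ℝ) : tri h x ≤ 1 / h := by
  unfold tri
  have h1 : hat (x / h) ≤ 1 := by
    unfold hat
    apply max_le _ (by norm_num)
    have := abs_nonneg (x / h)
    linarith
  have h2 : (0 : ℝ) ≤ 1 / h := by positivity
  nlinarith

lemma tri_nonneg' {h : ℝ} (hh : 0 < h) (x : ℝ) : 0 ≤ tri h x := by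
  unfold tri
  exact mul_nonneg (by positivity) (hat_nonneg _)

lemma TA_bound {r : ℕ} (ψ : DirichletCharacter ℂ r) (w : ℕ) {h y : ℝ} (hh : 0 < h) (hh1 : h ≤ 1) (N : ℕ)
    (hN : 1 ≤ N) :
    ‖TA ψ w h N y‖ ≤ 1 / h * Real.exp (-(y - 1) / 2) * (1 + Real.log N) * w := by
  unfold TA
  have hterm : ∀ d ∈ Finset.Ioc 0 N, ‖(((muw w d / d : ℝ) : ℂ) * ψ (d : ZMod r)) * ∑ k ∈ Finset.Ioc 0 N,
      (((sqI k / k : ℝ) : ℂ) * ψ (k : ZMod r)) * triC h (y - Real.log d - Real.log k)‖ ≤
      if d ≤ w then 1 / h * Real.exp (-(y - 1) / 2) * (1 + Real.log N) else 0 := by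
    intro d hd
    rw [Finset.mem_Ioc] at hd
    have hd0 : (0 : ℝ) < d := by exact_mod_cast hd.1
    split_ifs with hdw
    · have h1 : ‖∑ k ∈ Finset.Ioc 0 N, (((sqI k / k : ℝ) : ℂ) * ψ (k : ZMod r)) *
          triC h (y - Real.log d - Real.log k)‖ ≤
          ∑ k ∈ Finset.Ioc 0 N, (1 / h * Real.exp (-(y - 1) / 2) * √(d : ℝ)) * (sqI k / √(k : ℝ)) := by
        refine (norm_sum_le _ _).trans (Finset.sum_le_sum fun k hk => ?_)
        rw [Finset.mem_Ioc] at hk
        have hk0 : (0 : ℝ) < k := by exact_mod_cast hk.1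
        have hs0 := sqI_nonneg k
        rw [norm_mul, norm_mul]
        have e1 : ‖((sqI k / k : ℝ) : ℂ)‖ = sqI k / k := by
          rw [Complex.norm_real, Real.norm_of_nonneg (by positivity)]
        have e2 : ‖ψ (k : ZMod r)‖ ≤ 1 := ψ.norm_le_one _
        have e3 : ‖triC h (y - Real.log d - Real.log k)‖ = tri h (y - Real.log d - Real.log k) := by
          unfold triC
          rw [Complex.norm_real, Real.norm_of_nonneg (tri_nonneg' hh _)]
        rw [e1, e3]
        by_cases hc : |y - Real.log d - Real.log k| < h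
        · have e4 := tri_le' hh (y - Real.log d - Real.log k)
          have e5 : 1 / (k : ℝ) ≤ Real.exp (-(y - 1) / 2) * √(d : ℝ) * (1 / √(k : ℝ)) := by
            have f1 : √(k : ℝ) = Real.exp (Real.log k / 2) := by
              rw [Real.exp_half, Real.exp_log hk0]
            have f2 : √(d : ℝ) = Real.exp (Real.log d / 2) := by
              rw [Real.exp_half, Real.exp_log hd0]
            have f3 : (1 : ℝ) / k = Real.exp (-Real.log k) := by
              rw [Real.exp_neg, Real.exp_log hk0, one_div]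
            rw [f1, f2, f3, one_div, ← Real.exp_neg, ← Real.exp_add, ← Real.exp_add]
            apply Real.exp_le_exp.2
            have := (abs_lt.1 hc).2
            linarith
          calc sqI k / k * ‖ψ (k : ZMod r)‖ * tri h (y - Real.log d - Real.log k)
              ≤ sqI k / k * 1 * (1 / h) := by
                gcongr
                exact tri_nonneg' hh _
            _ = 1 / h * sqI k * (1 / k) := by ring
            _ ≤ 1 / h * sqI k * (Real.exp (-(y - 1) / 2) * √(d : ℝ) * (1 / √(k : ℝ))) := by gcongr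
            _ = _ := by ring
        · have e4 : tri h (y - Real.log d - Real.log k) = 0 := tri_zero_of hh (not_lt.1 hc)
          rw [e4, mul_zero]
          positivity
      rw [← Finset.mul_sum] at h1
      have h2 := sqI_sum N hN
      have h3 : 0 ≤ 1 + Real.log N := by
        have := Real.log_natCast_nonneg N
        linarith
      rw [norm_mul, norm_mul]
      have e1 : ‖((muw w d / d : ℝ) : ℂ)‖ ≤ 1 / d := by
        rw [Complex.norm_real, Real.norm_eq_abs, abs_div, abs_of_pos hd0]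
        exact div_le_div_of_nonneg_right (muw_abs_le w d) hd0.le
      have e2 : ‖ψ (d : ZMod r)‖ ≤ 1 := ψ.norm_le_one _
      have e3 : 1 / (d : ℝ) * √(d : ℝ) ≤ 1 := by
        have hs : 1 ≤ √(d : ℝ) := by
          rw [Real.one_le_sqrt]; exact_mod_cast hd.1
        have hs2 : √(d : ℝ) * √(d : ℝ) = d := Real.mul_self_sqrt hd0.le
        rw [one_div, inv_mul_le_iff₀ hd0, mul_one]
        nlinarith
      calc ‖((muw w d / d : ℝ) : ℂ)‖ * ‖ψ (d : ZMod r)‖ * ‖∑ k ∈ Finset.Ioc 0 N,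
            (((sqI k / k : ℝ) : ℂ) * ψ (k : ZMod r)) * triC h (y - Real.log d - Real.log k)‖
          ≤ 1 / d * 1 * ((1 / h * Real.exp (-(y - 1) / 2) * √(d : ℝ)) * (1 + Real.log N)) := by
            gcongr
            exact h1.trans (by gcongr)
        _ = (1 / (d : ℝ) * √(d : ℝ)) * (1 / h * Real.exp (-(y - 1) / 2) * (1 + Real.log N)) := by ring
        _ ≤ 1 * (1 / h * Real.exp (-(y - 1) / 2) * (1 + Real.log N)) := by gcongr
        _ = _ := by ring
    · rw [muw_apply, if_neg hdw]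
      simp
  refine (norm_sum_le _ _).trans ((Finset.sum_le_sum hterm).trans ?_)
  rw [← Finset.sum_filter, Finset.sum_const, nsmul_eq_mul]
  have h3 : 0 ≤ 1 + Real.log N := by
    have := Real.log_natCast_nonneg N
    linarith
  have h4 : (((Finset.Ioc 0 N).filter (fun d => d ≤ w)).card : ℝ) ≤ w := by
    have : (Finset.Ioc 0 N).filter (fun d => d ≤ w) ⊆ Finset.Ioc 0 w := by
      intro d hd
      rw [Finset.mem_filter, Finset.mem_Ioc] at hd
      exact Finset.mem_Ioc.2 ⟨hd.1.1, hd.2⟩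
    have := Finset.card_le_card this
    rw [Nat.card_Ioc] at this
    exact_mod_cast this
  calc _ ≤ (w : ℝ) * (1 / h * Real.exp (-(y - 1) / 2) * (1 + Real.log N)) := by gcongr
    _ = _ := by ring

lemma ggC_zero {h : ℝ} (hh : 0 < h) (L : Finset ℕ) (c : ℕ → ℂ) {x : ℝ}
    (hx : x ≤ -h) : ggC h L c x = 0 := by
  unfold ggC
  apply Finset.sum_eq_zero
  intro l hl
  have h1 : 0 ≤ Real.log l := Real.log_natCast_nonneg l
  unfold triC
  rw [tri_zero_of hh, Complex.ofReal_zero, mul_zero]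
  rw [abs_of_nonpos (by linarith)]
  linarith

/-- the part of the small `m` -/
noncomputable def TS {r : ℕ} (ψ : DirichletCharacter ℂ r) (w u0 : ℕ) (h : ℝ) (N : ℕ) (y : ℝ) : ℂ :=
  ∑ m ∈ Finset.Ioc 0 N, (((1 - rp u0 (Real.log m) : ℝ) : ℂ) * (((LR m / m : ℝ) : ℂ) * ψ (m : ZMod r))) *
      ggC h (Finset.Ioc 0 N) (awc ψ w) (y - Real.log m)

lemma SX_decomp {r : ℕ} (ψ : DirichletCharacter ℂ r) (w : ℕ) {h y : ℝ} (hh : 0 < h) (N : ℕ)
    (hN : Real.exp (y + h) ≤ N) (u0 U : ℕ) (hu : u0 ≤ U) (hU : y + h ≤ U) :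
    SX ψ h N y = TA ψ w h N y + TS ψ w u0 h N y +
      ∑ u ∈ Finset.Icc u0 U, FG (la ψ) u h N (Finset.Ioc 0 N) (awc ψ w) y := by
  rw [SX_eq ψ w hh N hN]
  have h1 : ∑ m ∈ Finset.Ioc 0 N, (((LR m / m : ℝ) : ℂ) * ψ (m : ZMod r)) *
      ggC h (Finset.Ioc 0 N) (awc ψ w) (y - Real.log m) = TS ψ w u0 h N y +
      ∑ u ∈ Finset.Icc u0 U, FG (la ψ) u h N (Finset.Ioc 0 N) (awc ψ w) y := by
    unfold TS FG
    rw [Finset.sum_comm, ← Finset.sum_add_distrib]
    apply Finset.sum_congr rfl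
    intro m hm
    rw [Finset.mem_Ioc] at hm
    by_cases hc : Real.log m ≤ U
    · have h2 := hat_partition_rp u0 U hu hc
      have h3 : ∑ u ∈ Finset.Icc u0 U, (la ψ m * ((hw (u : ℝ) m : ℝ) : ℂ)) *
          ggC h (Finset.Ioc 0 N) (awc ψ w) (y - Real.log m) =
          (((rp u0 (Real.log m) : ℝ) : ℂ) * (((LR m / m : ℝ) : ℂ) * ψ (m : ZMod r))) *
            ggC h (Finset.Ioc 0 N) (awc ψ w) (y - Real.log m) := by
        rw [← Finset.sum_mul, ← h2]
        congr 1
        rw [← Finset.mul_sum]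
        unfold la hw
        rw [← LR_apply hm.1]
        have h4 : ∑ u ∈ Finset.Icc u0 U, (((1 / (m : ℝ) * hat ((u : ℝ) - Real.log m) : ℝ)) : ℂ) =
            ((1 / (m : ℝ) * ∑ u ∈ Finset.Icc u0 U, hat ((u : ℝ) - Real.log m) : ℝ) : ℂ) := by
          rw [Finset.mul_sum]
          push_cast
          rfl
        rw [h4]
        push_cast
        ring
      rw [h3]
      push_cast
      ring
    · have h2 : ggC h (Finset.Ioc 0 N) (awc ψ w) (y - Real.log m) = 0 := by
        apply ggC_zero hh _ _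
        rw [not_le] at hc
        linarith
      rw [h2]
      simp
  rw [h1]
  ring

end Pool.Agent.P8H14.QP
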