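import Pool.Agent.P8H14.QP.B5

set_option autoImplicit false

/-!
# The small part of the decomposition
-/

open Complex Filter Topology MeasureTheory Metric
open scoped Real ArithmeticFunction.zeta ArithmeticFunction.Moebius

namespace Pool.Agent.P8H14.QP

open Pool.Agent.W66 Pool.Agent.W66L
open Pool.Agent.H373R2.T7 (liR liR_norm)
open Pool.Agent.TH823.PS (gen)
open ArithmeticFunction

/-- summation by parts -/
lemma parts (f : ℕ → ℂ) (g : ℕ → ℝ) (N : ℕ) :
    ∑ k ∈ Finset.Ioc 0 N, f k * ((g k : ℝ) : ℂ) = (∑ k ∈ Finset.Ioc 0 N, f k) * ((g (N + 1) : ℝ) : ℂ) +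
      ∑ k ∈ Finset.Ioc 0 N, (∑ j ∈ Finset.Ioc 0 k, f j) * ((g k - g (k + 1) : ℝ) : ℂ) := by
  induction N with
  | zero => simp
  | succ N ih =>
    rw [Finset.sum_Ioc_succ_top (Nat.zero_le N), Finset.sum_Ioc_succ_top (Nat.zero_le N), ih]
    rw [Finset.sum_Ioc_succ_top (f := fun k => (∑ j ∈ Finset.Ioc 0 k, f j) * ((g k - g (k + 1) : ℝ) : ℂ))
      (Nat.zero_le N)]
    rw [Finset.sum_Ioc_succ_top (Nat.zero_le N)]
    push_cast
    ring

lemma parts_bound (f : ℕ → ℂ) (g : ℕ → ℝ) (N : ℕ) {B : ℝ} (hf : ∀ n, ‖∑ k ∈ Finset.Ioc 0 n, f k‖ ≤ B)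
    (hg : g (N + 1) = 0) :
    ‖∑ k ∈ Finset.Ioc 0 N, f k * ((g k : ℝ) : ℂ)‖ ≤ B * ∑ k ∈ Finset.Ioc 0 N, |g k - g (k + 1)| := by
  rw [parts, hg, Complex.ofReal_zero, mul_zero, zero_add, Finset.mul_sum]
  refine (norm_sum_le _ _).trans (Finset.sum_le_sum fun k _ => ?_)
  rw [norm_mul, Complex.norm_real, Real.norm_eq_abs]
  exact mul_le_mul_of_nonneg_right (hf k) (abs_nonneg _)

lemma tele {T : ℝ} (hT : 2 ≤ T) (N : ℕ) :
    ∑ k ∈ Finset.Ioc 0 N, (if T < (k : ℝ) + 1 then 1 / ((k : ℝ) * (k + 1)) else 0) ≤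
      2 / T - min (2 / T) (1 / ((N : ℝ) + 1)) := by
  induction N with
  | zero =>
    have : (2 : ℝ) / T ≤ 1 / ((0 : ℕ) + 1 : ℝ) := by
      rw [div_le_div_iff₀ (by linarith) (by norm_num)]
      push_cast
      linarith
    rw [min_eq_left this]
    simp
  | succ N ih =>
    rw [Finset.sum_Ioc_succ_top (Nat.zero_le N)]
    have hN0 : (0 : ℝ) ≤ N := by positivity
    have h1 : (if T < (((N + 1 : ℕ) : ℝ)) + 1 then 1 / ((((N + 1 : ℕ) : ℝ)) * (((N + 1 : ℕ) : ℝ) + 1)) else 0) ≤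
        min (2 / T) (1 / ((N : ℝ) + 1)) - min (2 / T) (1 / (((N + 1 : ℕ) : ℝ) + 1)) := by
      split_ifs with hc
      · push_cast at hc ⊢
        have h2 : 1 / ((N : ℝ) + 1) ≤ 2 / T := by
          rw [div_le_div_iff₀ (by positivity) (by linarith)]
          linarith
        rw [min_eq_right h2]
        have h3 : min (2 / T) (1 / ((N : ℝ) + 1 + 1)) ≤ 1 / ((N : ℝ) + 1 + 1) := min_le_right _ _
        have h4 : 1 / (((N : ℝ) + 1) * ((N : ℝ) + 1 + 1)) = 1 / ((N : ℝ) + 1) - 1 / ((N : ℝ) + 1 + 1) := by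
          field_simp
          ring
        rw [h4]
        linarith
      · have h2 : 1 / (((N + 1 : ℕ) : ℝ) + 1) ≤ 1 / ((N : ℝ) + 1) := by
          push_cast
          apply div_le_div_of_nonneg_left (by norm_num) (by positivity) (by linarith)
        have := min_le_min_left (2 / T) h2
        linarith
    linarith

/-- the weight on the integers -/
noncomputable def gk (h z : ℝ) (k : ℕ) : ℝ := 1 / (k : ℝ) * tri h (z - Real.log k)

lemma gk_diff {h z : ℝ} (hh : 0 < h) (hh1 : h ≤ 1) {k : ℕ} (hk : 0 < k) :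
    |gk h z k - gk h z (k + 1)| ≤
      2 / h ^ 2 * (if Real.exp (z - h) < (k : ℝ) + 1 then 1 / ((k : ℝ) * (k + 1)) else 0) := by
  have hk0 : (0 : ℝ) < k := by exact_mod_cast hk
  obtain ⟨g1, g2, _⟩ := log_gap hk
  split_ifs with hc
  · unfold gk
    push_cast at g1 g2 ⊢
    have e1 : 1 / (k : ℝ) * tri h (z - Real.log k) - 1 / ((k : ℝ) + 1) * tri h (z - Real.log (k + 1)) =
        (1 / (k : ℝ) - 1 / ((k : ℝ) + 1)) * tri h (z - Real.log k) +
        1 / ((k : ℝ) + 1) * (tri h (z - Real.log k) - tri h (z - Real.log (k + 1))) := by ring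
    have e2 : 1 / (k : ℝ) - 1 / ((k : ℝ) + 1) = 1 / ((k : ℝ) * (k + 1)) := by
      field_simp
      ring
    have e3 := tri_lip hh (z - Real.log k) (z - Real.log ((k : ℝ) + 1))
    have e4 : |z - Real.log k - (z - Real.log ((k : ℝ) + 1))| ≤ 1 / k := by
      rw [show z - Real.log k - (z - Real.log ((k : ℝ) + 1)) = Real.log ((k : ℝ) + 1) - Real.log k by ring,
        abs_of_nonneg g1]
      exact g2
    have e5 := tri_le' hh (z - Real.log k)
    have e6 := tri_nonneg' hh (z - Real.log k)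
    have e7 : 1 / h ≤ 1 / h ^ 2 := by
      apply one_div_le_one_div_of_le (by positivity)
      nlinarith
    rw [e1]
    refine (abs_add_le _ _).trans ?_
    rw [e2, abs_mul, abs_mul, abs_of_pos (by positivity : (0 : ℝ) < 1 / ((k : ℝ) * (k + 1))),
      abs_of_pos (by positivity : (0 : ℝ) < 1 / ((k : ℝ) + 1)), abs_of_nonneg e6]
    have e8 : |tri h (z - Real.log k) - tri h (z - Real.log ((k : ℝ) + 1))| ≤ 1 / h ^ 2 * (1 / k) :=
      e3.trans (mul_le_mul_of_nonneg_left e4 (by positivity))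
    calc 1 / ((k : ℝ) * (k + 1)) * tri h (z - Real.log k) +
          1 / ((k : ℝ) + 1) * |tri h (z - Real.log k) - tri h (z - Real.log ((k : ℝ) + 1))|
        ≤ 1 / ((k : ℝ) * (k + 1)) * (1 / h ^ 2) + 1 / ((k : ℝ) + 1) * (1 / h ^ 2 * (1 / k)) := by
          gcongr
          exact e5.trans e7
      _ = _ := by
          field_simp
          ring
  · rw [not_lt] at hc
    have h1 : Real.log ((k + 1 : ℕ) : ℝ) ≤ z - h := by
      rw [Real.log_le_iff_le_exp (by positivity)]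
      push_cast
      exact hc
    have h2 : Real.log (k : ℝ) ≤ Real.log ((k + 1 : ℕ) : ℝ) := by linarith
    unfold gk
    rw [tri_zero_of hh (by rw [abs_of_nonneg (by linarith)]; linarith),
      tri_zero_of hh (by rw [abs_of_nonneg (by linarith)]; linarith)]
    simp

/-- the smoothed sum of a character -/
lemma char_smooth {r : ℕ} [NeZero r] {χ : DirichletCharacter ℂ r} (hχ : χ ≠ 1) {h z : ℝ} (hh : 0 < h)
    (hh1 : h ≤ 1) (hz : 2 ≤ z) (N : ℕ) (hN : Real.exp (z + h) ≤ N) :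
    ‖∑ k ∈ Finset.Ioc 0 N, χ (k : ZMod r) * ((gk h z k : ℝ) : ℂ)‖ ≤ r * (12 * Real.exp (-z) / h ^ 2) := by
  have hT : 2 ≤ Real.exp (z - h) := by
    have h1 : 1 + (1 : ℝ) ≤ Real.exp 1 := by
      have := Real.add_one_le_exp (1 : ℝ); linarith
    have h2 : Real.exp 1 ≤ Real.exp (z - h) := Real.exp_le_exp.2 (by linarith)
    linarith
  have hf : ∀ n : ℕ, ‖∑ k ∈ Finset.Ioc 0 n, χ (k : ZMod r)‖ ≤ r := by
    intro n
    have := Pool.Agent.H307R2.Ech_norm_le hχ 0 (n : ℝ)
    unfold Pool.Agent.H307R2.Ech at this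
    rwa [Nat.floor_natCast] at this
  have hg : gk h z (N + 1) = 0 := by
    unfold gk
    have h1 : z + h ≤ Real.log ((N + 1 : ℕ) : ℝ) := by
      rw [Real.le_log_iff_exp_le (by positivity)]
      push_cast
      linarith
    rw [tri_zero_of hh (by rw [abs_of_nonpos (by linarith)]; linarith), mul_zero]
  refine (parts_bound _ _ N hf hg).trans ?_
  have h1 : ∑ k ∈ Finset.Ioc 0 N, |gk h z k - gk h z (k + 1)| ≤ 2 / h ^ 2 * (2 / Real.exp (z - h)) := by
    calc ∑ k ∈ Finset.Ioc 0 N, |gk h z k - gk h z (k + 1)|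
        ≤ ∑ k ∈ Finset.Ioc 0 N, 2 / h ^ 2 *
          (if Real.exp (z - h) < (k : ℝ) + 1 then 1 / ((k : ℝ) * (k + 1)) else 0) :=
          Finset.sum_le_sum fun k hk => gk_diff hh hh1 (Finset.mem_Ioc.1 hk).1
      _ = 2 / h ^ 2 * ∑ k ∈ Finset.Ioc 0 N,
          (if Real.exp (z - h) < (k : ℝ) + 1 then 1 / ((k : ℝ) * (k + 1)) else 0) := by rw [Finset.mul_sum]
      _ ≤ 2 / h ^ 2 * (2 / Real.exp (z - h)) := by
          gcongr
          refine (tele hT N).trans ?_
          have : 0 ≤ min (2 / Real.exp (z - h)) (1 / ((N : ℝ) + 1)) := by positivity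
          linarith
  have h2 : 2 / h ^ 2 * (2 / Real.exp (z - h)) ≤ 12 * Real.exp (-z) / h ^ 2 := by
    have h3 : 1 / Real.exp (z - h) = Real.exp (-z) * Real.exp h := by
      rw [one_div, ← Real.exp_neg, ← Real.exp_add]
      congr 1
      ring
    have h4 : Real.exp h ≤ 3 := by
      have := Real.exp_le_exp.2 hh1
      have := Real.exp_one_lt_d9
      linarith
    calc 2 / h ^ 2 * (2 / Real.exp (z - h)) = 4 / h ^ 2 * (1 / Real.exp (z - h)) := by ring
      _ = 4 / h ^ 2 * (Real.exp (-z) * Real.exp h) := by rw [h3]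
      _ ≤ 4 / h ^ 2 * (Real.exp (-z) * 3) := by gcongr
      _ = _ := by ring
  gcongr
  exact h1.trans h2

/-- the second factor for the nonprincipal characters -/
lemma gg_char {r : ℕ} [NeZero r] {χ : DirichletCharacter ℂ r} (hχ : χ ≠ 1) {h x : ℝ} (hh : 0 < h)
    (hh1 : h ≤ 1) (w N : ℕ) (hw : 1 ≤ w) (hx : Real.log w + 2 ≤ x) (hN : Real.exp (x + h) ≤ N) :
    ‖ggC h (Finset.Ioc 0 N) (awc χ w) x‖ ≤ w * (r * (12 * Real.exp (-x) / h ^ 2)) := by
  have hw0 : (0 : ℝ) < w := by exact_mod_cast hw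
  have hlw : 0 ≤ Real.log w := Real.log_nonneg (by exact_mod_cast hw)
  have h0 : ggC h (Finset.Ioc 0 N) (awc χ w) x =
      ∑ n ∈ Finset.Ioc 0 N, (((((1 : ArithmeticFunction ℝ) n / n : ℝ) : ℂ) * χ (n : ZMod r)) *
        triC h (x - Real.log n)) -
      ∑ n ∈ Finset.Ioc 0 N, ((((muw w * ((ζ : ArithmeticFunction ℕ) : ArithmeticFunction ℝ)) n / n : ℝ) : ℂ) *
        χ (n : ZMod r)) * triC h (x - Real.log n) := by
    unfold ggC awc aw
    rw [← Finset.sum_sub_distrib]
    apply Finset.sum_congr rfl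
    intro n _
    have : (1 - muw w * ((ζ : ArithmeticFunction ℕ) : ArithmeticFunction ℝ)) n =
        (1 : ArithmeticFunction ℝ) n - (muw w * ((ζ : ArithmeticFunction ℕ) : ArithmeticFunction ℝ)) n := rfl
    rw [this]
    push_cast
    ring
  have h1 : ∑ n ∈ Finset.Ioc 0 N, (((((1 : ArithmeticFunction ℝ) n / n : ℝ) : ℂ) * χ (n : ZMod r)) *
        triC h (x - Real.log n)) = 0 := by
    apply Finset.sum_eq_zero
    intro n hn
    rw [ArithmeticFunction.one_apply]
    split_ifs with hc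
    · subst hc
      unfold triC
      rw [Nat.cast_one, Real.log_one, sub_zero, tri_zero_of hh, Complex.ofReal_zero, mul_zero]
      rw [abs_of_nonneg (by linarith)]
      linarith
    · simp
  have h2 := conv_sumC χ (muw w) ((ζ : ArithmeticFunction ℕ) : ArithmeticFunction ℝ) hh N hN
  rw [h0, h1, zero_sub, norm_neg, h2]
  have hterm : ∀ d ∈ Finset.Ioc 0 N, ‖(((muw w d / d : ℝ) : ℂ) * χ (d : ZMod r)) * ∑ k ∈ Finset.Ioc 0 N,
      ((((((ζ : ArithmeticFunction ℕ) : ArithmeticFunction ℝ) k / k : ℝ)) : ℂ) * χ (k : ZMod r)) *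
        triC h (x - Real.log d - Real.log k)‖ ≤
      if d ≤ w then r * (12 * Real.exp (-x) / h ^ 2) else 0 := by
    intro d hd
    rw [Finset.mem_Ioc] at hd
    have hd0 : (0 : ℝ) < d := by exact_mod_cast hd.1
    split_ifs with hdw
    · have hld : Real.log d ≤ Real.log w := Real.log_le_log hd0 (by exact_mod_cast hdw)
      have hld0 : 0 ≤ Real.log d := Real.log_natCast_nonneg d
      have h3 : ∑ k ∈ Finset.Ioc 0 N,
          ((((((ζ : ArithmeticFunction ℕ) : ArithmeticFunction ℝ) k / k : ℝ)) : ℂ) * χ (k : ZMod r)) *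
          triC h (x - Real.log d - Real.log k) =
          ∑ k ∈ Finset.Ioc 0 N, χ (k : ZMod r) * ((gk h (x - Real.log d) k : ℝ) : ℂ) := by
        apply Finset.sum_congr rfl
        intro k hk
        have hk0 : k ≠ 0 := (Finset.mem_Ioc.1 hk).1.ne'
        have e1 : ((ζ : ArithmeticFunction ℕ) : ArithmeticFunction ℝ) k = 1 := by
          simp [ArithmeticFunction.natCoe_apply, ArithmeticFunction.zeta_apply, hk0]
        rw [e1]
        unfold gk triC
        push_cast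
        ring
      rw [h3]
      have h4 := char_smooth hχ hh hh1 (z := x - Real.log d) (by linarith) N
        ((Real.exp_le_exp.2 (by linarith)).trans hN)
      rw [norm_mul, norm_mul]
      have e1 : ‖((muw w d / d : ℝ) : ℂ)‖ ≤ 1 / d := by
        rw [Complex.norm_real, Real.norm_eq_abs, abs_div, abs_of_pos hd0]
        exact div_le_div_of_nonneg_right (muw_abs_le w d) hd0.le
      have e2 : ‖χ (d : ZMod r)‖ ≤ 1 := χ.norm_le_one _
      have e3 : Real.exp (-(x - Real.log d)) = Real.exp (-x) * d := by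
        rw [show -(x - Real.log d) = -x + Real.log d by ring, Real.exp_add, Real.exp_log hd0]
      rw [e3] at h4
      calc ‖((muw w d / d : ℝ) : ℂ)‖ * ‖χ (d : ZMod r)‖ *
            ‖∑ k ∈ Finset.Ioc 0 N, χ (k : ZMod r) * ((gk h (x - Real.log d) k : ℝ) : ℂ)‖
          ≤ 1 / d * 1 * (r * (12 * (Real.exp (-x) * d) / h ^ 2)) := by gcongr
        _ = _ := by field_simp
    · rw [muw_apply, if_neg hdw]
      simp
  refine (norm_sum_le _ _).trans ((Finset.sum_le_sum hterm).trans ?_)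
  rw [← Finset.sum_filter, Finset.sum_const, nsmul_eq_mul]
  have h4 : (((Finset.Ioc 0 N).filter (fun d => d ≤ w)).card : ℝ) ≤ w := by
    have : (Finset.Ioc 0 N).filter (fun d => d ≤ w) ⊆ Finset.Ioc 0 w := by
      intro d hd
      rw [Finset.mem_filter, Finset.mem_Ioc] at hd
      exact Finset.mem_Ioc.2 ⟨hd.1.1, hd.2⟩
    have := Finset.card_le_card this
    rw [Nat.card_Ioc] at this
    exact_mod_cast this
  gcongr

/-- the second factor for the trivial character -/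
lemma gg_triv (χ : DirichletCharacter ℂ 1) {h x : ℝ} (hh : 0 < h)
    (hh1 : h ≤ 1) (w N : ℕ) (hw : 1 ≤ w) (hx : Real.log w + 2 ≤ x) (hN : Real.exp (x + h) ≤ N) :
    ‖ggC h (Finset.Ioc 0 N) (awc χ w) x‖ ≤ |mz w| + w * (32 * Real.exp (-x) / h ^ 2) := by
  have h1 : ggC h (Finset.Ioc 0 N) (awc χ w) x = ((gg h (Finset.Ioc 0 N) (fun l => aw w l / l) x : ℝ) : ℂ) := by
    unfold ggC gg awc triC
    rw [Complex.ofReal_sum]
    apply Finset.sum_congr rfl
    intro l _
    have : χ (l : ZMod 1) = 1 := by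
      have : (l : ZMod 1) = 1 := Subsingleton.elim _ _
      rw [this, map_one]
    rw [this]
    push_cast
    ring
  rw [h1, Complex.norm_real, Real.norm_eq_abs]
  exact gg_small hh hh1 w N hw hx hN

/-- the part of the small `m` -/
lemma TS_bound {r : ℕ} (ψ : DirichletCharacter ℂ r) (w u0 : ℕ) (h : ℝ) (N : ℕ) (y : ℝ) {G : ℝ} (hG0 : 0 ≤ G)
    (hG : ∀ x, y - u0 ≤ x → x ≤ y → ‖ggC h (Finset.Ioc 0 N) (awc ψ w) x‖ ≤ G) :
    ‖TS ψ w u0 h N y‖ ≤ (1 + u0) * G := by
  classical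
  unfold TS
  have hterm : ∀ m ∈ Finset.Ioc 0 N, ‖(((1 - rp u0 (Real.log m) : ℝ) : ℂ) * (((LR m / m : ℝ) : ℂ) * ψ (m : ZMod r))) *
      ggC h (Finset.Ioc 0 N) (awc ψ w) (y - Real.log m)‖ ≤ if Real.log m < u0 then 1 / (m : ℝ) * G else 0 := by
    intro m hm
    rw [Finset.mem_Ioc] at hm
    have hm0 : (0 : ℝ) < m := by exact_mod_cast hm.1
    have hlm : 0 ≤ Real.log m := Real.log_natCast_nonneg m
    split_ifs with hc
    · rw [norm_mul, norm_mul, norm_mul]
      have e1 : ‖((1 - rp u0 (Real.log m) : ℝ) : ℂ)‖ ≤ 1 := by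
        have a1 := rp_nonneg (u0 : ℝ) (Real.log m)
        have a2 := rp_le_one (u0 : ℝ) (Real.log m)
        rw [Complex.norm_real, Real.norm_eq_abs, abs_le]
        constructor <;> linarith
      have e2 : ‖((LR m / m : ℝ) : ℂ)‖ ≤ 1 / m := by
        rw [Complex.ofReal_div, LR_apply hm.1, norm_div, Complex.ofReal_natCast, Complex.norm_natCast]
        exact div_le_div_of_nonneg_right (liR_norm m) hm0.le
      have e3 : ‖ψ (m : ZMod r)‖ ≤ 1 := ψ.norm_le_one _
      have e4 := hG (y - Real.log m) (by linarith) (by linarith)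
      calc _ ≤ 1 * (1 / (m : ℝ) * 1) * G := by gcongr
        _ = _ := by ring
    · rw [rp_one (not_lt.1 hc), sub_self, Complex.ofReal_zero, zero_mul, zero_mul, norm_zero]
  refine (norm_sum_le _ _).trans ((Finset.sum_le_sum hterm).trans ?_)
  rw [← Finset.sum_filter, ← Finset.sum_mul]
  have h1 : (Finset.Ioc 0 N).filter (fun m : ℕ => Real.log m < u0) ⊆ Finset.Ioc 0 ⌊Real.exp u0⌋₊ := by
    intro m hm
    rw [Finset.mem_filter, Finset.mem_Ioc] at hm
    rw [Finset.mem_Ioc]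
    refine ⟨hm.1.1, Nat.le_floor ?_⟩
    rw [← Real.log_le_iff_le_exp (by exact_mod_cast hm.1.1)]
    exact hm.2.le
  have h2 : ∑ m ∈ (Finset.Ioc 0 N).filter (fun m : ℕ => Real.log m < u0), 1 / (m : ℝ) ≤ 1 + u0 := by
    refine (Finset.sum_le_sum_of_subset_of_nonneg h1 (fun _ _ _ => by positivity)).trans ?_
    have hf1 : 1 ≤ ⌊Real.exp u0⌋₊ := by
      rw [Nat.one_le_floor_iff]
      exact Real.one_le_exp (by positivity)
    refine (harm_le _ hf1).trans ?_
    have h3 : Real.log (⌊Real.exp u0⌋₊ : ℝ) ≤ u0 := by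
      rw [Real.log_le_iff_le_exp (by exact_mod_cast hf1)]
      exact Nat.floor_le (by positivity)
    linarith
  exact mul_le_mul_of_nonneg_right h2 hG0

end Pool.Agent.P8H14.QP
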