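import Pool.Agent.P8H14.QP.B7
import Pool.Agent.W93.LV2

set_option autoImplicit false

/-!
# The energy on the major arcs
-/

open Complex Filter Topology MeasureTheory Metric Finset
open scoped Real FourierTransform

namespace Pool.Agent.P8H14.QP

open Pool.Agent.Helper112 (ee)
open Pool.Agent.W66 Pool.Agent.W66L
open Pool.Agent.H373R2.T7 (liR liR_norm)
open Pool.Agent.TH823.PS (gen rr EE ls_bb)

lemma tau_cube_sum (N : ℕ) (hN : 1 ≤ N) :
    ∑ l ∈ Finset.Ioc 0 N, (l.divisors.card : ℝ) ^ 3 / l ≤ (1 + Real.log N) ^ 8 := by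
  have h1 : ∀ l ∈ Finset.Ioc 0 N, (l.divisors.card : ℝ) ^ 3 / l ≤
      ∑ p ∈ l.divisorsAntidiagonal, (p.1.divisors.card : ℝ) ^ 2 / (p.1 : ℝ) *
        ((p.2.divisors.card : ℝ) ^ 2 / (p.2 : ℝ)) := by
    intro l hl
    have h2 : ∀ p ∈ l.divisorsAntidiagonal, (l.divisors.card : ℝ) ^ 2 / l ≤
        (p.1.divisors.card : ℝ) ^ 2 / (p.1 : ℝ) * ((p.2.divisors.card : ℝ) ^ 2 / (p.2 : ℝ)) := by
      intro p hp
      rw [Nat.mem_divisorsAntidiagonal] at hp
      rw [div_mul_div_comm, ← hp.1]
      push_cast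
      apply div_le_div_of_nonneg_right _ (by positivity)
      rw [← mul_pow]
      exact pow_le_pow_left₀ (by positivity) (tau_mul_le _ _) 2
    refine le_trans (le_of_eq ?_) (Finset.sum_le_sum h2)
    rw [Finset.sum_const, nsmul_eq_mul, ← Nat.map_div_right_divisors, Finset.card_map]
    ring
  refine (Finset.sum_le_sum h1).trans ?_
  refine (hyper_le (fun a b => (a.divisors.card : ℝ) ^ 2 / (a : ℝ) * ((b.divisors.card : ℝ) ^ 2 / (b : ℝ))) N
    (fun a b => by positivity)).trans ?_
  have h2 : ∑ m ∈ Finset.Ioc 0 N, ∑ l ∈ Finset.Ioc 0 N, (m.divisors.card : ℝ) ^ 2 / (m : ℝ) *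
      ((l.divisors.card : ℝ) ^ 2 / (l : ℝ)) =
      (∑ d ∈ Finset.Ioc 0 N, (d.divisors.card : ℝ) ^ 2 / d) ^ 2 := by
    rw [sq, Finset.sum_mul_sum]
  rw [h2]
  have h3 := tau_sq_sum N hN
  have h4 : 0 ≤ ∑ d ∈ Finset.Ioc 0 N, (d.divisors.card : ℝ) ^ 2 / d :=
    Finset.sum_nonneg fun d _ => by positivity
  calc _ ≤ ((1 + Real.log N) ^ 4) ^ 2 := by gcongr
    _ = _ := by ring

lemma shift_int {G : ℝ → ℝ} (hG : Continuous G) (h0 : ∀ x, 0 ≤ G x) {a b x1 x2 s : ℝ} (hab : a ≤ b)
    (h1 : x1 ≤ a - s) (h2 : b - s ≤ x2) :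
    ∫ x in Set.Icc a b, G (x - s) ≤ ∫ x in Set.Icc x1 x2, G x := by
  have e1 : ∫ x in Set.Icc a b, G (x - s) = ∫ x in Set.Icc (a - s) (b - s), G x := by
    rw [integral_Icc_eq_integral_Ioc, integral_Icc_eq_integral_Ioc,
      ← intervalIntegral.integral_of_le hab, ← intervalIntegral.integral_of_le (by linarith),
      intervalIntegral.integral_comp_sub_right]
  rw [e1]
  apply setIntegral_mono_set
  · exact hG.continuousOn.integrableOn_compact isCompact_Icc
  · exact Eventually.of_forall h0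
  · exact (Set.Icc_subset_Icc h1 h2).eventuallyLE

/-- the energy on the major arcs -/
theorem EE_int_le {F z N : ℕ} {h x1 x2 a B : ℝ} (hh : 0 < h) (hF : 1 ≤ F) (hz : 1 ≤ z) (hzN : z ≤ N)
    (ha1 : Real.log z + h ≤ a) (ha2 : x1 + Real.log F ≤ a) (hax : a ≤ x2) (hx2 : x2 + h ≤ Real.log N)
    (hB : ∫ x in Set.Icc x1 x2, PE (triC h) F (Ioc 0 N) (fun n => liR n / n) x ≤ B) :
    ∫ x in Set.Icc a x2, EE h F (Ioc z N) (fun n => liR n / n) x ≤ (1 + Real.log F) ^ 8 * B := by
  have hPc := PE_tri_cont h F (Ioc 0 N) (fun n => liR n / n)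
  have hP0 := PE_nonneg (triC h) F (Ioc 0 N) (fun n => liR n / n)
  have hB0 : 0 ≤ B := le_trans (integral_nonneg fun x => hP0 x) hB
  have hEc : Continuous (EE h F (Ioc z N) (fun n => liR n / n)) := by
    unfold EE
    apply continuous_finsetSum
    intro q _
    apply continuous_finsetSum
    intro b _
    exact (ggC_continuous h _ _).norm.pow 2
  have h1 : ∫ x in Set.Icc a x2, EE h F (Ioc z N) (fun n => liR n / n) x ≤
      ∫ x in Set.Icc a x2, ∑ k ∈ Icc 1 F, ((k.divisors.card : ℝ) / k.totient) * ∑ d ∈ k.divisors,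
        PE (triC h) F (Ioc 0 N) (fun n => liR n / n) (x - Real.log d) := by
    apply setIntegral_mono_on
    · exact hEc.continuousOn.integrableOn_compact isCompact_Icc
    · refine ContinuousOn.integrableOn_compact isCompact_Icc (Continuous.continuousOn ?_)
      apply continuous_finsetSum
      intro k _
      apply Continuous.mul continuous_const
      apply continuous_finsetSum
      intro d _
      exact hPc.comp (by fun_prop)
    · exact measurableSet_Icc
    · intro x hx
      exact conv hh hz hzN (ha1.trans hx.1) (by linarith [hx.2])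
  refine h1.trans ?_
  have hci : ∀ d : ℕ, IntegrableOn (fun x => PE (triC h) F (Ioc 0 N) (fun n => liR n / n) (x - Real.log d))
      (Set.Icc a x2) := fun d =>
    (hPc.comp (by fun_prop : Continuous fun x : ℝ => x - Real.log d)).continuousOn.integrableOn_compact isCompact_Icc
  rw [integral_finsetSum _ (fun k _ => Integrable.const_mul (integrable_finsetSum _ fun d _ => hci d) _)]
  have h2 : ∀ k ∈ Icc 1 F, ∫ x in Set.Icc a x2, ((k.divisors.card : ℝ) / k.totient) * ∑ d ∈ k.divisors,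
        PE (triC h) F (Ioc 0 N) (fun n => liR n / n) (x - Real.log d) ≤
      ((k.divisors.card : ℝ) ^ 3 / k) * B := by
    intro k hk
    rw [mem_Icc] at hk
    rw [integral_const_mul, integral_finsetSum _ (fun d _ => hci d)]
    have h3 : ∑ d ∈ k.divisors, ∫ x in Set.Icc a x2,
        PE (triC h) F (Ioc 0 N) (fun n => liR n / n) (x - Real.log d) ≤ k.divisors.card * B := by
      rw [← nsmul_eq_mul, ← sum_const]
      apply sum_le_sum
      intro d hd
      have hd0 : 0 < d := Nat.pos_of_mem_divisors hd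
      have hdF : d ≤ F := (Nat.divisor_le hd).trans hk.2
      have hl1 : Real.log d ≤ Real.log F := Real.log_le_log (by exact_mod_cast hd0) (by exact_mod_cast hdF)
      have hl0 : 0 ≤ Real.log d := Real.log_natCast_nonneg d
      exact (shift_int hPc hP0 hax (by linarith) (by linarith)).trans hB
    have h4 := Pool.Agent.W93.LV.inv_phi_le k hk.1
    calc ((k.divisors.card : ℝ) / k.totient) * ∑ d ∈ k.divisors, ∫ x in Set.Icc a x2,
          PE (triC h) F (Ioc 0 N) (fun n => liR n / n) (x - Real.log d)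
        ≤ ((k.divisors.card : ℝ) / k.totient) * (k.divisors.card * B) := by gcongr
      _ = (k.divisors.card : ℝ) ^ 2 * B * (1 / k.totient) := by ring
      _ ≤ (k.divisors.card : ℝ) ^ 2 * B * ((k.divisors.card : ℝ) / k) := by gcongr
      _ = _ := by ring
  refine (sum_le_sum h2).trans ?_
  rw [← sum_mul]
  have h5 := tau_cube_sum F hF
  have h6 : Icc 1 F = Ioc 0 F := by ext; simp [Nat.one_le_iff_ne_zero, Nat.pos_iff_ne_zero]
  rw [h6]
  gcongr

end Pool.Agent.P8H14.QP
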