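import Pool.Agent.P8H14.QP.C1
import Pool.Agent.TH823.PS.Len2

set_option autoImplicit false

/-!
# Products of consecutive values of the Liouville function: very few exceptional lengths, small error
-/

open Finset Filter Topology

namespace Pool.Agent.P8H14.QP.Len

open Pool.Agent.TH893.CL
open Pool.Agent.TH823.PS (Most most_mono energy_one)
open Pool.Agent.TH823.PS.Len (PlusT MinusT bad_le lr lr_pm exI_liR Ok plus_of minus_of num_eq energy_affine Half half_core)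
open Pool.Agent.H373R2.T7 (exI energy liR)
open Pool.Agent.P8H14.QP

/-- **Main theorem**, explicit form: the sum of the absolute values of two neighbouring sums is at most half of the
length of the interval, with few exceptional lengths. -/
theorem core_q {l : ℕ → ℝ} (hl : ∀ n, l n = 1 ∨ l n = -1) {ε η ζ θ : ℝ} (hε : 0 < ε) (hε1 : ε ≤ 1) {N : ℕ}
    (hN3 : 16 ≤ ε * N) (hη0 : 0 ≤ η) (hη : η ≤ ε ^ 2 / 4608) (hθ0 : 0 < θ) (hθ1 : θ ≤ 1) (hζ0 : 0 ≤ ζ)
    (hζ : ζ ≤ ε ^ 2 * θ ^ 2 / 9216)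
    (hP : PlusT l N η (ζ * N)) (hM : MinusT l N η (ζ * N)) :
    num (Icc 1 N) (fun k => ¬ ∀ Y X : ℕ, Y ≤ X → X ≤ N →
      |SS l k Y X| + |SS l (k + 1) Y X| ≤ ((X:ℝ) - Y) / 2 + ε * N) ≤ 4 * (16 / ε + 1) ^ 2 * (θ * N) := by
  set δ : ℝ := ε / 16 with hδ
  have hδ0 : 0 < δ := by positivity
  set J : ℕ := ⌊1 / δ⌋₊ with hJ
  set κ : ℝ := ε / 24 with hκ
  have hκ0 : 0 < κ := by positivity
  have he2 : ε ^ 2 ≤ ε := by
    calc ε ^ 2 = ε * ε := sq ε
      _ ≤ ε * 1 := mul_le_mul_of_nonneg_left hε1 hε.le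
      _ = ε := mul_one ε
  have ht2 : θ ^ 2 ≤ θ := by
    calc θ ^ 2 = θ * θ := sq θ
      _ ≤ θ * 1 := mul_le_mul_of_nonneg_left hθ1 hθ0.le
      _ = θ := mul_one θ
  have hη1 : 4 * η ≤ ε / 64 := by linarith
  have hη2 : 3 * η / κ ≤ ε / 64 := by
    rw [div_le_iff₀ (by positivity), hκ]
    have : ε / 64 * (ε / 24) = ε ^ 2 / 1536 := by ring
    linarith
  have hc1 : 16 * ζ / θ ^ 2 ≤ ε / 64 := by
    rw [div_le_iff₀ (by positivity)]
    have h2 : ε ^ 2 * θ ^ 2 ≤ ε * θ ^ 2 := mul_le_mul_of_nonneg_right he2 (by positivity)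
    have h3 : ε / 64 * θ ^ 2 = ε * θ ^ 2 / 64 := by ring
    have h4 : 0 ≤ ε * θ ^ 2 := by positivity
    linarith
  have hc2 : 6 * ζ / (θ * κ) ≤ ε / 64 := by
    rw [div_le_iff₀ (by positivity)]
    have h2 : ε ^ 2 * θ ^ 2 ≤ ε ^ 2 * θ := mul_le_mul_of_nonneg_left ht2 (by positivity)
    have h3 : ε / 64 * (θ * κ) = ε ^ 2 * θ / 1536 := by rw [hκ]; ring
    linarith
  have hη3 : 4 * η + 16 * ζ / θ ^ 2 + 3 * η / κ + 6 * ζ / (θ * κ) + 3 * κ ≤ ε / 4 := by
    have : 3 * κ = ε / 8 := by rw [hκ]; ring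
    linarith
  have hN0 : (0:ℝ) < N := by
    by_contra hcon
    have : (N : ℝ) ≤ 0 := not_lt.1 hcon
    have : ε * N ≤ 0 := mul_nonpos_of_nonneg_of_nonpos hε.le this
    linarith
  have hN1 : 1 ≤ N := by exact_mod_cast hN0
  set q : ℕ := ⌊δ * N⌋₊ + 1 with hq
  have hq1 : δ * N < q := by rw [hq]; push_cast; exact Nat.lt_floor_add_one _
  have hq2 : (q:ℝ) ≤ 2 * (δ * N) := by
    rw [hq]; push_cast
    have := Nat.floor_le (by positivity : 0 ≤ δ * N)
    have : 1 ≤ δ * N := by rw [hδ]; linarith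
    linarith
  have hq0 : 0 < q := by omega
  set T : Finset ((ℕ × ℕ) × (ℝ × ℝ)) := ((range (J + 1)) ×ˢ (range (J + 1))) ×ˢ (({1, -1} : Finset ℝ) ×ˢ ({1, -1} : Finset ℝ))
    with hT
  have hTc : (T.card : ℝ) ≤ 4 * ((J:ℝ) + 1) ^ 2 := by
    rw [hT, card_product, card_product, card_product, card_range]
    have h1 : ({1, -1} : Finset ℝ).card ≤ 2 := card_le_two
    have h2 : (J + 1) * (J + 1) * (({1, -1} : Finset ℝ).card * ({1, -1} : Finset ℝ).card) ≤ (J + 1) * (J + 1) * (2 * 2) :=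
      Nat.mul_le_mul_left _ (Nat.mul_le_mul h1 h1)
    have h3 : (((J + 1) * (J + 1) * (({1, -1} : Finset ℝ).card * ({1, -1} : Finset ℝ).card) : ℕ) : ℝ) ≤
        (((J + 1) * (J + 1) * (2 * 2) : ℕ) : ℝ) := by exact_mod_cast h2
    refine h3.trans (le_of_eq ?_)
    push_cast; ring
  have hJr : (J : ℝ) ≤ 16 / ε := by
    have h1 : (J : ℝ) ≤ 1 / δ := Nat.floor_le (by positivity)
    have h2 : 1 / δ = 16 / ε := by rw [hδ]; field_simp
    linarith
  set E : ((ℕ × ℕ) × (ℝ × ℝ)) → ℕ → Prop := fun t k => t.1.1 ≤ t.1.2 ∧ t.1.2 * q ≤ N ∧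
    (((t.1.2 * q : ℕ) : ℝ) - ((t.1.1 * q : ℕ) : ℝ)) / 2 + ε / 4 * N <
      t.2.1 * (SS l k (t.1.1 * q) (t.1.2 * q) + t.2.2 * SS l (k + 1) (t.1.1 * q) (t.1.2 * q)) with hE
  have hbad : ∀ t ∈ T, num (Icc 1 N) (E t) ≤ θ * N := by
    intro t ht
    rw [hT, mem_product, mem_product] at ht
    have hs : t.2.1 = 1 ∨ t.2.1 = -1 := by
      have := (mem_product.1 ht.2).1
      simpa using this
    have hs2 : t.2.2 = 1 ∨ t.2.2 = -1 := by
      have := (mem_product.1 ht.2).2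
      simpa using this
    by_cases h1 : t.1.1 ≤ t.1.2 ∧ t.1.2 * q ≤ N
    · have h2 := bad_le hl hN1 hη0 hζ0 hθ0 hκ0 hη3 (by linarith) hP hM hs hs2
        (Nat.mul_le_mul_right q h1.1) h1.2
      refine (num_mono ?_).trans h2
      intro k _ hk
      exact hk.2.2
    · have h2 : num (Icc 1 N) (E t) ≤ num (Icc 1 N) (fun _ => False) := by
        apply num_mono
        intro k _ hk
        exact h1 ⟨hk.1, hk.2.1⟩
      have h3 : num (Icc 1 N) (fun _ => False) = 0 := by simp [num]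
      rw [h3] at h2
      exact h2.trans (by positivity)
  have hall := (num_exists T (Icc 1 N) E).trans (sum_le_sum hbad)
  rw [sum_const, nsmul_eq_mul] at hall
  have hall2 : (T.card : ℝ) * (θ * N) ≤ 4 * (16 / ε + 1) ^ 2 * (θ * N) := by
    apply mul_le_mul_of_nonneg_right _ (by positivity)
    refine hTc.trans ?_
    gcongr
  refine (num_mono ?_).trans (hall.trans hall2)
  intro k _ hk
  by_contra hno
  apply hk
  intro Y X hYX hX
  push Not at hno
  set i := Y / q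
  set i' := X / q
  have hi : i * q ≤ Y := Nat.div_mul_le_self _ _
  have hi' : i' * q ≤ X := Nat.div_mul_le_self _ _
  have hii : i ≤ i' := Nat.div_le_div_right hYX
  have hiY : Y < i * q + q := by
    have := Nat.lt_div_mul_add hq0 (a := Y)
    exact this
  have hiX : X < i' * q + q := by
    have := Nat.lt_div_mul_add hq0 (a := X)
    exact this
  have hJ' : i' ≤ J := by
    rw [hJ]
    apply Nat.le_floor
    rw [le_div_iff₀ hδ0]
    have h1 : ((i' * q : ℕ) : ℝ) ≤ N := by exact_mod_cast hi'.trans hX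
    push_cast at h1
    have h2 : (i':ℝ) * (δ * N) ≤ i' * q := mul_le_mul_of_nonneg_left hq1.le (by positivity)
    have h3 : ((i':ℝ) * δ) * N ≤ 1 * N := by linarith
    exact le_of_mul_le_mul_right h3 hN0
  have hgrid : |SS l k (i * q) (i' * q)| + |SS l (k + 1) (i * q) (i' * q)| ≤
      (((i' * q : ℕ) : ℝ) - ((i * q : ℕ) : ℝ)) / 2 + ε / 4 * N := by
    apply abs_add_abs_le_of
    intro σ τ hσ hτ
    have ht : ((i, i'), (σ, τ)) ∈ T := by
      rw [hT]
      simp only [mem_product, mem_range, mem_insert, mem_singleton]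
      exact ⟨⟨by omega, by omega⟩, hσ, hτ⟩
    have h1 := hno _ ht
    simp only [hE] at h1
    by_contra hcon
    push Not at hcon
    exact h1 ⟨hii, hi'.trans hX, hcon⟩
  have h1 := SS_split (k := k) hl hi (Nat.mul_le_mul_right q hii) hYX hi'
  have h2 := SS_split (k := k + 1) hl hi (Nat.mul_le_mul_right q hii) hYX hi'
  have h3 : (Y:ℝ) - ((i * q : ℕ) : ℝ) ≤ q := by
    have : (Y:ℝ) < ((i * q + q : ℕ) : ℝ) := by exact_mod_cast hiY
    push_cast at this ⊢
    linarith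
  have h4 : (X:ℝ) - ((i' * q : ℕ) : ℝ) ≤ q := by
    have : (X:ℝ) < ((i' * q + q : ℕ) : ℝ) := by exact_mod_cast hiX
    push_cast at this ⊢
    linarith
  have h5 : ((i' * q : ℕ) : ℝ) ≤ X := by exact_mod_cast hi'
  have h6 : 9 / 2 * (q:ℝ) ≤ 9 / 16 * ε * N := by
    have : 2 * (δ * N) = ε / 8 * N := by rw [hδ]; ring
    linarith
  have h7 : ((i * q : ℕ) : ℝ) ≤ Y := by exact_mod_cast hi
  have h8 : ((X : ℝ) - ((i * q : ℕ) : ℝ)) ≤ (X - Y) + q := by linarith
  linarith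

/-- the exceptional members of a family, for one linear form and several real weights -/
lemma num_okQ {a B p N A : ℕ} (ha : 1 ≤ a) {y : ℝ} (hN : 16 ≤ N) (h : FQ B p A y N) (hA : 1 ≤ A)
    (hB : (B : ℝ) ≤ Real.log N)
    {x : ℕ} {s : ℕ → ℤ} (hs : ∀ m ∈ Icc 1 x, |s m| ≤ B * N)
    (hE : (energy p x s : ℝ) * N ≤ y * (x : ℝ) ^ (2 * p)) {L : ℕ} (hL : (L : ℝ) ≤ y)
    {g : Fin L → ℕ → ℝ} (hg : ∀ l n, |g l n| ≤ 1) :
    num (Icc 1 x) (fun m => ¬ ∀ l, Ok a B N (1 / Real.log N ^ A) (g l) (s m)) ≤ x / y := by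
  classical
  have hNr : (16 : ℝ) ≤ N := by exact_mod_cast hN
  have hl1 : 1 ≤ Real.log N := by
    rw [Real.le_log_iff_exp_le (by linarith)]
    have := Real.exp_one_lt_d9
    linarith
  have h1 := h x s hs hE L hL (fun _ => a) (fun l n => ((g l n : ℝ) : ℂ)) (fun _ => ha) (by
    intro l
    have h2 : ∀ n ∈ Icc 1 (B * N / a), ‖((g l n : ℝ) : ℂ)‖ ^ 2 ≤ 1 := by
      intro n _
      rw [Complex.norm_real, Real.norm_eq_abs]
      exact pow_le_one₀ (abs_nonneg _) (hg l n)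
    refine (sum_le_sum h2).trans ?_
    rw [sum_const, Nat.card_Icc, nsmul_eq_mul, mul_one, Nat.add_sub_cancel]
    calc ((B * N / a : ℕ) : ℝ) ≤ ((B * N : ℕ) : ℝ) := by exact_mod_cast Nat.div_le_self _ _
      _ = N * B := by push_cast; ring
      _ ≤ N * Real.log N := by gcongr
      _ ≤ N * Real.log N ^ A := by
          gcongr
          exact le_self_pow₀ hl1 (by omega))
  rw [num_eq]
  refine le_trans ?_ h1
  apply Nat.cast_le.2
  apply card_le_card
  intro m hm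
  rw [mem_filter] at hm ⊢
  refine ⟨hm.1, fun hcon => hm.2 fun l X hX => ?_⟩
  refine (hcon l X hX).trans (le_of_eq ?_)
  ring

lemma energy_idQ {N : ℕ} {y : ℝ} (hy : 1 ≤ y) {s : ℕ → ℤ} (hs : ∀ m n : ℕ, s m = s n → m = n) :
    (energy 1 N s : ℝ) * N ≤ y * (N : ℝ) ^ (2 * 1) := by
  have h4 : (energy 1 N s : ℝ) ≤ N := by exact_mod_cast energy_one hs
  calc (energy 1 N s : ℝ) * N ≤ N * N := mul_le_mul_of_nonneg_right h4 (by positivity)
    _ = 1 * (N : ℝ) ^ (2 * 1) := by ring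
    _ ≤ y * (N : ℝ) ^ (2 * 1) := mul_le_mul_of_nonneg_right hy (by positivity)

lemma plusT_ofQ {a b N A : ℕ} (ha : 1 ≤ a) (hN : 16 ≤ N) (hb : b ≤ N) {y : ℝ} (hy : 1 ≤ y) (hA : 1 ≤ A)
    (hB : ((3 * a + 1 : ℕ) : ℝ) ≤ Real.log N)
    (h : FQ (3 * a + 1) 1 A y N) : PlusT (lr a b) N (2 / Real.log N ^ A) (1 / y * N) := by
  intro g hg
  have ha0 : (0 : ℤ) < a := by exact_mod_cast ha
  have h1 := num_okQ ha hN h hA hB (x := N) (s := fun m => (a : ℤ) * m + b) (by
    intro m hm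
    have hm2 : (m : ℤ) ≤ N := by exact_mod_cast (mem_Icc.1 hm).2
    have hb2 : (b : ℤ) ≤ N := by exact_mod_cast hb
    have hm3 : (a : ℤ) * m ≤ a * N := mul_le_mul_of_nonneg_left hm2 ha0.le
    have hN0 : (0 : ℤ) ≤ N := Int.natCast_nonneg N
    have haN : (0 : ℤ) ≤ a * N := by positivity
    rw [abs_of_nonneg (by positivity)]
    push_cast
    linarith) (energy_idQ hy (by
      intro m n hmn
      have h2 : (a : ℤ) * m = a * n := by linarith
      exact_mod_cast mul_left_cancel₀ ha0.ne' h2)) (L := 1) (by push_cast; exact hy)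
      (g := fun _ => g) (fun _ => hg)
  refine (num_mono ?_).trans (h1.trans (le_of_eq (by ring)))
  intro k hk hno hS
  apply hno
  intro Y X hYX hX
  have hk1 := (mem_Icc.1 hk).1
  have h2 := plus_of ha hk1 (hS 0) hYX (by
    calc a * X ≤ a * (2 * N) := Nat.mul_le_mul_left _ hX
      _ ≤ (3 * a + 1) * N := by
        have : a * (2 * N) = 2 * a * N := by ring
        rw [this]
        exact Nat.mul_le_mul_right _ (by omega))
  refine h2.trans (le_of_eq ?_)
  ring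

lemma minusT_ofQ {a b N A : ℕ} (ha : 1 ≤ a) (hN : 16 ≤ N) (hb : b ≤ N) {y : ℝ} (hy : 1 ≤ y) (hA : 1 ≤ A)
    (hB : ((3 * a + 1 : ℕ) : ℝ) ≤ Real.log N)
    (h : FQ (3 * a + 1) 1 A y N) : MinusT (lr a b) N (2 / Real.log N ^ A) (1 / y * N) := by
  intro g hg
  have ha0 : (0 : ℤ) < a := by exact_mod_cast ha
  have h1 := num_okQ ha hN h hA hB (x := N) (s := fun m => (b : ℤ) - a * m) (by
    intro m hm
    have hm2 : (m : ℤ) ≤ N := by exact_mod_cast (mem_Icc.1 hm).2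
    have hm1 : (0 : ℤ) ≤ m := by positivity
    have hb2 : (b : ℤ) ≤ N := by exact_mod_cast hb
    have hb1 : (0 : ℤ) ≤ b := by positivity
    have hm3 : (a : ℤ) * m ≤ a * N := mul_le_mul_of_nonneg_left hm2 ha0.le
    have hm4 : (0 : ℤ) ≤ a * m := by positivity
    have haN : (0 : ℤ) ≤ a * N := by positivity
    rw [abs_le]
    push_cast
    constructor <;> linarith) (energy_idQ hy (by
      intro m n hmn
      have h2 : (a : ℤ) * m = a * n := by linarith
      exact_mod_cast mul_left_cancel₀ ha0.ne' h2)) (L := 1) (by push_cast; exact hy)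
      (g := fun _ => g) (fun _ => hg)
  refine (num_mono ?_).trans (h1.trans (le_of_eq (by ring)))
  intro k hk hno hS
  apply hno
  intro Y X hYX hX
  have hk2 := (mem_Icc.1 hk).2
  have h2 := minus_of ha (hS 0) hYX (by
    have : X + k ≤ 3 * N := by omega
    calc a * (X + k) ≤ a * (3 * N) := Nat.mul_le_mul_left _ this
      _ = 3 * a * N := by ring
      _ ≤ (3 * a + 1) * N := Nat.mul_le_mul_right _ (by omega))
  refine h2.trans (le_of_eq ?_)
  ring

end Pool.Agent.P8H14.QP.Len
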