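import Pool.Agent.P8H14.QP.D2
import Pool.Agent.TH823.PS.Fin4

set_option autoImplicit false

/-!
# Sums over progressions of positive and negative integers, moving linear factor
-/

open Finset Filter Topology

namespace Pool.Agent.P8H14.QP

open Pool.Agent.TH823.PS
open Pool.Agent.H373R2.T7 (fz exI energy liR liR_norm)
open Pool.Agent.TH823.PS.Len (energy_affine)
open Pool.Agent.P8H14.QP.Len (sav_mul sav_one_le sav_log)

/-- one linear coefficient and one sign -/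
lemma one_sidedQ {A A' p : ℕ} {y : ℝ} {N : ℕ} (hN : 16 ≤ N) (hA' : 1 ≤ A') (hy : 1 ≤ y)
    (hAl : ((3 * A : ℕ) : ℝ) ≤ Real.log N)
    (h : FQ (3 * A) p A' y N) {x : ℕ} {s : ℕ → ℤ} (hs : ∀ m ∈ Icc 1 x, |s m| ≤ A * N)
    (hE : (energy p x s : ℝ) * N ≤ y * (x : ℝ) ^ (2 * p)) {a : ℕ} (ha : 1 ≤ a)
    (haA : a ≤ A * N) (w : ℤ → ℂ) (hw : ∀ n, ‖w n‖ ≤ 1) (bad : ℕ → Prop) [DecidablePred bad]
    (hbad : ∀ m, bad m → ∃ X : ℕ, a * X ≤ A * N ∧ 2 * (N / Real.log N ^ A') < ‖∑ v ∈ Icc (-(X : ℤ)) X, w v *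
      exI liR (a * v + s m)‖) :
    (((Icc 1 x).filter bad).card : ℝ) ≤ x / y := by
  classical
  have hNr : (16 : ℝ) ≤ N := by exact_mod_cast hN
  have hl1 : 1 ≤ Real.log N := by
    rw [Real.le_log_iff_exp_le (by linarith)]
    have := Real.exp_one_lt_d9
    linarith
  set K : ℕ := A * N / a with hK
  have haK : a * K ≤ A * N := Nat.mul_div_le _ _
  have haKz : (a : ℤ) * K ≤ A * N := by exact_mod_cast haK
  have haz : (a : ℤ) ≤ A * N := by exact_mod_cast haA
  have h1 := h x (fun m => 1 * s m + (-(a * (K + 1)) : ℤ)) (by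
      intro m hm
      have h2 := hs m hm
      have h3 : |(-(a * (K + 1)) : ℤ)| = a * K + a := by
        rw [abs_neg, abs_of_nonneg (by positivity)]
        ring
      refine (abs_add_le _ _).trans ?_
      rw [h3, one_mul]
      push_cast
      linarith) (by rw [energy_affine one_ne_zero]; exact hE) 1 (by push_cast; exact hy)
      (fun _ => a) (fun _ j => w ((j : ℤ) - K - 1)) (fun _ => ha) (by
      intro _
      refine (sum_le_sum fun n _ => pow_le_one₀ (norm_nonneg _) (hw _)).trans ?_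
      rw [sum_const, Nat.card_Icc, nsmul_eq_mul, mul_one, Nat.add_sub_cancel]
      calc ((3 * A * N / a : ℕ) : ℝ) ≤ ((3 * A * N : ℕ) : ℝ) := by exact_mod_cast Nat.div_le_self _ _
        _ = N * ((3 * A : ℕ) : ℝ) := by push_cast; ring
        _ ≤ N * Real.log N := by gcongr
        _ ≤ N * Real.log N ^ A' := by
            gcongr
            exact le_self_pow₀ hl1 (by omega))
  refine le_trans ?_ h1
  apply Nat.cast_le.2
  apply card_le_card
  intro m hm
  rw [mem_filter] at hm ⊢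
  refine ⟨hm.1, fun hcon => ?_⟩
  obtain ⟨X, hX, h3⟩ := hbad m hm.2
  have hXK : X ≤ K := (Nat.le_div_iff_mul_le (by omega)).2 (by rw [mul_comm]; exact hX)
  rw [shift_sum (fun v => w v * exI liR (a * v + s m)) hXK] at h3
  have h4 := hcon 0 (K + 1 + X) (by
    calc a * (K + 1 + X) = a * K + a + a * X := by ring
      _ ≤ A * N + A * N + A * N := by omega
      _ = 3 * A * N := by ring)
  have h5 := hcon 0 (K - X) (by
    calc a * (K - X) ≤ a * K := Nat.mul_le_mul_left _ (Nat.sub_le _ _)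
      _ ≤ A * N := haK
      _ ≤ 3 * (A * N) := by omega
      _ = 3 * A * N := by ring)
  have e1 : ∀ j : ℕ, exI liR (a * ((j : ℤ) - K - 1) + s m) =
      exI liR (a * j + (1 * s m + -(a * (K + 1)))) := by
    intro j; congr 1; ring
  simp only [e1] at h3
  have h6 := norm_sub_le (∑ j ∈ Icc 1 (K + 1 + X), w ((j : ℤ) - K - 1) *
    exI liR (a * j + (1 * s m + -(a * (K + 1))))) (∑ j ∈ Icc 1 (K - X), w ((j : ℤ) - K - 1) *
    exI liR (a * j + (1 * s m + -(a * (K + 1)))))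
  linarith

/-- the sums over positive and negative integers at one scale -/
lemma two_sidedQ {A A' p : ℕ} {y : ℝ} {N : ℕ} (hN : 16 ≤ N) (hA' : 1 ≤ A') (hy : 1 ≤ y)
    (hAl : ((3 * A : ℕ) : ℝ) ≤ Real.log N)
    (h : FQ (3 * A) p A' y N) {x : ℕ} {s : ℕ → ℤ} (hs : ∀ m ∈ Icc 1 x, |s m| ≤ A * N)
    (hE : (energy p x s : ℝ) * N ≤ y * (x : ℝ) ^ (2 * p)) {a : ℕ} (ha : 1 ≤ a)
    (haA : a ≤ A * N) (w : ℤ → ℂ) (hw : ∀ n, ‖w n‖ ≤ 1) (bad : ℕ → Prop) [DecidablePred bad]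
    (hbad : ∀ m, bad m → ∃ X : ℕ, a * X ≤ A * N ∧ 4 * (N / Real.log N ^ A') < ‖∑ v ∈ Icc (-(X : ℤ)) X, w v *
      evI liR (a * v + s m)‖) :
    (((Icc 1 x).filter bad).card : ℝ) ≤ 2 * (x / y) := by
  classical
  have h1 := one_sidedQ hN hA' hy hAl h hs hE ha haA w hw (fun m => ∃ X : ℕ, a * X ≤ A * N ∧
    2 * (N / Real.log N ^ A') < ‖∑ v ∈ Icc (-(X : ℤ)) X, w v * exI liR (a * v + s m)‖) (fun m hm => hm)
  have h2 := one_sidedQ hN hA' hy hAl h (s := fun m => (-1) * s m + 0) (by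
      intro m hm
      have := hs m hm
      simpa using this) (by rw [energy_affine (by norm_num)]; exact hE) ha haA (fun v => w (-v)) (fun n => hw _)
      (fun m => ∃ X : ℕ, a * X ≤ A * N ∧ 2 * (N / Real.log N ^ A') <
    ‖∑ v ∈ Icc (-(X : ℤ)) X, w (-v) * exI liR (a * v + ((-1) * s m + 0))‖) (fun m hm => hm)
  have h3 : (Icc 1 x).filter bad ⊆ (Icc 1 x).filter (fun m => ∃ X : ℕ, a * X ≤ A * N ∧ 2 * (N / Real.log N ^ A') <
      ‖∑ v ∈ Icc (-(X : ℤ)) X, w v * exI liR (a * v + s m)‖) ∪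
      (Icc 1 x).filter (fun m => ∃ X : ℕ, a * X ≤ A * N ∧ 2 * (N / Real.log N ^ A') <
      ‖∑ v ∈ Icc (-(X : ℤ)) X, w (-v) * exI liR (a * v + ((-1) * s m + 0))‖) := by
    intro m hm
    rw [mem_filter] at hm
    obtain ⟨X, hX, h4⟩ := hbad m hm.2
    rw [mem_union, mem_filter, mem_filter]
    by_contra hcon
    rw [not_or, not_and, not_and] at hcon
    have h5 := hcon.1 hm.1
    have h6 := hcon.2 hm.1
    push Not at h5 h6
    have h7 := h5 X hX
    have h8 := h6 X hX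
    have e1 : ∑ v ∈ Icc (-(X : ℤ)) X, w (-v) * exI liR (a * v + ((-1) * s m + 0)) =
        ∑ v ∈ Icc (-(X : ℤ)) X, w v * exI liR (-(a * v + s m)) := by
      refine sum_nbij' (fun v => -v) (fun v => -v) ?_ ?_ ?_ ?_ ?_
      · intro v hv; rw [mem_Icc] at hv ⊢; omega
      · intro v hv; rw [mem_Icc] at hv ⊢; omega
      · intro v _; simp
      · intro v _; simp
      · intro v _
        congr 2
        ring
    rw [e1] at h8
    have e2 : ∑ v ∈ Icc (-(X : ℤ)) X, w v * evI liR (a * v + s m) =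
        ∑ v ∈ Icc (-(X : ℤ)) X, w v * exI liR (a * v + s m) +
        ∑ v ∈ Icc (-(X : ℤ)) X, w v * exI liR (-(a * v + s m)) := by
      rw [← sum_add_distrib]
      apply sum_congr rfl
      intro v _
      unfold evI
      ring
    rw [e2] at h4
    have h9 := norm_add_le (∑ v ∈ Icc (-(X : ℤ)) X, w v * exI liR (a * v + s m))
      (∑ v ∈ Icc (-(X : ℤ)) X, w v * exI liR (-(a * v + s m)))
    linarith
  have h4 : (((Icc 1 x).filter bad).card : ℝ) ≤
      (((Icc 1 x).filter (fun m : ℕ => ∃ X : ℕ, a * X ≤ A * N ∧ 2 * (N / Real.log N ^ A') <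
      ‖∑ v ∈ Icc (-(X : ℤ)) X, w v * exI liR (a * v + s m)‖)).card : ℝ) +
      (((Icc 1 x).filter (fun m : ℕ => ∃ X : ℕ, a * X ≤ A * N ∧ 2 * (N / Real.log N ^ A') <
      ‖∑ v ∈ Icc (-(X : ℤ)) X, w (-v) * exI liR (a * v + ((-1) * s m + 0))‖)).card : ℝ) := by
    exact_mod_cast (card_le_card h3).trans (card_union_le _ _)
  linarith

end Pool.Agent.P8H14.QP
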